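import Mathlib

/-!
# Definitions for the existence of an exceptional pair (MP_b57267_co)

`z : Sym2 V → Bool` is a random sign pattern (diagonal entries are dummies),
`chi F z` the character, `pol c z` the multilinear polynomial with coefficients `c`.
-/

set_option autoImplicit false

namespace Pool.Agent.JX

open Finset BigOperators Classical

noncomputable section

/-- sign of a Boolean -/
def sg (b : Bool) : ℝ := if b then 1 else -1

/-- the character of an index set -/
def chi {ι : Type} (F : Finset ι) (z : ι → Bool) : ℝ := ∏ e ∈ F, sg (z e)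

/-- the multilinear polynomial with coefficient function `c` -/
def pol {ι : Type} [Fintype ι] (c : Finset ι → ℝ) (z : ι → Bool) : ℝ :=
  ∑ F : Finset ι, c F * chi F z

/-- `e(x) = exp(2 π i x)` -/
def ee (x : ℝ) : ℂ := Complex.exp (((2 * Real.pi * x : ℝ) : ℂ) * Complex.I)

/-- vertex set of an edge set -/
def vs {V : Type} [Fintype V] [DecidableEq V] (F : Finset (Sym2 V)) : Finset V :=
  univ.filter fun x => ∃ e ∈ F, x ∈ e

/-- image of an edge set under a vertex map -/
def mapE {V W : Type} [DecidableEq W] (f : V → W) (F : Finset (Sym2 V)) : Finset (Sym2 W) :=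
  F.image (Sym2.map f)

/-- connected edge sets (closed subset principle) -/
def Conn {V : Type} [Fintype V] [DecidableEq V] (F : Finset (Sym2 V)) : Prop :=
  F.Nonempty ∧ ∀ A : Finset V, A ⊆ vs F → A.Nonempty →
    (∀ e ∈ F, ∀ x ∈ e, x ∈ A → ∀ y ∈ e, y ∈ A) → A = vs F

/-- connected edge sets without loops, with at most five vertices -/
def Good {V : Type} [Fintype V] [DecidableEq V] (F : Finset (Sym2 V)) : Prop :=
  Conn F ∧ (∀ e ∈ F, ¬ e.IsDiag) ∧ (vs F).card ≤ 5

/-- the coefficients `c_η` -/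
def cf {V : Type} [Fintype V] [DecidableEq V] (η : Finset (Sym2 V) → ℝ) (J : Finset (Sym2 V)) : ℝ :=
  if Good J then ∑ F ∈ univ.filter (fun F => J ⊆ F ∧ vs F = vs J), η F / 2 ^ F.card else 0

/-- the setoid of isomorphism (by permutations of the vertex set) on good edge sets of order at
least three -/
def orbSetoid (n : ℕ) : Setoid {F : Finset (Sym2 (Fin n)) // Good F ∧ 3 ≤ (vs F).card} where
  r F G := ∃ σ : Equiv.Perm (Fin n), mapE σ F.1 = G.1
  iseqv := by
    refine ⟨?_, ?_, ?_⟩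
    · intro F
      refine ⟨1, ?_⟩
      simp [mapE]
    · rintro F G ⟨σ, h⟩
      refine ⟨σ⁻¹, ?_⟩
      rw [← h, mapE, mapE, image_image]
      have : (Sym2.map (σ⁻¹ : Equiv.Perm (Fin n)) ∘ Sym2.map σ : Sym2 (Fin n) → Sym2 (Fin n)) = id := by
        rw [← Sym2.map_comp]
        have h2 : ((σ⁻¹ : Equiv.Perm (Fin n)) ∘ σ : Fin n → Fin n) = id := by
          funext x; simp
        rw [h2, Sym2.map_id]
      rw [this, image_id]
    · rintro F G H ⟨σ, h⟩ ⟨ρ, h'⟩
      refine ⟨ρ * σ, ?_⟩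
      rw [← h', ← h, mapE, mapE, mapE, image_image, ← Sym2.map_comp]
      rfl

/-- orbits of good edge sets of order 3, 4, 5 -/
def Orb (n : ℕ) : Type := Quotient (orbSetoid n)

instance (n : ℕ) : Finite (Orb n) := by
  unfold Orb
  infer_instance

instance (n : ℕ) : Fintype (Orb n) := Fintype.ofFinite _

/-- the orbit of a good edge set -/
def toOrb {n : ℕ} (F : Finset (Sym2 (Fin n))) (h : Good F ∧ 3 ≤ (vs F).card) : Orb n :=
  Quotient.mk (orbSetoid n) ⟨F, h⟩

/-- order (number of vertices) of an orbit: the order of a representative -/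
def Orb.ord {n : ℕ} (T : Orb n) : ℕ := (vs (Quotient.out T).1).card

/-- the function on edge sets belonging to the parameters `(a, η)` -/
def lift {n : ℕ} (a : ℝ) (η : Orb n → ℝ) (F : Finset (Sym2 (Fin n))) : ℝ :=
  if h : Good F ∧ 3 ≤ (vs F).card then η (toOrb F h) else if Good F then a else 0

/-- `Σ_{J ⊆ F, J connected, V(J)=V(F)} χ_J / 2^|F|` -/
def Yf {V : Type} [Fintype V] [DecidableEq V] (F : Finset (Sym2 V)) (z : Sym2 V → Bool) : ℝ :=
  (∑ J ∈ F.powerset.filter (fun J => Good J ∧ vs J = vs F), chi J z) / 2 ^ F.card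

/-- `Y_T = Σ_{F ∈ T} Yf F` -/
def YT {n : ℕ} (T : Orb n) (z : Sym2 (Fin n) → Bool) : ℝ :=
  ∑ F ∈ univ.filter (fun F : Finset (Sym2 (Fin n)) =>
    ∃ h : Good F ∧ 3 ≤ (vs F).card, toOrb F h = T), Yf F z

/-- sum of all signs -/
def T2 {n : ℕ} (z : Sym2 (Fin n) → Bool) : ℝ :=
  ∑ e ∈ univ.filter (fun e : Sym2 (Fin n) => ¬ e.IsDiag), sg (z e)

/-- all targets are met -/
def Hit {n : ℕ} (t : ℕ) (z : Sym2 (Fin n) → Bool) : Prop :=
  T2 z = t ∧ ∀ T : Orb n, YT T z = 0

/-- the modulus -/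
def Mo : ℕ := 2 ^ 11 * Nat.factorial 120

/-- admissible pairs `(n,t)` -/
def Adm (n t : ℕ) : Prop := 5 ≤ n ∧ n * (n - 1) = 2 * t ^ 2 ∧ Mo ∣ (n - 1) ∧ Mo ∣ t

/-- number of the exponents: `L = n^(1/N0)` -/
def N0 : ℕ := 2 ^ 20

/-- `L = n^(1/N0)` -/
def LL (n : ℕ) : ℝ := (n : ℝ) ^ ((1 : ℝ) / N0)

end

end Pool.Agent.JX
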