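import Mathlib
import Pool.Agent.JX.Defs

/-!
# Basic facts on vertex sets, images, connectedness (MP_b57267_co)
-/

set_option autoImplicit false
set_option linter.unusedSectionVars false

namespace Pool.Agent.JX

open Finset BigOperators Classical

noncomputable section

variable {V W : Type} [Fintype V] [DecidableEq V] [Fintype W] [DecidableEq W]

@[simp] lemma mem_vs {F : Finset (Sym2 V)} {x : V} : x ∈ vs F ↔ ∃ e ∈ F, x ∈ e := by
  simp [vs]

lemma vs_mono {F G : Finset (Sym2 V)} (h : F ⊆ G) : vs F ⊆ vs G := by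
  intro x hx
  rw [mem_vs] at hx ⊢
  obtain ⟨e, he, hxe⟩ := hx
  exact ⟨e, h he, hxe⟩

@[simp] lemma vs_empty : vs (∅ : Finset (Sym2 V)) = ∅ := by
  ext x; simp

lemma mem_mapE {f : V → W} {F : Finset (Sym2 V)} {e : Sym2 W} :
    e ∈ mapE f F ↔ ∃ e' ∈ F, Sym2.map f e' = e := by
  simp [mapE]

lemma mapE_mono {f : V → W} {F G : Finset (Sym2 V)} (h : F ⊆ G) : mapE f F ⊆ mapE f G :=
  image_subset_image h

lemma vs_mapE (f : V → W) (F : Finset (Sym2 V)) : vs (mapE f F) = (vs F).image f := by
  ext y
  simp only [mem_vs, mem_mapE, mem_image]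
  constructor
  · rintro ⟨e, ⟨e', he', rfl⟩, hy⟩
    rw [Sym2.mem_map] at hy
    obtain ⟨x, hx, rfl⟩ := hy
    exact ⟨x, ⟨e', he', hx⟩, rfl⟩
  · rintro ⟨x, ⟨e', he', hx⟩, rfl⟩
    exact ⟨Sym2.map f e', ⟨e', he', rfl⟩, Sym2.mem_map.2 ⟨x, hx, rfl⟩⟩

lemma mapE_comp {U : Type} [DecidableEq U] (g : W → U) (f : V → W) (F : Finset (Sym2 V)) :
    mapE g (mapE f F) = mapE (g ∘ f) F := by
  rw [mapE, mapE, mapE, image_image, ← Sym2.map_comp]

lemma mapE_inj {f : V → W} (hf : Function.Injective f) : Function.Injective (mapE f) := by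
  intro F G h
  exact image_injective (Sym2.map.injective hf) h

lemma mem_mapE_iff {f : V → W} (hf : Function.Injective f) {F : Finset (Sym2 V)} {e : Sym2 V} :
    Sym2.map f e ∈ mapE f F ↔ e ∈ F := by
  rw [mem_mapE]
  constructor
  · rintro ⟨e', he', h⟩
    rw [← Sym2.map.injective hf h]; exact he'
  · intro h
    exact ⟨e, h, rfl⟩

lemma card_mapE {f : V → W} (hf : Function.Injective f) (F : Finset (Sym2 V)) :
    (mapE f F).card = F.card := card_image_of_injective _ (Sym2.map.injective hf)

lemma card_vs_mapE {f : V → W} (hf : Function.Injective f) (F : Finset (Sym2 V)) :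
    (vs (mapE f F)).card = (vs F).card := by
  rw [vs_mapE, card_image_of_injective _ hf]

lemma conn_mapE {f : V → W} (hf : Function.Injective f) {F : Finset (Sym2 V)} :
    Conn (mapE f F) ↔ Conn F := by
  constructor
  · rintro ⟨h1, h2⟩
    refine ⟨by simpa [mapE] using h1, ?_⟩
    intro A hA hne hcl
    have := h2 (A.image f) (by rw [vs_mapE]; exact image_subset_image hA) (hne.image f) ?_
    · rw [vs_mapE] at this
      exact image_injective hf this
    · intro e he x hx hxA y hy
      rw [mem_mapE] at he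
      obtain ⟨e', he', rfl⟩ := he
      rw [Sym2.mem_map] at hx hy
      obtain ⟨x', hx', rfl⟩ := hx
      obtain ⟨y', hy', rfl⟩ := hy
      rw [mem_image] at hxA ⊢
      obtain ⟨x'', hx'', hh⟩ := hxA
      have : x'' = x' := hf hh
      subst this
      exact ⟨y', hcl e' he' _ hx' hx'' _ hy', rfl⟩
  · rintro ⟨h1, h2⟩
    refine ⟨by simpa [mapE] using h1, ?_⟩
    intro A hA hne hcl
    have key : (univ.filter (fun x => f x ∈ A)) = vs F := by
      apply h2
      · intro x hx
        rw [mem_filter] at hx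
        have := hA hx.2
        rw [vs_mapE, mem_image] at this
        obtain ⟨x', hx', hh⟩ := this
        rw [← hf hh]; exact hx'
      · obtain ⟨y, hy⟩ := hne
        have := hA hy
        rw [vs_mapE, mem_image] at this
        obtain ⟨x', _, rfl⟩ := this
        exact ⟨x', by simp [hy]⟩
      · intro e he x hx hxA y hy
        rw [mem_filter] at hxA ⊢
        refine ⟨mem_univ _, ?_⟩
        exact hcl (Sym2.map f e) (mem_mapE.2 ⟨e, he, rfl⟩) (f x) (Sym2.mem_map.2 ⟨x, hx, rfl⟩)
          hxA.2 (f y) (Sym2.mem_map.2 ⟨y, hy, rfl⟩)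
    apply Subset.antisymm hA
    rw [vs_mapE, ← key]
    intro y hy
    rw [mem_image] at hy
    obtain ⟨x, hx, rfl⟩ := hy
    rw [mem_filter] at hx
    exact hx.2

lemma isDiag_map {f : V → W} (hf : Function.Injective f) (e : Sym2 V) :
    (Sym2.map f e).IsDiag ↔ e.IsDiag := by
  induction e using Sym2.ind with
  | _ x y => simp [hf.eq_iff]

lemma good_mapE {f : V → W} (hf : Function.Injective f) {F : Finset (Sym2 V)} :
    Good (mapE f F) ↔ Good F := by
  unfold Good
  rw [conn_mapE hf, card_vs_mapE hf]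
  refine and_congr_right fun _ => and_congr_left fun _ => ?_
  constructor
  · intro h e he
    rw [← isDiag_map hf]
    exact h _ (mem_mapE.2 ⟨e, he, rfl⟩)
  · intro h e he
    rw [mem_mapE] at he
    obtain ⟨e', he', rfl⟩ := he
    rw [isDiag_map hf]
    exact h _ he'

/-- an edge set lives on the pairs of its vertex set -/
lemma subset_sym2_vs (F : Finset (Sym2 V)) : F ⊆ (vs F).sym2 := by
  intro e he
  rw [mem_sym2_iff]
  intro x hx
  exact mem_vs.2 ⟨e, he, hx⟩

lemma card_le_of_vs (F : Finset (Sym2 V)) (h : (vs F).card ≤ 5) : F.card ≤ 15 := by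
  have h1 := card_le_card (subset_sym2_vs F)
  rw [card_sym2] at h1
  have h2 : ((vs F).card + 1).choose 2 ≤ (5 + 1).choose 2 :=
    Nat.choose_le_choose 2 (by omega)
  have h3 : (5 + 1).choose 2 = 15 := by decide
  omega

/-- number of edge sets with a given vertex set -/
lemma card_vs_eq (U : Finset V) (h : U.card ≤ 5) :
    (univ.filter (fun F : Finset (Sym2 V) => vs F = U)).card ≤ 2 ^ 15 := by
  have h1 : univ.filter (fun F : Finset (Sym2 V) => vs F = U) ⊆ U.sym2.powerset := by
    intro F hF
    rw [mem_filter] at hF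
    rw [mem_powerset, ← hF.2]
    exact subset_sym2_vs F
  have h2 := card_le_card h1
  rw [card_powerset, card_sym2] at h2
  have h3 : (U.card + 1).choose 2 ≤ (5 + 1).choose 2 := Nat.choose_le_choose 2 (by omega)
  have h4 : (5 + 1).choose 2 = 15 := by decide
  rw [h4] at h3
  exact h2.trans (Nat.pow_le_pow_right (by norm_num) h3)

lemma Good.two_le {F : Finset (Sym2 V)} (h : Good F) : 2 ≤ (vs F).card := by
  obtain ⟨e, he⟩ := h.1.1
  have hd := h.2.1 e he
  induction e using Sym2.ind with
  | _ x y =>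
    have hxy : x ≠ y := by simpa using hd
    have : ({x, y} : Finset V) ⊆ vs F := by
      intro z hz
      rw [mem_insert, mem_singleton] at hz
      rw [mem_vs]
      refine ⟨_, he, ?_⟩
      rcases hz with rfl | rfl <;> simp
    have h2 := card_le_card this
    rw [card_pair hxy] at h2
    exact h2

/-- connectedness is monotone for a fixed vertex set -/
lemma Conn.mono {F G : Finset (Sym2 V)} (h : Conn F) (hFG : F ⊆ G) (hv : vs F = vs G) : Conn G := by
  refine ⟨h.1.mono hFG, ?_⟩
  intro A hA hne hcl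
  rw [← hv]
  exact h.2 A (by rw [hv]; exact hA) hne (fun e he x hx hxA y hy => hcl e (hFG he) x hx hxA y hy)

/-- two embeddings differ by a permutation -/
lemma exists_perm {k : ℕ} (f g : Fin k → V) (hf : Function.Injective f)
    (hg : Function.Injective g) : ∃ σ : Equiv.Perm V, ∀ i, σ (f i) = g i := by
  classical
  let e : {x // x ∈ Set.range f} ≃ {x // x ∈ Set.range g} :=
    (Equiv.ofInjective f hf).symm.trans (Equiv.ofInjective g hg)
  refine ⟨e.extendSubtype, ?_⟩
  intro i
  rw [Equiv.extendSubtype_apply_of_mem _ _ (Set.mem_range_self i)]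
  have h1 : (Equiv.ofInjective f hf).symm ⟨f i, Set.mem_range_self i⟩ = i := by
    rw [Equiv.symm_apply_eq]
    rfl
  simp only [e, Equiv.trans_apply]
  rw [h1]
  rfl

/-! ### signs and characters -/

lemma sg_sq (b : Bool) : sg b * sg b = 1 := by
  cases b <;> simp [sg]

lemma abs_sg (b : Bool) : |sg b| = 1 := by
  cases b <;> simp [sg]

lemma abs_chi {ι : Type} (F : Finset ι) (z : ι → Bool) : |chi F z| = 1 := by
  unfold chi
  rw [abs_prod]
  exact prod_eq_one (fun e _ => abs_sg _)

lemma chi_empty {ι : Type} (z : ι → Bool) : chi (∅ : Finset ι) z = 1 := by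
  simp [chi]

lemma chi_congr {ι : Type} {F : Finset ι} {z z' : ι → Bool} (h : ∀ i ∈ F, z i = z' i) :
    chi F z = chi F z' := by
  unfold chi
  exact prod_congr rfl (fun e he => by rw [h e he])

lemma norm_ee (x : ℝ) : ‖ee x‖ = 1 := by
  unfold ee
  rw [Complex.norm_exp_ofReal_mul_I]

lemma ee_add (x y : ℝ) : ee (x + y) = ee x * ee y := by
  unfold ee
  rw [← Complex.exp_add]
  congr 1
  push_cast
  ring

end

end Pool.Agent.JX
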