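import Mathlib
import Pool.Agent.JX.Defs

/-!
# Module statements for MP_b57267_co (existence of an exceptional pair)
-/

set_option autoImplicit false

namespace Pool.Agent.JX

open Finset BigOperators Classical

noncomputable section

/-- M1a: Parseval -/
def StmtParseval : Prop :=
  ∀ (ι : Type) [Fintype ι] [DecidableEq ι] (c d : Finset ι → ℝ),
    (𝔼 z : ι → Bool, pol c z * pol d z) = ∑ F, c F * d F

/-- M1b: hypercontractive inequality for fourth moments -/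
def StmtHyper : Prop :=
  ∀ (ι : Type) [Fintype ι] [DecidableEq ι] (c : Finset ι → ℝ) (d : ℕ),
    (∀ F, d < F.card → c F = 0) →
    (𝔼 z : ι → Bool, pol c z ^ 4) ≤ 9 ^ d * (∑ F, c F ^ 2) ^ 2

/-- M1c: all moments of order a power of two -/
def StmtMoments : Prop :=
  ∀ (d j : ℕ), ∃ C : ℝ, 0 < C ∧
    ∀ (ι : Type) [Fintype ι] [DecidableEq ι] (c : Finset ι → ℝ),
      (∀ F, d < F.card → c F = 0) →
      (𝔼 z : ι → Bool, pol c z ^ (2 ^ (j + 1))) ≤ C * (∑ F, c F ^ 2) ^ (2 ^ j)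

/-- M2: the central limit lemma -/
def StmtCLT : Prop :=
  ∃ C : ℝ, 0 < C ∧ ∀ n : ℕ, 1 ≤ n → ∀ (c : Finset (Sym2 (Fin n)) → ℝ) (s : ℝ), 0 ≤ s →
    (∀ F, ¬ Good F → c F = 0) →
    (∀ F, |c F| * (Real.sqrt n) ^ (vs F).card ≤ s) →
    ‖(𝔼 z : Sym2 (Fin n) → Bool, ee (pol c z)) -
        ((Real.exp (-(2 * Real.pi ^ 2 * ∑ F, c F ^ 2)) : ℝ) : ℂ)‖
      ≤ C * (s ^ 2 / Real.sqrt n + s ^ 4 / (n : ℝ) ^ 2)

/-- M3: minor arcs -/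
def StmtMinor : Prop :=
  ∀ A : ℕ, ∃ n0 : ℕ, ∀ n : ℕ, n0 ≤ n → ∀ η : Finset (Sym2 (Fin n)) → ℝ,
    (∀ (σ : Equiv.Perm (Fin n)) F, η (mapE σ F) = η F) →
    (∀ F, ¬ Good F → η F = 0) →
    (∀ F, |η F| ≤ 1 / 2) →
    (∃ F, LL n ^ (6 - (vs F).card) < |η F| * (Real.sqrt n) ^ (vs F).card) →
    ‖𝔼 z : Sym2 (Fin n) → Bool, ee (pol (cf η) z)‖ ≤ 1 / (n : ℝ) ^ A

/-- M4: hierarchical integrality -/
def StmtInt : Prop :=
  ∀ (n t : ℕ), Adm n t → ∀ z : Sym2 (Fin n) → Bool,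
    Hit t z ∨ (∃ m : ℤ, m ≠ 0 ∧ (T2 z - t) / 2 = m) ∨
      (∃ (T : Orb n) (m : ℤ), m ≠ 0 ∧ YT T z = m)

/-- M5a: the polynomial is linear in the parameters -/
def StmtLin : Prop :=
  ∀ (n : ℕ) (a : ℝ) (η : Orb n → ℝ) (z : Sym2 (Fin n) → Bool),
    pol (cf (lift a η)) z = a * T2 z / 2 + ∑ T, η T * YT T z

/-- M5a: number of orbits -/
def StmtCard : Prop :=
  ∀ n : ℕ, 5 ≤ n → Fintype.card (Orb n) ≤ 2 ^ 15

/-- M5a: facts on the coefficients -/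
def StmtCoef : Prop :=
  ∀ (n t : ℕ), Adm n t → ∀ (a : ℝ) (η : Orb n → ℝ),
    ((∑ J, cf (lift a η) J ^ 2) = a ^ 2 * (t : ℝ) ^ 2 / 4 + ∑ J, cf (lift 0 η) J ^ 2) ∧
    (∀ B : ℝ, |a| * n ≤ B → (∀ T, |η T| * (Real.sqrt n) ^ T.ord ≤ B) →
      (∀ J, |cf (lift a η) J| * (Real.sqrt n) ^ (vs J).card ≤ 2 ^ 15 * B) ∧
      (∑ J, cf (lift 0 η) J ^ 2) ≤ 2 ^ 60 * B ^ 2) ∧
    (∀ (σ : Equiv.Perm (Fin n)) F, lift a η (mapE σ F) = lift a η F) ∧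
    (∀ T : Orb n, 3 ≤ T.ord ∧ T.ord ≤ 5 ∧ ∃ F, Good F ∧ (vs F).card = T.ord ∧ lift a η F = η T) ∧
    (∃ F, Good F ∧ (vs F).card = 2 ∧ lift a η F = a)

/-- M5b: a good sign pattern exists -/
def StmtHit : Prop :=
  ∃ n0 : ℕ, ∀ n t : ℕ, n0 ≤ n → Adm n t → ∃ z : Sym2 (Fin n) → Bool, Hit t z

/-- M6: Pell equation -/
def StmtPell : Prop := ∀ n0 : ℕ, ∃ n t : ℕ, n0 ≤ n ∧ Adm n t

/-- the graph of a sign pattern -/
def gr {n : ℕ} (z : Sym2 (Fin n) → Bool) : SimpleGraph (Fin n) where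
  Adj i j := i ≠ j ∧ z s(i, j) = true
  symm := ⟨fun i j h => ⟨h.1.symm, by rw [Sym2.eq_swap]; exact h.2⟩⟩
  loopless := ⟨fun i h => h.1 rfl⟩

/-- M7: link to the frozen statement -/
def StmtLink : Prop :=
  ∀ (n t : ℕ), Adm n t → ∀ z : Sym2 (Fin n) → Bool, Hit t z →
    ∀ (k : ℕ) (H : SimpleGraph (Fin k)),
        (((k = 3 ∨ k = 4) ∧ (∀ w : Fin k, ∃ u : Fin k, H.Adj w u)) ∨
          (k = 5 ∧ H.Connected)) →
        (∑ φ : Fin k ↪ Fin n,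
          ∏ i : Fin k, ∏ j : Fin k,
            (if i < j ∧ H.Adj i j then
              ((if (gr z).Adj (φ i) (φ j) then (1 : ℝ) else 0) - (1 / 2 : ℝ))
            else 1)) = 0

end

end Pool.Agent.JX
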