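import Mathlib
import Pool.Agent.JX.Stmts

/-!
# M2, part A: characteristic functions of multilinear polynomials (Stein type identity)
-/

set_option autoImplicit false
set_option linter.unusedSectionVars false

namespace Pool.Agent.JX

open Finset BigOperators Classical

noncomputable section

namespace CLT

/-! ### real inequalities -/

lemma trig_bound_pos {x : ℝ} (hx : 0 ≤ x) : |x * Real.cos x - Real.sin x| ≤ 2 * x ^ 3 := by
  rcases hx.eq_or_lt with h0 | h0
  · rw [← h0]; simp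
  rcases le_or_gt x 1 with h1 | h1
  · have a1 := Real.sin_gt_sub_cube h0
    have a2 := Real.sin_lt h0
    have a3 := Real.one_sub_sq_div_two_le_cos (x := x)
    have a4 := Real.cos_le_one x
    have h3 : 0 < x ^ 3 := by positivity
    rw [abs_le]
    constructor <;> nlinarith
  · have a1 := Real.abs_cos_le_one x
    have a2 := Real.abs_sin_le_one x
    have h2 : 1 ≤ x ^ 2 := by nlinarith
    have h3 : x ≤ x ^ 3 := by nlinarith
    calc |x * Real.cos x - Real.sin x| ≤ |x * Real.cos x| + |Real.sin x| := abs_sub _ _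
      _ ≤ x * 1 + 1 := by
        rw [abs_mul, abs_of_pos h0]
        gcongr
      _ ≤ 2 * x ^ 3 := by linarith

lemma trig_bound (x : ℝ) : |x * Real.cos x - Real.sin x| ≤ 2 * |x| ^ 3 := by
  rcases le_total 0 x with h | h
  · rw [abs_of_nonneg h]; exact trig_bound_pos h
  · have := trig_bound_pos (neg_nonneg.2 h)
    rw [Real.cos_neg, Real.sin_neg] at this
    rw [abs_of_nonpos h]
    refine le_trans (le_of_eq ?_) this
    rw [← abs_neg]
    congr 1
    ring

/-! ### polynomials -/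

section generic

variable {ι : Type} [Fintype ι] [DecidableEq ι]

lemma sg_mul_self (b : Bool) : sg b * sg b = 1 := by cases b <;> simp [sg]

lemma sg_not (b : Bool) : sg (!b) = -sg b := by cases b <;> simp [sg]

lemma abs_sg (b : Bool) : |sg b| = 1 := by cases b <;> simp [sg]

lemma chi_insert {e : ι} {A : Finset ι} (h : e ∉ A) (z : ι → Bool) :
    chi (insert e A) z = sg (z e) * chi A z := by
  unfold chi; rw [prod_insert h]

/-- derivative in the direction of a coordinate -/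
def der (e : ι) (c : Finset ι → ℝ) : Finset ι → ℝ := fun A => if e ∈ A then 0 else c (insert e A)

/-- the part without a coordinate -/
def rem (e : ι) (c : Finset ι → ℝ) : Finset ι → ℝ := fun A => if e ∈ A then 0 else c A

lemma sum_mem (e : ι) (f : Finset ι → ℝ) :
    ∑ F, (if e ∈ F then f F else 0) = ∑ A, (if e ∈ A then 0 else f (insert e A)) := by
  rw [← sum_filter, ← sum_filter_add_sum_filter_not univ (fun A : Finset ι => e ∈ A)
    (fun A => if e ∈ A then 0 else f (insert e A))]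
  have h1 : ∑ A ∈ univ.filter (fun A : Finset ι => e ∈ A),
      (if e ∈ A then 0 else f (insert e A)) = 0 := by
    apply sum_eq_zero
    intro A hA
    rw [if_pos (mem_filter.1 hA).2]
  rw [h1, zero_add]
  refine sum_nbij' (fun F => F.erase e) (fun A => insert e A) ?_ ?_ ?_ ?_ ?_
  · intro F _
    simp
  · intro A _
    simp
  · intro F hF
    exact insert_erase (mem_filter.1 hF).2
  · intro A hA
    exact erase_insert (mem_filter.1 hA).2
  · intro F hF
    have h := (mem_filter.1 hF).2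
    rw [if_neg (notMem_erase e F), insert_erase h]

lemma pol_split (e : ι) (c : Finset ι → ℝ) (z : ι → Bool) :
    pol c z = sg (z e) * pol (der e c) z + pol (rem e c) z := by
  have h1 : pol c z = ∑ F, (if e ∈ F then c F * chi F z else 0) +
      ∑ F, (if e ∈ F then 0 else c F * chi F z) := by
    unfold pol
    rw [← sum_add_distrib]
    apply sum_congr rfl
    intro F _
    split_ifs <;> ring
  rw [h1, sum_mem]
  congr 1
  · unfold pol
    rw [mul_sum]
    apply sum_congr rfl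
    intro A _
    unfold der
    split_ifs with h
    · ring
    · rw [chi_insert h]; ring
  · unfold pol rem
    apply sum_congr rfl
    intro A _
    split_ifs <;> ring

lemma chi_update {e : ι} {A : Finset ι} (h : e ∉ A) (z : ι → Bool) (b : Bool) :
    chi A (Function.update z e b) = chi A z := by
  unfold chi
  apply prod_congr rfl
  intro x hx
  rw [Function.update_of_ne]
  rintro rfl
  exact h hx

lemma pol_update {e : ι} {d : Finset ι → ℝ} (h : ∀ A, e ∈ A → d A = 0) (z : ι → Bool) (b : Bool) :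
    pol d (Function.update z e b) = pol d z := by
  unfold pol
  apply sum_congr rfl
  intro A _
  by_cases hA : e ∈ A
  · rw [h A hA]; ring
  · rw [chi_update hA]

lemma der_mem {e : ι} (c : Finset ι → ℝ) (A : Finset ι) (h : e ∈ A) : der e c A = 0 := by
  unfold der; rw [if_pos h]

lemma rem_mem {e : ι} (c : Finset ι → ℝ) (A : Finset ι) (h : e ∈ A) : rem e c A = 0 := by
  unfold rem; rw [if_pos h]

/-- flip one coordinate -/
def flip (e : ι) (z : ι → Bool) : ι → Bool := Function.update z e (!(z e))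

lemma flip_flip (e : ι) (z : ι → Bool) : flip e (flip e z) = z := by
  unfold flip
  funext x
  by_cases hx : x = e
  · subst hx; simp
  · simp [Function.update_of_ne hx]

lemma sum_flip (e : ι) (f : (ι → Bool) → ℂ) : ∑ z, f (flip e z) = ∑ z, f z :=
  sum_nbij' (flip e) (flip e) (by simp) (by simp) (fun z _ => flip_flip e z)
    (fun z _ => flip_flip e z) (by simp)

lemma key_point (s G x y u : ℝ) (hs : s = 1 ∨ s = -1) (hu0 : 0 ≤ u) (hu1 : u ≤ 1) :
    ‖(((s * G : ℝ) : ℂ) * Complex.I + ((u * (G * x) : ℝ) : ℂ)) *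
        Complex.exp (((u * (s * x + y) : ℝ) : ℂ) * Complex.I) +
      (((-s * G : ℝ) : ℂ) * Complex.I + ((u * (G * x) : ℝ) : ℂ)) *
        Complex.exp (((u * (-s * x + y) : ℝ) : ℂ) * Complex.I)‖ ≤ 2 * (2 * (|G| * |x| ^ 3)) := by
  have h0 : ∀ σ : ℝ, Complex.exp (((u * (σ * x + y) : ℝ) : ℂ) * Complex.I) =
      Complex.exp (((u * y : ℝ) : ℂ) * Complex.I) *
        (((Real.cos (σ * (u * x)) : ℝ) : ℂ) + ((Real.sin (σ * (u * x)) : ℝ) : ℂ) * Complex.I) := by
    intro σ
    rw [Complex.ofReal_cos, Complex.ofReal_sin, ← Complex.exp_mul_I, ← Complex.exp_add]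
    congr 1
    push_cast
    ring
  rw [h0, h0]
  have h1 : Real.cos (s * (u * x)) = Real.cos (u * x) := by
    rcases hs with rfl | rfl
    · rw [one_mul]
    · rw [neg_one_mul, Real.cos_neg]
  have h2 : Real.cos (-s * (u * x)) = Real.cos (u * x) := by
    rcases hs with rfl | rfl
    · rw [neg_one_mul, Real.cos_neg]
    · rw [neg_neg, one_mul]
  have h3 : Real.sin (s * (u * x)) = s * Real.sin (u * x) := by
    rcases hs with rfl | rfl
    · rw [one_mul, one_mul]
    · rw [neg_one_mul, Real.sin_neg, neg_one_mul]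
  have h4 : Real.sin (-s * (u * x)) = -s * Real.sin (u * x) := by
    rcases hs with rfl | rfl
    · rw [neg_one_mul, Real.sin_neg, neg_one_mul]
    · rw [neg_neg, one_mul, one_mul]
  rw [h1, h2, h3, h4]
  have hss : s * s = 1 := by rcases hs with rfl | rfl <;> norm_num
  have hssC : (s : ℂ) * (s : ℂ) = 1 := by exact_mod_cast hss
  have e1 : (((s * G : ℝ) : ℂ) * Complex.I + ((u * (G * x) : ℝ) : ℂ)) *
      (Complex.exp (((u * y : ℝ) : ℂ) * Complex.I) *
        (((Real.cos (u * x) : ℝ) : ℂ) + ((s * Real.sin (u * x) : ℝ) : ℂ) * Complex.I)) +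
      (((-s * G : ℝ) : ℂ) * Complex.I + ((u * (G * x) : ℝ) : ℂ)) *
      (Complex.exp (((u * y : ℝ) : ℂ) * Complex.I) *
        (((Real.cos (u * x) : ℝ) : ℂ) + ((-s * Real.sin (u * x) : ℝ) : ℂ) * Complex.I)) =
      Complex.exp (((u * y : ℝ) : ℂ) * Complex.I) *
        ((2 * (G * ((u * x) * Real.cos (u * x) - Real.sin (u * x))) : ℝ) : ℂ) := by
    push_cast
    linear_combination (Complex.exp ((u : ℂ) * (y : ℂ) * Complex.I)) * (2 * (G : ℂ) *
      Complex.sin ((u : ℂ) * (x : ℂ))) * (s * s * Complex.I_sq - hssC)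
  rw [e1, norm_mul, Complex.norm_exp_ofReal_mul_I, one_mul, Complex.norm_real, Real.norm_eq_abs,
    abs_mul, abs_mul, abs_two]
  have h5 := trig_bound (u * x)
  have h6 : |u * x| ^ 3 ≤ |x| ^ 3 := by
    apply pow_le_pow_left₀ (abs_nonneg _)
    rw [abs_mul, abs_of_nonneg hu0]
    exact mul_le_of_le_one_left (abs_nonneg _) hu1
  have h7 : |G| * |u * x * Real.cos (u * x) - Real.sin (u * x)| ≤ |G| * (2 * |x| ^ 3) :=
    mul_le_mul_of_nonneg_left (h5.trans (by linarith)) (abs_nonneg _)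
  linarith

/-- the contribution of one coordinate -/
lemma key_edge (e : ι) (G Xe Xr X : (ι → Bool) → ℝ)
    (hG : ∀ z b, G (Function.update z e b) = G z)
    (hXe : ∀ z b, Xe (Function.update z e b) = Xe z)
    (hXr : ∀ z b, Xr (Function.update z e b) = Xr z)
    (hX : ∀ z, X z = sg (z e) * Xe z + Xr z) {u : ℝ} (hu0 : 0 ≤ u) (hu1 : u ≤ 1) :
    ‖∑ z, (((sg (z e) * G z : ℝ) : ℂ) * Complex.I + ((u * (G z * Xe z) : ℝ) : ℂ)) *
        Complex.exp (((u * X z : ℝ) : ℂ) * Complex.I)‖ ≤ ∑ z, 2 * (|G z| * |Xe z| ^ 3) := by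
  set Θ : (ι → Bool) → ℂ := fun z =>
    (((sg (z e) * G z : ℝ) : ℂ) * Complex.I + ((u * (G z * Xe z) : ℝ) : ℂ)) *
        Complex.exp (((u * X z : ℝ) : ℂ) * Complex.I) with hΘ
  have h1 : (2 : ℂ) * ∑ z, Θ z = ∑ z, (Θ z + Θ (flip e z)) := by
    rw [sum_add_distrib, sum_flip, two_mul]
  have h2 : ∀ z, ‖Θ z + Θ (flip e z)‖ ≤ 2 * (2 * (|G z| * |Xe z| ^ 3)) := by
    intro z
    simp only [hΘ, hX]
    have a1 : flip e z e = !(z e) := by unfold flip; simp
    have a2 : G (flip e z) = G z := hG z _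
    have a3 : Xe (flip e z) = Xe z := hXe z _
    have a4 : Xr (flip e z) = Xr z := hXr z _
    rw [a1, a2, a3, a4, sg_not]
    apply key_point _ _ _ _ _ _ hu0 hu1
    cases z e <;> simp [sg]
  have h3 : ‖(2 : ℂ) * ∑ z, Θ z‖ ≤ ∑ z, 2 * (2 * (|G z| * |Xe z| ^ 3)) := by
    rw [h1]
    exact (norm_sum_le _ _).trans (sum_le_sum fun z _ => h2 z)
  rw [norm_mul, Complex.norm_ofNat, ← mul_sum] at h3
  linarith

/-- Stein type analysis -/
lemma stein_analysis {Ω : Type} [Fintype Ω] [Nonempty Ω] (X : Ω → ℝ) (σ2 R : ℝ) (hσ : 0 ≤ σ2)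
    (h : ∀ u : ℝ, 0 ≤ u → u ≤ 1 →
      ‖∑ z, (((X z : ℝ) : ℂ) * Complex.I + ((u * σ2 : ℝ) : ℂ)) *
        Complex.exp (((u * X z : ℝ) : ℂ) * Complex.I)‖ ≤ R) :
    ‖(∑ z, Complex.exp (((X z : ℝ) : ℂ) * Complex.I)) -
      ((Fintype.card Ω * Real.exp (-(σ2 / 2)) : ℝ) : ℂ)‖ ≤ R := by
  set ψ : ℝ → ℂ := fun u => (∑ z, Complex.exp (((u * X z : ℝ) : ℂ) * Complex.I)) *
    Complex.exp (((u ^ 2 * σ2 / 2 : ℝ) : ℂ)) with hψ
  set ψ' : ℝ → ℂ := fun u => (∑ z, (((X z : ℝ) : ℂ) * Complex.I + ((u * σ2 : ℝ) : ℂ)) *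
        Complex.exp (((u * X z : ℝ) : ℂ) * Complex.I)) *
    Complex.exp (((u ^ 2 * σ2 / 2 : ℝ) : ℂ)) with hψ'
  have hd : ∀ u : ℝ, HasDerivAt ψ (ψ' u) u := by
    intro u
    have h1 : ∀ z, HasDerivAt (fun u : ℝ => Complex.exp (((u * X z : ℝ) : ℂ) * Complex.I))
        ((((X z : ℝ) : ℂ) * Complex.I) * Complex.exp (((u * X z : ℝ) : ℂ) * Complex.I)) u := by
      intro z
      have a1 : HasDerivAt (fun u : ℝ => (((u * X z : ℝ) : ℂ) * Complex.I))
          (((X z : ℝ) : ℂ) * Complex.I) u := by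
        have a2 : HasDerivAt (fun u : ℝ => u * X z) (X z) u := by
          simpa using (hasDerivAt_id u).mul_const (X z)
        exact (a2.ofReal_comp).mul_const _
      have a3 := a1.cexp
      rw [mul_comm] at a3
      exact a3
    have h2 : HasDerivAt (fun u : ℝ => ∑ z, Complex.exp (((u * X z : ℝ) : ℂ) * Complex.I))
        (∑ z, (((X z : ℝ) : ℂ) * Complex.I) * Complex.exp (((u * X z : ℝ) : ℂ) * Complex.I)) u :=
      HasDerivAt.fun_sum fun z _ => h1 z
    have h3 : HasDerivAt (fun u : ℝ => Complex.exp (((u ^ 2 * σ2 / 2 : ℝ) : ℂ)))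
        (Complex.exp (((u ^ 2 * σ2 / 2 : ℝ) : ℂ)) * ((u * σ2 : ℝ) : ℂ)) u := by
      have a1 : HasDerivAt (fun u : ℝ => u ^ 2 * σ2 / 2) (u * σ2) u := by
        have a2 := (((hasDerivAt_id u).pow 2).mul_const σ2).div_const 2
        have a3 : (2 : ℕ) * id u ^ (2 - 1) * 1 * σ2 / 2 = u * σ2 := by
          simp
          ring
        rw [a3] at a2
        exact a2
      exact (a1.ofReal_comp).cexp
    have h4 := h2.mul h3
    have h5 : (∑ z, (((X z : ℝ) : ℂ) * Complex.I) *
        Complex.exp (((u * X z : ℝ) : ℂ) * Complex.I)) *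
          Complex.exp (((u ^ 2 * σ2 / 2 : ℝ) : ℂ)) +
        (∑ z, Complex.exp (((u * X z : ℝ) : ℂ) * Complex.I)) *
          (Complex.exp (((u ^ 2 * σ2 / 2 : ℝ) : ℂ)) * ((u * σ2 : ℝ) : ℂ)) = ψ' u := by
      simp only [hψ', add_mul, sum_add_distrib, ← mul_sum]
      ring
    rw [h5] at h4
    exact h4
  have hb : ∀ u ∈ Set.Ico (0 : ℝ) 1, ‖ψ' u‖ ≤ R * Real.exp (σ2 / 2) := by
    intro u hu
    simp only [hψ']
    rw [norm_mul, Complex.norm_exp, Complex.ofReal_re]
    have h1 := h u hu.1 hu.2.le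
    have hR : 0 ≤ R := (norm_nonneg _).trans h1
    have h2 : u ^ 2 * σ2 / 2 ≤ σ2 / 2 := by
      have : u ^ 2 ≤ 1 := by
        have := hu.1; have := hu.2; nlinarith
      nlinarith
    have h3 := Real.exp_le_exp.2 h2
    exact mul_le_mul h1 h3 (Real.exp_pos _).le hR
  have hmain := norm_image_sub_le_of_norm_deriv_le_segment_01'
    (fun u _ => (hd u).hasDerivWithinAt) hb
  have e0 : ψ 0 = ((Fintype.card Ω : ℝ) : ℂ) := by
    simp [hψ]
  have e1 : ψ 1 = (∑ z, Complex.exp (((X z : ℝ) : ℂ) * Complex.I)) *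
      ((Real.exp (σ2 / 2) : ℝ) : ℂ) := by
    simp [hψ]
  have hE : 0 < Real.exp (σ2 / 2) := Real.exp_pos _
  have hfac : ψ 1 - ψ 0 = ((∑ z, Complex.exp (((X z : ℝ) : ℂ) * Complex.I)) -
      ((Fintype.card Ω * Real.exp (-(σ2 / 2)) : ℝ) : ℂ)) * ((Real.exp (σ2 / 2) : ℝ) : ℂ) := by
    rw [e0, e1, sub_mul]
    congr 1
    have : Real.exp (-(σ2 / 2)) * Real.exp (σ2 / 2) = 1 := by
      rw [← Real.exp_add]; simp
    rw [← Complex.ofReal_mul, mul_assoc, this, mul_one]
  rw [hfac, norm_mul, Complex.norm_real, Real.norm_eq_abs, abs_of_pos hE] at hmain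
  exact le_of_mul_le_mul_right hmain hE

end generic

end CLT

end

end Pool.Agent.JX
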