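import Mathlib
import Pool.Agent.JX.CLTA

/-!
# M2, part B: the generic central limit lemma
-/

set_option autoImplicit false
set_option linter.unusedSectionVars false

namespace Pool.Agent.JX

open Finset BigOperators Classical

noncomputable section

namespace CLT

section generic

variable {ι : Type} [Fintype ι] [DecidableEq ι]

lemma chi_mul_chi (F G : Finset ι) (z : ι → Bool) :
    chi F z * chi G z = chi (symmDiff F G) z := by
  unfold chi
  have h1 : ∏ e ∈ F, sg (z e) = (∏ e ∈ F \ G, sg (z e)) * ∏ e ∈ F ∩ G, sg (z e) := by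
    rw [← prod_union (by
      rw [disjoint_left]
      intro x hx hx2
      rw [mem_sdiff] at hx
      exact hx.2 (mem_inter.1 hx2).2)]
    rw [sdiff_union_inter]
  have h2 : ∏ e ∈ G, sg (z e) = (∏ e ∈ G \ F, sg (z e)) * ∏ e ∈ F ∩ G, sg (z e) := by
    rw [inter_comm F G, ← prod_union (by
      rw [disjoint_left]
      intro x hx hx2
      rw [mem_sdiff] at hx
      exact hx.2 (mem_inter.1 hx2).2)]
    rw [sdiff_union_inter]
  have h3 : ∏ e ∈ symmDiff F G, sg (z e) =
      (∏ e ∈ F \ G, sg (z e)) * ∏ e ∈ G \ F, sg (z e) := by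
    rw [symmDiff_def, sup_eq_union, prod_union]
    rw [disjoint_left]
    intro x hx hx2
    rw [mem_sdiff] at hx hx2
    exact hx2.2 hx.1
  have h4 : (∏ e ∈ F ∩ G, sg (z e)) * ∏ e ∈ F ∩ G, sg (z e) = 1 := by
    rw [← prod_mul_distrib]
    apply prod_eq_one
    intro e _
    exact sg_mul_self _
  rw [h1, h2, h3]
  linear_combination ((∏ e ∈ F \ G, sg (z e)) * ∏ e ∈ G \ F, sg (z e)) * h4

lemma sg_der (e : ι) (c : Finset ι → ℝ) (z : ι → Bool) :
    sg (z e) * pol (der e c) z = ∑ F, (if e ∈ F then c F * chi F z else 0) := by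
  rw [sum_mem]
  unfold pol
  rw [mul_sum]
  apply sum_congr rfl
  intro A _
  unfold der
  split_ifs with h
  · ring
  · rw [chi_insert h]; ring

/-- coefficients divided by the size -/
def dv (c : Finset ι → ℝ) : Finset ι → ℝ := fun F => c F / F.card

lemma sum_ite_mem (F : Finset ι) (x : ℝ) : ∑ e, (if e ∈ F then x else 0) = F.card * x := by
  rw [← sum_filter, sum_const, nsmul_eq_mul]
  congr 2
  congr 1
  ext e
  simp

lemma sum_sg_der {c : Finset ι → ℝ} (h0 : c ∅ = 0) (z : ι → Bool) :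
    ∑ e, sg (z e) * pol (der e (dv c)) z = pol c z := by
  simp only [sg_der]
  rw [sum_comm]
  unfold pol
  apply sum_congr rfl
  intro F _
  rw [sum_ite_mem]
  unfold dv
  rcases F.eq_empty_or_nonempty with rfl | hF
  · rw [h0]; simp
  · have : (F.card : ℝ) ≠ 0 := by exact_mod_cast (card_pos.2 hF).ne'
    field_simp

/-- coefficients of the carre du champ -/
def gam (c : Finset ι → ℝ) (D : Finset ι) : ℝ :=
  ∑ F, ((F ∩ symmDiff F D).card : ℝ) * (dv c F * c (symmDiff F D))

lemma sum_symmDiff (F : Finset ι) (f : Finset ι → ℝ) : ∑ G, f G = ∑ D, f (symmDiff F D) :=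
  sum_nbij' (symmDiff F) (symmDiff F) (by simp) (by simp)
    (fun G _ => symmDiff_symmDiff_cancel_left F G) (fun G _ => symmDiff_symmDiff_cancel_left F G)
    (fun G _ => by rw [symmDiff_symmDiff_cancel_left])

lemma gamma_eq (c : Finset ι → ℝ) (z : ι → Bool) :
    ∑ e, pol (der e (dv c)) z * pol (der e c) z = pol (gam c) z := by
  have h1 : ∀ e, pol (der e (dv c)) z * pol (der e c) z =
      (∑ F, (if e ∈ F then dv c F * chi F z else 0)) *
        (∑ G, (if e ∈ G then c G * chi G z else 0)) := by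
    intro e
    rw [← sg_der, ← sg_der]
    have := sg_mul_self (z e)
    linear_combination (-(pol (der e (dv c)) z * pol (der e c) z)) * this
  simp only [h1, sum_mul_sum]
  have h2 : ∀ e F G, (if e ∈ F then dv c F * chi F z else 0) * (if e ∈ G then c G * chi G z else 0) =
      if e ∈ F ∩ G then dv c F * c G * chi (symmDiff F G) z else 0 := by
    intro e F G
    rw [← chi_mul_chi]
    by_cases hF : e ∈ F
    · by_cases hG : e ∈ G
      · simp only [hF, hG, if_true, mem_inter, and_self]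
        ring
      · simp [hG]
    · simp [hF]
  simp only [h2]
  have h3 : ∑ e, ∑ F, ∑ G, (if e ∈ F ∩ G then dv c F * c G * chi (symmDiff F G) z else 0) =
      ∑ F, ∑ G, ((F ∩ G).card : ℝ) * (dv c F * c G * chi (symmDiff F G) z) := by
    rw [sum_comm]
    apply sum_congr rfl
    intro F _
    rw [sum_comm]
    apply sum_congr rfl
    intro G _
    rw [sum_ite_mem]
  rw [h3]
  have h4 : ∀ F : Finset ι, ∑ G, ((F ∩ G).card : ℝ) * (dv c F * c G * chi (symmDiff F G) z) =
      ∑ D, ((F ∩ symmDiff F D).card : ℝ) * (dv c F * c (symmDiff F D) * chi D z) := by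
    intro F
    rw [sum_symmDiff F]
    apply sum_congr rfl
    intro D _
    rw [symmDiff_symmDiff_cancel_left]
  simp only [h4]
  rw [sum_comm]
  unfold pol gam
  apply sum_congr rfl
  intro D _
  rw [sum_mul]
  apply sum_congr rfl
  intro F _
  ring

lemma gam_empty {c : Finset ι → ℝ} (h0 : c ∅ = 0) : gam c ∅ = ∑ F, c F ^ 2 := by
  unfold gam
  apply sum_congr rfl
  intro F _
  have h1 : symmDiff F ∅ = F := symmDiff_bot F
  rw [h1, inter_self]
  unfold dv
  rcases F.eq_empty_or_nonempty with rfl | hF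
  · rw [h0]; simp
  · have : (F.card : ℝ) ≠ 0 := by exact_mod_cast (card_pos.2 hF).ne'
    field_simp

lemma pol_sub_const (g : Finset ι → ℝ) (z : ι → Bool) :
    pol (fun D => if D = ∅ then 0 else g D) z = pol g z - g ∅ := by
  unfold pol
  rw [eq_sub_iff_add_eq, ← sum_erase_add _ _ (mem_univ (∅ : Finset ι)),
    ← sum_erase_add (a := (∅ : Finset ι)) _ _ (mem_univ _)]
  simp only [if_true, zero_mul, add_zero]
  have h1 : chi (∅ : Finset ι) z = 1 := by simp [chi]
  rw [h1, mul_one]
  congr 1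
  apply sum_congr rfl
  intro F hF
  rw [if_neg (mem_erase.1 hF).1]

lemma abs_mul_cube_le (a b : ℝ) : |a| * |b| ^ 3 ≤ a ^ 4 + b ^ 4 := by
  have ha := abs_nonneg a
  have hb := abs_nonneg b
  have e1 : a ^ 4 = |a| ^ 4 := by rw [← abs_pow, abs_of_nonneg (by positivity)]
  have e2 : b ^ 4 = |b| ^ 4 := by rw [← abs_pow, abs_of_nonneg (by positivity)]
  rw [e1, e2]
  rcases le_total |a| |b| with h | h
  · calc |a| * |b| ^ 3 ≤ |b| * |b| ^ 3 := by gcongr
      _ = |b| ^ 4 := by ring
      _ ≤ |a| ^ 4 + |b| ^ 4 := by have : 0 ≤ |a| ^ 4 := by positivity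
                                  linarith
  · calc |a| * |b| ^ 3 ≤ |a| * |a| ^ 3 := by gcongr
      _ = |a| ^ 4 := by ring
      _ ≤ |a| ^ 4 + |b| ^ 4 := by have : 0 ≤ |b| ^ 4 := by positivity
                                  linarith

/-- bound of the sum of the fourth moments -/
lemma sum_pow4_le (h2 : StmtHyper) (c : Finset ι → ℝ) (d : ℕ) (hd : ∀ F, d < F.card → c F = 0) :
    ∑ z : ι → Bool, pol c z ^ 4 ≤ Fintype.card (ι → Bool) * (9 ^ d * (∑ F, c F ^ 2) ^ 2) := by
  have h := h2 ι c d hd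
  rw [Fintype.expect_eq_sum_div_card, div_le_iff₀ (by exact_mod_cast Fintype.card_pos)] at h
  linarith

/-- bound of the sum of the absolute values -/
lemma sum_abs_le (h1 : StmtParseval) (c : Finset ι → ℝ) :
    ∑ z : ι → Bool, |pol c z| ≤ Fintype.card (ι → Bool) * √(∑ F, c F ^ 2) := by
  have hN : (0 : ℝ) < Fintype.card (ι → Bool) := by exact_mod_cast Fintype.card_pos
  have h := h1 ι c c
  rw [Fintype.expect_eq_sum_div_card, div_eq_iff hN.ne'] at h
  have h3 : (∑ z : ι → Bool, |pol c z|) ^ 2 ≤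
      Fintype.card (ι → Bool) * ∑ z : ι → Bool, |pol c z| ^ 2 := by
    have := sq_sum_le_card_mul_sum_sq (s := (univ : Finset (ι → Bool))) (f := fun z => |pol c z|)
    simpa using this
  have h4 : ∑ z : ι → Bool, |pol c z| ^ 2 = (∑ F, c F ^ 2) * Fintype.card (ι → Bool) := by
    have e1 : ∀ z : ι → Bool, |pol c z| ^ 2 = pol c z * pol c z := by
      intro z; rw [sq_abs]; ring
    simp only [e1]
    rw [h]
    congr 1
    apply sum_congr rfl
    intro F _
    ring
  rw [h4] at h3
  have h5 : (∑ z : ι → Bool, |pol c z|) ^ 2 ≤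
      (Fintype.card (ι → Bool) * √(∑ F, c F ^ 2)) ^ 2 := by
    rw [mul_pow, Real.sq_sqrt (sum_nonneg fun F _ => sq_nonneg _)]
    linarith
  exact le_of_sq_le_sq h5 (by positivity)

lemma der_sq_sum (e : ι) (c : Finset ι → ℝ) :
    ∑ A, der e c A ^ 2 = ∑ F, (if e ∈ F then c F ^ 2 else 0) := by
  rw [sum_mem]
  apply sum_congr rfl
  intro A _
  unfold der
  split_ifs <;> simp

lemma dv_sq_le (c : Finset ι → ℝ) (F : Finset ι) : dv c F ^ 2 ≤ c F ^ 2 := by
  unfold dv
  rcases F.eq_empty_or_nonempty with rfl | hF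
  · simp; positivity
  · have : (1 : ℝ) ≤ (F.card : ℝ) := by exact_mod_cast card_pos.2 hF
    rw [div_pow]
    apply div_le_self (sq_nonneg _)
    nlinarith

lemma der_card {e : ι} {c : Finset ι → ℝ} {d : ℕ} (hd : ∀ F, d + 1 < F.card → c F = 0)
    (A : Finset ι) (hA : d < A.card) : der e c A = 0 := by
  unfold der
  split_ifs with h
  · rfl
  · apply hd
    rw [card_insert_of_notMem h]
    omega

/-- the generic central limit lemma -/
theorem generic_clt (h1 : StmtParseval) (h2 : StmtHyper) (c : Finset ι → ℝ) (d : ℕ)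
    (hd : ∀ F, d + 1 < F.card → c F = 0) (h0 : c ∅ = 0) :
    ‖(𝔼 z : ι → Bool, ee (pol c z)) -
        ((Real.exp (-(2 * Real.pi ^ 2 * ∑ F, c F ^ 2)) : ℝ) : ℂ)‖ ≤
      4 * (2 * Real.pi) ^ 4 * 9 ^ d * ∑ e, (∑ F, (if e ∈ F then c F ^ 2 else 0)) ^ 2 +
      (2 * Real.pi) ^ 2 * √(∑ D, (if D = ∅ then 0 else gam c D) ^ 2) := by
  set N : ℝ := ((Fintype.card (ι → Bool) : ℕ) : ℝ) with hN
  have hNpos : 0 < N := by rw [hN]; exact_mod_cast Fintype.card_pos
  set p : ℝ := 2 * Real.pi with hp
  have hp0 : 0 < p := by rw [hp]; positivity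
  set S2 : ℝ := ∑ F, c F ^ 2 with hS2
  have hS2nn : 0 ≤ S2 := sum_nonneg fun F _ => sq_nonneg _
  set R : ℝ := N * (4 * p ^ 4 * 9 ^ d * ∑ e, (∑ F, (if e ∈ F then c F ^ 2 else 0)) ^ 2 +
      p ^ 2 * √(∑ D, (if D = ∅ then 0 else gam c D) ^ 2)) with hR
  have key := stein_analysis (fun z : ι → Bool => p * pol c z) (p ^ 2 * S2) R (by positivity) ?_
  · -- conclusion
    have e1 : (𝔼 z : ι → Bool, ee (pol c z)) =
        (∑ z : ι → Bool, Complex.exp (((p * pol c z : ℝ) : ℂ) * Complex.I)) / (N : ℂ) := by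
      rw [Fintype.expect_eq_sum_div_card, hN, Complex.ofReal_natCast]
      rfl
    have e2 : p ^ 2 * S2 / 2 = 2 * Real.pi ^ 2 * S2 := by rw [hp]; ring
    rw [e1]
    rw [e2, ← hN] at key
    have hNC : (N : ℂ) ≠ 0 := by exact_mod_cast hNpos.ne'
    have e3 : (∑ z : ι → Bool, Complex.exp (((p * pol c z : ℝ) : ℂ) * Complex.I)) / (N : ℂ) -
        ((Real.exp (-(2 * Real.pi ^ 2 * S2)) : ℝ) : ℂ) =
        ((∑ z : ι → Bool, Complex.exp (((p * pol c z : ℝ) : ℂ) * Complex.I)) -
          ((N * Real.exp (-(2 * Real.pi ^ 2 * S2)) : ℝ) : ℂ)) / (N : ℂ) := by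
      rw [sub_div, Complex.ofReal_mul, mul_div_cancel_left₀ _ hNC]
    rw [e3, norm_div, Complex.norm_real, Real.norm_eq_abs, abs_of_pos hNpos,
      div_le_iff₀ hNpos]
    refine key.trans (le_of_eq ?_)
    rw [hR]; ring
  · intro u hu0 hu1
    -- decomposition
    set E : (ι → Bool) → ℂ := fun z => Complex.exp (((u * (p * pol c z) : ℝ) : ℂ) * Complex.I)
      with hE
    have hEn : ∀ z, ‖E z‖ = 1 := fun z => Complex.norm_exp_ofReal_mul_I _
    have hdec : ∑ z, (((p * pol c z : ℝ) : ℂ) * Complex.I + ((u * (p ^ 2 * S2) : ℝ) : ℂ)) * E z =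
        ∑ e, ∑ z, (((sg (z e) * (p * pol (der e (dv c)) z) : ℝ) : ℂ) * Complex.I +
          ((u * ((p * pol (der e (dv c)) z) * (p * pol (der e c) z)) : ℝ) : ℂ)) * E z -
        ∑ z, ((u * p ^ 2 * pol (fun D => if D = ∅ then 0 else gam c D) z : ℝ) : ℂ) * E z := by
      rw [sum_comm, ← sum_sub_distrib]
      apply sum_congr rfl
      intro z _
      rw [← sum_mul, ← sub_mul]
      congr 1
      rw [sum_add_distrib, ← sum_mul, pol_sub_const, gam_empty h0, ← gamma_eq]
      have a1 : ∑ e, ((sg (z e) * (p * pol (der e (dv c)) z) : ℝ) : ℂ) =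
          ((p * pol c z : ℝ) : ℂ) := by
        rw [← sum_sg_der h0 z, ← Complex.ofReal_sum, mul_sum]
        congr 1
        apply sum_congr rfl
        intro e _
        ring
      have a2 : ∑ e, ((u * ((p * pol (der e (dv c)) z) * (p * pol (der e c) z)) : ℝ) : ℂ) =
          ((u * p ^ 2 * ∑ e, pol (der e (dv c)) z * pol (der e c) z : ℝ) : ℂ) := by
        rw [← Complex.ofReal_sum, mul_sum]
        congr 1
        apply sum_congr rfl
        intro e _
        ring
      rw [a1, a2, ← hS2]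
      push_cast
      ring
    change ‖∑ z, (((p * pol c z : ℝ) : ℂ) * Complex.I + ((u * (p ^ 2 * S2) : ℝ) : ℂ)) * E z‖ ≤ R
    rw [hdec]
    refine (norm_sub_le _ _).trans ?_
    rw [hR, mul_add]
    apply add_le_add
    · refine (norm_sum_le _ _).trans ?_
      rw [mul_sum, mul_sum]
      apply sum_le_sum
      intro e _
      have hke := key_edge e (fun z => p * pol (der e (dv c)) z) (fun z => p * pol (der e c) z)
        (fun z => p * pol (rem e c) z) (fun z => p * pol c z)
        (fun z b => by simp only [pol_update (der_mem (e := e) (dv c))])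
        (fun z b => by simp only [pol_update (der_mem (e := e) c)])
        (fun z b => by simp only [pol_update (rem_mem (e := e) c)])
        (fun z => by rw [pol_split e c z]; ring) hu0 hu1
      refine hke.trans ?_
      have b1 : ∑ z : ι → Bool, 2 * (|p * pol (der e (dv c)) z| * |p * pol (der e c) z| ^ 3) ≤
          2 * p ^ 4 * (∑ z : ι → Bool, pol (der e (dv c)) z ^ 4 +
            ∑ z : ι → Bool, pol (der e c) z ^ 4) := by
        rw [← sum_add_distrib, mul_sum]
        apply sum_le_sum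
        intro z _
        have := abs_mul_cube_le (p * pol (der e (dv c)) z) (p * pol (der e c) z)
        rw [mul_pow, mul_pow] at this
        linarith
      refine b1.trans ?_
      have b2 := sum_pow4_le h2 (der e (dv c)) d (fun A hA => by
        apply der_card _ A hA
        intro F hF
        unfold dv
        rw [hd F hF, zero_div])
      have b3 := sum_pow4_le h2 (der e c) d (fun A hA => der_card hd A hA)
      rw [der_sq_sum] at b2 b3
      have b4 : (∑ F, (if e ∈ F then dv c F ^ 2 else 0)) ≤ ∑ F, (if e ∈ F then c F ^ 2 else 0) := by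
        apply sum_le_sum
        intro F _
        split_ifs
        · exact dv_sq_le c F
        · exact le_rfl
      have b5 : 0 ≤ (∑ F, (if e ∈ F then dv c F ^ 2 else 0)) := by
        apply sum_nonneg
        intro F _
        split_ifs
        · positivity
        · exact le_rfl
      have b6 : (∑ F, (if e ∈ F then dv c F ^ 2 else 0)) ^ 2 ≤
          (∑ F, (if e ∈ F then c F ^ 2 else 0)) ^ 2 := pow_le_pow_left₀ b5 b4 2
      rw [← hN] at b2 b3
      have b7 : ∑ z : ι → Bool, pol (der e (dv c)) z ^ 4 ≤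
          N * (9 ^ d * (∑ F, (if e ∈ F then c F ^ 2 else 0)) ^ 2) := by
        refine b2.trans ?_
        gcongr
      have b8 : 0 ≤ 2 * p ^ 4 := by positivity
      calc 2 * p ^ 4 * (∑ z : ι → Bool, pol (der e (dv c)) z ^ 4 +
            ∑ z : ι → Bool, pol (der e c) z ^ 4) ≤
          2 * p ^ 4 * (N * (9 ^ d * (∑ F, (if e ∈ F then c F ^ 2 else 0)) ^ 2) +
            N * (9 ^ d * (∑ F, (if e ∈ F then c F ^ 2 else 0)) ^ 2)) := by
            apply mul_le_mul_of_nonneg_left _ b8
            exact add_le_add b7 b3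
        _ = N * (4 * p ^ 4 * 9 ^ d * (∑ F, (if e ∈ F then c F ^ 2 else 0)) ^ 2) := by ring
    · refine (norm_sum_le _ _).trans ?_
      have c1 := sum_abs_le h1 (fun D => if D = ∅ then 0 else gam c D)
      rw [← hN] at c1
      have c2 : ∀ z, ‖((u * p ^ 2 * pol (fun D => if D = ∅ then 0 else gam c D) z : ℝ) : ℂ) * E z‖ ≤
          p ^ 2 * |pol (fun D => if D = ∅ then 0 else gam c D) z| := by
        intro z
        rw [norm_mul, hEn, mul_one, Complex.norm_real, Real.norm_eq_abs, abs_mul,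
          abs_of_nonneg (by positivity : 0 ≤ u * p ^ 2)]
        apply mul_le_mul_of_nonneg_right _ (abs_nonneg _)
        have : 0 ≤ p ^ 2 := by positivity
        nlinarith
      refine (sum_le_sum fun z _ => c2 z).trans ?_
      rw [← mul_sum]
      calc p ^ 2 * ∑ z : ι → Bool, |pol (fun D => if D = ∅ then 0 else gam c D) z| ≤
          p ^ 2 * (N * √(∑ D, (if D = ∅ then 0 else gam c D) ^ 2)) := by
            apply mul_le_mul_of_nonneg_left c1 (by positivity)
        _ = _ := by ring

end generic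

end CLT

end

end Pool.Agent.JX
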