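import Mathlib
import Pool.Agent.JX.CLTB

/-!
# M2, part C: counting and the central limit lemma
-/

set_option autoImplicit false
set_option linter.unusedSectionVars false

namespace Pool.Agent.JX

open Finset BigOperators Classical

noncomputable section

namespace CLT

variable {n : ℕ}

lemma mem_vs {F : Finset (Sym2 (Fin n))} {x : Fin n} : x ∈ vs F ↔ ∃ e ∈ F, x ∈ e := by simp [vs]

lemma vs_mono {F G : Finset (Sym2 (Fin n))} (h : F ⊆ G) : vs F ⊆ vs G := by
  intro x hx
  obtain ⟨e, he, hxe⟩ := mem_vs.1 hx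
  exact mem_vs.2 ⟨e, h he, hxe⟩

lemma vs_symmDiff (F G : Finset (Sym2 (Fin n))) : vs (symmDiff F G) ⊆ vs F ∪ vs G := by
  intro x hx
  obtain ⟨e, he, hxe⟩ := mem_vs.1 hx
  rw [mem_union]
  rcases mem_symmDiff.1 he with h | h
  · exact Or.inl (mem_vs.2 ⟨e, h.1, hxe⟩)
  · exact Or.inr (mem_vs.2 ⟨e, h.1, hxe⟩)

lemma subset_sym2 (F : Finset (Sym2 (Fin n))) : F ⊆ (vs F).sym2 := by
  intro e he
  rw [mem_sym2_iff]
  intro x hx
  exact mem_vs.2 ⟨e, he, hx⟩

lemma choose_le (k : ℕ) : (k + 1).choose 2 ≤ k * k := by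
  rw [Nat.choose_two_right, Nat.add_sub_cancel]
  apply Nat.div_le_of_le_mul
  rcases Nat.eq_zero_or_pos k with rfl | h
  · simp
  · nlinarith

lemma count_sets (U : Finset (Fin n)) {K : ℕ} (hU : U.card ≤ K) :
    (univ.filter fun F : Finset (Sym2 (Fin n)) => vs F ⊆ U).card ≤ 2 ^ (K * K) := by
  have h1 : (univ.filter fun F : Finset (Sym2 (Fin n)) => vs F ⊆ U) ⊆ U.sym2.powerset := by
    intro F hF
    rw [mem_powerset]
    refine (subset_sym2 F).trans ?_
    exact sym2_mono (mem_filter.1 hF).2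
  refine (card_le_card h1).trans ?_
  rw [card_powerset, card_sym2]
  apply Nat.pow_le_pow_right (by norm_num)
  exact (choose_le _).trans (Nat.mul_le_mul hU hU)

lemma sum_U (hn : 1 ≤ n) (K : ℕ) :
    ∑ U ∈ univ.filter (fun U : Finset (Fin n) => U.card ≤ K), 1 / (n : ℝ) ^ U.card ≤ K + 1 := by
  have hn' : (0 : ℝ) < n := by exact_mod_cast hn
  rw [sum_filter]
  have h1 := sum_powerset_apply_card (fun m => if m ≤ K then 1 / (n : ℝ) ^ m else 0)
    (x := (univ : Finset (Fin n)))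
  rw [powerset_univ] at h1
  rw [h1, card_univ, Fintype.card_fin]
  have h2 : ∀ m ∈ range (n + 1), n.choose m • (if m ≤ K then 1 / (n : ℝ) ^ m else 0) ≤
      if m ≤ K then 1 else 0 := by
    intro m _
    split_ifs
    · rw [nsmul_eq_mul, mul_one_div, div_le_one (by positivity)]
      exact_mod_cast Nat.choose_le_pow n m
    · simp
  refine (sum_le_sum h2).trans ?_
  rw [← sum_filter, sum_const, nsmul_eq_mul, mul_one]
  have h3 : (range (n + 1)).filter (fun m => m ≤ K) ⊆ range (K + 1) := by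
    intro m hm
    have := (mem_filter.1 hm).2
    rw [mem_range]
    omega
  have h4 := card_le_card h3
  rw [card_range] at h4
  exact_mod_cast h4

/-- the counting lemma for triples of edge sets -/
lemma triple (K : ℕ) : ∃ B : ℝ, 0 < B ∧ ∀ n : ℕ, 1 ≤ n →
    ∀ (f : Finset (Sym2 (Fin n)) → Finset (Sym2 (Fin n)) → Finset (Sym2 (Fin n)) → ℝ) (M : ℝ),
      0 ≤ M →
      (∀ A1 A2 A3, f A1 A2 A3 ≠ 0 → (vs A1 ∪ vs A2 ∪ vs A3).card ≤ K) →
      (∀ A1 A2 A3, f A1 A2 A3 ≤ M / (n : ℝ) ^ (vs A1 ∪ vs A2 ∪ vs A3).card) →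
      ∑ A1, ∑ A2, ∑ A3, f A1 A2 A3 ≤ B * M := by
  refine ⟨(2 ^ (K * K)) ^ 3 * (K + 1), by positivity, ?_⟩
  intro n hn f M hM hK hf
  have hn' : (0 : ℝ) < n := by exact_mod_cast hn
  set T : Finset (Finset (Fin n)) := univ.filter (fun U : Finset (Fin n) => U.card ≤ K) with hT
  have h1 : ∀ A1 A2 A3, f A1 A2 A3 ≤ ∑ U ∈ T, (M * (1 / (n : ℝ) ^ U.card)) *
      ((if vs A1 ⊆ U then 1 else 0) * ((if vs A2 ⊆ U then 1 else 0) *
        (if vs A3 ⊆ U then 1 else 0))) := by
    intro A1 A2 A3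
    by_cases h0 : f A1 A2 A3 = 0
    · rw [h0]
      apply sum_nonneg
      intro U _
      positivity
    · have hU : vs A1 ∪ vs A2 ∪ vs A3 ∈ T := by
        rw [hT, mem_filter]
        exact ⟨mem_univ _, hK _ _ _ h0⟩
      refine le_trans ?_ (single_le_sum (fun U _ => by positivity) hU)
      rw [if_pos (by intro x hx; simp [hx]), if_pos (by intro x hx; simp [hx]),
        if_pos (by intro x hx; simp [hx])]
      rw [mul_one, mul_one, mul_one, mul_one_div]
      exact hf A1 A2 A3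
  have h2 : ∑ A1, ∑ A2, ∑ A3, f A1 A2 A3 ≤ ∑ A1, ∑ A2, ∑ A3, ∑ U ∈ T, (M * (1 / (n : ℝ) ^ U.card)) *
      (((if vs A1 ⊆ U then 1 else 0) : ℝ) * ((if vs A2 ⊆ U then 1 else 0) *
        (if vs A3 ⊆ U then 1 else 0))) :=
    sum_le_sum fun A1 _ => sum_le_sum fun A2 _ => sum_le_sum fun A3 _ => h1 A1 A2 A3
  refine h2.trans ?_
  have h3 : ∑ A1 : Finset (Sym2 (Fin n)), ∑ A2 : Finset (Sym2 (Fin n)),
      ∑ A3 : Finset (Sym2 (Fin n)), ∑ U ∈ T, (M * (1 / (n : ℝ) ^ U.card)) *
      (((if vs A1 ⊆ U then 1 else 0) : ℝ) * ((if vs A2 ⊆ U then 1 else 0) *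
        (if vs A3 ⊆ U then 1 else 0))) =
      ∑ U ∈ T, (M * (1 / (n : ℝ) ^ U.card)) *
        (((univ.filter fun F : Finset (Sym2 (Fin n)) => vs F ⊆ U).card : ℕ) : ℝ) ^ 3 := by
    have e1 : ∀ U : Finset (Fin n), (((univ.filter fun F : Finset (Sym2 (Fin n)) =>
        vs F ⊆ U).card : ℕ) : ℝ) = ∑ A : Finset (Sym2 (Fin n)), (if vs A ⊆ U then (1 : ℝ) else 0) := by
      intro U
      rw [sum_boole]
    calc _ = ∑ A1 : Finset (Sym2 (Fin n)), ∑ A2 : Finset (Sym2 (Fin n)), ∑ U ∈ T,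
          ∑ A3 : Finset (Sym2 (Fin n)), (M * (1 / (n : ℝ) ^ U.card)) *
      (((if vs A1 ⊆ U then 1 else 0) : ℝ) * ((if vs A2 ⊆ U then 1 else 0) *
        (if vs A3 ⊆ U then 1 else 0))) := by
          apply sum_congr rfl; intro A1 _
          apply sum_congr rfl; intro A2 _
          rw [sum_comm]
      _ = ∑ A1 : Finset (Sym2 (Fin n)), ∑ U ∈ T, ∑ A2 : Finset (Sym2 (Fin n)),
          ∑ A3 : Finset (Sym2 (Fin n)), (M * (1 / (n : ℝ) ^ U.card)) *
      (((if vs A1 ⊆ U then 1 else 0) : ℝ) * ((if vs A2 ⊆ U then 1 else 0) *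
        (if vs A3 ⊆ U then 1 else 0))) := by
          apply sum_congr rfl; intro A1 _
          rw [sum_comm]
      _ = ∑ U ∈ T, ∑ A1 : Finset (Sym2 (Fin n)), ∑ A2 : Finset (Sym2 (Fin n)),
          ∑ A3 : Finset (Sym2 (Fin n)), (M * (1 / (n : ℝ) ^ U.card)) *
      (((if vs A1 ⊆ U then 1 else 0) : ℝ) * ((if vs A2 ⊆ U then 1 else 0) *
        (if vs A3 ⊆ U then 1 else 0))) := by
          rw [sum_comm]
      _ = _ := by
          apply sum_congr rfl
          intro U _
          rw [e1]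
          simp only [← mul_sum, ← sum_mul]
          ring
  rw [h3]
  have h4 : ∀ U ∈ T, (M * (1 / (n : ℝ) ^ U.card)) *
        (((univ.filter fun F : Finset (Sym2 (Fin n)) => vs F ⊆ U).card : ℕ) : ℝ) ^ 3 ≤
      (M * (2 ^ (K * K)) ^ 3) * (1 / (n : ℝ) ^ U.card) := by
    intro U hU
    have hU' : U.card ≤ K := (mem_filter.1 hU).2
    have e2 : (((univ.filter fun F : Finset (Sym2 (Fin n)) => vs F ⊆ U).card : ℕ) : ℝ) ≤
        2 ^ (K * K) := by
      exact_mod_cast count_sets U hU'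
    have e3 : (((univ.filter fun F : Finset (Sym2 (Fin n)) => vs F ⊆ U).card : ℕ) : ℝ) ^ 3 ≤
        (2 ^ (K * K)) ^ 3 := pow_le_pow_left₀ (Nat.cast_nonneg _) e2 3
    have e4 : 0 ≤ M * (1 / (n : ℝ) ^ U.card) := by positivity
    calc _ ≤ (M * (1 / (n : ℝ) ^ U.card)) * (2 ^ (K * K)) ^ 3 := mul_le_mul_of_nonneg_left e3 e4
      _ = _ := by ring
  refine (sum_le_sum h4).trans ?_
  rw [← mul_sum]
  calc _ ≤ (M * (2 ^ (K * K)) ^ 3) * (K + 1) :=
        mul_le_mul_of_nonneg_left (sum_U hn K) (by positivity)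
    _ = _ := by ring

/-! ### combinatorics of good edge sets -/

lemma card_vs_singleton {e : Sym2 (Fin n)} (he : ¬ e.IsDiag) :
    2 ≤ (vs ({e} : Finset (Sym2 (Fin n)))).card := by
  induction e using Sym2.ind with
  | _ x y =>
    rw [Sym2.mk_isDiag_iff] at he
    have : ({x, y} : Finset (Fin n)) ⊆ vs ({s(x, y)} : Finset (Sym2 (Fin n))) := by
      intro w hw
      rw [mem_vs]
      refine ⟨s(x, y), mem_singleton_self _, ?_⟩
      rw [Sym2.mem_iff]
      simpa using hw
    calc 2 = ({x, y} : Finset (Fin n)).card := (card_pair he).symm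
      _ ≤ _ := card_le_card this

lemma good_card {F : Finset (Sym2 (Fin n))} (h : Good F) : F.card ≤ 15 := by
  have h1 := card_le_card (subset_sym2 F)
  rw [card_sym2] at h1
  have h2 : (vs F).card ≤ 5 := h.2.2
  have h3 : ((vs F).card + 1).choose 2 ≤ (5 + 1).choose 2 := Nat.choose_le_choose 2 (by omega)
  have h4 : (5 + 1).choose 2 = 15 := by decide
  omega

/-- a vertex of the symmetric difference lies in both vertex sets -/
lemma exists_vertex {F G : Finset (Sym2 (Fin n))} (hF : Good F) (hG : Good G)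
    (hD : (symmDiff F G).Nonempty) (hI : (F ∩ G).Nonempty) :
    ∃ x ∈ vs (symmDiff F G), x ∈ vs F ∩ vs G := by
  by_contra hcon
  push Not at hcon
  set A : Finset (Fin n) := vs F ∩ vs G with hA
  have hAne : A.Nonempty := by
    obtain ⟨e, he⟩ := hI
    rw [mem_inter] at he
    induction e using Sym2.ind with
    | _ x y =>
      refine ⟨x, ?_⟩
      rw [hA, mem_inter]
      exact ⟨mem_vs.2 ⟨_, he.1, Sym2.mem_mk_left x y⟩, mem_vs.2 ⟨_, he.2, Sym2.mem_mk_left x y⟩⟩
  have hAF : A = vs F := by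
    apply hF.1.2 A inter_subset_left hAne
    intro e he x hx hxA y hy
    have heG : e ∈ G := by
      by_contra h
      apply hcon x _ hxA
      exact mem_vs.2 ⟨e, mem_symmDiff.2 (Or.inl ⟨he, h⟩), hx⟩
    rw [hA, mem_inter]
    exact ⟨mem_vs.2 ⟨e, he, hy⟩, mem_vs.2 ⟨e, heG, hy⟩⟩
  have hAG : A = vs G := by
    apply hG.1.2 A inter_subset_right hAne
    intro e he x hx hxA y hy
    have heF : e ∈ F := by
      by_contra h
      apply hcon x _ hxA
      exact mem_vs.2 ⟨e, mem_symmDiff.2 (Or.inr ⟨he, h⟩), hx⟩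
    rw [hA, mem_inter]
    exact ⟨mem_vs.2 ⟨e, heF, hy⟩, mem_vs.2 ⟨e, he, hy⟩⟩
  obtain ⟨e, he⟩ := hD
  induction e using Sym2.ind with
  | _ x y =>
    have hx : x ∈ vs (symmDiff F G) := mem_vs.2 ⟨_, he, Sym2.mem_mk_left x y⟩
    apply hcon x hx
    rcases mem_symmDiff.1 he with h | h
    · rw [hAF]; exact mem_vs.2 ⟨_, h.1, Sym2.mem_mk_left x y⟩
    · rw [hAG]; exact mem_vs.2 ⟨_, h.1, Sym2.mem_mk_left x y⟩

/-- the counting inequality -/
lemma order_ineq {F G : Finset (Sym2 (Fin n))} (hF : Good F) (hG : Good G)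
    (hD : (symmDiff F G).Nonempty) (hI : (F ∩ G).Nonempty) :
    2 * (vs (symmDiff F G) ∪ vs F).card + 1 ≤
      (vs F).card + (vs G).card + (vs (symmDiff F G)).card := by
  obtain ⟨x0, hx0, hx0'⟩ := exists_vertex hF hG hD hI
  set D := symmDiff F G with hDdef
  have hW : vs D ∪ vs F = vs F ∪ vs G := by
    apply subset_antisymm
    · apply union_subset (vs_symmDiff F G) subset_union_left
    · apply union_subset subset_union_right
      intro x hx
      obtain ⟨e, he, hxe⟩ := mem_vs.1 hx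
      rw [mem_union]
      by_cases heF : e ∈ F
      · exact Or.inr (mem_vs.2 ⟨e, heF, hxe⟩)
      · exact Or.inl (mem_vs.2 ⟨e, mem_symmDiff.2 (Or.inr ⟨he, heF⟩), hxe⟩)
  have hsub : insert x0 ((vs F ∪ vs G) \ vs D) ⊆ vs F ∩ vs G := by
    intro x hx
    rw [mem_insert] at hx
    rcases hx with rfl | hx
    · exact hx0'
    · rw [mem_sdiff, mem_union] at hx
      obtain ⟨h1, h2⟩ := hx
      rw [mem_inter]
      rcases h1 with h1 | h1
      · refine ⟨h1, ?_⟩
        obtain ⟨e, he, hxe⟩ := mem_vs.1 h1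
        by_cases heG : e ∈ G
        · exact mem_vs.2 ⟨e, heG, hxe⟩
        · exact absurd (mem_vs.2 ⟨e, mem_symmDiff.2 (Or.inl ⟨he, heG⟩), hxe⟩) h2
      · refine ⟨?_, h1⟩
        obtain ⟨e, he, hxe⟩ := mem_vs.1 h1
        by_cases heF : e ∈ F
        · exact mem_vs.2 ⟨e, heF, hxe⟩
        · exact absurd (mem_vs.2 ⟨e, mem_symmDiff.2 (Or.inr ⟨he, heF⟩), hxe⟩) h2
  have hcard := card_le_card hsub
  rw [card_insert_of_notMem (by rw [mem_sdiff]; exact fun h => h.2 hx0)] at hcard
  have h3 : ((vs F ∪ vs G) \ vs D).card = (vs F ∪ vs G).card - (vs D).card :=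
    card_sdiff_of_subset (vs_symmDiff F G)
  have h4 := card_union_add_card_inter (vs F) (vs G)
  have h5 : (vs D).card ≤ (vs F ∪ vs G).card := card_le_card (vs_symmDiff F G)
  rw [hW]
  omega

/-! ### the two sums -/

section bounds

variable (hn : 1 ≤ n) {c : Finset (Sym2 (Fin n)) → ℝ} {s : ℝ} (hs : 0 ≤ s)
  (hc0 : ∀ F, ¬ Good F → c F = 0)
  (hcs : ∀ F, |c F| * (Real.sqrt n) ^ (vs F).card ≤ s)

include hn hcs in
lemma prod_bound (F1 F2 F3 F4 : Finset (Sym2 (Fin n))) (k : ℕ) (hs : 0 ≤ s)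
    (hk : 2 * k ≤ (vs F1).card + (vs F2).card + ((vs F3).card + (vs F4).card)) :
    (|c F1| * |c F2|) * (|c F3| * |c F4|) ≤ s ^ 4 / (n : ℝ) ^ k := by
  have hn' : (0 : ℝ) < n := by exact_mod_cast hn
  have hn1 : (1 : ℝ) ≤ n := by exact_mod_cast hn
  set q : ℝ := √(n : ℝ) with hq
  have hq1 : 1 ≤ q := by rw [hq]; exact Real.one_le_sqrt.2 hn1
  have hqq : q ^ 2 = n := Real.sq_sqrt hn'.le
  have h1 := hcs F1
  have h2 := hcs F2
  have h3 := hcs F3
  have h4 := hcs F4
  have h12 : (|c F1| * q ^ (vs F1).card) * (|c F2| * q ^ (vs F2).card) ≤ s * s :=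
    mul_le_mul h1 h2 (by positivity) hs
  have h34 : (|c F3| * q ^ (vs F3).card) * (|c F4| * q ^ (vs F4).card) ≤ s * s :=
    mul_le_mul h3 h4 (by positivity) hs
  have h5 : ((|c F1| * q ^ (vs F1).card) * (|c F2| * q ^ (vs F2).card)) *
      ((|c F3| * q ^ (vs F3).card) * (|c F4| * q ^ (vs F4).card)) ≤ (s * s) * (s * s) :=
    mul_le_mul h12 h34 (by positivity) (by positivity)
  rw [le_div_iff₀ (by positivity), ← hqq, ← pow_mul]
  calc (|c F1| * |c F2|) * (|c F3| * |c F4|) * q ^ (2 * k) ≤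
      (|c F1| * |c F2|) * (|c F3| * |c F4|) *
        q ^ ((vs F1).card + (vs F2).card + ((vs F3).card + (vs F4).card)) := by
        apply mul_le_mul_of_nonneg_left _ (by positivity)
        exact pow_le_pow_right₀ hq1 hk
    _ = ((|c F1| * q ^ (vs F1).card) * (|c F2| * q ^ (vs F2).card)) *
      ((|c F3| * q ^ (vs F3).card) * (|c F4| * q ^ (vs F4).card)) := by
        rw [pow_add, pow_add, pow_add]; ring
    _ ≤ (s * s) * (s * s) := h5
    _ = s ^ 4 := by ring

end bounds

/-- first sum -/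
lemma sumA : ∃ B : ℝ, 0 < B ∧ ∀ n : ℕ, 1 ≤ n → ∀ (c : Finset (Sym2 (Fin n)) → ℝ) (s : ℝ), 0 ≤ s →
    (∀ F, ¬ Good F → c F = 0) →
    (∀ F, |c F| * (Real.sqrt n) ^ (vs F).card ≤ s) →
    ∑ e, (∑ F, (if e ∈ F then c F ^ 2 else 0)) ^ 2 ≤ B * (s ^ 4 / (n : ℝ) ^ 2) := by
  obtain ⟨B, hB, hT⟩ := triple 10
  refine ⟨B, hB, ?_⟩
  intro n hn c s hs hc0 hcs
  have hn' : (0 : ℝ) < n := by exact_mod_cast hn
  set f : Finset (Sym2 (Fin n)) → Finset (Sym2 (Fin n)) → Finset (Sym2 (Fin n)) → ℝ :=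
    fun A1 F G => if (∃ e, A1 = {e} ∧ e ∈ F ∧ e ∈ G) then c F ^ 2 * c G ^ 2 else 0 with hf
  have hfnn : ∀ A1 F G, 0 ≤ f A1 F G := by
    intro A1 F G
    simp only [hf]
    split_ifs
    · positivity
    · exact le_rfl
  have h1 : ∀ e : Sym2 (Fin n), (∑ F, (if e ∈ F then c F ^ 2 else 0)) ^ 2 =
      ∑ F, ∑ G, f {e} F G := by
    intro e
    rw [pow_two, sum_mul_sum]
    apply sum_congr rfl
    intro F _
    apply sum_congr rfl
    intro G _
    simp only [hf]
    by_cases hF : e ∈ F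
    · by_cases hG : e ∈ G
      · rw [if_pos hF, if_pos hG, if_pos ⟨e, rfl, hF, hG⟩]
      · rw [if_neg hG, mul_zero, if_neg]
        rintro ⟨e', h, _, h3⟩
        rw [singleton_inj] at h
        rw [h] at hG
        exact hG h3
    · rw [if_neg hF, zero_mul, if_neg]
      rintro ⟨e', h, h2, _⟩
      rw [singleton_inj] at h
      rw [h] at hF
      exact hF h2
  simp only [h1]
  have h2 : ∑ e : Sym2 (Fin n), ∑ F, ∑ G, f {e} F G ≤ ∑ A1, ∑ F, ∑ G, f A1 F G := by
    have e1 := sum_map (univ : Finset (Sym2 (Fin n))) ⟨fun e => ({e} : Finset (Sym2 (Fin n))),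
      singleton_injective⟩ (fun A1 => ∑ F, ∑ G, f A1 F G)
    refine le_trans (le_of_eq e1.symm) ?_
    apply sum_le_sum_of_subset_of_nonneg (subset_univ _)
    intro A1 _ _
    exact sum_nonneg fun F _ => sum_nonneg fun G _ => hfnn _ _ _
  refine h2.trans ?_
  have key : ∀ A1 F G, f A1 F G ≠ 0 → Good F ∧ Good G ∧
      vs A1 ∪ vs F ∪ vs G = vs F ∪ vs G ∧ (vs F ∪ vs G).card + 2 ≤ (vs F).card + (vs G).card := by
    intro A1 F G h
    simp only [hf] at h
    split_ifs at h with hex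
    · obtain ⟨e, rfl, heF, heG⟩ := hex
      have hF : Good F := by
        by_contra hF
        exact h (by rw [hc0 F hF]; ring)
      have hG : Good G := by
        by_contra hG
        exact h (by rw [hc0 G hG]; ring)
      have a1 : vs ({e} : Finset (Sym2 (Fin n))) ⊆ vs F := vs_mono (singleton_subset_iff.2 heF)
      have a2 : vs ({e} : Finset (Sym2 (Fin n))) ⊆ vs G := vs_mono (singleton_subset_iff.2 heG)
      refine ⟨hF, hG, ?_, ?_⟩
      · rw [union_assoc]
        exact union_eq_right.2 (a1.trans subset_union_left)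
      · have a3 := card_vs_singleton (hF.2.1 e heF)
        have a4 := card_le_card (subset_inter a1 a2)
        have a5 := card_union_add_card_inter (vs F) (vs G)
        omega
    · exact absurd rfl h
  apply hT n hn f (s ^ 4 / (n : ℝ) ^ 2) (by positivity)
  · intro A1 F G h
    obtain ⟨hF, hG, h3, _⟩ := key A1 F G h
    rw [h3]
    refine (card_union_le _ _).trans ?_
    have := hF.2.2
    have := hG.2.2
    omega
  · intro A1 F G
    by_cases h : f A1 F G = 0
    · rw [h]; positivity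
    · obtain ⟨hF, hG, h3, h4⟩ := key A1 F G h
      rw [h3]
      have h5 := prod_bound hn hcs F F G G ((vs F ∪ vs G).card + 2) hs (by omega)
      rw [div_div, ← pow_add, add_comm 2]
      refine le_trans ?_ h5
      simp only [hf]
      split_ifs
      · rw [abs_mul_abs_self, abs_mul_abs_self]
        exact le_of_eq (by ring)
      · positivity

/-- second sum -/
lemma sumB : ∃ B : ℝ, 0 < B ∧ ∀ n : ℕ, 1 ≤ n → ∀ (c : Finset (Sym2 (Fin n)) → ℝ) (s : ℝ), 0 ≤ s →
    (∀ F, ¬ Good F → c F = 0) →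
    (∀ F, |c F| * (Real.sqrt n) ^ (vs F).card ≤ s) →
    ∑ D, (if D = ∅ then 0 else gam c D) ^ 2 ≤ B * (s ^ 4 / (n : ℝ)) := by
  obtain ⟨B, hB, hT⟩ := triple 20
  refine ⟨B, hB, ?_⟩
  intro n hn c s hs hc0 hcs
  have hn' : (0 : ℝ) < n := by exact_mod_cast hn
  set a : Finset (Sym2 (Fin n)) → Finset (Sym2 (Fin n)) → ℝ := fun F D =>
    if (F ∩ symmDiff F D).Nonempty then |c F| * |c (symmDiff F D)| else 0 with ha
  have hann : ∀ F D, 0 ≤ a F D := by
    intro F D
    simp only [ha]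
    split_ifs
    · positivity
    · exact le_rfl
  have hgam : ∀ D, |gam c D| ≤ ∑ F, a F D := by
    intro D
    unfold gam
    refine (abs_sum_le_sum_abs _ _).trans ?_
    apply sum_le_sum
    intro F _
    simp only [ha]
    split_ifs with h
    · unfold dv
      rw [abs_mul, abs_mul, abs_div, Nat.abs_cast, Nat.abs_cast]
      have hFne : F.Nonempty := h.mono inter_subset_left
      have hFpos : (0 : ℝ) < F.card := by exact_mod_cast card_pos.2 hFne
      have h1 : ((F ∩ symmDiff F D).card : ℝ) ≤ F.card := by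
        exact_mod_cast card_le_card inter_subset_left
      calc ((F ∩ symmDiff F D).card : ℝ) * (|c F| / F.card * |c (symmDiff F D)|) ≤
          F.card * (|c F| / F.card * |c (symmDiff F D)|) := by gcongr
        _ = |c F| * |c (symmDiff F D)| := by field_simp
    · rw [not_nonempty_iff_eq_empty] at h
      rw [h]; simp
  set f : Finset (Sym2 (Fin n)) → Finset (Sym2 (Fin n)) → Finset (Sym2 (Fin n)) → ℝ :=
    fun D F G => if D = ∅ then 0 else a F D * a G D with hf
  have h1 : ∀ D, (if D = ∅ then 0 else gam c D) ^ 2 ≤ ∑ F, ∑ G, f D F G := by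
    intro D
    simp only [hf]
    split_ifs with h
    · simp
    · rw [← sum_mul_sum, ← sq_abs, pow_two]
      exact mul_le_mul (hgam D) (hgam D) (abs_nonneg _) (sum_nonneg fun F _ => hann F D)
  refine (sum_le_sum fun D _ => h1 D).trans ?_
  have hpair : ∀ F D, a F D ≠ 0 → D ≠ ∅ → Good F ∧ Good (symmDiff F D) ∧
      2 * (vs D ∪ vs F).card + 1 ≤ (vs F).card + (vs (symmDiff F D)).card + (vs D).card ∧
      (vs D ∪ vs F).card ≤ 10 ∧ vs D ⊆ vs F ∪ vs (symmDiff F D) := by
    intro F D h hD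
    simp only [ha] at h
    split_ifs at h with hne
    · have hF : Good F := by
        by_contra hF
        exact h (by rw [hc0 F hF]; simp)
      have hG : Good (symmDiff F D) := by
        by_contra hG
        exact h (by rw [hc0 _ hG]; simp)
      have e1 : symmDiff F (symmDiff F D) = D := symmDiff_symmDiff_cancel_left F D
      have h2 := order_ineq hF hG (by rw [e1]; exact nonempty_iff_ne_empty.2 hD) hne
      rw [e1] at h2
      have h3 : vs D ⊆ vs F ∪ vs (symmDiff F D) := by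
        have := vs_symmDiff F (symmDiff F D)
        rwa [e1] at this
      refine ⟨hF, hG, h2, ?_, h3⟩
      have h4 : vs D ∪ vs F ⊆ vs F ∪ vs (symmDiff F D) := union_subset h3 subset_union_left
      refine (card_le_card h4).trans ((card_union_le _ _).trans ?_)
      have := hF.2.2
      have := hG.2.2
      omega
    · exact absurd rfl h
  apply hT n hn f (s ^ 4 / (n : ℝ)) (by positivity)
  · intro D F G h
    simp only [hf] at h
    split_ifs at h with hD
    · exact absurd rfl h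
    · have hF := hpair F D (left_ne_zero_of_mul h) hD
      have hG := hpair G D (right_ne_zero_of_mul h) hD
      have h5 : vs D ∪ vs F ∪ vs G ⊆ (vs D ∪ vs F) ∪ (vs D ∪ vs G) := by
        intro x hx
        simp only [mem_union] at hx ⊢
        tauto
      refine (card_le_card h5).trans ((card_union_le _ _).trans ?_)
      have := hF.2.2.2.1
      have := hG.2.2.2.1
      omega
  · intro D F G
    by_cases h : f D F G = 0
    · rw [h]; positivity
    · have h' := h
      simp only [hf] at h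
      split_ifs at h with hD
      · exact absurd rfl h
      · have hF := hpair F D (left_ne_zero_of_mul h) hD
        have hG := hpair G D (right_ne_zero_of_mul h) hD
        have h5 : vs D ∪ vs F ∪ vs G = (vs D ∪ vs F) ∪ (vs D ∪ vs G) := by
          ext x
          simp only [mem_union]
          tauto
        have h6 := card_union_add_card_inter (vs D ∪ vs F) (vs D ∪ vs G)
        have h7 : (vs D).card ≤ ((vs D ∪ vs F) ∩ (vs D ∪ vs G)).card :=
          card_le_card (subset_inter subset_union_left subset_union_left)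
        rw [← h5] at h6
        have h8 := hF.2.2.1
        have h9 := hG.2.2.1
        have h10 := prod_bound hn hcs F (symmDiff F D) G (symmDiff G D)
          ((vs D ∪ vs F ∪ vs G).card + 1) hs (by omega)
        have h11 : (n : ℝ) * (n : ℝ) ^ (vs D ∪ vs F ∪ vs G).card =
            (n : ℝ) ^ ((vs D ∪ vs F ∪ vs G).card + 1) := by
          rw [pow_succ]; ring
        rw [div_div, h11]
        refine le_trans ?_ h10
        simp only [hf]
        rw [if_neg hD]
        have b1 : a F D ≤ |c F| * |c (symmDiff F D)| := by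
          simp only [ha]
          split_ifs
          · exact le_rfl
          · positivity
        have b2 : a G D ≤ |c G| * |c (symmDiff G D)| := by
          simp only [ha]
          split_ifs
          · exact le_rfl
          · positivity
        exact mul_le_mul b1 b2 (hann _ _) (by positivity)

end CLT

/-- M2: the central limit lemma -/
theorem clt (h1 : StmtParseval) (h2 : StmtHyper) : StmtCLT := by
  obtain ⟨B1, hB1, hA⟩ := CLT.sumA
  obtain ⟨B2, hB2, hB⟩ := CLT.sumB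
  refine ⟨4 * (2 * Real.pi) ^ 4 * 9 ^ 14 * B1 + (2 * Real.pi) ^ 2 * √B2, by positivity, ?_⟩
  intro n hn c s hs hc0 hcs
  have hn' : (0 : ℝ) < n := by exact_mod_cast hn
  have h0 : c ∅ = 0 := by
    apply hc0
    intro h
    exact not_nonempty_empty h.1.1
  have hd : ∀ F, 14 + 1 < F.card → c F = 0 := by
    intro F hF
    apply hc0
    intro h
    have := CLT.good_card h
    omega
  have hmain := CLT.generic_clt h1 h2 c 14 hd h0
  refine hmain.trans ?_
  have a1 := hA n hn c s hs hc0 hcs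
  have a2 := hB n hn c s hs hc0 hcs
  have a3 : √(∑ D, (if D = ∅ then 0 else CLT.gam c D) ^ 2) ≤ √B2 * (s ^ 2 / √(n : ℝ)) := by
    refine (Real.sqrt_le_sqrt a2).trans (le_of_eq ?_)
    rw [Real.sqrt_mul hB2.le, Real.sqrt_div (by positivity)]
    congr 2
    rw [show s ^ 4 = (s ^ 2) ^ 2 by ring]
    exact Real.sqrt_sq (by positivity)
  have p1 : 0 ≤ s ^ 2 / √(n : ℝ) := by positivity
  have p2 : 0 ≤ s ^ 4 / (n : ℝ) ^ 2 := by positivity
  have q1 : 0 ≤ 4 * (2 * Real.pi) ^ 4 * 9 ^ 14 * B1 := by positivity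
  have q2 : 0 ≤ (2 * Real.pi) ^ 2 * √B2 := by positivity
  calc _ ≤ 4 * (2 * Real.pi) ^ 4 * 9 ^ 14 * (B1 * (s ^ 4 / (n : ℝ) ^ 2)) +
        (2 * Real.pi) ^ 2 * (√B2 * (s ^ 2 / √(n : ℝ))) := by
          apply add_le_add
          · exact mul_le_mul_of_nonneg_left a1 (by positivity)
          · exact mul_le_mul_of_nonneg_left a3 (by positivity)
    _ ≤ _ := by nlinarith [mul_nonneg q1 p1, mul_nonneg q2 p2]

end

end Pool.Agent.JX
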