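import Mathlib
import Pool.Agent.JX.Defs
import Pool.Agent.JX.Stmts

/-!
# Final assembly
-/

set_option autoImplicit false

namespace Pool.Agent.JX

open Finset BigOperators Classical

theorem final (hHit : StmtHit) (hPell : StmtPell) (hLink : StmtLink) :
    ∃ (v : ℕ) (F : SimpleGraph (Fin v)) (p : ℝ),
      3 ≤ v ∧ 0 < p ∧ p < 1 ∧
      ∀ (k : ℕ) (H : SimpleGraph (Fin k)),
        (((k = 3 ∨ k = 4) ∧ (∀ w : Fin k, ∃ u : Fin k, H.Adj w u)) ∨
          (k = 5 ∧ H.Connected)) →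
        (∑ φ : Fin k ↪ Fin v,
          ∏ i : Fin k, ∏ j : Fin k,
            (if i < j ∧ H.Adj i j then
              ((if F.Adj (φ i) (φ j) then (1 : ℝ) else 0) - p)
            else 1)) = 0 := by
  obtain ⟨n0, hn0⟩ := hHit
  obtain ⟨n, t, hn, hadm⟩ := hPell n0
  obtain ⟨z, hz⟩ := hn0 n t hn hadm
  refine ⟨n, gr z, 1 / 2, ?_, by norm_num, by norm_num, ?_⟩
  · have := hadm.1
    omega
  · intro k H hH
    exact hLink n t hadm z hz k H hH

end Pool.Agent.JX
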