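import Pool.Agent.JX.Orbits

/-!
# Hierarchical integrality (module M4, helper24)
-/

set_option autoImplicit false
set_option linter.unusedSectionVars false

namespace Pool.Agent.JX

open Finset BigOperators Classical

noncomputable section

/-- integral multiples of the modulus -/
def MZ (x : ℝ) : Prop := ∃ m : ℤ, x = (Mo : ℝ) * m

theorem MZ.zero : MZ 0 := ⟨0, by simp⟩

theorem MZ.add {x y : ℝ} (hx : MZ x) (hy : MZ y) : MZ (x + y) := by
  obtain ⟨a, rfl⟩ := hx
  obtain ⟨b, rfl⟩ := hy
  exact ⟨a + b, by push_cast; ring⟩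

theorem MZ.neg {x : ℝ} (hx : MZ x) : MZ (-x) := by
  obtain ⟨a, rfl⟩ := hx
  exact ⟨-a, by push_cast; ring⟩

theorem MZ.sub {x y : ℝ} (hx : MZ x) (hy : MZ y) : MZ (x - y) := by
  rw [sub_eq_add_neg]; exact hx.add hy.neg

theorem MZ.int_mul {x : ℝ} (k : ℤ) (hx : MZ x) : MZ (k * x) := by
  obtain ⟨a, rfl⟩ := hx
  exact ⟨k * a, by push_cast; ring⟩

theorem MZ.sum {ι : Type} (s : Finset ι) {f : ι → ℝ} (h : ∀ i ∈ s, MZ (f i)) :
    MZ (∑ i ∈ s, f i) := by
  induction s using Finset.induction_on with
  | empty => rw [sum_empty]; exact MZ.zero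
  | insert i s hi ih =>
    rw [sum_insert hi]
    exact (h i (mem_insert_self i s)).add (ih fun j hj => h j (mem_insert_of_mem hj))

theorem MZ.nat {m : ℕ} (h : Mo ∣ m) : MZ (m : ℝ) := by
  obtain ⟨k, rfl⟩ := h
  exact ⟨k, by push_cast; ring⟩

section red

variable {n : ℕ} {W : Type} [Fintype W] [DecidableEq W]

/-- removing an isolated vertex -/
theorem es_isolated (J : Finset (Sym2 W)) (w : W) (hw : w ∉ vs J) (z : Sym2 (Fin n) → Bool) :
    ES J z = ((n : ℝ) - Fintype.card {x // x ≠ w}) *
      ES (univ.filter fun e : Sym2 {x // x ≠ w} => Sym2.map Subtype.val e ∈ J) z := by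
  rw [← es_option, ← es_equiv (Equiv.optionSubtypeNe w)]
  congr 1
  rw [mapE_comp]
  ext e
  rw [mem_mapE]
  constructor
  · intro he
    have h1 : ∀ x ∈ e, x ≠ w := fun x hx hxw => hw (mem_vs.2 ⟨e, he, hxw ▸ hx⟩)
    induction e using Sym2.ind with
    | _ x y =>
      refine ⟨s(⟨x, h1 x (by simp)⟩, ⟨y, h1 y (by simp)⟩), ?_, ?_⟩
      · simpa using he
      · simp
  · rintro ⟨e', he', rfl⟩
    simp only [mem_filter, mem_univ, true_and] at he'
    have : (⇑(Equiv.optionSubtypeNe w) ∘ some : {x // x ≠ w} → W) = Subtype.val := by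
      funext x
      simp
    rw [this]
    exact he'

/-- removing a separate edge -/
theorem es_separate (J : Finset (Sym2 W)) (a b : W) (hab : a ≠ b) (hJ : s(a, b) ∈ J)
    (hcl : ∀ e ∈ J, e = s(a, b) ∨ ∀ x ∈ e, x ≠ a ∧ x ≠ b) (z : Sym2 (Fin n) → Bool) :
    ES J z = ES (sepE (univ.filter fun e : Sym2 {x // x ≠ a ∧ x ≠ b} =>
      Sym2.map Subtype.val e ∈ J)) z := by
  let g : Option (Option {x // x ≠ a ∧ x ≠ b}) → W := fun o => match o with
    | none => a
    | some none => b
    | some (some x) => x
  have hg : Function.Bijective g := by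
    constructor
    · rintro (_ | _ | ⟨x, hx⟩) (_ | _ | ⟨y, hy⟩) h
      · rfl
      · exact absurd h hab
      · exact absurd h.symm hy.1
      · exact absurd h.symm hab
      · rfl
      · exact absurd h.symm hy.2
      · exact absurd h hx.1
      · exact absurd h hx.2
      · have : x = y := h
        subst this
        rfl
    · intro x
      by_cases h1 : x = a
      · exact ⟨none, h1.symm⟩
      · by_cases h2 : x = b
        · exact ⟨some none, h2.symm⟩
        · exact ⟨some (some ⟨x, h1, h2⟩), rfl⟩
  rw [← es_equiv (Equiv.ofBijective g hg)]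
  congr 1
  rw [sepE, mapE, image_insert, ← mapE, mapE_comp, mapE_comp]
  ext e
  rw [mem_insert, mem_mapE]
  constructor
  · intro he
    rcases hcl e he with h | h
    · left
      rw [h]
      simp only [Equiv.ofBijective_apply, Sym2.map_mk]
      rw [Sym2.eq_swap]
    · right
      induction e using Sym2.ind with
      | _ x y =>
        refine ⟨s(⟨x, h x (by simp)⟩, ⟨y, h y (by simp)⟩), ?_, ?_⟩
        · simpa using he
        · rfl
  · rintro (h | ⟨e', he', rfl⟩)
    · rw [h]
      have : Sym2.map (⇑(Equiv.ofBijective g hg)) s(some none, none) = s(a, b) := by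
        simp only [Equiv.ofBijective_apply, Sym2.map_mk]
        rw [Sym2.eq_swap]
      rw [this]
      exact hJ
    · simp only [mem_filter, mem_univ, true_and] at he'
      have : ((⇑(Equiv.ofBijective g hg) ∘ some) ∘ some : {x // x ≠ a ∧ x ≠ b} → W)
          = Subtype.val := by
        funext x
        rfl
      rw [this]
      exact he'

/-- a disconnected edge set on at most five vertices without isolated vertices has a separate
edge -/
theorem exists_separate (J : Finset (Sym2 W)) (hl : ∀ e ∈ J, ¬ e.IsDiag) (hv : vs J = univ)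
    (h3 : 3 ≤ Fintype.card W) (h5 : Fintype.card W ≤ 5) (hc : ¬ Conn J) :
    ∃ a b : W, a ≠ b ∧ s(a, b) ∈ J ∧ ∀ e ∈ J, e = s(a, b) ∨ ∀ x ∈ e, x ≠ a ∧ x ≠ b := by
  have hne : J.Nonempty := by
    rw [nonempty_iff_ne_empty]
    rintro rfl
    have : vs (∅ : Finset (Sym2 W)) = ∅ := by
      ext x; simp [vs]
    rw [this] at hv
    have h0 : Fintype.card W = 0 := by
      rw [← card_univ, ← hv, card_empty]
    omega
  have hA : ∃ A : Finset W, A.Nonempty ∧ Aᶜ.Nonempty ∧
      ∀ e ∈ J, ∀ x ∈ e, x ∈ A → ∀ y ∈ e, y ∈ A := by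
    by_contra hcon
    push Not at hcon
    refine hc ⟨hne, fun A hA hAn hcl => ?_⟩
    by_contra hAv
    have hcomp : Aᶜ.Nonempty := by
      rw [nonempty_iff_ne_empty]
      intro h
      rw [compl_eq_empty_iff] at h
      exact hAv (by rw [h, hv])
    obtain ⟨e, he, x, hx, hxA, y, hy, hyA⟩ := hcon A hAn hcomp
    exact hyA (hcl e he x hx hxA y hy)
  obtain ⟨A, hAn, hAc, hcl⟩ := hA
  have hcl' : ∀ e ∈ J, ∀ x ∈ e, x ∈ Aᶜ → ∀ y ∈ e, y ∈ Aᶜ := by
    intro e he x hx hxA y hy
    rw [mem_compl] at hxA ⊢
    exact fun hyA => hxA (hcl e he y hy hyA x hx)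
  have two : ∀ B : Finset W, B.Nonempty → (∀ e ∈ J, ∀ x ∈ e, x ∈ B → ∀ y ∈ e, y ∈ B) →
      2 ≤ B.card := by
    rintro B ⟨x, hx⟩ hB
    have hxv : x ∈ vs J := by rw [hv]; exact mem_univ x
    obtain ⟨e, he, hxe⟩ := mem_vs.1 hxv
    obtain ⟨y, rfl⟩ := Sym2.mem_iff_exists.1 hxe
    have hy : y ∈ B := hB _ he x hxe hx y (by simp)
    have hxy : x ≠ y := fun h => hl _ he (by simpa using h)
    exact one_lt_card.2 ⟨x, hx, y, hy, hxy⟩
  have hcard : A.card + Aᶜ.card = Fintype.card W := card_add_card_compl A
  have h2 := two A hAn hcl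
  have h2' := two Aᶜ hAc hcl'
  have hB : ∃ B : Finset W, B.card = 2 ∧ ∀ e ∈ J, ∀ x ∈ e, x ∈ B → ∀ y ∈ e, y ∈ B := by
    by_cases h : A.card = 2
    · exact ⟨A, h, hcl⟩
    · exact ⟨Aᶜ, by omega, hcl'⟩
  obtain ⟨B, hB2, hBcl⟩ := hB
  obtain ⟨a, b, hab, rfl⟩ := card_eq_two.1 hB2
  refine ⟨a, b, hab, ?_, ?_⟩
  · have hav : a ∈ vs J := by rw [hv]; exact mem_univ a
    obtain ⟨e, he, hae⟩ := mem_vs.1 hav
    obtain ⟨y, rfl⟩ := Sym2.mem_iff_exists.1 hae
    have hy := hBcl _ he a hae (by simp) y (by simp)
    have hay : a ≠ y := fun h => hl _ he (by simpa using h)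
    have : y = b := by
      simp only [mem_insert, mem_singleton] at hy
      rcases hy with h | h
      · exact absurd h.symm hay
      · exact h
    rw [← this]
    exact he
  · intro e he
    by_cases h : ∃ x ∈ e, x = a ∨ x = b
    · left
      obtain ⟨x, hx, hxab⟩ := h
      have hxB : x ∈ ({a, b} : Finset W) := by simpa using hxab
      obtain ⟨y, rfl⟩ := Sym2.mem_iff_exists.1 hx
      have hyB := hBcl _ he x hx hxB y (by simp)
      have hxy : x ≠ y := fun h => hl _ he (by simpa using h)
      simp only [mem_insert, mem_singleton] at hxB hyB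
      rcases hxB with rfl | rfl <;> rcases hyB with rfl | rfl
      · exact absurd rfl hxy
      · rfl
      · exact Sym2.eq_swap
      · exact absurd rfl hxy
    · right
      push Not at h
      exact h

end red

/-- all embedding sums on `k` vertices, apart from connected ones, are multiples of `Mo` -/
theorem es_MZ {n t : ℕ} (hA : Adm n t) (z : Sym2 (Fin n) → Bool) (hT : T2 z = t) (K : ℕ)
    (hK : ∀ T : Orb n, T.ord < K → YT T z = 0) (hK5 : K ≤ 5) :
    ∀ (k : ℕ) (W : Type) [Fintype W] [DecidableEq W], Fintype.card W = k → 2 ≤ k → k ≤ K →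
      ∀ J : Finset (Sym2 W), (∀ e ∈ J, ¬ e.IsDiag) → (k < K ∨ ¬ (Conn J ∧ vs J = univ)) →
        MZ (ES J z) := by
  intro k
  induction k using Nat.strong_induction_on with
  | _ k ih =>
  intro W _ _ hW h2 hkK J hl hcase
  obtain ⟨hn5, hnt, hn1, ht⟩ := hA
  by_cases hv : vs J = univ
  · by_cases hc : Conn J
    · -- connected and spanning
      have hlt : k < K := by
        rcases hcase with h | h
        · exact h
        · exact absurd ⟨hc, hv⟩ h
      have hg : Good J := ⟨hc, hl, by rw [hv, card_univ]; omega⟩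
      by_cases h3 : 3 ≤ k
      · rw [es_zero K z hK J hg hv (by omega) (by omega)]
        exact MZ.zero
      · -- a single edge
        have hk2 : Fintype.card W = 2 := by omega
        obtain ⟨a, b, hab, huniv⟩ : ∃ a b : W, a ≠ b ∧ (univ : Finset W) = {a, b} :=
          card_eq_two.1 (by rw [card_univ, hk2])
        have hedge : ∀ e : Sym2 W, ¬ e.IsDiag → e = s(a, b) := by
          intro e he
          induction e using Sym2.ind with
          | _ x y =>
            have hx : x ∈ ({a, b} : Finset W) := huniv ▸ mem_univ x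
            have hy : y ∈ ({a, b} : Finset W) := huniv ▸ mem_univ y
            have hxy : x ≠ y := fun h => he (by simpa using h)
            simp only [mem_insert, mem_singleton] at hx hy
            rcases hx with rfl | rfl <;> rcases hy with rfl | rfl
            · exact absurd rfl hxy
            · rfl
            · exact Sym2.eq_swap
            · exact absurd rfl hxy
        have hJ : J = {s(a, b)} := by
          obtain ⟨e, he⟩ := hc.1
          ext e'
          rw [mem_singleton]
          constructor
          · intro h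
            exact hedge e' (hl e' h)
          · rintro rfl
            rw [← hedge e (hl e he)]
            exact he
        have hempty : ∀ e ∈ J, e = s(a, b) ∨ ∀ x ∈ e, x ≠ a ∧ x ≠ b := by
          intro e he
          left
          exact hedge e (hl e he)
        rw [es_separate J a b hab (by rw [hJ]; simp) hempty, es_pair]
        have hW0 : IsEmpty {x : W // x ≠ a ∧ x ≠ b} := by
          refine ⟨fun x => ?_⟩
          have hx : x.1 ∈ ({a, b} : Finset W) := huniv ▸ mem_univ x.1
          simp only [mem_insert, mem_singleton] at hx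
          rcases hx with h | h
          · exact x.2.1 h
          · exact x.2.2 h
        have hF : (univ.filter fun e : Sym2 {x // x ≠ a ∧ x ≠ b} => Sym2.map Subtype.val e ∈ J)
            = ∅ := by
          ext e
          induction e using Sym2.ind with
          | _ x y => exact (hW0.false x).elim
        rw [hF, es_empty]
        simp only [univ_eq_empty, sum_empty, Fintype.card_eq_zero, Nat.descFactorial_zero,
          Nat.cast_one, mul_one, mul_zero, sub_zero]
        rw [hT]
        exact_mod_cast MZ.int_mul 2 (MZ.nat ht)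
    · -- no isolated vertex, disconnected
      have h3 : 3 ≤ Fintype.card W := by
        by_contra h
        have hk2 : Fintype.card W = 2 := by omega
        obtain ⟨a, b, hab, huniv⟩ : ∃ a b : W, a ≠ b ∧ (univ : Finset W) = {a, b} :=
          card_eq_two.1 (by rw [card_univ, hk2])
        apply hc
        refine ⟨?_, ?_⟩
        · have ha : a ∈ vs J := by rw [hv]; exact mem_univ a
          obtain ⟨e, he, -⟩ := mem_vs.1 ha
          exact ⟨e, he⟩
        · intro A _ hAn hcl
          rw [hv]
          obtain ⟨x, hx⟩ := hAn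
          have hxv : x ∈ vs J := by rw [hv]; exact mem_univ x
          obtain ⟨e, he, hxe⟩ := mem_vs.1 hxv
          obtain ⟨y, rfl⟩ := Sym2.mem_iff_exists.1 hxe
          have hxy : x ≠ y := fun h => hl _ he (by simpa using h)
          have hy : y ∈ A := hcl _ he x hxe hx y (by simp)
          apply (card_eq_iff_eq_univ A).1
          have : 2 ≤ A.card := one_lt_card.2 ⟨x, hx, y, hy, hxy⟩
          have := card_le_univ A
          omega
      obtain ⟨a, b, hab, hJ, hcl⟩ := exists_separate J hl hv h3 (by omega) hc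
      rw [es_separate J a b hab hJ hcl, es_pair]
      have hcW : Fintype.card {x : W // x ≠ a ∧ x ≠ b} = k - 2 := by
        have e1 : Fintype.card {x : W // x ≠ a ∧ x ≠ b} =
            ((univ : Finset W).filter fun x => x ≠ a ∧ x ≠ b).card := Fintype.card_subtype _
        have e2 : ((univ : Finset W).filter fun x => x ≠ a ∧ x ≠ b) = univ \ {a, b} := by
          ext x; simp
        rw [e1, e2, card_sdiff_of_subset (subset_univ _), card_univ, hW, card_pair hab]
      have h4 : 4 ≤ k := by
        have : ∃ x : W, x ∉ ({a, b} : Finset W) := by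
          by_contra hcon
          push Not at hcon
          have h6 : (univ : Finset W) ⊆ {a, b} := fun x _ => hcon x
          have h7 := card_le_card h6
          rw [card_univ, card_pair hab] at h7
          omega
        obtain ⟨x, hx⟩ := this
        have hxv : x ∈ vs J := by rw [hv]; exact mem_univ x
        obtain ⟨e, he, hxe⟩ := mem_vs.1 hxv
        obtain ⟨y, rfl⟩ := Sym2.mem_iff_exists.1 hxe
        have hxy : x ≠ y := fun h => hl _ he (by simpa using h)
        have hx' : x ≠ a ∧ x ≠ b := by simpa using hx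
        have hy' : y ≠ a ∧ y ≠ b := by
          rcases hcl _ he with h | h
          · exfalso
            have : x ∈ s(a, b) := by rw [← h]; simp
            rw [Sym2.mem_iff] at this
            rcases this with h | h
            · exact hx'.1 h
            · exact hx'.2 h
          · exact h y (by simp)
        have h8 : 1 < Fintype.card {x : W // x ≠ a ∧ x ≠ b} :=
          Fintype.one_lt_card_iff.2 ⟨⟨x, hx'⟩, ⟨y, hy'⟩, fun h => hxy (congrArg Subtype.val h)⟩
        omega
      set W' := {x : W // x ≠ a ∧ x ≠ b} with hW'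
      set J' : Finset (Sym2 W') := univ.filter fun e : Sym2 W' => Sym2.map Subtype.val e ∈ J
        with hJ'
      have hl' : ∀ e ∈ J', ¬ e.IsDiag := by
        intro e he hd
        rw [hJ', mem_filter] at he
        exact hl _ he.2 hd.map
      have m1 : MZ (ES J' z) := ih (k - 2) (by omega) W' hcW (by omega) (by omega) J' hl'
        (Or.inl (by omega))
      have m2 : ∀ w, MZ (ES (pend J' w) z) := by
        intro w
        refine ih (k - 1) (by omega) (Option W') (by rw [Fintype.card_option, hcW]; omega)
          (by omega) (by omega) _ ?_ (Or.inl (by omega))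
        intro e he
        rw [pend, mem_insert] at he
        rcases he with rfl | he
        · simp
        · exact (loopless_mapE (Option.some_injective W') J').2 hl' e he
      have m3 : ∀ w, ∀ w' ∈ univ.erase w, MZ (ES (symmDiff J' {s(w, w')}) z) := by
        intro w w' hw'
        refine ih (k - 2) (by omega) W' hcW (by omega) (by omega) _ ?_ (Or.inl (by omega))
        intro e he
        rw [mem_symmDiff] at he
        rcases he with ⟨he, -⟩ | ⟨he, -⟩
        · exact hl' e he
        · rw [mem_singleton] at he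
          rw [he]
          have := (ne_of_mem_erase hw').symm
          simpa using this
      refine MZ.sub (MZ.sub ?_ ?_) ?_
      · rw [hT]
        have := MZ.int_mul (2 * (t : ℤ)) m1
        push_cast at this
        exact this
      · have := MZ.int_mul 2 (MZ.sum univ fun w _ => m2 w)
        exact_mod_cast this
      · exact MZ.sum univ fun w _ => MZ.sum _ fun w' hw' => m3 w w' hw'
  · -- isolated vertex
    obtain ⟨w, hw⟩ : ∃ w, w ∉ vs J := by
      by_contra hcon
      push Not at hcon
      exact hv (eq_univ_of_forall hcon)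
    by_cases h3 : 3 ≤ k
    · rw [es_isolated J w hw]
      have hc1 : Fintype.card {x : W // x ≠ w} = k - 1 := by
        rw [Fintype.card_subtype_compl, Fintype.card_subtype_eq, hW]
      have := ih (k - 1) (by omega) {x : W // x ≠ w} hc1 (by omega) (by omega)
        (univ.filter fun e : Sym2 {x // x ≠ w} => Sym2.map Subtype.val e ∈ J) ?_
        (Or.inl (by omega))
      · have h9 := MZ.int_mul ((n : ℤ) - Fintype.card {x : W // x ≠ w}) this
        push_cast at h9
        exact h9
      · intro e he hd
        rw [mem_filter] at he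
        exact hl _ he.2 hd.map
    · have hk : k = 2 := by omega
      have hJ : J = ∅ := by
        rw [← not_nonempty_iff_eq_empty]
        rintro ⟨e, he⟩
        apply hw
        induction e using Sym2.ind with
        | _ x y =>
          have hxy : x ≠ y := fun h => hl _ he (by simpa using h)
          by_contra hwn
          have hx : x ≠ w := by
            rintro rfl
            exact hwn (mem_vs.2 ⟨_, he, by simp⟩)
          have hy : y ≠ w := by
            rintro rfl
            exact hwn (mem_vs.2 ⟨_, he, by simp⟩)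
          have h10 : ({x, y, w} : Finset W).card = 3 := card_eq_three.2 ⟨x, y, w, hxy, hx, hy, rfl⟩
          have := card_le_univ ({x, y, w} : Finset W)
          omega
      rw [hJ, es_empty, hW, hk]
      refine MZ.nat ?_
      have : n.descFactorial 2 = n * (n - 1) := by
        simp [Nat.descFactorial]
        ring
      rw [this]
      exact Dvd.dvd.mul_left hn1 n

theorem card_loopless {W : Type} [Fintype W] [DecidableEq W] (H : Finset (Sym2 W))
    (hl : ∀ e ∈ H, ¬ e.IsDiag) : H.card ≤ (Fintype.card W).choose 2 := by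
  rw [← Sym2.card_subtype_not_diag, Fintype.card_subtype]
  refine card_le_card fun e he => ?_
  rw [mem_filter]
  exact ⟨mem_univ e, hl e he⟩

/-- representation of an orbit on an abstract vertex set -/
theorem exists_model {n : ℕ} (T : Orb n) :
    ∃ (W : Finset (Fin n)) (H : Finset (Sym2 W)),
      W.card = T.ord ∧ Good H ∧ vs H = univ ∧
      ∃ h : Good (mapE (Function.Embedding.subtype fun x => x ∈ W) H) ∧
          3 ≤ (vs (mapE (Function.Embedding.subtype fun x => x ∈ W) H)).card,
        toOrb (mapE (Function.Embedding.subtype fun x => x ∈ W) H) h = T := by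
  set F₀ := (Quotient.out T).1 with hF₀
  have h₀ : Good F₀ ∧ 3 ≤ (vs F₀).card := (Quotient.out T).2
  set H : Finset (Sym2 (vs F₀)) := univ.filter fun e : Sym2 (vs F₀) => Sym2.map Subtype.val e ∈ F₀
    with hH
  have hm : mapE (Function.Embedding.subtype fun x => x ∈ vs F₀) H = F₀ := by
    ext e
    rw [mem_mapE]
    constructor
    · rintro ⟨e', he', rfl⟩
      rw [hH, mem_filter] at he'
      exact he'.2
    · intro he
      have h1 : ∀ x ∈ e, x ∈ vs F₀ := fun x hx => mem_vs.2 ⟨e, he, hx⟩
      induction e using Sym2.ind with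
      | _ x y =>
        refine ⟨s(⟨x, h1 x (by simp)⟩, ⟨y, h1 y (by simp)⟩), ?_, ?_⟩
        · rw [hH, mem_filter]
          exact ⟨mem_univ _, by simpa using he⟩
        · rfl
  have hinj : Function.Injective (Function.Embedding.subtype fun x => x ∈ vs F₀) :=
    (Function.Embedding.subtype _).injective
  have h : Good (mapE (Function.Embedding.subtype fun x => x ∈ vs F₀) H) ∧
      3 ≤ (vs (mapE (Function.Embedding.subtype fun x => x ∈ vs F₀) H)).card := by
    rw [hm]
    exact h₀
  refine ⟨vs F₀, H, rfl, (good_mapE hinj).1 h.1, ?_, h, ?_⟩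
  · refine eq_univ_of_forall fun x => ?_
    have h2 := vs_mapE (Function.Embedding.subtype fun x => x ∈ vs F₀) H
    rw [hm] at h2
    have h3 : (x : Fin n) ∈ image (Function.Embedding.subtype fun x => x ∈ vs F₀) (vs H) :=
      h2 ▸ x.2
    rw [mem_image] at h3
    obtain ⟨y, hy, hyx⟩ := h3
    have : y = x := Subtype.ext hyx
    rw [← this]
    exact hy
  · have : ∀ (G : Finset (Sym2 (Fin n))) (hG : Good G ∧ 3 ≤ (vs G).card), G = F₀ →
        toOrb G hG = T := by
      rintro G hG rfl
      exact Quotient.out_eq T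
    exact this _ h hm

theorem ord_le {n : ℕ} (T : Orb n) : 3 ≤ T.ord ∧ T.ord ≤ 5 :=
  ⟨(Quotient.out T).2.2, (Quotient.out T).2.1.2.2⟩

/-- the lowest nonzero orbit function is an integer -/
theorem YT_int {n t : ℕ} (hA : Adm n t) (z : Sym2 (Fin n) → Bool) (hT : T2 z = t) (T : Orb n)
    (hK : ∀ T' : Orb n, T'.ord < T.ord → YT T' z = 0) : ∃ m : ℤ, YT T z = m := by
  obtain ⟨W, H, hW, hg, hv, h, hToT⟩ := exists_model T
  obtain ⟨a, ha1, ha2, hY, N, hN⟩ := YT_es _ H hg hv h z
  rw [hToT] at hY
  have hcW : Fintype.card W = T.ord := by rw [Fintype.card_coe, hW]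
  obtain ⟨ho3, ho5⟩ := ord_le T
  have hM : MZ (∑ J ∈ H.powerset.filter (fun J => ¬ (Good J ∧ vs J = vs H)), ES J z) := by
    refine MZ.sum _ fun J hJ => ?_
    rw [mem_filter, mem_powerset] at hJ
    have hlJ : ∀ e ∈ J, ¬ e.IsDiag := fun e he => hg.2.1 e (hJ.1 he)
    refine es_MZ hA z hT T.ord hK ho5 T.ord W hcW (by omega) le_rfl J hlJ (Or.inr ?_)
    rintro ⟨hc, hvJ⟩
    refine hJ.2 ⟨⟨hc, hlJ, ?_⟩, ?_⟩
    · rw [hvJ, card_univ]; omega
    · rw [hvJ, hv]
  obtain ⟨m, hm⟩ := hM
  have hdvd : (a * 2 ^ H.card) ∣ Mo := by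
    have h1 : a ∣ Nat.factorial 120 := Nat.dvd_factorial ha1 ha2
    have h2 : 2 ^ H.card ∣ 2 ^ 11 := by
      apply pow_dvd_pow
      have := card_loopless H hg.2.1
      rw [hcW] at this
      have h3 : T.ord.choose 2 ≤ Nat.choose 5 2 := Nat.choose_le_choose 2 ho5
      have h4 : Nat.choose 5 2 = 10 := by decide
      omega
    have h5 := mul_dvd_mul h1 h2
    unfold Mo
    rwa [mul_comm (2 ^ 11) (Nat.factorial 120)]
  obtain ⟨q, hq⟩ := hdvd
  refine ⟨N - q * m, ?_⟩
  have hsplit : ∑ J ∈ H.powerset, ES J z =
      ∑ J ∈ H.powerset.filter (fun J => Good J ∧ vs J = vs H), ES J z +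
      ∑ J ∈ H.powerset.filter (fun J => ¬ (Good J ∧ vs J = vs H)), ES J z :=
    (sum_filter_add_sum_filter_not _ _ _).symm
  rw [hsplit, hm, hq] at hN
  have ha : (a : ℝ) ≠ 0 := by
    have : 0 < a := ha1
    positivity
  have h2c : (2 : ℝ) ^ H.card ≠ 0 := by positivity
  have h6 : (a : ℝ) * (YT T z - (N - q * m)) = 0 := by
    rw [mul_sub, hY, mul_sub, hN]
    push_cast
    field_simp
    ring
  have h7 := (mul_eq_zero.1 h6).resolve_left ha
  push_cast
  linarith

/-- **M4**: hierarchical integrality -/
theorem int : StmtInt := by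
  intro n t hA z
  have hT2 : ∃ m : ℤ, (T2 z - t) / 2 = m := by
    obtain ⟨hn5, hnt, -, -⟩ := hA
    set E := univ.filter (fun e : Sym2 (Fin n) => ¬ e.IsDiag) with hE
    have hcE : E.card = n.choose 2 := by
      rw [hE, ← Fintype.card_subtype, Sym2.card_subtype_not_diag, Fintype.card_fin]
    have hN : n.choose 2 = t ^ 2 := by
      rw [Nat.choose_two_right, hnt]
      omega
    have h1 : T2 z = (t : ℝ) ^ 2 - 2 * ((E.filter fun e => z e = false).card : ℝ) := by
      have h2 : T2 z = ∑ e ∈ E, (1 - 2 * if z e = false then (1 : ℝ) else 0) := by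
        unfold T2
        refine sum_congr rfl fun e _ => ?_
        cases h : z e
        · norm_num [sg]
        · norm_num [sg]
      rw [h2, sum_sub_distrib, ← mul_sum, sum_boole, sum_const, hcE, hN]
      simp
    have h3 : Even (t * (t + 1)) := Nat.even_mul_succ_self t
    obtain ⟨r, hr⟩ := h3
    refine ⟨(r : ℤ) - t - (E.filter fun e => z e = false).card, ?_⟩
    have h4 : (t : ℝ) * (t + 1) = r + r := by exact_mod_cast hr
    rw [h1]
    push_cast
    nlinarith
  obtain ⟨m, hm⟩ := hT2
  by_cases hm0 : m = 0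
  · have hT : T2 z = t := by
      rw [hm0] at hm
      push_cast at hm
      linarith
    by_cases hall : ∀ T : Orb n, YT T z = 0
    · exact Or.inl ⟨hT, hall⟩
    · right; right
      push Not at hall
      obtain ⟨T, hTne, hmin⟩ : ∃ T : Orb n, YT T z ≠ 0 ∧
          ∀ T' : Orb n, YT T' z ≠ 0 → T.ord ≤ T'.ord := by
        have hne : (univ.filter fun T : Orb n => YT T z ≠ 0).Nonempty := by
          obtain ⟨T, hT'⟩ := hall
          exact ⟨T, by simpa using hT'⟩
        obtain ⟨T, hT1, hT2⟩ := exists_min_image _ (fun T : Orb n => T.ord) hne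
        refine ⟨T, by simpa using hT1, fun T' hT' => hT2 T' (by simpa using hT')⟩
      obtain ⟨k, hk⟩ := YT_int hA z hT T fun T' hT' => by
        by_contra hcon
        exact absurd (hmin T' hcon) (by omega)
      refine ⟨T, k, ?_, hk⟩
      rintro rfl
      exact hTne (by rw [hk]; simp)
  · exact Or.inr (Or.inl ⟨m, hm0, hm⟩)

end

end Pool.Agent.JX
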