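import Mathlib
import Pool.Agent.JX.Defs

/-!
# Sub-module statements for the minor arcs (M3) of MP_b57267_co
-/

set_option autoImplicit false

namespace Pool.Agent.JX

open Finset BigOperators Classical

noncomputable section

/-- M3a (GCS): Gowers-Cauchy-Schwarz in blocks `B t`, `t ∈ s` (the `h t` with `t ∉ s` are dummies).
One block: `F(z) = ee (pol c z)`, `𝔼_z F = 𝔼_z 𝔼_h F(z h_B)`, Cauchy-Schwarz in `z`, expand the square,
shift; `F(z) conj F(z h_B) = ee (pol (fun J => c J (1 - chi (J ∩ B) h)) z)`. Then induction on `s`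
(Cauchy-Schwarz over the previous `h`; `Function.update`). The blocks need not be disjoint. -/
def StmtGCS : Prop :=
  ∀ (ι T : Type) [Fintype ι] [DecidableEq ι] [Fintype T] [DecidableEq T] (s : Finset T)
    (B : T → Finset ι) (c : Finset ι → ℝ),
    ‖𝔼 z : ι → Bool, ee (pol c z)‖ ^ (2 ^ s.card) ≤
      𝔼 h : T → (ι → Bool),
        ‖𝔼 z : ι → Bool, ee (pol (fun J => c J * ∏ t ∈ s, (1 - chi (J ∩ B t) (h t))) z)‖

/-- M3b (LQ): `g0` and the `S b` do not depend on the coordinates in `B`; Taylor expansion of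
`ee (pol q z)` to order `K` (`K` even): `|e(x) - Σ_{j<K} (2 π i x)^j/j!| ≤ 600 |x|^K` (for `|x| ≤ 1`
exponential series, for `|x| ≥ 1` trivially), `(pol q)^j` is a combination of characters `chi A` with
`Σ |coef| ≤ (Σ |q|)^j` and `|A| ≤ d j`; for each of them average first over the coordinates in `B`:
`|𝔼_ξ e(Σ S_b ξ_b) χ_M(ξ)| = ∏_{b ∉ M} |cos| ∏_{b ∈ M} |sin| ≤ ∏_{b ∈ B \ M} |cos (2 π S_b)|`. -/
def StmtLQ : Prop :=
  ∀ (ι : Type) [Fintype ι] [DecidableEq ι] (B : Finset ι) (g0 : (ι → Bool) → ℝ)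
    (S : ι → (ι → Bool) → ℝ) (q : Finset ι → ℝ) (d K : ℕ),
    Even K → 0 < K →
    (∀ z z' : ι → Bool, (∀ i, i ∉ B → z i = z' i) → g0 z = g0 z') →
    (∀ b ∈ B, ∀ z z' : ι → Bool, (∀ i, i ∉ B → z i = z' i) → S b z = S b z') →
    (∀ A, d < A.card → q A = 0) →
    ‖𝔼 z : ι → Bool, ee (g0 z + (∑ b ∈ B, S b z * sg (z b)) + pol q z)‖ ≤
      600 * ((1 + ∑ A, |q A|) ^ K *
        (∑ M ∈ B.powerset.filter (fun M => M.card ≤ d * K),
          𝔼 z : ι → Bool, ∏ b ∈ B \ M, |Real.cos (2 * Real.pi * S b z)|) +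
        𝔼 z : ι → Bool, (pol q z) ^ K)

/-- M3c (IND): factorization over independent groups of coordinates -/
def StmtInd : Prop :=
  ∀ (E G A X : Type) [Fintype E] [DecidableEq E] [Fintype G] [DecidableEq G] [Fintype A]
    [DecidableEq A] [Fintype X] [DecidableEq X] [Nonempty X] (u : G × A → E),
    Function.Injective u → ∀ (Φ : G → (A → X) → ℝ),
    (𝔼 z : E → X, ∏ l, Φ l (fun a => z (u (l, a)))) = ∏ l, 𝔼 w : A → X, Φ l w

/-- the copy of an edge of `Fin k` under a transversal `α` -/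
def tr {k m : ℕ} (α : Fin k → Fin m) (e : Sym2 (Fin k)) : Sym2 (Fin k × Fin m) :=
  Sym2.map (fun i => (i, α i)) e

/-- the linear coefficients in one group -/
def SG {k m : ℕ} (H : Finset (Sym2 (Fin k))) (i0 j0 : Fin k) (c : Finset (Sym2 (Fin k)) → ℝ)
    (a b : Fin m) (z : Sym2 (Fin k × Fin m) → Bool)
    (h : Sym2 (Fin k) → Sym2 (Fin k × Fin m) → Bool) : ℝ :=
  ∑ α ∈ univ.filter (fun α : Fin k → Fin m => α i0 = a ∧ α j0 = b),
    ∑ J ∈ univ.filter (fun J => H ⊆ J),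
      c J * (∏ e ∈ J.erase s(i0, j0), sg (z (tr α e))) *
        ∏ t ∈ H.erase s(i0, j0), (1 - sg (h t (tr α t)))

/-- M3d (PG): the estimate for one group.
Let `κ² = Σ_{J ⊇ H} c(J)²` (between `2^-35 D²` and `2^45 D²`), `r = |H|`, `th = 2 π SG`,
`A = 𝔼 Σ th² = 4 π² 2^(r-1) κ² m^k` (orthogonality: `H` is spanning), for every `h`:
`𝔼_z SG⁴ ≤ 9^15 (𝔼_z SG²)² ≤ C (κ² m^(k-2))²`. `∏ |cos th_i| ≤ 1 - X + X²/2`,
`X = Σ sin²(th_i)/2`, `sin² x ≥ x² - x⁴/3`, so `𝔼 ∏ ≤ 1 - A/2 + C A²`: take `m` maximal with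
`A ≤ A0` (if `m = 1` is allowed), then `A ≥ A0/2^k`. If `m = 1` has `A > A0` then `D ≥ c` and one good
configuration (`h = -1` on `H \ t0`, `z = -1` off `H`, `z = 1` on `H \ t0`) has `SG = ± D/2`,
`|cos (π D)| ≤ cos (π c) < 1`. -/
def StmtPG : Prop :=
  ∀ k : ℕ, 2 ≤ k → k ≤ 5 → ∃ δ C : ℝ, 0 < δ ∧ δ < 1 ∧ 0 < C ∧
    ∀ (H : Finset (Sym2 (Fin k))) (i0 j0 : Fin k), i0 ≠ j0 → s(i0, j0) ∈ H →
      (∀ e ∈ H, ¬ e.IsDiag) → (∀ i : Fin k, ∃ e ∈ H, i ∈ e) →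
      ∀ (c : Finset (Sym2 (Fin k)) → ℝ) (D : ℝ), 0 < D → D ≤ 1 / 2 →
        (∀ J, |c J| ≤ 2 ^ 15 * D) →
        |∑ J ∈ univ.filter (fun J => H ⊆ J), c J * (-1) ^ (J \ H).card| = D / 2 ^ H.card →
        ∃ m : ℕ, 1 ≤ m ∧ (m : ℝ) ^ k * D ^ 2 ≤ C ∧
          (𝔼 w : (Sym2 (Fin k × Fin m) → Bool) × (Sym2 (Fin k) → Sym2 (Fin k × Fin m) → Bool),
            ∏ ab : Fin m × Fin m,
              |Real.cos (2 * Real.pi * SG H i0 j0 c ab.1 ab.2 w.1 w.2)|) ≤ 1 - δ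

end

end Pool.Agent.JX
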