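import Mathlib
import Pool.Agent.JX.Defs
import Pool.Agent.JX.StmtsM3

/-!
# M3b (LQ): characters against a linear phase, Taylor expansion of the nonlinear part
-/

set_option autoImplicit false

namespace Pool.Agent.JX

open Finset BigOperators Classical

noncomputable section

set_option linter.unusedSectionVars false

namespace LQ

variable {ι : Type} [Fintype ι] [DecidableEq ι]

lemma sg_sq (b : Bool) : sg b * sg b = 1 := by
  cases b <;> simp [sg]

lemma abs_sg (b : Bool) : |sg b| = 1 := by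
  cases b <;> simp [sg]

lemma chi_eq (F : Finset ι) (z : ι → Bool) : chi F z = ∏ e, if e ∈ F then sg (z e) else 1 := by
  rw [chi, Finset.prod_ite_mem, univ_inter]

lemma chi_mul (F G : Finset ι) (z : ι → Bool) :
    chi F z * chi G z = chi (symmDiff F G) z := by
  rw [chi_eq, chi_eq, chi_eq, ← Finset.prod_mul_distrib]
  refine Finset.prod_congr rfl fun e _ => ?_
  by_cases h1 : e ∈ F <;> by_cases h2 : e ∈ G <;>
    simp [h1, h2, Finset.mem_symmDiff, sg_sq]

lemma card_symmDiff_le (F G : Finset ι) : (symmDiff F G).card ≤ F.card + G.card := by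
  refine (Finset.card_le_card ?_).trans (Finset.card_union_le F G)
  intro e he
  rw [Finset.mem_symmDiff] at he
  rw [Finset.mem_union]
  tauto

lemma ee_add (x y : ℝ) : ee (x + y) = ee x * ee y := by
  unfold ee
  rw [← Complex.exp_add]
  congr 1
  push_cast
  ring

lemma ee_zero : ee 0 = 1 := by simp [ee]

lemma ee_sum {κ : Type} (s : Finset κ) (f : κ → ℝ) : ee (∑ i ∈ s, f i) = ∏ i ∈ s, ee (f i) := by
  induction s using Finset.induction_on with
  | empty => simp [ee_zero]
  | insert a s ha ih => rw [Finset.sum_insert ha, Finset.prod_insert ha, ee_add, ih]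

lemma norm_ee (x : ℝ) : ‖ee x‖ = 1 := by
  unfold ee
  exact Complex.norm_exp_ofReal_mul_I _

/-- replace the coordinates in `B` -/
def mix (B : Finset ι) (z h : ι → Bool) (i : ι) : Bool := if i ∈ B then h i else z i

lemma mix_expect (B : Finset ι) (G : (ι → Bool) → ℂ) :
    (𝔼 z : ι → Bool, G z) = 𝔼 z : ι → Bool, 𝔼 h : ι → Bool, G (mix B z h) := by
  let e : ((ι → Bool) × (ι → Bool)) ≃ ((ι → Bool) × (ι → Bool)) :=
    { toFun := fun p => (mix B p.1 p.2, mix B p.2 p.1)
      invFun := fun p => (mix B p.1 p.2, mix B p.2 p.1)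
      left_inv := by
        rintro ⟨z, h⟩
        ext i <;> simp only [mix] <;> by_cases hi : i ∈ B <;> simp [hi]
      right_inv := by
        rintro ⟨z, h⟩
        ext i <;> simp only [mix] <;> by_cases hi : i ∈ B <;> simp [hi] }
  have h1 : (𝔼 z : ι → Bool, 𝔼 h : ι → Bool, G (mix B z h)) =
      𝔼 p : (ι → Bool) × (ι → Bool), G (mix B p.1 p.2) := by
    rw [← Finset.univ_product_univ, Finset.expect_product]
  have h2 : (𝔼 p : (ι → Bool) × (ι → Bool), G (mix B p.1 p.2)) =
      𝔼 p : (ι → Bool) × (ι → Bool), G p.1 :=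
    Fintype.expect_equiv e _ _ fun p => rfl
  have h3 : (𝔼 p : (ι → Bool) × (ι → Bool), G p.1) = 𝔼 z : ι → Bool, G z := by
    rw [← Finset.univ_product_univ, Finset.expect_product]
    refine Finset.expect_congr rfl fun z _ => ?_
    exact Finset.expect_const (s := (univ : Finset (ι → Bool))) univ_nonempty (G z)
  rw [h1, h2, h3]

/-- averages of products over independent coordinates -/
lemma expect_prod (φ : ι → Bool → ℂ) :
    (𝔼 h : ι → Bool, ∏ i, φ i (h i)) = ∏ i, 𝔼 x : Bool, φ i x := by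
  rw [Fintype.expect_eq_sum_div_card]
  have h1 : ∀ i, (𝔼 x : Bool, φ i x) = (∑ x : Bool, φ i x) / 2 := by
    intro i
    rw [Fintype.expect_eq_sum_div_card]
    simp
  simp only [h1]
  rw [Finset.prod_div_distrib, Finset.prod_const]
  have h2 : (∏ i, ∑ x : Bool, φ i x) = ∑ h : ι → Bool, ∏ i, φ i (h i) := by
    rw [Finset.prod_univ_sum, Fintype.piFinset_univ]
  rw [h2]
  congr 1
  simp

lemma expect_bool (f : Bool → ℂ) : (𝔼 x : Bool, f x) = (f true + f false) / 2 := by
  rw [Fintype.expect_eq_sum_div_card]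
  simp

/-- the inner average -/
lemma inner_avg (B M : Finset ι) (hM : M ⊆ B) (S : ι → ℝ) :
    ‖𝔼 h : ι → Bool, ee (∑ b ∈ B, S b * sg (h b)) * (chi M h : ℂ)‖ ≤
      ∏ b ∈ B \ M, |Real.cos (2 * Real.pi * S b)| := by
  set φ : ι → Bool → ℂ := fun i x =>
    if i ∈ B then ee (S i * sg x) * (if i ∈ M then ((sg x : ℝ) : ℂ) else 1) else 1 with hφ
  have h1 : ∀ h : ι → Bool, ee (∑ b ∈ B, S b * sg (h b)) * (chi M h : ℂ) =
      ∏ i, φ i (h i) := by
    intro h
    rw [ee_sum, chi_eq]
    push_cast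
    have e1 : ∏ b ∈ B, ee (S b * sg (h b)) = ∏ i, if i ∈ B then ee (S i * sg (h i)) else 1 := by
      rw [Finset.prod_ite_mem, univ_inter]
    rw [e1, ← Finset.prod_mul_distrib]
    refine Finset.prod_congr rfl fun i _ => ?_
    simp only [hφ]
    by_cases hi : i ∈ B
    · simp only [hi, if_true]
      by_cases hm : i ∈ M <;> simp [hm]
    · have hm : i ∉ M := fun h => hi (hM h)
      simp [hi, hm]
  simp only [h1]
  rw [expect_prod, norm_prod]
  have h2 : ∏ b ∈ B \ M, |Real.cos (2 * Real.pi * S b)| =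
      ∏ i, if i ∈ B \ M then |Real.cos (2 * Real.pi * S i)| else 1 := by
    rw [Finset.prod_ite_mem, univ_inter]
  rw [h2]
  refine Finset.prod_le_prod (fun i _ => norm_nonneg _) fun i _ => ?_
  rw [expect_bool]
  simp only [hφ]
  by_cases hi : i ∈ B
  · by_cases hm : i ∈ M
    · have : i ∉ B \ M := by simp [hm]
      simp only [hi, hm, if_true, this, if_false]
      have hn : ‖ee (S i * sg true) * ((sg true : ℝ) : ℂ) + ee (S i * sg false) *
          ((sg false : ℝ) : ℂ)‖ ≤ 1 + 1 := by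
        refine (norm_add_le _ _).trans (add_le_add ?_ ?_)
        · rw [norm_mul, norm_ee, one_mul, Complex.norm_real, Real.norm_eq_abs, abs_sg]
        · rw [norm_mul, norm_ee, one_mul, Complex.norm_real, Real.norm_eq_abs, abs_sg]
      rw [norm_div]
      simp only [Complex.norm_ofNat]
      linarith
    · have : i ∈ B \ M := by simp [hi, hm]
      simp only [hi, hm, if_true, this, if_false, mul_one]
      have hc : (ee (S i * sg true) + ee (S i * sg false)) / 2 =
          ((Real.cos (2 * Real.pi * S i) : ℝ) : ℂ) := by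
        rw [Complex.ofReal_cos, Complex.cos]
        unfold ee sg
        congr 2
        · congr 1; push_cast; simp
        · congr 1; push_cast; simp
      rw [hc, Complex.norm_real, Real.norm_eq_abs]
  · have : i ∉ B \ M := by simp [hi]
    simp [hi]

lemma norm_expect_le' {κ : Type} [Fintype κ] (f : κ → ℂ) : ‖𝔼 i, f i‖ ≤ 𝔼 i, ‖f i‖ :=
  RCLike.norm_expect_le (K := ℝ)

/-! ### the base estimate -/

lemma chi_mix (B A : Finset ι) (z h : ι → Bool) :
    chi A (mix B z h) = chi (A \ B) z * chi (A ∩ B) h := by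
  rw [chi_eq, chi_eq, chi_eq, ← Finset.prod_mul_distrib]
  refine Finset.prod_congr rfl fun e _ => ?_
  by_cases h1 : e ∈ A <;> by_cases h2 : e ∈ B <;> simp [h1, h2, mix]

lemma abs_chi (F : Finset ι) (z : ι → Bool) : |chi F z| = 1 := by
  rw [chi, Finset.abs_prod]
  exact Finset.prod_eq_one fun e _ => abs_sg _

/-- the sum on the right hand side -/
def WW (B : Finset ι) (S : ι → (ι → Bool) → ℝ) (D : ℕ) : ℝ :=
  ∑ M ∈ B.powerset.filter (fun M => M.card ≤ D),
    𝔼 z : ι → Bool, ∏ b ∈ B \ M, |Real.cos (2 * Real.pi * S b z)|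

/-- the phase without the nonlinear part -/
def gg (B : Finset ι) (g0 : (ι → Bool) → ℝ) (S : ι → (ι → Bool) → ℝ) (z : ι → Bool) : ℂ :=
  ee (g0 z + ∑ b ∈ B, S b z * sg (z b))

lemma WW_nonneg (B : Finset ι) (S : ι → (ι → Bool) → ℝ) (D : ℕ) : 0 ≤ WW B S D :=
  Finset.sum_nonneg fun M _ => Finset.expect_nonneg fun z _ =>
    Finset.prod_nonneg fun b _ => abs_nonneg _

lemma base (B : Finset ι) (g0 : (ι → Bool) → ℝ) (S : ι → (ι → Bool) → ℝ) (D : ℕ)
    (hg0 : ∀ z z' : ι → Bool, (∀ i, i ∉ B → z i = z' i) → g0 z = g0 z')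
    (hS : ∀ b ∈ B, ∀ z z' : ι → Bool, (∀ i, i ∉ B → z i = z' i) → S b z = S b z')
    (A : Finset ι) (hA : A.card ≤ D) :
    ‖𝔼 z : ι → Bool, gg B g0 S z * (chi A z : ℂ)‖ ≤ WW B S D := by
  rw [mix_expect B]
  have h1 : ∀ z : ι → Bool, ‖𝔼 h : ι → Bool, gg B g0 S (mix B z h) * (chi A (mix B z h) : ℂ)‖ ≤
      ∏ b ∈ B \ (A ∩ B), |Real.cos (2 * Real.pi * S b z)| := by
    intro z
    have hmix : ∀ h : ι → Bool, ∀ i, i ∉ B → mix B z h i = z i := by
      intro h i hi
      simp [mix, hi]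
    have h2 : ∀ h : ι → Bool, gg B g0 S (mix B z h) * (chi A (mix B z h) : ℂ) =
        (ee (g0 z) * (chi (A \ B) z : ℂ)) *
          (ee (∑ b ∈ B, S b z * sg (h b)) * (chi (A ∩ B) h : ℂ)) := by
      intro h
      have e1 : ∑ b ∈ B, S b (mix B z h) * sg (mix B z h b) = ∑ b ∈ B, S b z * sg (h b) := by
        refine Finset.sum_congr rfl fun b hb => ?_
        rw [hS b hb _ _ (hmix h)]
        simp [mix, hb]
      unfold gg
      rw [e1, hg0 _ _ (hmix h), ee_add, chi_mix]
      push_cast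
      ring
    simp only [h2]
    rw [← Finset.mul_expect, norm_mul, norm_mul, norm_ee, one_mul, Complex.norm_real,
      Real.norm_eq_abs, abs_chi, one_mul]
    exact inner_avg B (A ∩ B) Finset.inter_subset_right (fun b => S b z)
  refine (norm_expect_le' _).trans ?_
  refine (Finset.expect_le_expect fun z _ => h1 z).trans ?_
  have hmem : A ∩ B ∈ B.powerset.filter (fun M => M.card ≤ D) := by
    rw [Finset.mem_filter, Finset.mem_powerset]
    exact ⟨Finset.inter_subset_right, (Finset.card_le_card Finset.inter_subset_left).trans hA⟩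
  exact Finset.single_le_sum (f := fun M => 𝔼 z : ι → Bool,
    ∏ b ∈ B \ M, |Real.cos (2 * Real.pi * S b z)|)
    (fun M _ => Finset.expect_nonneg fun z _ => Finset.prod_nonneg fun b _ => abs_nonneg _) hmem

lemma ind (B : Finset ι) (g0 : (ι → Bool) → ℝ) (S : ι → (ι → Bool) → ℝ) (q : Finset ι → ℝ)
    (d D : ℕ)
    (hg0 : ∀ z z' : ι → Bool, (∀ i, i ∉ B → z i = z' i) → g0 z = g0 z')
    (hS : ∀ b ∈ B, ∀ z z' : ι → Bool, (∀ i, i ∉ B → z i = z' i) → S b z = S b z')
    (hq : ∀ A, d < A.card → q A = 0) (j : ℕ) :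
    ∀ A : Finset ι, A.card + d * j ≤ D →
      ‖𝔼 z : ι → Bool, gg B g0 S z * (chi A z : ℂ) * ((pol q z : ℝ) : ℂ) ^ j‖ ≤
        (∑ F, |q F|) ^ j * WW B S D := by
  induction j with
  | zero =>
    intro A hA
    simp only [pow_zero, mul_one, one_mul]
    exact base B g0 S D hg0 hS A (by simpa using hA)
  | succ j ih =>
    intro A hA
    have h1 : ∀ z : ι → Bool, gg B g0 S z * (chi A z : ℂ) * ((pol q z : ℝ) : ℂ) ^ (j + 1) =
        ∑ F, (q F : ℂ) * (gg B g0 S z * (chi (symmDiff A F) z : ℂ) *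
          ((pol q z : ℝ) : ℂ) ^ j) := by
      intro z
      have e1 : ((pol q z : ℝ) : ℂ) = ∑ F, (q F : ℂ) * (chi F z : ℂ) := by
        unfold pol; push_cast; rfl
      rw [pow_succ]
      conv_lhs => rw [← mul_assoc]; rhs; rw [e1]
      rw [Finset.mul_sum]
      refine Finset.sum_congr rfl fun F _ => ?_
      rw [← chi_mul]
      push_cast
      ring
    simp only [h1]
    rw [Finset.expect_sum_comm]
    refine (norm_sum_le _ _).trans ?_
    have h2 : ∀ F ∈ (univ : Finset (Finset ι)),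
        ‖𝔼 z : ι → Bool, (q F : ℂ) * (gg B g0 S z * (chi (symmDiff A F) z : ℂ) *
          ((pol q z : ℝ) : ℂ) ^ j)‖ ≤ |q F| * ((∑ F, |q F|) ^ j * WW B S D) := by
      intro F _
      rw [← Finset.mul_expect, norm_mul, Complex.norm_real, Real.norm_eq_abs]
      by_cases hF : d < F.card
      · rw [hq F hF]; simp
      · refine mul_le_mul_of_nonneg_left (ih _ ?_) (abs_nonneg _)
        have := card_symmDiff_le A F
        push Not at hF
        rw [Nat.mul_succ] at hA
        omega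
    refine (Finset.sum_le_sum h2).trans ?_
    rw [← Finset.sum_mul, pow_succ]
    exact le_of_eq (by ring)

/-! ### Taylor expansion -/

lemma exp_bd : Real.exp (2 * Real.pi) ≤ 599 := by
  have h1 : 2 * Real.pi ≤ 6.3 := by
    have := Real.pi_lt_d2
    linarith
  refine (Real.exp_le_exp.2 h1).trans ?_
  have h2 : Real.exp 6.3 ^ 10 ≤ 599 ^ 10 := by
    have h3 : Real.exp 6.3 ^ 10 = Real.exp 1 ^ 63 := by
      rw [← Real.exp_nat_mul, ← Real.exp_nat_mul]
      congr 1
      norm_num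
    rw [h3]
    have h4 := Real.exp_one_lt_d9.le
    refine (pow_le_pow_left₀ (Real.exp_pos 1).le h4 63).trans ?_
    norm_num
  exact le_of_pow_le_pow_left₀ (by norm_num) (by norm_num) h2

lemma tail_le (a t : ℝ) (ha : 0 ≤ a) (ht : 0 ≤ t) (ht1 : t ≤ 1) (K : ℕ) :
    Real.exp (t * a) - ∑ m ∈ Finset.range K, (t * a) ^ m / (m.factorial : ℝ) ≤
      t ^ K * Real.exp a := by
  have hs : ∀ x : ℝ, Summable fun m : ℕ => x ^ m / (m.factorial : ℝ) :=
    Real.summable_pow_div_factorial
  have he : ∀ x : ℝ, Real.exp x = ∑' m : ℕ, x ^ m / (m.factorial : ℝ) := by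
    intro x
    rw [Real.exp_eq_exp_ℝ, NormedSpace.exp_eq_tsum_div]
  have h1 : ∀ x : ℝ, Real.exp x - ∑ m ∈ Finset.range K, x ^ m / (m.factorial : ℝ) =
      ∑' m : ℕ, x ^ (m + K) / ((m + K).factorial : ℝ) := by
    intro x
    rw [he x, ← (hs x).sum_add_tsum_nat_add K]
    ring
  have hs' : ∀ x : ℝ, Summable fun m : ℕ => x ^ (m + K) / ((m + K).factorial : ℝ) :=
    fun x => (summable_nat_add_iff K).2 (hs x)
  rw [h1]
  have h2 : ∑' m : ℕ, (t * a) ^ (m + K) / ((m + K).factorial : ℝ) ≤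
      ∑' m : ℕ, t ^ K * (a ^ (m + K) / ((m + K).factorial : ℝ)) := by
    refine Summable.tsum_le_tsum (fun m => ?_) (hs' _) ((hs' a).mul_left _)
    rw [mul_pow, mul_div_assoc]
    refine mul_le_mul_of_nonneg_right ?_ (by positivity)
    exact pow_le_pow_of_le_one ht ht1 (by omega)
  refine h2.trans ?_
  rw [tsum_mul_left, ← h1 a]
  refine mul_le_mul_of_nonneg_left ?_ (by positivity)
  have : 0 ≤ ∑ m ∈ Finset.range K, a ^ m / (m.factorial : ℝ) :=
    Finset.sum_nonneg fun m _ => by positivity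
  linarith

lemma taylor (x : ℝ) (K : ℕ) :
    ‖ee x - ∑ j ∈ Finset.range K, (((2 * Real.pi * x : ℝ) : ℂ) * Complex.I) ^ j /
      (j.factorial : ℂ)‖ ≤ 600 * |x| ^ K := by
  have hpi := Real.pi_pos
  have hn : ‖((2 * Real.pi * x : ℝ) : ℂ) * Complex.I‖ = |x| * (2 * Real.pi) := by
    rw [norm_mul, Complex.norm_I, mul_one, Complex.norm_real, Real.norm_eq_abs, abs_mul,
      abs_of_pos (by positivity : (0 : ℝ) < 2 * Real.pi), mul_comm]
  rcases le_total |x| 1 with h | h
  · have h1 := Complex.norm_exp_sub_sum_le_exp_norm_sub_sum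
      (((2 * Real.pi * x : ℝ) : ℂ) * Complex.I) K
    rw [hn] at h1
    have h2 := tail_le (2 * Real.pi) |x| (by positivity) (abs_nonneg x) h K
    unfold ee
    refine h1.trans (h2.trans ?_)
    have h3 := exp_bd
    have h4 : 0 ≤ |x| ^ K := by positivity
    nlinarith
  · have h0 : ‖∑ j ∈ Finset.range K, (((2 * Real.pi * x : ℝ) : ℂ) * Complex.I) ^ j /
      (j.factorial : ℂ)‖ ≤ |x| ^ K * Real.exp (2 * Real.pi) := by
      refine (norm_sum_le _ _).trans ?_
      have h1 : ∀ j ∈ Finset.range K, ‖(((2 * Real.pi * x : ℝ) : ℂ) * Complex.I) ^ j /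
          (j.factorial : ℂ)‖ ≤ |x| ^ K * ((2 * Real.pi) ^ j / (j.factorial : ℝ)) := by
        intro j hj
        rw [norm_div, norm_pow, hn, mul_pow, Complex.norm_natCast, mul_div_assoc]
        refine mul_le_mul_of_nonneg_right ?_ (by positivity)
        exact pow_le_pow_right₀ h (Finset.mem_range.1 hj).le
      refine (Finset.sum_le_sum h1).trans ?_
      rw [← Finset.mul_sum]
      exact mul_le_mul_of_nonneg_left (Real.sum_le_exp_of_nonneg (by positivity) K) (by positivity)
    refine (norm_sub_le _ _).trans ?_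
    rw [norm_ee]
    have h3 := exp_bd
    have h4 : 1 ≤ |x| ^ K := one_le_pow₀ h
    nlinarith

end LQ

open LQ

theorem stmtLQ : StmtLQ := by
  intro ι _ _ B g0 S q d K hK hK0 hg0 hS hq
  set Qn : ℝ := ∑ A, |q A| with hQn
  have hQ0 : 0 ≤ Qn := Finset.sum_nonneg fun A _ => abs_nonneg _
  have hW : (∑ M ∈ B.powerset.filter (fun M => M.card ≤ d * K),
          𝔼 z : ι → Bool, ∏ b ∈ B \ M, |Real.cos (2 * Real.pi * S b z)|) = WW B S (d * K) := by
    unfold WW
    congr!
  rw [hW]
  set W : ℝ := WW B S (d * K) with hWdef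
  have hW0 : 0 ≤ W := WW_nonneg B S (d * K)
  have hpi := Real.pi_pos
  set P : (ι → Bool) → ℂ := fun z => ∑ j ∈ Finset.range K,
    (((2 * Real.pi * pol q z : ℝ) : ℂ) * Complex.I) ^ j / (j.factorial : ℂ) with hP
  have h1 : ∀ z : ι → Bool, ee (g0 z + (∑ b ∈ B, S b z * sg (z b)) + pol q z) =
      gg B g0 S z * P z + gg B g0 S z * (ee (pol q z) - P z) := by
    intro z
    rw [ee_add]
    unfold gg
    ring
  simp only [h1]
  rw [Finset.expect_add_distrib]
  refine (norm_add_le _ _).trans ?_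
  have h2 : ‖𝔼 z : ι → Bool, gg B g0 S z * (ee (pol q z) - P z)‖ ≤
      600 * 𝔼 z : ι → Bool, (pol q z) ^ K := by
    refine (norm_expect_le' _).trans ?_
    rw [Finset.mul_expect]
    refine Finset.expect_le_expect fun z _ => ?_
    rw [norm_mul]
    have e1 : ‖gg B g0 S z‖ = 1 := norm_ee _
    rw [e1, one_mul]
    refine (taylor (pol q z) K).trans (le_of_eq ?_)
    rw [← abs_pow, abs_of_nonneg (hK.pow_nonneg _)]
  have h3 : ‖𝔼 z : ι → Bool, gg B g0 S z * P z‖ ≤ 600 * ((1 + Qn) ^ K * W) := by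
    have e1 : ∀ z : ι → Bool, gg B g0 S z * P z = ∑ j ∈ Finset.range K,
        ((((2 * Real.pi : ℝ) : ℂ) * Complex.I) ^ j / (j.factorial : ℂ)) *
          (gg B g0 S z * (chi (∅ : Finset ι) z : ℂ) * ((pol q z : ℝ) : ℂ) ^ j) := by
      intro z
      simp only [hP]
      rw [Finset.mul_sum]
      refine Finset.sum_congr rfl fun j _ => ?_
      have : chi (∅ : Finset ι) z = 1 := by simp [chi]
      rw [this]
      push_cast
      rw [mul_pow, mul_pow, mul_pow, mul_pow, mul_pow]
      ring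
    simp only [e1]
    rw [Finset.expect_sum_comm]
    refine (norm_sum_le _ _).trans ?_
    have e2 : ∀ j ∈ Finset.range K, ‖𝔼 z : ι → Bool,
        ((((2 * Real.pi : ℝ) : ℂ) * Complex.I) ^ j / (j.factorial : ℂ)) *
          (gg B g0 S z * (chi (∅ : Finset ι) z : ℂ) * ((pol q z : ℝ) : ℂ) ^ j)‖ ≤
        ((1 + Qn) ^ K * W) * ((2 * Real.pi) ^ j / (j.factorial : ℝ)) := by
      intro j hj
      have hjK := (Finset.mem_range.1 hj).le
      rw [← Finset.mul_expect, norm_mul]
      have n1 : ‖(((2 * Real.pi : ℝ) : ℂ) * Complex.I) ^ j / (j.factorial : ℂ)‖ =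
          (2 * Real.pi) ^ j / (j.factorial : ℝ) := by
        rw [norm_div, norm_pow, norm_mul, Complex.norm_I, mul_one, Complex.norm_real,
          Real.norm_eq_abs, abs_of_pos (by positivity : (0 : ℝ) < 2 * Real.pi),
          Complex.norm_natCast]
      rw [n1, mul_comm]
      refine mul_le_mul_of_nonneg_right ?_ (by positivity)
      refine (ind B g0 S q d (d * K) hg0 hS hq j ∅ ?_).trans ?_
      · rw [Finset.card_empty, zero_add]
        exact Nat.mul_le_mul_left d hjK
      · refine mul_le_mul_of_nonneg_right ?_ hW0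
        calc (∑ F, |q F|) ^ j ≤ (1 + Qn) ^ j := pow_le_pow_left₀ hQ0 (by linarith) j
          _ ≤ (1 + Qn) ^ K := pow_le_pow_right₀ (by linarith) hjK
    refine (Finset.sum_le_sum e2).trans ?_
    rw [← Finset.mul_sum]
    have e3 := Real.sum_le_exp_of_nonneg (by positivity : (0 : ℝ) ≤ 2 * Real.pi) K
    have e4 := exp_bd
    have e5 : 0 ≤ (1 + Qn) ^ K * W := by positivity
    nlinarith
  calc ‖𝔼 z : ι → Bool, gg B g0 S z * P z‖ +
        ‖𝔼 z : ι → Bool, gg B g0 S z * (ee (pol q z) - P z)‖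
      ≤ 600 * ((1 + Qn) ^ K * W) + 600 * 𝔼 z : ι → Bool, (pol q z) ^ K := add_le_add h3 h2
    _ = _ := by ring

end

end Pool.Agent.JX
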