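import Mathlib
import Pool.Agent.JX.Defs
import Pool.Agent.JX.Stmts
import Pool.Agent.JX.Basic

/-!
# M1: Parseval, hypercontractivity, moments (MP_b57267_co)
-/

set_option autoImplicit false

namespace Pool.Agent.JX

open Finset BigOperators Classical

noncomputable section

variable {ι : Type}

/-! ## signs and characters -/

theorem sg_mul_self (b : Bool) : sg b * sg b = 1 := by
  cases b <;> simp [sg]

theorem sg_pow_two (b : Bool) : sg b ^ 2 = 1 := by
  rw [pow_two, sg_mul_self]

theorem sg_not (b : Bool) : sg (!b) = -sg b := by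
  cases b <;> simp [sg]

theorem sg_eq_or (b : Bool) : sg b = 1 ∨ sg b = -1 := by
  cases b <;> simp [sg]

attribute [simp] chi_empty

theorem chi_singleton (i : ι) (z : ι → Bool) : chi {i} z = sg (z i) := by
  simp [chi]

theorem chi_insert [DecidableEq ι] {i : ι} {F : Finset ι} (hi : i ∉ F) (z : ι → Bool) :
    chi (insert i F) z = sg (z i) * chi F z := by
  unfold chi
  rw [prod_insert hi]

theorem chi_mul_self (F : Finset ι) (z : ι → Bool) : chi F z * chi F z = 1 := by
  unfold chi
  rw [← prod_mul_distrib]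
  simp [sg_mul_self]

theorem chi_sq (F : Finset ι) (z : ι → Bool) : chi F z ^ 2 = 1 := by
  rw [pow_two, chi_mul_self]

theorem chi_mul [DecidableEq ι] (F G : Finset ι) (z : ι → Bool) :
    chi F z * chi G z = chi (symmDiff F G) z := by
  have h1 : chi (F ∪ G) z * chi (F ∩ G) z = chi F z * chi G z := by
    unfold chi
    exact prod_union_inter
  have h2 : chi (F ∪ G) z = chi (symmDiff F G) z * chi (F ∩ G) z := by
    have hd : Disjoint (symmDiff F G) (F ∩ G) := by
      rw [Finset.disjoint_left]
      intro a ha hb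
      rw [mem_symmDiff] at ha
      rw [mem_inter] at hb
      rcases ha with h | h
      · exact h.2 hb.2
      · exact h.2 hb.1
    have hu : F ∪ G = symmDiff F G ∪ (F ∩ G) := by
      ext a
      simp only [mem_union, mem_symmDiff, mem_inter]
      tauto
    rw [hu]
    unfold chi
    exact prod_union hd
  rw [← h1, h2, mul_assoc, chi_mul_self, mul_one]

theorem chi_union [DecidableEq ι] {F G : Finset ι} (h : Disjoint F G) (z : ι → Bool) :
    chi (F ∪ G) z = chi F z * chi G z := by
  unfold chi
  exact prod_union h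

/-! ## flipping one coordinate -/

/-- flipAt coordinate `i` -/
def flipAt [DecidableEq ι] (i : ι) (z : ι → Bool) : ι → Bool := Function.update z i (!z i)

theorem flipAt_same [DecidableEq ι] (i : ι) (z : ι → Bool) : flipAt i z i = !z i := by
  simp [flipAt]

theorem flipAt_of_ne [DecidableEq ι] {i e : ι} (h : e ≠ i) (z : ι → Bool) : flipAt i z e = z e := by
  simp [flipAt, h]

theorem flipAt_flipAt [DecidableEq ι] (i : ι) (z : ι → Bool) : flipAt i (flipAt i z) = z := by
  funext e
  by_cases h : e = i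
  · subst h
    rw [flipAt_same, flipAt_same, Bool.not_not]
  · rw [flipAt_of_ne h, flipAt_of_ne h]

/-- flipping as an equivalence -/
def flipEquiv [DecidableEq ι] (i : ι) : (ι → Bool) ≃ (ι → Bool) where
  toFun := flipAt i
  invFun := flipAt i
  left_inv := flipAt_flipAt i
  right_inv := flipAt_flipAt i

theorem chi_flip_mem [DecidableEq ι] {i : ι} {F : Finset ι} (h : i ∈ F) (z : ι → Bool) :
    chi F (flipAt i z) = -chi F z := by
  have hF : F = insert i (F.erase i) := (insert_erase h).symm
  rw [hF, chi_insert (notMem_erase i F), chi_insert (notMem_erase i F), flipAt_same, sg_not]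
  have : chi (F.erase i) (flipAt i z) = chi (F.erase i) z := by
    unfold chi
    apply prod_congr rfl
    intro e he
    rw [flipAt_of_ne (ne_of_mem_erase he)]
  rw [this]
  ring

theorem chi_flip_notMem [DecidableEq ι] {i : ι} {F : Finset ι} (h : i ∉ F) (z : ι → Bool) :
    chi F (flipAt i z) = chi F z := by
  unfold chi
  apply prod_congr rfl
  intro e he
  rw [flipAt_of_ne]
  rintro rfl
  exact h he

theorem expect_flip [Fintype ι] [DecidableEq ι] (i : ι) (f : (ι → Bool) → ℝ) :
    (𝔼 z : ι → Bool, f (flipAt i z)) = 𝔼 z : ι → Bool, f z :=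
  Fintype.expect_equiv (flipEquiv i) _ _ (fun _ => rfl)

theorem expect_eq_zero_of_flip [Fintype ι] [DecidableEq ι] (i : ι) (f : (ι → Bool) → ℝ)
    (h : ∀ z, f (flipAt i z) = -f z) : (𝔼 z : ι → Bool, f z) = 0 := by
  have h1 := expect_flip i f
  have h2 : (𝔼 z : ι → Bool, f (flipAt i z)) = -(𝔼 z : ι → Bool, f z) := by
    rw [← expect_neg_distrib]
    exact expect_congr rfl (fun z _ => h z)
  linarith

theorem expect_chi [Fintype ι] [DecidableEq ι] (F : Finset ι) :
    (𝔼 z : ι → Bool, chi F z) = if F = ∅ then 1 else 0 := by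
  by_cases hF : F = ∅
  · subst hF
    simp
  · rw [if_neg hF]
    obtain ⟨i, hi⟩ := Finset.nonempty_iff_ne_empty.mpr hF
    exact expect_eq_zero_of_flip i _ (fun z => chi_flip_mem hi z)

theorem expect_chi_mul [Fintype ι] [DecidableEq ι] (F G : Finset ι) :
    (𝔼 z : ι → Bool, chi F z * chi G z) = if F = G then 1 else 0 := by
  have : (𝔼 z : ι → Bool, chi F z * chi G z) = 𝔼 z : ι → Bool, chi (symmDiff F G) z :=
    expect_congr rfl (fun z _ => chi_mul F G z)
  rw [this, expect_chi]
  by_cases h : F = G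
  · subst h
    simp
  · rw [if_neg h, if_neg]
    intro h2
    exact h (symmDiff_eq_bot.mp h2)

/-! ## polynomials -/

theorem pol_zero [Fintype ι] (z : ι → Bool) : pol (fun _ : Finset ι => (0 : ℝ)) z = 0 := by
  simp [pol]

theorem pol_add [Fintype ι] (c d : Finset ι → ℝ) (z : ι → Bool) :
    pol (fun F => c F + d F) z = pol c z + pol d z := by
  unfold pol
  rw [← sum_add_distrib]
  exact sum_congr rfl (fun F _ => by ring)

theorem pol_sub [Fintype ι] (c d : Finset ι → ℝ) (z : ι → Bool) :
    pol (fun F => c F - d F) z = pol c z - pol d z := by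
  unfold pol
  rw [← sum_sub_distrib]
  exact sum_congr rfl (fun F _ => by ring)

theorem pol_smul [Fintype ι] (a : ℝ) (c : Finset ι → ℝ) (z : ι → Bool) :
    pol (fun F => a * c F) z = a * pol c z := by
  unfold pol
  rw [mul_sum]
  exact sum_congr rfl (fun F _ => by ring)

theorem pol_neg [Fintype ι] (c : Finset ι → ℝ) (z : ι → Bool) :
    pol (fun F => -c F) z = -pol c z := by
  unfold pol
  rw [← sum_neg_distrib]
  exact sum_congr rfl (fun F _ => by ring)

theorem abs_pol_le [Fintype ι] (c : Finset ι → ℝ) (z : ι → Bool) : |pol c z| ≤ ∑ F, |c F| := by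
  unfold pol
  refine (abs_sum_le_sum_abs _ _).trans (le_of_eq ?_)
  refine sum_congr rfl (fun F _ => ?_)
  rw [abs_mul, abs_chi, mul_one]

theorem pol_single [Fintype ι] [DecidableEq ι] (G : Finset ι) (a : ℝ) (z : ι → Bool) :
    pol (fun F => if F = G then a else 0) z = a * chi G z := by
  unfold pol
  simp [ite_mul]

theorem pol_sum [Fintype ι] {κ : Type} (s : Finset κ) (c : κ → Finset ι → ℝ) (z : ι → Bool) :
    pol (fun F => ∑ k ∈ s, c k F) z = ∑ k ∈ s, pol (c k) z := by
  unfold pol
  rw [sum_comm]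
  exact sum_congr rfl (fun F _ => by rw [sum_mul])

/-- convolution of coefficient functions -/
def pconv [Fintype ι] [DecidableEq ι] (c d : Finset ι → ℝ) (F : Finset ι) : ℝ :=
  ∑ G : Finset ι, c G * d (symmDiff F G)

theorem sum_symmDiff [Fintype ι] [DecidableEq ι] {M : Type} [AddCommMonoid M] (G : Finset ι)
    (f : Finset ι → M) :
    ∑ F : Finset ι, f (symmDiff F G) = ∑ F : Finset ι, f F := by
  refine Fintype.sum_equiv (⟨fun F => symmDiff F G, fun F => symmDiff F G, ?_, ?_⟩ :
    Finset ι ≃ Finset ι) _ _ (fun _ => rfl)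
  · intro F
    simp
  · intro F
    simp

theorem pol_mul [Fintype ι] [DecidableEq ι] (c d : Finset ι → ℝ) (z : ι → Bool) :
    pol c z * pol d z = pol (pconv c d) z := by
  have h1 : pol c z * pol d z = ∑ G : Finset ι, ∑ H : Finset ι, (c G * d H) * chi (symmDiff G H) z := by
    unfold pol
    rw [sum_mul_sum]
    refine sum_congr rfl (fun G _ => sum_congr rfl (fun H _ => ?_))
    rw [← chi_mul]
    ring
  have h2 : pol (pconv c d) z
      = ∑ G : Finset ι, ∑ F : Finset ι, (c G * d (symmDiff F G)) * chi F z := by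
    unfold pol pconv
    rw [sum_comm]
    refine sum_congr rfl (fun F _ => ?_)
    rw [sum_mul]
  rw [h1, h2]
  refine sum_congr rfl (fun G _ => ?_)
  rw [← sum_symmDiff G (fun H => (c G * d H) * chi (symmDiff G H) z)]
  refine sum_congr rfl (fun F _ => ?_)
  have : symmDiff G (symmDiff F G) = F := by
    rw [symmDiff_comm F G]
    simp
  rw [this]

theorem card_le_symmDiff [DecidableEq ι] (F G : Finset ι) :
    F.card ≤ G.card + (symmDiff F G).card := by
  calc F.card ≤ (G ∪ symmDiff F G).card := by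
        apply card_le_card
        intro a ha
        rw [mem_union, mem_symmDiff]
        by_cases h : a ∈ G
        · exact Or.inl h
        · exact Or.inr (Or.inl ⟨ha, h⟩)
    _ ≤ G.card + (symmDiff F G).card := card_union_le _ _

theorem pconv_deg [Fintype ι] [DecidableEq ι] {c d : Finset ι → ℝ} {m n : ℕ}
    (hc : ∀ F, m < F.card → c F = 0) (hd : ∀ F, n < F.card → d F = 0) :
    ∀ F, m + n < F.card → pconv c d F = 0 := by
  intro F hF
  unfold pconv
  apply sum_eq_zero
  intro G _
  by_cases h : m < G.card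
  · rw [hc G h, zero_mul]
  · have := card_le_symmDiff F G
    rw [hd (symmDiff F G) (by omega), mul_zero]

theorem pconv_l1 [Fintype ι] [DecidableEq ι] (c d : Finset ι → ℝ) :
    ∑ F, |pconv c d F| ≤ (∑ F, |c F|) * ∑ F, |d F| := by
  calc ∑ F, |pconv c d F| ≤ ∑ F : Finset ι, ∑ G : Finset ι, |c G| * |d (symmDiff F G)| := by
        refine sum_le_sum (fun F _ => ?_)
        unfold pconv
        refine (abs_sum_le_sum_abs _ _).trans (le_of_eq ?_)
        exact sum_congr rfl (fun G _ => abs_mul _ _)
    _ = ∑ G : Finset ι, |c G| * ∑ F : Finset ι, |d (symmDiff F G)| := by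
        rw [sum_comm]
        exact sum_congr rfl (fun G _ => by rw [mul_sum])
    _ = (∑ F, |c F|) * ∑ F, |d F| := by
        rw [sum_mul]
        refine sum_congr rfl (fun G _ => ?_)
        rw [sum_symmDiff G (fun H => |d H|)]

/-! ## Parseval -/

theorem parseval' [Fintype ι] [DecidableEq ι] (c d : Finset ι → ℝ) :
    (𝔼 z : ι → Bool, pol c z * pol d z) = ∑ F, c F * d F := by
  have h1 : (𝔼 z : ι → Bool, pol c z * pol d z)
      = 𝔼 z : ι → Bool, ∑ F : Finset ι, ∑ G : Finset ι, (c F * d G) * (chi F z * chi G z) := by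
    refine expect_congr rfl (fun z _ => ?_)
    unfold pol
    rw [sum_mul_sum]
    exact sum_congr rfl (fun F _ => sum_congr rfl (fun G _ => by ring))
  rw [h1, expect_sum_comm]
  refine sum_congr rfl (fun F _ => ?_)
  rw [expect_sum_comm]
  have h2 : ∀ G : Finset ι, (𝔼 z : ι → Bool, (c F * d G) * (chi F z * chi G z))
      = if F = G then c F * d G else 0 := by
    intro G
    rw [← mul_expect, expect_chi_mul]
    split_ifs <;> simp
  rw [sum_congr rfl (fun G _ => h2 G)]
  simp

theorem parseval : StmtParseval := by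
  intro ι _ _ c d
  exact parseval' c d

theorem parseval_sq [Fintype ι] [DecidableEq ι] (c : Finset ι → ℝ) :
    (𝔼 z : ι → Bool, pol c z ^ 2) = ∑ F, c F ^ 2 := by
  have h := parseval' c c
  simp only [← pow_two] at h
  exact h

theorem expect_pol [Fintype ι] [DecidableEq ι] (c : Finset ι → ℝ) :
    (𝔼 z : ι → Bool, pol c z) = c ∅ := by
  unfold pol
  rw [expect_sum_comm]
  have h2 : ∀ G : Finset ι, (𝔼 z : ι → Bool, c G * chi G z) = if G = ∅ then c G else 0 := by
    intro G
    rw [← mul_expect, expect_chi]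
    split_ifs <;> simp
  rw [sum_congr rfl (fun G _ => h2 G)]
  simp

/-! ## splitting off one coordinate -/

/-- the part of the coefficients without `i` -/
def part0 [DecidableEq ι] (i : ι) (c : Finset ι → ℝ) (F : Finset ι) : ℝ :=
  if i ∈ F then 0 else c F

/-- the part of the coefficients with `i` (a derivative) -/
def part1 [DecidableEq ι] (i : ι) (c : Finset ι → ℝ) (F : Finset ι) : ℝ :=
  if i ∈ F then 0 else c (insert i F)

theorem sum_split [Fintype ι] [DecidableEq ι] (i : ι) (f : Finset ι → ℝ) :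
    ∑ F, f F = ∑ F, (if i ∈ F then 0 else f F) + ∑ F, (if i ∈ F then 0 else f (insert i F)) := by
  have hkey : ∀ g : Finset ι → ℝ, ∑ F, g F
      = ∑ F ∈ ((univ : Finset ι).erase i).powerset, g F
        + ∑ F ∈ ((univ : Finset ι).erase i).powerset, g (insert i F) := by
    intro g
    rw [← sum_powerset_insert (notMem_erase i univ), insert_erase (mem_univ i), powerset_univ]
  rw [hkey f, hkey (fun F => if i ∈ F then 0 else f F),
    hkey (fun F => if i ∈ F then 0 else f (insert i F))]
  have hnm : ∀ F ∈ ((univ : Finset ι).erase i).powerset, i ∉ F := by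
    intro F hF hi
    rw [mem_powerset] at hF
    exact notMem_erase i univ (hF hi)
  have e1 : ∑ F ∈ ((univ : Finset ι).erase i).powerset, (if i ∈ F then 0 else f F)
      = ∑ F ∈ ((univ : Finset ι).erase i).powerset, f F :=
    sum_congr rfl (fun F hF => by rw [if_neg (hnm F hF)])
  have e2 : ∑ F ∈ ((univ : Finset ι).erase i).powerset, (if i ∈ F then 0 else f (insert i F))
      = ∑ F ∈ ((univ : Finset ι).erase i).powerset, f (insert i F) :=
    sum_congr rfl (fun F hF => by rw [if_neg (hnm F hF)])
  have e3 : ∑ F ∈ ((univ : Finset ι).erase i).powerset,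
      (if i ∈ insert i F then 0 else f (insert i F)) = 0 :=
    sum_eq_zero (fun F _ => by rw [if_pos (mem_insert_self i F)])
  have e4 : ∑ F ∈ ((univ : Finset ι).erase i).powerset,
      (if i ∈ insert i F then 0 else f (insert i (insert i F))) = 0 :=
    sum_eq_zero (fun F _ => by rw [if_pos (mem_insert_self i F)])
  rw [e1, e2, e3, e4]
  ring

theorem pol_split [Fintype ι] [DecidableEq ι] (i : ι) (c : Finset ι → ℝ) (z : ι → Bool) :
    pol c z = pol (part0 i c) z + sg (z i) * pol (part1 i c) z := by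
  unfold pol
  rw [sum_split i, mul_sum]
  congr 1
  · refine sum_congr rfl (fun F _ => ?_)
    unfold part0
    split_ifs <;> simp
  · refine sum_congr rfl (fun F _ => ?_)
    unfold part1
    split_ifs with h
    · simp
    · rw [chi_insert h]
      ring

theorem sq_split [Fintype ι] [DecidableEq ι] (i : ι) (c : Finset ι → ℝ) :
    ∑ F, c F ^ 2 = ∑ F, part0 i c F ^ 2 + ∑ F, part1 i c F ^ 2 := by
  rw [sum_split i]
  congr 1
  · refine sum_congr rfl (fun F _ => ?_)
    unfold part0
    split_ifs <;> simp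
  · refine sum_congr rfl (fun F _ => ?_)
    unfold part1
    split_ifs with h <;> simp

theorem pol_flip_of [Fintype ι] [DecidableEq ι] {i : ι} {c : Finset ι → ℝ}
    (h : ∀ F, i ∈ F → c F = 0) (z : ι → Bool) : pol c (flipAt i z) = pol c z := by
  unfold pol
  refine sum_congr rfl (fun F _ => ?_)
  by_cases hi : i ∈ F
  · rw [h F hi]
    simp
  · rw [chi_flip_notMem hi]

theorem part0_mem [DecidableEq ι] {i : ι} {c : Finset ι → ℝ} {F : Finset ι} (h : i ∈ F) :
    part0 i c F = 0 := by
  simp [part0, h]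

theorem part1_mem [DecidableEq ι] {i : ι} {c : Finset ι → ℝ} {F : Finset ι} (h : i ∈ F) :
    part1 i c F = 0 := by
  simp [part1, h]

/-! ## hypercontractivity -/

theorem expect_split_four [Fintype ι] [DecidableEq ι] (i : ι) (c : Finset ι → ℝ) :
    (𝔼 z : ι → Bool, pol c z ^ 4)
      = (𝔼 z : ι → Bool, pol (part0 i c) z ^ 4)
        + 6 * (𝔼 z : ι → Bool, pol (part0 i c) z ^ 2 * pol (part1 i c) z ^ 2)
        + (𝔼 z : ι → Bool, pol (part1 i c) z ^ 4) := by
  have h1 : (𝔼 z : ι → Bool, pol c z ^ 4)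
      = 𝔼 z : ι → Bool, (pol (part0 i c) z ^ 4
        + 6 * (pol (part0 i c) z ^ 2 * pol (part1 i c) z ^ 2)
        + pol (part1 i c) z ^ 4
        + sg (z i) * (4 * pol (part0 i c) z ^ 3 * pol (part1 i c) z
          + 4 * pol (part0 i c) z * pol (part1 i c) z ^ 3)) := by
    refine expect_congr rfl (fun z _ => ?_)
    rw [pol_split i c z]
    rcases sg_eq_or (z i) with h | h
    · rw [h]; ring
    · rw [h]; ring
  have h2 : (𝔼 z : ι → Bool, sg (z i) * (4 * pol (part0 i c) z ^ 3 * pol (part1 i c) z
          + 4 * pol (part0 i c) z * pol (part1 i c) z ^ 3)) = 0 := by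
    apply expect_eq_zero_of_flip i
    intro z
    rw [flipAt_same, sg_not, pol_flip_of (fun F hF => part0_mem hF),
      pol_flip_of (fun F hF => part1_mem hF)]
    ring
  rw [h1, expect_add_distrib, expect_add_distrib, expect_add_distrib, h2, ← mul_expect, add_zero]

theorem hyper_aux [Fintype ι] [DecidableEq ι] (S : Finset ι) :
    ∀ (c : Finset ι → ℝ) (d : ℕ), (∀ F, ¬ F ⊆ S → c F = 0) → (∀ F, d < F.card → c F = 0) →
    (𝔼 z : ι → Bool, pol c z ^ 4) ≤ 9 ^ d * (∑ F, c F ^ 2) ^ 2 := by
  induction S using Finset.induction_on with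
  | empty =>
    intro c d hS _
    have hpol : ∀ z : ι → Bool, pol c z = c ∅ := by
      intro z
      unfold pol
      rw [sum_eq_single ∅]
      · simp
      · intro F _ hF
        rw [hS F (fun h => hF (subset_empty.mp h)), zero_mul]
      · intro h
        exact absurd (mem_univ _) h
    have hsum : ∑ F, c F ^ 2 = c ∅ ^ 2 := by
      rw [sum_eq_single ∅]
      · intro F _ hF
        rw [hS F (fun h => hF (subset_empty.mp h))]
        simp
      · intro h
        exact absurd (mem_univ _) h
    have hE : (𝔼 z : ι → Bool, pol c z ^ 4) = c ∅ ^ 4 := by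
      rw [expect_congr rfl (fun z _ => by rw [hpol z])]
      simp
    rw [hE, hsum]
    have h9 : (1 : ℝ) ≤ 9 ^ d := one_le_pow₀ (by norm_num)
    have h0 : 0 ≤ (c ∅ ^ 2) ^ 2 := by positivity
    nlinarith [mul_le_mul_of_nonneg_right h9 h0]
  | insert i S hi ih =>
    intro c d hS hd
    have hS0 : ∀ F, ¬ F ⊆ S → part0 i c F = 0 := by
      intro F hF
      unfold part0
      split_ifs with h
      · rfl
      · apply hS
        intro h2
        apply hF
        intro e he
        rcases mem_insert.mp (h2 he) with h3 | h3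
        · subst h3
          exact absurd he h
        · exact h3
    have hS1 : ∀ F, ¬ F ⊆ S → part1 i c F = 0 := by
      intro F hF
      unfold part1
      split_ifs with h
      · rfl
      · apply hS
        intro h2
        apply hF
        intro e he
        rcases mem_insert.mp (h2 (mem_insert_of_mem he)) with h3 | h3
        · subst h3
          exact absurd he h
        · exact h3
    have hd0 : ∀ F, d < F.card → part0 i c F = 0 := by
      intro F hF
      unfold part0
      split_ifs with h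
      · rfl
      · exact hd F hF
    set H := ∑ F, part0 i c F ^ 2 with hH
    set G := ∑ F, part1 i c F ^ 2 with hG
    have hH0 : 0 ≤ H := sum_nonneg (fun F _ => sq_nonneg _)
    have hG0 : 0 ≤ G := sum_nonneg (fun F _ => sq_nonneg _)
    have hA := ih (part0 i c) d hS0 hd0
    rw [sq_split i c, expect_split_four i c]
    rw [← hH] at hA ⊢
    rw [← hG]
    rcases Nat.eq_zero_or_pos d with hd' | hd'
    · subst hd'
      have hp1 : ∀ F, part1 i c F = 0 := by
        intro F
        unfold part1
        split_ifs with h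
        · rfl
        · apply hd
          rw [card_insert_of_notMem h]
          omega
      have hpol1 : ∀ z : ι → Bool, pol (part1 i c) z = 0 := by
        intro z
        unfold pol
        exact sum_eq_zero (fun F _ => by rw [hp1 F, zero_mul])
      have e1 : (𝔼 z : ι → Bool, pol (part0 i c) z ^ 2 * pol (part1 i c) z ^ 2) = 0 := by
        rw [expect_congr rfl (fun z _ => by rw [hpol1 z])]
        simp
      have e2 : (𝔼 z : ι → Bool, pol (part1 i c) z ^ 4) = 0 := by
        rw [expect_congr rfl (fun z _ => by rw [hpol1 z])]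
        simp
      rw [e1, e2]
      have : H ^ 2 ≤ (H + G) ^ 2 := by nlinarith
      simp only [pow_zero, one_mul] at hA ⊢
      linarith
    · obtain ⟨e, rfl⟩ : ∃ e, d = e + 1 := ⟨d - 1, by omega⟩
      have hd1 : ∀ F, e < F.card → part1 i c F = 0 := by
        intro F hF
        unfold part1
        split_ifs with h
        · rfl
        · apply hd
          rw [card_insert_of_notMem h]
          omega
      have hB := ih (part1 i c) e hS1 hd1
      rw [← hG] at hB
      set K : ℝ := 9 ^ e with hK
      have hK0 : 0 ≤ K := by positivity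
      rw [pow_succ, ← hK] at hA ⊢
      have hCS := expect_mul_sq_le_sq_mul_sq (univ : Finset (ι → Bool))
        (fun z => pol (part0 i c) z ^ 2) (fun z => pol (part1 i c) z ^ 2)
      have e3 : (𝔼 z : ι → Bool, (pol (part0 i c) z ^ 2) ^ 2)
          = 𝔼 z : ι → Bool, pol (part0 i c) z ^ 4 :=
        expect_congr rfl (fun z _ => by ring)
      have e4 : (𝔼 z : ι → Bool, (pol (part1 i c) z ^ 2) ^ 2)
          = 𝔼 z : ι → Bool, pol (part1 i c) z ^ 4 :=
        expect_congr rfl (fun z _ => by ring)
      rw [e3, e4] at hCS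
      set P := (𝔼 z : ι → Bool, pol (part0 i c) z ^ 2 * pol (part1 i c) z ^ 2) with hP
      set A := (𝔼 z : ι → Bool, pol (part0 i c) z ^ 4) with hAdef
      set B := (𝔼 z : ι → Bool, pol (part1 i c) z ^ 4) with hBdef
      have hA0 : 0 ≤ A := expect_nonneg (fun z _ => by positivity)
      have hB0 : 0 ≤ B := expect_nonneg (fun z _ => by positivity)
      have hPle : P ≤ 3 * K * H * G := by
        have h1 : P ^ 2 ≤ (3 * K * H * G) ^ 2 := by
          calc P ^ 2 ≤ A * B := hCS
            _ ≤ (K * 9 * H ^ 2) * (K * G ^ 2) := mul_le_mul hA hB hB0 (by positivity)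
            _ = (3 * K * H * G) ^ 2 := by ring
        exact le_of_sq_le_sq_of_nonneg' h1 (by positivity)
      have : A + 6 * P + B ≤ K * 9 * H ^ 2 + 6 * (3 * K * H * G) + K * G ^ 2 := by linarith
      have h8 : 0 ≤ K * G ^ 2 := by positivity
      nlinarith
  where
    le_of_sq_le_sq_of_nonneg' {a b : ℝ} (h : a ^ 2 ≤ b ^ 2) (hb : 0 ≤ b) : a ≤ b :=
      le_of_sq_le_sq h hb

theorem hyper : StmtHyper := by
  intro ι _ _ c d hd
  exact hyper_aux univ c d (fun F hF => absurd (subset_univ F) hF) hd

/-! ## moments -/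

/-- iterated squares -/
def sqIter [Fintype ι] [DecidableEq ι] (c : Finset ι → ℝ) : ℕ → Finset ι → ℝ
  | 0 => c
  | j + 1 => pconv (sqIter c j) (sqIter c j)

theorem pol_sqIter [Fintype ι] [DecidableEq ι] (c : Finset ι → ℝ) (j : ℕ) (z : ι → Bool) :
    pol (sqIter c j) z = pol c z ^ (2 ^ j) := by
  induction j with
  | zero => simp [sqIter]
  | succ j ih =>
    have : pol (sqIter c (j + 1)) z = pol (sqIter c j) z * pol (sqIter c j) z := by
      rw [pol_mul]
      rfl
    rw [this, ih, ← pow_add]
    congr 1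
    rw [pow_succ]
    ring

theorem sqIter_deg [Fintype ι] [DecidableEq ι] {c : Finset ι → ℝ} {d : ℕ}
    (hd : ∀ F, d < F.card → c F = 0) (j : ℕ) :
    ∀ F, d * 2 ^ j < F.card → sqIter c j F = 0 := by
  induction j with
  | zero => simpa [sqIter] using hd
  | succ j ih =>
    intro F hF
    have h2 : d * 2 ^ j + d * 2 ^ j = d * 2 ^ (j + 1) := by
      rw [pow_succ]
      ring
    exact pconv_deg ih ih F (by omega)

theorem sqIter_bound (d : ℕ) : ∀ j : ℕ, ∃ C : ℝ, 0 < C ∧
    ∀ (ι : Type) [Fintype ι] [DecidableEq ι] (c : Finset ι → ℝ),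
      (∀ F, d < F.card → c F = 0) → (∑ F, sqIter c j F ^ 2) ≤ C * (∑ F, c F ^ 2) ^ (2 ^ j) := by
  intro j
  induction j with
  | zero =>
    refine ⟨1, one_pos, ?_⟩
    intro ι _ _ c _
    simp [sqIter]
  | succ j ih =>
    obtain ⟨C, hC, h⟩ := ih
    refine ⟨9 ^ (d * 2 ^ j) * C ^ 2, by positivity, ?_⟩
    intro ι _ _ c hd
    have h1 := h ι c hd
    have h2 : ∑ F, sqIter c (j + 1) F ^ 2 = 𝔼 z : ι → Bool, pol (sqIter c j) z ^ 4 := by
      rw [← parseval_sq]
      refine expect_congr rfl (fun z _ => ?_)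
      rw [pol_sqIter, pol_sqIter, ← pow_mul, ← pow_mul]
      congr 1
      rw [pow_succ]
      ring
    rw [h2]
    refine (hyper ι (sqIter c j) (d * 2 ^ j) (sqIter_deg hd j)).trans ?_
    have h0 : 0 ≤ ∑ F, sqIter c j F ^ 2 := sum_nonneg (fun F _ => sq_nonneg _)
    have h3 : (∑ F, sqIter c j F ^ 2) ^ 2 ≤ (C * (∑ F, c F ^ 2) ^ (2 ^ j)) ^ 2 :=
      pow_le_pow_left₀ h0 h1 2
    have h4 : (C * (∑ F, c F ^ 2) ^ (2 ^ j)) ^ 2 = C ^ 2 * (∑ F, c F ^ 2) ^ (2 ^ (j + 1)) := by
      have h5 : 2 ^ (j + 1) = 2 ^ j * 2 := pow_succ 2 j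
      rw [mul_pow, ← pow_mul, h5]
    rw [h4] at h3
    calc (9 : ℝ) ^ (d * 2 ^ j) * (∑ F, sqIter c j F ^ 2) ^ 2
        ≤ 9 ^ (d * 2 ^ j) * (C ^ 2 * (∑ F, c F ^ 2) ^ (2 ^ (j + 1))) :=
          mul_le_mul_of_nonneg_left h3 (by positivity)
      _ = 9 ^ (d * 2 ^ j) * C ^ 2 * (∑ F, c F ^ 2) ^ (2 ^ (j + 1)) := by ring

theorem moments : StmtMoments := by
  intro d j
  obtain ⟨C, hC, h⟩ := sqIter_bound d j
  refine ⟨C, hC, ?_⟩
  intro ι _ _ c hd
  refine le_trans (le_of_eq ?_) (h ι c hd)
  rw [← parseval_sq]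
  refine expect_congr rfl (fun z _ => ?_)
  rw [pol_sqIter, ← pow_mul]
  congr 1

end

end Pool.Agent.JX
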