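import Pool.Agent.JX.M1

/-!
# Embedding sums and orbits (module of helper24)
-/

set_option autoImplicit false
set_option linter.unusedSectionVars false

namespace Pool.Agent.JX

open Finset BigOperators Classical

noncomputable section

/-- product of the signs of the images of the edges of `J` -/
def cp {n : ℕ} {W : Type} (f : W → Fin n) (J : Finset (Sym2 W)) (z : Sym2 (Fin n) → Bool) : ℝ :=
  ∏ e ∈ J, sg (z (Sym2.map f e))

/-- embedding sum of an edge set on an arbitrary finite vertex type -/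
def ES {n : ℕ} {W : Type} [Fintype W] [DecidableEq W] (J : Finset (Sym2 W))
    (z : Sym2 (Fin n) → Bool) : ℝ :=
  ∑ φ : W ↪ Fin n, cp φ J z

section basic

variable {V W : Type} [Fintype V] [DecidableEq V] [Fintype W] [DecidableEq W]

omit [Fintype V] [DecidableEq V] [Fintype W] in
theorem mapE_empty (f : V → W) : mapE f ∅ = ∅ := by simp [mapE]

theorem mapE_id (F : Finset (Sym2 V)) : mapE (id : V → V) F = F := by
  simp [mapE]

theorem loopless_mapE {f : V → W} (hf : Function.Injective f) (F : Finset (Sym2 V)) :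
    (∀ e ∈ mapE f F, ¬ e.IsDiag) ↔ ∀ e ∈ F, ¬ e.IsDiag := by
  simp only [mem_mapE]
  constructor
  · intro h e he hd
    exact h _ ⟨e, he, rfl⟩ (hd.map)
  · rintro h e ⟨e', he', rfl⟩ hd
    exact h e' he' ((Sym2.isDiag_map hf).1 hd)

theorem vs_eq_mapE {f : V → W} (hf : Function.Injective f) (J H : Finset (Sym2 V)) :
    vs (mapE f J) = vs (mapE f H) ↔ vs J = vs H := by
  rw [vs_mapE, vs_mapE]
  exact ⟨fun h => image_injective hf h, fun h => by rw [h]⟩

end basic

section sums

variable {n : ℕ} {W W' : Type} [Fintype W] [DecidableEq W] [Fintype W'] [DecidableEq W']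

omit [Fintype W] [DecidableEq W] in
theorem chi_mapE_cp {φ : W → Fin n} (hφ : Function.Injective φ) (J : Finset (Sym2 W))
    (z : Sym2 (Fin n) → Bool) : chi (mapE φ J) z = cp φ J z := by
  rw [chi, mapE, cp, prod_image]
  intro a _ b _ h
  exact Sym2.map.injective hφ h

omit [Fintype W] [DecidableEq W] [Fintype W'] in
theorem cp_mapE {g : W → W'} (hg : Function.Injective g) (φ : W' → Fin n) (J : Finset (Sym2 W))
    (z : Sym2 (Fin n) → Bool) : cp φ (mapE g J) z = cp (φ ∘ g) J z := by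
  rw [cp, mapE, cp, prod_image]
  · refine prod_congr rfl fun e _ => ?_
    rw [Sym2.map_map]
  · intro a _ b _ h
    exact Sym2.map.injective hg h

/-- relabelling -/
theorem es_equiv (g : W ≃ W') (J : Finset (Sym2 W)) (z : Sym2 (Fin n) → Bool) :
    ES (mapE g J) z = ES J z := by
  unfold ES
  rw [← Equiv.sum_comp (Equiv.embeddingCongr g (Equiv.refl (Fin n)))]
  refine sum_congr rfl fun φ _ => ?_
  rw [cp_mapE g.injective]
  congr 1
  funext x
  simp [Equiv.embeddingCongr]

theorem es_empty (z : Sym2 (Fin n) → Bool) :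
    ES (∅ : Finset (Sym2 W)) z = (n.descFactorial (Fintype.card W) : ℝ) := by
  unfold ES cp
  simp [Fintype.card_embedding_eq]

/-- embeddings of `Option W` -/
theorem sum_option (f : (Option W ↪ Fin n) → ℝ) :
    ∑ ψ : Option W ↪ Fin n, f ψ =
      ∑ φ : W ↪ Fin n, ∑ y : ↥((Set.range φ)ᶜ), f (φ.optionElim y y.2) := by
  rw [← Equiv.sum_comp (Function.Embedding.optionEmbeddingEquiv W (Fin n)).symm, Fintype.sum_sigma]
  rfl

theorem sum_compl (φ : W ↪ Fin n) (f : Fin n → ℝ) :
    ∑ y : ↥((Set.range φ)ᶜ), f y = ∑ y, f y - ∑ w, f (φ w) := by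
  have h1 : ∑ y : ↥((Set.range φ)ᶜ), f y =
      ∑ y ∈ univ.filter (fun y => y ∉ Set.range φ), f y := by
    rw [← Finset.sum_subtype (univ.filter (fun y => y ∉ Set.range φ)) (fun x => by simp) f]
  have h2 : ∑ w, f (φ w) = ∑ y ∈ univ.filter (fun y => y ∈ Set.range φ), f y := by
    rw [← sum_map univ φ f]
    refine sum_congr ?_ fun _ _ => rfl
    ext y
    simp
  rw [h1, h2, eq_sub_iff_add_eq, add_comm]
  exact sum_filter_add_sum_filter_not univ (fun y => y ∈ Set.range φ) f

/-- isolated vertex -/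
theorem es_option (J : Finset (Sym2 W)) (z : Sym2 (Fin n) → Bool) :
    ES (mapE some J : Finset (Sym2 (Option W))) z = ((n : ℝ) - Fintype.card W) * ES J z := by
  unfold ES
  rw [sum_option, mul_sum]
  refine sum_congr rfl fun φ _ => ?_
  have h : ∀ y : ↥((Set.range φ)ᶜ), cp (φ.optionElim y y.2) (mapE some J) z = cp φ J z := by
    intro y
    rw [cp_mapE (Option.some_injective W)]
    rfl
  rw [sum_congr rfl fun y _ => h y, sum_compl φ (fun _ => cp φ J z)]
  simp
  ring

/-- signs of pairs, zero on the diagonal -/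
def Zp (z : Sym2 (Fin n) → Bool) (x y : Fin n) : ℝ := if x = y then 0 else sg (z s(x, y))

theorem Zp_comm (z : Sym2 (Fin n) → Bool) (x y : Fin n) : Zp z x y = Zp z y x := by
  unfold Zp
  rw [Sym2.eq_swap]
  simp only [eq_comm]

theorem sum_Zp (z : Sym2 (Fin n) → Bool) : ∑ x, ∑ y, Zp z x y = 2 * T2 z := by
  have h1 : T2 z = ∑ i ∈ (univ : Finset (Fin n)).offDiag with i.1 < i.2, sg (z s(i.1, i.2)) := by
    refine Eq.trans ?_ (sum_sym2_filter_not_isDiag (univ : Finset (Fin n)) (fun e => sg (z e)))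
    unfold T2
    refine sum_congr ?_ fun _ _ => rfl
    ext e
    simp
  have h2 : T2 z = ∑ x, ∑ y, if x < y then Zp z x y else 0 := by
    rw [h1, ← sum_product', ← sum_filter]
    · refine sum_congr ?_ fun p hp => ?_
      · ext p
        simp only [mem_filter, mem_offDiag, mem_univ, true_and, mem_product]
        exact ⟨fun h => h.2, fun h => ⟨h.ne, h⟩⟩
      · simp only [mem_filter, mem_product, mem_univ, true_and] at hp
        simp [Zp, hp.ne]
  have h3 : T2 z = ∑ x, ∑ y, if y < x then Zp z x y else 0 := by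
    rw [h2, sum_comm]
    refine sum_congr rfl fun x _ => sum_congr rfl fun y _ => ?_
    rw [Zp_comm]
  rw [two_mul]
  nth_rw 1 [h2]
  rw [h3, ← sum_add_distrib]
  refine sum_congr rfl fun x _ => ?_
  rw [← sum_add_distrib]
  refine sum_congr rfl fun y _ => ?_
  rcases lt_trichotomy x y with h | h | h
  · simp [h, h.not_gt]
  · subst h
    simp [Zp]
  · simp [h, h.not_gt]

/-- the sum over pairs outside the range -/
theorem sum_pair (φ : W ↪ Fin n) (z : Sym2 (Fin n) → Bool) :
    ∑ x : ↥((Set.range φ)ᶜ), ∑ y : ↥((Set.range φ)ᶜ), Zp z x y =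
      2 * T2 z - 2 * ∑ w, ∑ y : ↥((Set.range φ)ᶜ), Zp z (φ w) y
        - ∑ w, ∑ w', Zp z (φ w) (φ w') := by
  have h1 : ∀ x : Fin n, ∑ y : ↥((Set.range φ)ᶜ), Zp z x y = ∑ y, Zp z x y - ∑ w, Zp z x (φ w) :=
    fun x => sum_compl φ (fun y => Zp z x y)
  rw [sum_compl φ (fun x => ∑ y : ↥((Set.range φ)ᶜ), Zp z x y), ← sum_Zp]
  simp only [h1, sum_sub_distrib]
  have h2 : ∑ x, ∑ w, Zp z x (φ w) = ∑ w, ∑ y, Zp z (φ w) y := by
    rw [sum_comm]
    refine sum_congr rfl fun w _ => sum_congr rfl fun x _ => Zp_comm z _ _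
  rw [h2]
  ring

/-- pendant edge -/
def pend (J : Finset (Sym2 W)) (w : W) : Finset (Sym2 (Option W)) :=
  insert s(some w, none) (mapE some J)

theorem none_notMem_mapE (J : Finset (Sym2 W)) (w : Option W) :
    s(w, none) ∉ (mapE some J : Finset (Sym2 (Option W))) := by
  intro h
  obtain ⟨e, -, he⟩ := mem_mapE.1 h
  have : (none : Option W) ∈ Sym2.map some e := by rw [he]; simp
  obtain ⟨a, -, ha⟩ := Sym2.mem_map.1 this
  cases ha

theorem es_pend (J : Finset (Sym2 W)) (w : W) (z : Sym2 (Fin n) → Bool) :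
    ES (pend J w) z = ∑ φ : W ↪ Fin n, cp φ J z * ∑ y : ↥((Set.range φ)ᶜ), Zp z (φ w) y := by
  unfold ES pend
  rw [sum_option]
  refine sum_congr rfl fun φ _ => ?_
  rw [mul_sum]
  refine sum_congr rfl fun y _ => ?_
  have h1 : cp (φ.optionElim y y.2) (mapE some J) z = cp φ J z := by
    rw [cp_mapE (Option.some_injective W)]
    rfl
  have h2 : φ w ≠ (y : Fin n) := fun h => y.2 ⟨w, h⟩
  rw [cp, prod_insert (none_notMem_mapE J _), ← cp, h1, mul_comm]
  simp [Zp, h2]

/-- separate edge -/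
def sepE (J : Finset (Sym2 W)) : Finset (Sym2 (Option (Option W))) :=
  insert s(some none, none) (mapE some (mapE some J))

theorem es_sym (J : Finset (Sym2 W)) (w w' : W) (h : w ≠ w') (z : Sym2 (Fin n) → Bool) :
    ES (symmDiff J {s(w, w')}) z = ∑ φ : W ↪ Fin n, cp φ J z * Zp z (φ w) (φ w') := by
  unfold ES
  refine sum_congr rfl fun φ _ => ?_
  have h2 : φ w ≠ φ w' := fun hh => h (φ.injective hh)
  have h3 : Zp z (φ w) (φ w') = sg (z (Sym2.map φ s(w, w'))) := by simp [Zp, h2]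
  rw [h3]
  by_cases hm : s(w, w') ∈ J
  · have e1 : symmDiff J {s(w, w')} = J.erase s(w, w') := by
      ext e
      simp only [mem_symmDiff, mem_singleton, mem_erase]
      constructor
      · rintro (⟨h1, h2⟩ | ⟨h1, h2⟩)
        · exact ⟨h2, h1⟩
        · exact absurd (h1 ▸ hm) h2
      · rintro ⟨h1, h2⟩
        exact Or.inl ⟨h2, h1⟩
    rw [e1, cp, cp, ← mul_prod_erase J _ hm]
    have := sg_mul_self (z (Sym2.map φ s(w, w')))
    calc _ = (sg (z (Sym2.map φ s(w, w'))) * sg (z (Sym2.map φ s(w, w')))) *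
          ∏ e ∈ J.erase s(w, w'), sg (z (Sym2.map φ e)) := by rw [this, one_mul]
      _ = _ := by ring
  · have e1 : symmDiff J {s(w, w')} = insert s(w, w') J := by
      ext e
      simp only [mem_symmDiff, mem_singleton, mem_insert]
      constructor
      · rintro (⟨h1, h2⟩ | ⟨h1, h2⟩)
        · exact Or.inr h1
        · exact Or.inl h1
      · rintro (h1 | h1)
        · exact Or.inr ⟨h1, h1 ▸ hm⟩
        · exact Or.inl ⟨h1, fun h2 => hm (h2 ▸ h1)⟩
    rw [e1, cp, prod_insert hm, cp, mul_comm]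

/-- a separate edge -/
theorem es_pair (J : Finset (Sym2 W)) (z : Sym2 (Fin n) → Bool) :
    ES (sepE J) z = 2 * T2 z * ES J z - 2 * ∑ w, ES (pend J w) z
      - ∑ w, ∑ w' ∈ univ.erase w, ES (symmDiff J {s(w, w')}) z := by
  have h0 : ES (sepE J) z = ∑ φ : W ↪ Fin n, cp φ J z *
      ∑ x : ↥((Set.range φ)ᶜ), ∑ y : ↥((Set.range φ)ᶜ), Zp z x y := by
    unfold ES sepE
    rw [sum_option, sum_option]
    refine sum_congr rfl fun φ _ => ?_
    rw [mul_sum]
    refine sum_congr rfl fun x _ => ?_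
    have h1 : ∀ y : ↥((Set.range (φ.optionElim (x : Fin n) x.2))ᶜ),
        cp ((φ.optionElim (x : Fin n) x.2).optionElim y y.2)
          (insert s(some none, none) (mapE some (mapE some J))) z = cp φ J z * Zp z x y := by
      intro y
      have hy : (x : Fin n) ≠ y := fun h => y.2 ⟨none, h⟩
      rw [cp, prod_insert (none_notMem_mapE _ _), ← cp, cp_mapE (Option.some_injective _),
        cp_mapE (Option.some_injective _), mul_comm]
      simp only [Zp, hy, if_false]
      rfl
    rw [sum_congr rfl fun y _ => h1 y, ← mul_sum]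
    congr 1
    rw [sum_compl (φ.optionElim (x : Fin n) x.2) (fun y => Zp z x y),
      sum_compl φ (fun y => Zp z x y), Fintype.sum_option]
    simp [Zp]
  rw [h0]
  have h4 : ∀ φ : W ↪ Fin n, ∑ w, ∑ w', Zp z (φ w) (φ w') =
      ∑ w, ∑ w' ∈ univ.erase w, Zp z (φ w) (φ w') := by
    intro φ
    refine sum_congr rfl fun w _ => ?_
    rw [← add_sum_erase univ _ (mem_univ w)]
    simp [Zp]
  simp only [sum_pair, h4]
  have h5 : ∑ w, ∑ w' ∈ univ.erase w, ES (symmDiff J {s(w, w')}) z =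
      ∑ φ : W ↪ Fin n, cp φ J z * ∑ w, ∑ w' ∈ univ.erase w, Zp z (φ w) (φ w') := by
    simp only [mul_sum]
    rw [sum_comm]
    refine sum_congr rfl fun w _ => ?_
    rw [sum_comm]
    refine sum_congr rfl fun w' hw' => ?_
    rw [es_sym J w w' (ne_of_mem_erase hw').symm]
  have h6 : ∑ w, ES (pend J w) z =
      ∑ φ : W ↪ Fin n, cp φ J z * ∑ w, ∑ y : ↥((Set.range φ)ᶜ), Zp z (φ w) y := by
    simp only [mul_sum]
    rw [sum_comm]
    refine sum_congr rfl fun w _ => ?_
    rw [es_pend]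
    simp only [mul_sum]
  rw [h5, h6, ES, mul_sum, mul_sum, ← sum_sub_distrib, ← sum_sub_distrib]
  refine sum_congr rfl fun φ _ => ?_
  ring

theorem exists_perm_emb (φ ψ : W ↪ Fin n) : ∃ σ : Equiv.Perm (Fin n), ∀ w, σ (φ w) = ψ w := by
  let e : {x // x ∈ Set.range φ} ≃ {x // x ∈ Set.range ψ} :=
    (Equiv.ofInjective φ φ.injective).symm.trans (Equiv.ofInjective ψ ψ.injective)
  refine ⟨e.extendSubtype, fun w => ?_⟩
  rw [Equiv.extendSubtype_apply_of_mem e (φ w) ⟨w, rfl⟩]
  have : (Equiv.ofInjective φ φ.injective).symm ⟨φ w, ⟨w, rfl⟩⟩ = w := by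
    rw [Equiv.symm_apply_eq]
    rfl
  simp only [e, Equiv.trans_apply]
  rw [this]
  rfl

theorem es_ord_toOrb {F : Finset (Sym2 (Fin n))} (h : Good F ∧ 3 ≤ (vs F).card) :
    (toOrb F h).ord = (vs F).card := by
  obtain ⟨σ, hσ⟩ := Quotient.mk_out (s := orbSetoid n) ⟨F, h⟩
  unfold Orb.ord toOrb
  rw [← card_vs_mapE σ.injective, hσ]

theorem toOrb_eq_iff {F G : Finset (Sym2 (Fin n))} (h : Good F ∧ 3 ≤ (vs F).card)
    (h' : Good G ∧ 3 ≤ (vs G).card) :
    toOrb F h = toOrb G h' ↔ ∃ σ : Equiv.Perm (Fin n), mapE σ F = G :=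
  Quotient.eq (r := orbSetoid n)

/-- the members of an orbit -/
def orbMem (T : Orb n) : Finset (Finset (Sym2 (Fin n))) :=
  univ.filter (fun F : Finset (Sym2 (Fin n)) => ∃ h : Good F ∧ 3 ≤ (vs F).card, toOrb F h = T)

theorem orbit_sum (φ₀ : W ↪ Fin n) (H : Finset (Sym2 W)) (hg : Good H) (hv : vs H = univ)
    (h : Good (mapE φ₀ H) ∧ 3 ≤ (vs (mapE φ₀ H)).card) :
    ∃ a : ℕ, 1 ≤ a ∧ a ≤ 120 ∧ ∀ f : Finset (Sym2 (Fin n)) → ℝ,
      ∑ φ : W ↪ Fin n, f (mapE φ H) = a * ∑ F ∈ orbMem (toOrb (mapE φ₀ H) h), f F := by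
  have hW : Fintype.card W ≤ 5 := by
    have := hg.2.2
    rwa [hv, card_univ] at this
  refine ⟨(univ.filter fun φ : W ↪ Fin n => mapE φ H = mapE φ₀ H).card, ?_, ?_, ?_⟩
  · exact card_pos.2 ⟨φ₀, by simp⟩
  · rw [← Fintype.card_subtype]
    have hr : ∀ φ : {φ : W ↪ Fin n // mapE φ H = mapE φ₀ H}, ∀ w, φ.1 w ∈ Set.range φ₀ := by
      rintro ⟨φ, hφ⟩ w
      have h1 := congrArg vs hφ
      rw [vs_mapE, vs_mapE, hv] at h1
      have h2 : φ w ∈ univ.image φ := mem_image_of_mem _ (mem_univ w)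
      rw [h1] at h2
      simpa using h2
    have hinj : Function.Injective (fun φ : {φ : W ↪ Fin n // mapE φ H = mapE φ₀ H} =>
        Function.Embedding.codRestrict (Set.range φ₀) φ.1 (hr φ)) := by
      intro φ ψ hφψ
      apply Subtype.ext
      refine DFunLike.ext _ _ fun w => ?_
      exact congrArg (fun x : ↥(Set.range φ₀) => (x : Fin n)) (DFunLike.congr_fun hφψ w)
    refine (Fintype.card_le_of_injective _ hinj).trans ?_
    rw [Fintype.card_embedding_eq, Set.card_range_of_injective φ₀.injective,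
      Nat.descFactorial_self]
    exact (Nat.factorial_le hW).trans (by decide)
  · intro f
    have hmem : ∀ F, F ∈ orbMem (toOrb (mapE φ₀ H) h) ↔
        ∃ σ : Equiv.Perm (Fin n), mapE σ (mapE φ₀ H) = F := by
      intro F
      simp only [orbMem, mem_filter, mem_univ, true_and]
      constructor
      · rintro ⟨h', he⟩
        exact (toOrb_eq_iff h h').1 he.symm
      · rintro ⟨σ, rfl⟩
        refine ⟨⟨(good_mapE σ.injective).2 h.1, by rw [card_vs_mapE σ.injective]; exact h.2⟩, ?_⟩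
        symm
        exact (toOrb_eq_iff _ _).2 ⟨σ, rfl⟩
    have hmaps : ∀ φ ∈ (univ : Finset (W ↪ Fin n)), mapE φ H ∈ orbMem (toOrb (mapE φ₀ H) h) := by
      intro φ _
      obtain ⟨σ, hσ⟩ := exists_perm_emb φ₀ φ
      refine (hmem _).2 ⟨σ, ?_⟩
      rw [mapE_comp]
      congr 1
      funext w
      exact hσ w
    rw [← sum_fiberwise_of_maps_to hmaps, mul_sum]
    refine sum_congr rfl fun F hF => ?_
    rw [sum_congr rfl (g := fun _ => f F) (fun φ hφ => by rw [(mem_filter.1 hφ).2]), sum_const,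
      nsmul_eq_mul]
    congr 2
    obtain ⟨σ, rfl⟩ := (hmem F).1 hF
    symm
    refine card_bij' (fun φ _ => φ.trans σ.toEmbedding) (fun φ _ => φ.trans σ.symm.toEmbedding)
      ?_ ?_ ?_ ?_
    · intro φ hφ
      simp only [mem_filter, mem_univ, true_and] at hφ ⊢
      rw [← hφ, mapE_comp]
      rfl
    · intro φ hφ
      simp only [mem_filter, mem_univ, true_and] at hφ ⊢
      have : mapE (φ.trans σ.symm.toEmbedding) H = mapE σ.symm (mapE φ H) := by
        rw [mapE_comp]; rfl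
      rw [this, hφ, mapE_comp]
      have h2 : (σ.symm : Fin n → Fin n) ∘ σ = id := by
        funext x; simp
      rw [h2, mapE_id]
    · intro φ _
      ext w
      simp
    · intro φ _
      ext w
      simp

theorem Yf_mapE (φ : W ↪ Fin n) (H : Finset (Sym2 W)) (z : Sym2 (Fin n) → Bool) :
    Yf (mapE φ H) z =
      (∑ J ∈ H.powerset.filter (fun J => Good J ∧ vs J = vs H), cp φ J z) / 2 ^ H.card := by
  unfold Yf
  rw [card_mapE φ.injective]
  congr 1
  symm
  refine sum_bij (fun J _ => mapE φ J) ?_ ?_ ?_ ?_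
  · intro J hJ
    simp only [mem_filter, mem_powerset] at hJ ⊢
    exact ⟨image_subset_image hJ.1, (good_mapE φ.injective).2 hJ.2.1,
      (vs_eq_mapE φ.injective _ _).2 hJ.2.2⟩
  · intro J _ J' _ h
    exact mapE_inj φ.injective h
  · intro K hK
    simp only [mem_filter, mem_powerset] at hK
    obtain ⟨J, hJ, rfl⟩ := subset_image_iff.1 hK.1
    exact ⟨J, by
      simp only [mem_filter, mem_powerset]
      exact ⟨hJ, (good_mapE φ.injective).1 hK.2.1, (vs_eq_mapE φ.injective _ _).1 hK.2.2⟩, rfl⟩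
  · intro J _
    rw [chi_mapE_cp φ.injective]

/-- indicator that all edges are present -/
def xi (F : Finset (Sym2 (Fin n))) (z : Sym2 (Fin n) → Bool) : ℤ :=
  if ∀ e ∈ F, z e = true then 1 else 0

theorem xi_mapE (φ : W ↪ Fin n) (H : Finset (Sym2 W)) (z : Sym2 (Fin n) → Bool) :
    (xi (mapE φ H) z : ℝ) = (∑ J ∈ H.powerset, cp φ J z) / 2 ^ H.card := by
  have h1 : (xi (mapE φ H) z : ℝ) = ∏ e ∈ H, ((1 + sg (z (Sym2.map φ e))) / 2) := by
    unfold xi
    split_ifs with hx
    · symm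
      rw [Int.cast_one]
      refine prod_eq_one fun e he => ?_
      rw [hx (Sym2.map φ e) (mem_mapE.2 ⟨e, he, rfl⟩)]
      norm_num [sg]
    · push Not at hx
      obtain ⟨e, he, hz⟩ := hx
      obtain ⟨e', he', rfl⟩ := mem_mapE.1 he
      symm
      rw [Int.cast_zero]
      refine prod_eq_zero he' ?_
      have : z (Sym2.map φ e') = false := by simpa using hz
      rw [this]
      norm_num [sg]
  rw [h1, prod_div_distrib, prod_const, prod_one_add]
  rfl

/-- the orbit functions in terms of embedding sums -/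
theorem YT_es (φ₀ : W ↪ Fin n) (H : Finset (Sym2 W)) (hg : Good H) (hv : vs H = univ)
    (h : Good (mapE φ₀ H) ∧ 3 ≤ (vs (mapE φ₀ H)).card) (z : Sym2 (Fin n) → Bool) :
    ∃ a : ℕ, 1 ≤ a ∧ a ≤ 120 ∧
      a * YT (toOrb (mapE φ₀ H) h) z =
        (∑ J ∈ H.powerset.filter (fun J => Good J ∧ vs J = vs H), ES J z) / 2 ^ H.card ∧
      ∃ N : ℤ, (a : ℝ) * N = (∑ J ∈ H.powerset, ES J z) / 2 ^ H.card := by
  obtain ⟨a, h1, h2, h3⟩ := orbit_sum φ₀ H hg hv h
  refine ⟨a, h1, h2, ?_, ∑ F ∈ orbMem (toOrb (mapE φ₀ H) h), xi F z, ?_⟩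
  · have := h3 (fun F => Yf F z)
    rw [YT]
    rw [orbMem] at this
    rw [← this]
    simp only [Yf_mapE]
    rw [← sum_div, sum_comm]
    rfl
  · have := h3 (fun F => (xi F z : ℝ))
    push_cast
    rw [← this]
    simp only [xi_mapE]
    rw [← sum_div, sum_comm]
    rfl

/-- triangularity: vanishing of all orbit functions of order `< k` kills all embedding sums of
connected edge sets on fewer than `k` vertices -/
theorem es_zero (k : ℕ) (z : Sym2 (Fin n) → Bool) (hk : ∀ T : Orb n, T.ord < k → YT T z = 0)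
    (J : Finset (Sym2 W)) (hg : Good J) (hv : vs J = univ) (h3 : 3 ≤ Fintype.card W)
    (hWk : Fintype.card W < k) : ES J z = 0 := by
  rcases isEmpty_or_nonempty (W ↪ Fin n) with he | ⟨⟨φ₀⟩⟩
  · unfold ES
    rw [univ_eq_empty, sum_empty]
  induction hc : J.card using Nat.strong_induction_on generalizing J with
  | _ c ih =>
    have hcv : (vs (mapE φ₀ J)).card = Fintype.card W := by
      rw [card_vs_mapE φ₀.injective, hv, card_univ]
    have h : Good (mapE φ₀ J) ∧ 3 ≤ (vs (mapE φ₀ J)).card :=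
      ⟨(good_mapE φ₀.injective).2 hg, by rw [hcv]; exact h3⟩
    obtain ⟨a, -, -, ha, -⟩ := YT_es φ₀ J hg hv h z
    rw [hk _ (by rw [es_ord_toOrb, hcv]; exact hWk), mul_zero] at ha
    have h2 : ∑ K ∈ J.powerset.filter (fun K => Good K ∧ vs K = vs J), ES K z = 0 := by
      have h2c : (2 : ℝ) ^ J.card ≠ 0 := by positivity
      field_simp at ha
      linarith
    rw [sum_eq_single_of_mem J (by simp [hg])] at h2
    · exact h2
    · intro K hK hKJ
      simp only [mem_filter, mem_powerset] at hK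
      have hlt : K.card < J.card := card_lt_card (hK.1.ssubset_of_ne hKJ)
      exact ih K.card (hc ▸ hlt) K hK.2.1 (hK.2.2.trans hv) rfl

end sums

end

end Pool.Agent.JX
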