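import Mathlib
import Pool.Agent.JX.Defs
import Pool.Agent.JX.Stmts
import Pool.Agent.JX.Basic
import Pool.Agent.JX.M1
import Pool.Agent.JX.Orbits

/-!
# M7: link to the frozen statement (MP_b57267_co)
-/

set_option autoImplicit false

namespace Pool.Agent.JX

open Finset BigOperators Classical

noncomputable section

/-- edge set of a graph as a finset -/
def edg {k : ℕ} (H : SimpleGraph (Fin k)) : Finset (Sym2 (Fin k)) :=
  univ.filter (fun e => e ∈ H.edgeSet)

theorem mem_edg {k : ℕ} {H : SimpleGraph (Fin k)} {i j : Fin k} :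
    s(i, j) ∈ edg H ↔ H.Adj i j := by
  simp [edg]

theorem prod_edg {k : ℕ} (H : SimpleGraph (Fin k)) (f : Sym2 (Fin k) → ℝ) :
    ∏ i : Fin k, ∏ j : Fin k, (if i < j ∧ H.Adj i j then f s(i, j) else 1)
      = ∏ e ∈ edg H, f e := by
  rw [← prod_product' univ univ (fun i j : Fin k => if i < j ∧ H.Adj i j then f s(i, j) else 1),
    ← prod_filter (fun p : Fin k × Fin k => p.1 < p.2 ∧ H.Adj p.1 p.2)
      (fun p : Fin k × Fin k => f s(p.1, p.2))]
  refine prod_bij (fun p _ => s(p.1, p.2)) ?_ ?_ ?_ ?_
  · intro p hp
    rw [mem_filter] at hp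
    exact mem_edg.2 hp.2.2
  · intro p hp q hq h
    rw [mem_filter] at hp hq
    rw [Sym2.eq_iff] at h
    rcases h with h | h
    · exact Prod.ext h.1 h.2
    · exfalso
      have h1 := hp.2.1
      have h2 := hq.2.1
      rw [h.1, h.2] at h1
      exact absurd h1 h2.not_gt
  · intro e he
    induction e using Sym2.ind with
    | _ x y =>
      have hxy := mem_edg.1 he
      rcases lt_trichotomy x y with h | h | h
      · exact ⟨(x, y), by simp [h, hxy], rfl⟩
      · exact absurd h hxy.ne
      · exact ⟨(y, x), by simp [h, hxy.symm], Sym2.eq_swap⟩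
  · intro p _
    rfl

theorem sum_eq_ES {n k : ℕ} (z : Sym2 (Fin n) → Bool) (H : SimpleGraph (Fin k)) :
    (∑ φ : Fin k ↪ Fin n,
          ∏ i : Fin k, ∏ j : Fin k,
            (if i < j ∧ H.Adj i j then
              ((if (gr z).Adj (φ i) (φ j) then (1 : ℝ) else 0) - (1 / 2 : ℝ))
            else 1)) = ES (edg H) z / 2 ^ (edg H).card := by
  unfold ES
  rw [sum_div]
  refine sum_congr rfl (fun φ _ => ?_)
  unfold cp
  rw [← prod_const, ← prod_div_distrib, ← prod_edg H (fun e => sg (z (Sym2.map φ e)) / 2)]
  refine prod_congr rfl (fun i _ => prod_congr rfl (fun j _ => ?_))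
  by_cases h : i < j ∧ H.Adj i j
  · rw [if_pos h, if_pos h]
    have hne : φ i ≠ φ j := fun hh => h.1.ne (φ.injective hh)
    have hadj : (gr z).Adj (φ i) (φ j) ↔ z s(φ i, φ j) = true :=
      ⟨fun hh => hh.2, fun hh => ⟨hne, hh⟩⟩
    rw [Sym2.map_mk]
    by_cases hz : z s(φ i, φ j) = true
    · rw [if_pos (hadj.2 hz), hz]
      norm_num [sg]
    · rw [if_neg (fun hh => hz (hadj.1 hh))]
      rw [Bool.not_eq_true] at hz
      rw [hz]
      norm_num [sg]
  · rw [if_neg h, if_neg h]

theorem vs_edg {k : ℕ} (H : SimpleGraph (Fin k)) (h : ∀ w, ∃ u, H.Adj w u) :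
    vs (edg H) = univ := by
  rw [eq_univ_iff_forall]
  intro x
  obtain ⟨u, hu⟩ := h x
  rw [mem_vs]
  exact ⟨s(x, u), mem_edg.2 hu, by simp⟩

theorem edg_loopless {k : ℕ} (H : SimpleGraph (Fin k)) : ∀ e ∈ edg H, ¬ e.IsDiag := by
  intro e he
  induction e using Sym2.ind with
  | _ x y =>
    rw [Sym2.mk_isDiag_iff]
    exact (mem_edg.1 he).ne

/-- closed sets of vertices -/
def Clo {k : ℕ} (H : SimpleGraph (Fin k)) (A : Finset (Fin k)) : Prop :=
  ∀ x y, H.Adj x y → x ∈ A → y ∈ A

theorem good_edg {k : ℕ} (hk : k ≤ 5) (hk0 : 0 < k) (H : SimpleGraph (Fin k))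
    (h : ∀ w, ∃ u, H.Adj w u) (hc : ∀ A : Finset (Fin k), A.Nonempty → Clo H A → A = univ) :
    Good (edg H) := by
  refine ⟨⟨?_, ?_⟩, edg_loopless H, ?_⟩
  · obtain ⟨u, hu⟩ := h ⟨0, hk0⟩
    exact ⟨_, mem_edg.2 hu⟩
  · intro A _ hne hcl
    rw [vs_edg H h]
    apply hc A hne
    intro x y hxy hx
    exact hcl s(x, y) (mem_edg.2 hxy) x (by simp) hx y (by simp)
  · rw [vs_edg H h, card_univ, Fintype.card_fin]
    exact hk

theorem es_conn_zero {n t k : ℕ} (z : Sym2 (Fin n) → Bool) (hz : Hit t z) (hk : k ≤ 5) (hk3 : 3 ≤ k)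
    (H : SimpleGraph (Fin k))
    (h : ∀ w, ∃ u, H.Adj w u) (hc : ∀ A : Finset (Fin k), A.Nonempty → Clo H A → A = univ) :
    ES (edg H) z = 0 := by
  refine es_zero 6 z (fun T _ => hz.2 T) (edg H) (good_edg hk (by omega) H h hc) (vs_edg H h) ?_ ?_
  · rw [Fintype.card_fin]
    exact hk3
  · rw [Fintype.card_fin]
    omega

/-- the two-vertex edge set -/
def J2 : Finset (Sym2 (Fin 2)) := {s(0, 1)}

theorem es_J2 {n : ℕ} (z : Sym2 (Fin n) → Bool) : ES J2 z = 2 * T2 z := by
  rw [← sum_Zp, ← sum_product' univ univ (fun x y : Fin n => Zp z x y)]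
  have h1 : ∑ p ∈ (univ : Finset (Fin n)) ×ˢ (univ : Finset (Fin n)), Zp z p.1 p.2
      = ∑ p ∈ ((univ : Finset (Fin n)) ×ˢ (univ : Finset (Fin n))).filter
          (fun p => p.1 ≠ p.2), Zp z p.1 p.2 := by
    rw [sum_filter]
    refine sum_congr rfl (fun p _ => ?_)
    by_cases h : p.1 = p.2
    · simp [Zp, h]
    · simp [h]
  rw [h1]
  unfold ES
  refine sum_bij (fun φ _ => (φ 0, φ 1)) ?_ ?_ ?_ ?_
  · intro φ _
    simp
  · intro φ _ ψ _ h
    rw [Prod.mk.injEq] at h
    refine DFunLike.ext _ _ (fun i => ?_)
    fin_cases i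
    · exact h.1
    · exact h.2
  · rintro ⟨x, y⟩ hp
    rw [mem_filter] at hp
    have hxy : x ≠ y := hp.2
    refine ⟨⟨fun i => if i = 0 then x else y, ?_⟩, mem_univ _, ?_⟩
    · intro i j h
      fin_cases i <;> fin_cases j <;> simp_all
    · show ((if (0 : Fin 2) = 0 then x else y), (if (1 : Fin 2) = 0 then x else y)) = (x, y)
      simp
  · intro φ _
    have hne : φ 0 ≠ φ 1 := fun h => by simpa using φ.injective h
    simp [cp, J2, Zp, hne]

theorem good_pend (w : Fin 2) : Good (pend J2 w) ∧ vs (pend J2 w) = univ := by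
  have hpend : pend J2 w = {s(some w, none), s(some 0, some 1)} := by
    simp [pend, J2, mapE]
  have hvs : vs (pend J2 w) = univ := by
    rw [eq_univ_iff_forall]
    intro x
    rw [mem_vs, hpend]
    rcases x with _ | x
    · exact ⟨s(some w, none), by simp, by simp⟩
    · refine ⟨s(some 0, some 1), by simp, ?_⟩
      fin_cases x
      · simp
      · simp
  refine ⟨⟨⟨?_, ?_⟩, ?_, ?_⟩, hvs⟩
  · rw [hpend]
    simp
  · intro A _ hne hcl
    rw [hpend] at hcl
    rw [hvs]
    have h1 : (some w ∈ A ↔ none ∈ A) := by
      constructor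
      · intro h
        exact hcl s(some w, none) (by simp) (some w) (by simp) h none (by simp)
      · intro h
        exact hcl s(some w, none) (by simp) none (by simp) h (some w) (by simp)
    have h2 : (some (0 : Fin 2) ∈ A ↔ some 1 ∈ A) := by
      constructor
      · intro h
        exact hcl s(some 0, some 1) (by simp) (some 0) (by simp) h (some 1) (by simp)
      · intro h
        exact hcl s(some 0, some 1) (by simp) (some 1) (by simp) h (some 0) (by simp)
    have h3 : (some (0 : Fin 2) ∈ A ↔ some w ∈ A) := by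
      fin_cases w
      · exact Iff.rfl
      · exact h2
    have h4 : some (0 : Fin 2) ∈ A := by
      obtain ⟨x, hx⟩ := hne
      rcases x with _ | x
      · exact h3.2 (h1.2 hx)
      · fin_cases x
        · exact hx
        · exact h2.2 hx
    rw [eq_univ_iff_forall]
    intro x
    rcases x with _ | x
    · exact h1.1 (h3.1 h4)
    · fin_cases x
      · exact h4
      · exact h2.1 h4
  · intro e he
    rw [hpend, mem_insert, mem_singleton] at he
    rcases he with rfl | rfl
    · simp
    · simp
  · rw [hvs]
    simp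

theorem es_sep_zero {n t : ℕ} (hA : Adm n t) (z : Sym2 (Fin n) → Bool) (hz : Hit t z) :
    ES (sepE J2) z = 0 := by
  have hp : ∀ w : Fin 2, ES (pend J2 w) z = 0 := by
    intro w
    refine es_zero 6 z (fun T _ => hz.2 T) (pend J2 w) (good_pend w).1 (good_pend w).2 ?_ ?_
    · simp
    · simp
  have hs : ∀ w : Fin 2, ∀ w' ∈ (univ : Finset (Fin 2)).erase w,
      ES (symmDiff J2 {s(w, w')}) z = 2 * (t : ℝ) ^ 2 := by
    intro w w' hw'
    have hne := ne_of_mem_erase hw'
    have h1 : s(w, w') = s(0, 1) := by
      fin_cases w <;> fin_cases w' <;> simp_all [Sym2.eq_swap]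
    have h2 : symmDiff J2 {s(w, w')} = (∅ : Finset (Sym2 (Fin 2))) := by
      rw [h1, J2]
      exact symmDiff_self _
    rw [h2, es_empty, Fintype.card_fin]
    have h3 : n.descFactorial 2 = 2 * t ^ 2 := by
      rw [← hA.2.1, Nat.descFactorial_succ, Nat.descFactorial_succ, Nat.descFactorial_zero,
        Nat.sub_zero, mul_one, Nat.mul_comm]
    rw [h3]
    push_cast
    ring
  rw [es_pair, es_J2, hz.1, sum_congr rfl (fun w _ => hp w),
    sum_congr rfl (fun w _ => sum_congr rfl (fun w' hw' => hs w w' hw'))]
  simp
  ring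

/-- the labelling of the four vertices -/
def lab (a b c d : Fin 4) : Option (Option (Fin 2)) → Fin 4
  | none => d
  | some none => c
  | some (some 0) => a
  | some (some 1) => b

theorem es_two_zero {n t : ℕ} (hA : Adm n t) (z : Sym2 (Fin n) → Bool) (hz : Hit t z)
    (a b c d : Fin 4) (hab : a ≠ b) (hac : a ≠ c) (had : a ≠ d) (hbc : b ≠ c) (hbd : b ≠ d)
    (hcd : c ≠ d) : ES ({s(a, b), s(c, d)} : Finset (Sym2 (Fin 4))) z = 0 := by
  have hinj : Function.Injective (lab a b c d) := by
    intro x y h
    rcases x with _ | _ | x <;> rcases y with _ | _ | y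
    · rfl
    · exact absurd h hcd.symm
    · fin_cases y
      · exact absurd h had.symm
      · exact absurd h hbd.symm
    · exact absurd h hcd
    · rfl
    · fin_cases y
      · exact absurd h hac.symm
      · exact absurd h hbc.symm
    · fin_cases x
      · exact absurd h had
      · exact absurd h hbd
    · fin_cases x
      · exact absurd h hac
      · exact absurd h hbc
    · fin_cases x <;> fin_cases y
      · rfl
      · exact absurd h hab
      · exact absurd h hab.symm
      · rfl
  have hbij : Function.Bijective (lab a b c d) :=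
    (Fintype.bijective_iff_injective_and_card _).2 ⟨hinj, by simp⟩
  have h1 := es_equiv (n := n) (Equiv.ofBijective _ hbij) (sepE J2) z
  have h2 : mapE (Equiv.ofBijective _ hbij) (sepE J2) = {s(a, b), s(c, d)} := by
    have : mapE (Equiv.ofBijective _ hbij) (sepE J2) = {s(c, d), s(a, b)} := by
      simp [sepE, J2, mapE, lab]
    rw [this, pair_comm]
  rw [← h2, h1]
  exact es_sep_zero hA z hz

theorem link : StmtLink := by
  intro n t hA z hz k H hH
  rw [sum_eq_ES, div_eq_zero_iff]
  left
  rcases hH with ⟨hk, h⟩ | ⟨hk, hconn⟩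
  · by_cases hc : ∀ A : Finset (Fin k), A.Nonempty → Clo H A → A = univ
    · exact es_conn_zero z hz (by omega) (by omega) H h hc
    · push Not at hc
      obtain ⟨A, hne, hcl, hA'⟩ := hc
      have hclB : Clo H Aᶜ := by
        intro x y hxy hx
        rw [mem_compl] at hx ⊢
        intro hy
        exact hx (hcl y x hxy.symm hy)
      have hneB : (Aᶜ).Nonempty := by
        rw [nonempty_iff_ne_empty]
        intro h0
        rw [compl_eq_empty_iff] at h0
        exact hA' h0
      have two : ∀ B : Finset (Fin k), B.Nonempty → Clo H B → 2 ≤ B.card := by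
        intro B hB hclB
        obtain ⟨x, hx⟩ := hB
        obtain ⟨u, hu⟩ := h x
        exact one_lt_card.2 ⟨x, hx, u, hclB x u hu hx, hu.ne⟩
      have h2A := two A hne hcl
      have h2B := two Aᶜ hneB hclB
      have hsum : A.card + (Aᶜ).card = k := by
        rw [card_add_card_compl, Fintype.card_fin]
      have hk4 : k = 4 := by omega
      subst hk4
      obtain ⟨a, b, hab, hAab⟩ := card_eq_two.1 (by omega : A.card = 2)
      obtain ⟨c, d, hcd, hBcd⟩ := card_eq_two.1 (by omega : (Aᶜ).card = 2)
      have ha : a ∈ A := by rw [hAab]; simp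
      have hb : b ∈ A := by rw [hAab]; simp
      have hc' : c ∉ A := by
        rw [← mem_compl, hBcd]; simp
      have hd' : d ∉ A := by
        rw [← mem_compl, hBcd]; simp
      have hJ : edg H = {s(a, b), s(c, d)} := by
        ext e
        induction e using Sym2.ind with
        | _ x y =>
          rw [mem_edg, mem_insert, mem_singleton, Sym2.eq_iff, Sym2.eq_iff]
          constructor
          · intro hxy
            by_cases hx : x ∈ A
            · have hy := hcl x y hxy hx
              have hne' := hxy.ne
              rw [hAab, mem_insert, mem_singleton] at hx hy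
              left
              rcases hx with rfl | rfl <;> rcases hy with rfl | rfl
              · exact absurd rfl hne'
              · exact Or.inl ⟨rfl, rfl⟩
              · exact Or.inr ⟨rfl, rfl⟩
              · exact absurd rfl hne'
            · have hx' : x ∈ Aᶜ := mem_compl.2 hx
              have hy := hclB x y hxy hx'
              have hne' := hxy.ne
              rw [hBcd, mem_insert, mem_singleton] at hx' hy
              right
              rcases hx' with rfl | rfl <;> rcases hy with rfl | rfl
              · exact absurd rfl hne'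
              · exact Or.inl ⟨rfl, rfl⟩
              · exact Or.inr ⟨rfl, rfl⟩
              · exact absurd rfl hne'
          · have hadjab : H.Adj a b := by
              obtain ⟨u, hu⟩ := h a
              have hu' := hcl a u hu ha
              rw [hAab, mem_insert, mem_singleton] at hu'
              rcases hu' with rfl | rfl
              · exact absurd rfl hu.ne
              · exact hu
            have hadjcd : H.Adj c d := by
              obtain ⟨u, hu⟩ := h c
              have hu' := hclB c u hu (mem_compl.2 hc')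
              rw [hBcd, mem_insert, mem_singleton] at hu'
              rcases hu' with rfl | rfl
              · exact absurd rfl hu.ne
              · exact hu
            rintro ((⟨rfl, rfl⟩ | ⟨rfl, rfl⟩) | (⟨rfl, rfl⟩ | ⟨rfl, rfl⟩))
            · exact hadjab
            · exact hadjab.symm
            · exact hadjcd
            · exact hadjcd.symm
      rw [hJ]
      refine es_two_zero hA z hz a b c d hab ?_ ?_ ?_ ?_ hcd
      · rintro rfl; exact hc' ha
      · rintro rfl; exact hd' ha
      · rintro rfl; exact hc' hb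
      · rintro rfl; exact hd' hb
  · subst hk
    have hcl : ∀ A : Finset (Fin 5), A.Nonempty → Clo H A → A = univ := by
      intro A hne hcl
      obtain ⟨x, hx⟩ := hne
      rw [eq_univ_iff_forall]
      intro y
      have hr := hconn.preconnected x y
      rw [SimpleGraph.reachable_iff_reflTransGen] at hr
      induction hr with
      | refl => exact hx
      | tail _ hbc ih => exact hcl _ _ hbc ih
    have h : ∀ w : Fin 5, ∃ u, H.Adj w u := by
      intro w
      by_contra hno
      push Not at hno
      have : ({w} : Finset (Fin 5)) = univ := by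
        apply hcl {w} ⟨w, by simp⟩
        intro x y hxy hx
        rw [mem_singleton] at hx
        subst hx
        exact absurd hxy (hno y)
      have h2 := congrArg Finset.card this
      simp at h2
    exact es_conn_zero z hz (by omega) (by omega) H h hcl

end

end Pool.Agent.JX
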