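import Mathlib
import Pool.Agent.JX.Defs
import Pool.Agent.JX.Basic
import Pool.Agent.JX.M1
import Pool.Agent.JX.StmtsM3

/-!
# M3a: Gowers-Cauchy-Schwarz in blocks (MP_b57267_co)
-/

set_option autoImplicit false

namespace Pool.Agent.JX

open Finset BigOperators Classical

noncomputable section

variable {ι : Type}

/-- multiply the signs in `B` by the signs `h` -/
def twist [DecidableEq ι] (B : Finset ι) (h z : ι → Bool) : ι → Bool :=
  fun i => if i ∈ B then (h i == z i) else z i

theorem sg_beq (a b : Bool) : sg (a == b) = sg a * sg b := by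
  cases a <;> cases b <;> simp [sg]

/-- pointwise product of sign patterns -/
def mulz (h z : ι → Bool) : ι → Bool := fun i => (h i == z i)

theorem mulz_mulz (h z : ι → Bool) : mulz (mulz z h) h = z := by
  funext i
  simp only [mulz]
  cases h i <;> cases z i <;> rfl

theorem twist_twist [DecidableEq ι] (B : Finset ι) (h h' z : ι → Bool) :
    twist B h' (twist B h z) = twist B (mulz h' h) z := by
  funext i
  simp only [twist, mulz]
  by_cases hi : i ∈ B
  · simp only [if_pos hi]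
    cases h i <;> cases z i <;> cases h' i <;> rfl
  · simp only [if_neg hi]

theorem twist_self [DecidableEq ι] (B : Finset ι) (h z : ι → Bool) :
    twist B h (twist B h z) = z := by
  funext i
  simp only [twist]
  by_cases hi : i ∈ B
  · simp only [if_pos hi]
    cases h i <;> cases z i <;> rfl
  · simp only [if_neg hi]

/-- twisting as an equivalence -/
def twistEquiv [DecidableEq ι] (B : Finset ι) (h : ι → Bool) : (ι → Bool) ≃ (ι → Bool) where
  toFun := twist B h
  invFun := twist B h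
  left_inv := twist_self B h
  right_inv := twist_self B h

/-- multiplication as an equivalence -/
def mulzEquiv (h : ι → Bool) : (ι → Bool) ≃ (ι → Bool) where
  toFun z := mulz z h
  invFun z := mulz z h
  left_inv := mulz_mulz h
  right_inv := mulz_mulz h

theorem chi_twist [DecidableEq ι] (B J : Finset ι) (h z : ι → Bool) :
    chi J (twist B h z) = chi (J ∩ B) h * chi J z := by
  have h1 : chi J (twist B h z) = ∏ i ∈ J, ((if i ∈ B then sg (h i) else 1) * sg (z i)) := by
    unfold chi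
    refine prod_congr rfl (fun i _ => ?_)
    simp only [twist]
    by_cases hi : i ∈ B
    · simp only [if_pos hi, sg_beq]
    · simp only [if_neg hi, one_mul]
  rw [h1, prod_mul_distrib, prod_ite_mem]
  rfl

theorem pol_twist [Fintype ι] [DecidableEq ι] (B : Finset ι) (c : Finset ι → ℝ)
    (h z : ι → Bool) :
    pol c (twist B h z) = pol (fun J => c J * chi (J ∩ B) h) z := by
  unfold pol
  refine sum_congr rfl (fun J _ => ?_)
  rw [chi_twist]
  ring

theorem conj_ee (x : ℝ) : (starRingEnd ℂ) (ee x) = ee (-x) := by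
  unfold ee
  rw [← Complex.exp_conj]
  congr 1
  rw [map_mul, Complex.conj_ofReal, Complex.conj_I]
  push_cast
  ring

theorem expect_twist [Fintype ι] [DecidableEq ι] (B : Finset ι) (h : ι → Bool)
    (F : (ι → Bool) → ℂ) : (𝔼 z : ι → Bool, F (twist B h z)) = 𝔼 z : ι → Bool, F z :=
  Fintype.expect_equiv (twistEquiv B h) _ _ (fun _ => rfl)

theorem expect_mulz [Fintype ι] [DecidableEq ι] (h : ι → Bool)
    (F : (ι → Bool) → ℂ) : (𝔼 z : ι → Bool, F (mulz z h)) = 𝔼 z : ι → Bool, F z :=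
  Fintype.expect_equiv (mulzEquiv h) _ _ (fun _ => rfl)

theorem sq_expect_le {X : Type} [Fintype X] [Nonempty X] (f : X → ℝ) :
    (𝔼 x, f x) ^ 2 ≤ 𝔼 x, f x ^ 2 := by
  have h := expect_mul_sq_le_sq_mul_sq (univ : Finset X) f (fun _ => 1)
  simpa using h

theorem conj_expect {X : Type} (s : Finset X) (f : X → ℂ) :
    (starRingEnd ℂ) (𝔼 x ∈ s, f x) = 𝔼 x ∈ s, (starRingEnd ℂ) (f x) := by
  simp only [expect_eq_sum_div_card, map_div₀, map_sum, map_natCast]

theorem ofReal_expect {X : Type} (s : Finset X) (f : X → ℝ) :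
    (((𝔼 x ∈ s, f x : ℝ)) : ℂ) = 𝔼 x ∈ s, ((f x : ℝ) : ℂ) := by
  simp only [expect_eq_sum_div_card, Complex.ofReal_div, Complex.ofReal_sum,
    Complex.ofReal_natCast]

theorem one_block [Fintype ι] [DecidableEq ι] (B : Finset ι) (F : (ι → Bool) → ℂ) :
    ‖𝔼 z : ι → Bool, F z‖ ^ 2 ≤
      𝔼 h : ι → Bool, ‖𝔼 z : ι → Bool, F z * (starRingEnd ℂ) (F (twist B h z))‖ := by
  set A : (ι → Bool) → ℂ := fun z => 𝔼 h : ι → Bool, F (twist B h z) with hA
  set G : (ι → Bool) → ℂ := fun h => 𝔼 z : ι → Bool, F z * (starRingEnd ℂ) (F (twist B h z))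
    with hG
  have e1 : (𝔼 z : ι → Bool, F z) = 𝔼 z : ι → Bool, A z := by
    rw [hA]
    rw [expect_comm]
    have : ∀ h : ι → Bool, (𝔼 z : ι → Bool, F (twist B h z)) = 𝔼 z : ι → Bool, F z :=
      fun h => expect_twist B h F
    rw [expect_congr rfl (fun h _ => this h)]
    exact (Fintype.expect_const _).symm
  have e2 : ‖𝔼 z : ι → Bool, A z‖ ^ 2 ≤ 𝔼 z : ι → Bool, ‖A z‖ ^ 2 := by
    refine le_trans ?_ (sq_expect_le (fun z => ‖A z‖))
    exact pow_le_pow_left₀ (norm_nonneg _) (RCLike.norm_expect_le (K := ℂ)) 2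
  have e3 : (((𝔼 z : ι → Bool, ‖A z‖ ^ 2 : ℝ)) : ℂ) = 𝔼 h : ι → Bool, G h := by
    rw [ofReal_expect]
    have h1 : ∀ z : ι → Bool, (((‖A z‖ ^ 2 : ℝ)) : ℂ)
        = 𝔼 h : ι → Bool, 𝔼 h' : ι → Bool, F (twist B h z) * (starRingEnd ℂ) (F (twist B h' z)) := by
      intro z
      have h2 : (((‖A z‖ ^ 2 : ℝ)) : ℂ) = A z * (starRingEnd ℂ) (A z) := by
        rw [Complex.mul_conj, Complex.normSq_eq_norm_sq]
      rw [h2, hA]
      simp only
      rw [conj_expect, expect_mul_expect]
    rw [expect_congr rfl (fun z _ => h1 z), expect_comm]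
    have h3 : ∀ h : ι → Bool, (𝔼 z : ι → Bool, 𝔼 h' : ι → Bool,
        F (twist B h z) * (starRingEnd ℂ) (F (twist B h' z))) = 𝔼 h' : ι → Bool, G h' := by
      intro h
      rw [expect_comm, ← expect_mulz h G]
      refine expect_congr rfl (fun h' _ => ?_)
      rw [hG]
      simp only
      rw [← expect_twist B h (fun z => F z * (starRingEnd ℂ) (F (twist B (mulz h' h) z)))]
      refine expect_congr rfl (fun z _ => ?_)
      rw [← twist_twist, twist_self]
    rw [expect_congr rfl (fun h _ => h3 h)]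
    exact Fintype.expect_const _
  have e4 : (𝔼 z : ι → Bool, ‖A z‖ ^ 2) ≤ 𝔼 h : ι → Bool, ‖G h‖ := by
    have h0 : (0 : ℝ) ≤ 𝔼 z : ι → Bool, ‖A z‖ ^ 2 := expect_nonneg (fun z _ => by positivity)
    have h5 : (𝔼 z : ι → Bool, ‖A z‖ ^ 2) = ‖(((𝔼 z : ι → Bool, ‖A z‖ ^ 2 : ℝ)) : ℂ)‖ := by
      rw [Complex.norm_real, Real.norm_of_nonneg h0]
    rw [h5, e3]
    exact RCLike.norm_expect_le (K := ℂ)
  rw [e1]
  exact e2.trans e4

theorem one_block_pol [Fintype ι] [DecidableEq ι] (B : Finset ι) (c : Finset ι → ℝ) :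
    ‖𝔼 z : ι → Bool, ee (pol c z)‖ ^ 2 ≤
      𝔼 h : ι → Bool, ‖𝔼 z : ι → Bool, ee (pol (fun J => c J * (1 - chi (J ∩ B) h)) z)‖ := by
  refine (one_block B (fun z => ee (pol c z))).trans (le_of_eq ?_)
  refine expect_congr rfl (fun h _ => ?_)
  congr 1
  refine expect_congr rfl (fun z _ => ?_)
  rw [conj_ee, ← ee_add, pol_twist, ← sub_eq_add_neg, ← pol_sub]
  congr 2
  funext J
  ring

/-- swap a coordinate with a new value -/
def swapEquiv {T X : Type} [DecidableEq T] (t0 : T) : ((T → X) × X) ≃ ((T → X) × X) where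
  toFun p := (Function.update p.1 t0 p.2, p.1 t0)
  invFun p := (Function.update p.1 t0 p.2, p.1 t0)
  left_inv := by
    rintro ⟨h, x⟩
    simp
  right_inv := by
    rintro ⟨h, x⟩
    simp

/-- resampling one coordinate -/
theorem expect_update {T X : Type} [Fintype T] [DecidableEq T] [Fintype X] [Nonempty X]
    (t0 : T) (Φ : (T → X) → ℝ) :
    (𝔼 h : T → X, 𝔼 x : X, Φ (Function.update h t0 x)) = 𝔼 h : T → X, Φ h := by
  rw [← expect_product' univ univ (fun (h : T → X) (x : X) => Φ (Function.update h t0 x)),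
    univ_product_univ]
  have h1 : (𝔼 p : (T → X) × X, Φ (Function.update p.1 t0 p.2)) = 𝔼 p : (T → X) × X, Φ p.1 :=
    Fintype.expect_equiv (swapEquiv t0) _ _ (fun _ => rfl)
  rw [h1, ← univ_product_univ, expect_product' univ univ (fun (h : T → X) (_ : X) => Φ h)]
  exact expect_congr rfl (fun h _ => Fintype.expect_const _)

theorem gcs : StmtGCS := by
  intro ι T _ _ _ _ s B c
  induction s using Finset.induction_on with
  | empty =>
    simp only [card_empty, pow_zero, pow_one, prod_empty, mul_one]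
    exact le_of_eq (Fintype.expect_const _).symm
  | insert t0 s ht ih =>
    set Ψ : (T → (ι → Bool)) → ℝ := fun h =>
      ‖𝔼 z : ι → Bool, ee (pol (fun J => c J * ∏ t ∈ s, (1 - chi (J ∩ B t) (h t))) z)‖ with hΨ
    set Φ : (T → (ι → Bool)) → ℝ := fun h =>
      ‖𝔼 z : ι → Bool, ee (pol (fun J => c J * ∏ t ∈ insert t0 s, (1 - chi (J ∩ B t) (h t))) z)‖
      with hΦ
    have h1 : ‖𝔼 z : ι → Bool, ee (pol c z)‖ ^ (2 ^ (insert t0 s).card)
        = (‖𝔼 z : ι → Bool, ee (pol c z)‖ ^ (2 ^ s.card)) ^ 2 := by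
      rw [card_insert_of_notMem ht, ← pow_mul, pow_succ]
    have h2 : (‖𝔼 z : ι → Bool, ee (pol c z)‖ ^ (2 ^ s.card)) ^ 2
        ≤ (𝔼 h : T → (ι → Bool), Ψ h) ^ 2 := pow_le_pow_left₀ (by positivity) ih 2
    have h3 : (𝔼 h : T → (ι → Bool), Ψ h) ^ 2 ≤ 𝔼 h : T → (ι → Bool), Ψ h ^ 2 :=
      sq_expect_le Ψ
    have h4 : ∀ h : T → (ι → Bool), Ψ h ^ 2
        ≤ 𝔼 x : ι → Bool, Φ (Function.update h t0 x) := by
      intro h
      refine (one_block_pol (B t0)
        (fun J => c J * ∏ t ∈ s, (1 - chi (J ∩ B t) (h t)))).trans (le_of_eq ?_)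
      refine expect_congr rfl (fun x _ => ?_)
      rw [hΦ]
      simp only
      congr 1
      refine expect_congr rfl (fun z _ => ?_)
      congr 2
      funext J
      rw [prod_insert ht, Function.update_self]
      have : ∏ t ∈ s, (1 - chi (J ∩ B t) (Function.update h t0 x t))
          = ∏ t ∈ s, (1 - chi (J ∩ B t) (h t)) := by
        refine prod_congr rfl (fun t htm => ?_)
        have hne : t ≠ t0 := by
          rintro rfl
          exact ht htm
        rw [Function.update_of_ne hne]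
      rw [this]
      ring
    have h5 : (𝔼 h : T → (ι → Bool), Ψ h ^ 2) ≤ 𝔼 h : T → (ι → Bool), Φ h := by
      rw [← expect_update t0 Φ]
      exact expect_le_expect (fun h _ => h4 h)
    rw [h1]
    exact h2.trans (h3.trans h5)

end

end Pool.Agent.JX
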