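import Mathlib
import Pool.Agent.JX.Defs
import Pool.Agent.JX.Basic
import Pool.Agent.JX.StmtsM3

/-!
# M3c: independence of disjoint groups of coordinates (MP_b57267_co)
-/

set_option autoImplicit false

namespace Pool.Agent.JX

open Finset BigOperators Classical

noncomputable section

/-- marginal of an injective family of coordinates -/
theorem expect_comp_inj {E K X : Type} [Fintype E] [DecidableEq E] [Fintype K] [DecidableEq K]
    [Fintype X] [Nonempty X] (u : K → E) (hu : Function.Injective u) (F : (K → X) → ℝ) :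
    (𝔼 z : E → X, F (fun k => z (u k))) = 𝔼 y : K → X, F y := by
  have h1 : (𝔼 z : E → X, F (fun k => z (u k)))
      = 𝔼 p : ({x : E // x ∈ Set.range u} → X) × ({x : E // ¬ (x ∈ Set.range u)} → X),
          F (fun k => p.1 (Equiv.ofInjective u hu k)) :=
    Fintype.expect_equiv (Equiv.piEquivPiSubtypeProd (fun x : E => x ∈ Set.range u) (fun _ => X))
      _ _ (fun _ => rfl)
  have h2 : (𝔼 p : ({x : E // x ∈ Set.range u} → X) × ({x : E // ¬ (x ∈ Set.range u)} → X),
          F (fun k => p.1 (Equiv.ofInjective u hu k)))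
      = 𝔼 q : {x : E // x ∈ Set.range u} → X, F (fun k => q (Equiv.ofInjective u hu k)) := by
    rw [← univ_product_univ, expect_product' univ univ
      (fun (q : {x : E // x ∈ Set.range u} → X) (_ : {x : E // ¬ (x ∈ Set.range u)} → X) =>
        F (fun k => q (Equiv.ofInjective u hu k)))]
    exact expect_congr rfl (fun q _ => Fintype.expect_const _)
  have h3 : (𝔼 q : {x : E // x ∈ Set.range u} → X, F (fun k => q (Equiv.ofInjective u hu k)))
      = 𝔼 y : K → X, F y :=
    Fintype.expect_equiv (Equiv.arrowCongr (Equiv.ofInjective u hu).symm (Equiv.refl X))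
      _ _ (fun _ => rfl)
  rw [h1, h2, h3]

/-- expectation of a product of functions of independent coordinates -/
theorem expect_prod_pi {G Y : Type} [Fintype G] [DecidableEq G] [Fintype Y]
    (Φ : G → Y → ℝ) :
    (𝔼 y : G → Y, ∏ l, Φ l (y l)) = ∏ l, 𝔼 w : Y, Φ l w := by
  simp only [Fintype.expect_eq_sum_div_card]
  rw [prod_div_distrib, prod_univ_sum, Fintype.piFinset_univ, prod_const, card_univ,
    Fintype.card_fun]
  push_cast
  rfl

theorem ind : StmtInd := by
  intro E G A X _ _ _ _ _ _ _ _ _ u hu Φ
  rw [expect_comp_inj u hu (fun y : G × A → X => ∏ l, Φ l (fun a => y (l, a)))]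
  rw [← expect_prod_pi]
  exact Fintype.expect_equiv (Equiv.curry G A X) _ _ (fun _ => rfl)

end

end Pool.Agent.JX
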