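import Mathlib
import Pool.Agent.JX.Defs

/-!
# Further sub-module statements for the minor arcs (M3) of MP_b57267_co
-/

set_option autoImplicit false

namespace Pool.Agent.JX

open Finset BigOperators Classical

noncomputable section

/-- block of position `t` for the group structure `v` (group, position, element) -/
def blk {n I k m : ℕ} (v : Fin I × Fin k × Fin m → Fin n) (t : Sym2 (Fin k)) :
    Finset (Sym2 (Fin n)) :=
  univ.filter fun e => ∃ x y : Fin I × Fin k × Fin m,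
    x.1 = y.1 ∧ s(x.2.1, y.2.1) = t ∧ e = s(v x, v y)

/-- `J` meets all blocks of positions in `H` -/
def Meets {n I k m : ℕ} (v : Fin I × Fin k × Fin m → Fin n) (H : Finset (Sym2 (Fin k)))
    (J : Finset (Sym2 (Fin n))) : Prop := ∀ t ∈ H, (J ∩ blk v t).Nonempty

/-- M3e (Param): choice of the number `I` of groups, and the final numerical inequality.
`I` = the largest natural number with `((I m k)^k) LL^(11-2k) ≤ n^k`; then by maximality and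
`m^k ≤ C n^k / LL^(12-2k)`: `((I+1) k)^k ≥ LL / C`, so `I + 1 ≥ c LL^(1/5) = c n^(1/(5 N0))`,
and `(1-δ)^I` beats every power of `n`; `j` is such that `2^j ≥ N0 * (A * 2^15 + 1)`. -/
def StmtParam : Prop :=
  ∀ A : ℕ, ∃ j : ℕ, ∀ δ C C1 C2 : ℝ, 0 < δ → δ < 1 → 0 < C → 0 < C1 → 0 < C2 →
    ∃ n0 : ℕ, ∀ n : ℕ, n0 ≤ n → ∀ (k m : ℕ) (D : ℝ), 2 ≤ k → k ≤ 5 → 1 ≤ m → 0 < D →
      (m : ℝ) ^ k * D ^ 2 ≤ C → LL n ^ (6 - k) < D * (Real.sqrt n) ^ k →
      ∃ I : ℕ, 1 ≤ I ∧ I * k * m ≤ n ∧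
        ((I * m : ℕ) : ℝ) ^ k * LL n ^ (11 - 2 * k) ≤ (n : ℝ) ^ k ∧
        600 * ((1 + C2 * (n : ℝ) ^ 5) ^ (2 ^ (j + 1)) *
            (((n : ℝ) ^ 2 + 1) ^ (15 * 2 ^ (j + 1)) * (1 - δ) ^ (I - 15 * 2 ^ (j + 1))) +
          C1 * (C2 / LL n) ^ (2 ^ j)) ≤ 1 / (n : ℝ) ^ (A * 2 ^ 15)

/-- M3f (CountQ): the terms of order larger than `k` which meet all blocks are small in `L²`.
`|cf η J| ≤ 2^15 LL^(6-j) / √n^j` for `j = |vs J| > k`; `vs J` contains a vertex of each class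
`{v (l, i, a)}` (`i` fixed, at most `I m` vertices), so there are at most `(I m)^k n^(j-k)` vertex sets
(`card_le_card` of an image of `(Fintype.piFinset classes) ×ˢ powersetCard (j-k) univ`), and at most
`2^15` edge sets on each (`card_vs_eq`). -/
def StmtCountQ : Prop :=
  ∀ (n I k m : ℕ), 1 ≤ n → 2 ≤ k → k ≤ 5 →
    ∀ (v : Fin I × Fin k × Fin m → Fin n), Function.Injective v →
    ∀ (H : Finset (Sym2 (Fin k))), (∀ i : Fin k, ∃ e ∈ H, i ∈ e) →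
    ∀ (η : Finset (Sym2 (Fin n)) → ℝ), (∀ F, ¬ Good F → η F = 0) →
      (∀ F, k < (vs F).card → |η F| * (Real.sqrt n) ^ (vs F).card ≤ LL n ^ (6 - (vs F).card)) →
      (∑ J ∈ univ.filter (fun J => Meets v H J ∧ k < (vs J).card), cf η J ^ 2) ≤
        2 ^ 60 * LL n ^ (10 - 2 * k) * (((I * m : ℕ) : ℝ) ^ k / (n : ℝ) ^ k)

/-- M3g (L1): crude bound of the l1-norm -/
def StmtL1 : Prop :=
  ∀ (n : ℕ), 1 ≤ n → ∀ (η : Finset (Sym2 (Fin n)) → ℝ), (∀ F, ¬ Good F → η F = 0) →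
    (∀ F, |η F| ≤ 1 / 2) → (∑ J, |cf η J|) ≤ 2 ^ 60 * (n : ℝ) ^ 5

end

end Pool.Agent.JX
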