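import Mathlib
import Pool.Agent.JX.Basic
import Pool.Agent.JX.StmtsM3b

/-!
# M3f (StmtCountQ) and M3g (StmtL1)
-/

set_option autoImplicit false

namespace Pool.Agent.JX

open Finset BigOperators Classical

noncomputable section

/-- families of edge sets whose vertex sets lie in a given family of small sets -/
lemma card_le_of_vs_mem {n : ℕ} (S : Finset (Finset (Sym2 (Fin n)))) (T : Finset (Finset (Fin n)))
    (hS : ∀ J ∈ S, vs J ∈ T) (hT : ∀ U ∈ T, U.card ≤ 5) : S.card ≤ 2 ^ 15 * T.card := by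
  refine card_le_mul_card_image_of_maps_to hS _ ?_
  intro U hU
  refine (card_le_card ?_).trans (card_vs_eq U (hT U hU))
  intro J hJ
  rw [mem_filter] at hJ ⊢
  exact ⟨mem_univ _, hJ.2⟩

/-- a crude bound for `cf` -/
lemma abs_cf_le_unif {n : ℕ} (η : Finset (Sym2 (Fin n)) → ℝ) (J : Finset (Sym2 (Fin n))) (B : ℝ)
    (hB : 0 ≤ B) (h : ∀ F, vs F = vs J → |η F| ≤ B) : |cf η J| ≤ 2 ^ 15 * B := by
  unfold cf
  split_ifs with hJ
  · have h5 : (vs J).card ≤ 5 := hJ.2.2
    calc |∑ F ∈ univ.filter (fun F => J ⊆ F ∧ vs F = vs J), η F / 2 ^ F.card|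
        ≤ ∑ F ∈ univ.filter (fun F => J ⊆ F ∧ vs F = vs J), |η F / 2 ^ F.card| :=
          abs_sum_le_sum_abs _ _
      _ ≤ ∑ F ∈ univ.filter (fun F => J ⊆ F ∧ vs F = vs J), B := by
          refine sum_le_sum ?_
          intro F hF
          rw [mem_filter] at hF
          rw [abs_div, abs_of_pos (a := (2 : ℝ) ^ F.card) (by positivity)]
          refine (div_le_self (abs_nonneg _) ?_).trans (h F hF.2.2)
          exact one_le_pow₀ (by norm_num)
      _ = ((univ.filter (fun F => J ⊆ F ∧ vs F = vs J)).card : ℝ) * B := by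
          rw [sum_const, nsmul_eq_mul]
      _ ≤ 2 ^ 15 * B := by
          refine mul_le_mul_of_nonneg_right ?_ hB
          have h1 : (univ.filter (fun F : Finset (Sym2 (Fin n)) => J ⊆ F ∧ vs F = vs J)).card
              ≤ 2 ^ 15 := by
            refine (card_le_card ?_).trans (card_vs_eq (vs J) h5)
            intro F hF
            rw [mem_filter] at hF ⊢
            exact ⟨mem_univ _, hF.2.2⟩
          exact_mod_cast h1
  · rw [abs_zero]
    positivity

/-- surjection from `Fin c` onto a nonempty finset of at most `c` elements -/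
lemma exists_fun_image_eq {α : Type} [DecidableEq α] (U : Finset α) (hne : U.Nonempty) (c : ℕ)
    (hc : U.card ≤ c) : ∃ f : Fin c → α, univ.image f = U := by
  obtain ⟨x0, hx0⟩ := hne
  have e := U.equivFin
  refine ⟨fun i => if h : (i : ℕ) < U.card then (e.symm ⟨i, h⟩ : α) else x0, ?_⟩
  ext x
  rw [mem_image]
  constructor
  · rintro ⟨i, -, rfl⟩
    split_ifs with h
    · exact (e.symm ⟨i, h⟩).2
    · exact hx0
  · intro hx
    have hlt : ((e ⟨x, hx⟩ : Fin U.card) : ℕ) < U.card := (e ⟨x, hx⟩).2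
    refine ⟨⟨(e ⟨x, hx⟩ : Fin U.card), by omega⟩, mem_univ _, ?_⟩
    rw [dif_pos hlt]
    simp

theorem stmtL1 : StmtL1 := by
  intro n hn η hη hb
  have hT : (univ.filter (fun U : Finset (Fin n) => U.Nonempty ∧ U.card ≤ 5)).card ≤ n ^ 5 := by
    have h1 : univ.filter (fun U : Finset (Fin n) => U.Nonempty ∧ U.card ≤ 5) ⊆
        (univ : Finset (Fin 5 → Fin n)).image (fun f => univ.image f) := by
      intro U hU
      rw [mem_filter] at hU
      obtain ⟨f, hf⟩ := exists_fun_image_eq U hU.2.1 5 hU.2.2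
      rw [mem_image]
      exact ⟨f, mem_univ _, hf⟩
    refine (card_le_card h1).trans (card_image_le.trans ?_)
    simp
  have hG : (univ.filter (fun J : Finset (Sym2 (Fin n)) => Good J)).card ≤ 2 ^ 15 * n ^ 5 := by
    refine (card_le_of_vs_mem _ (univ.filter (fun U : Finset (Fin n) => U.Nonempty ∧ U.card ≤ 5))
      ?_ ?_).trans (Nat.mul_le_mul_left _ hT)
    · intro J hJ
      rw [mem_filter] at hJ ⊢
      refine ⟨mem_univ _, ?_, hJ.2.2.2⟩
      rw [← card_pos]
      have := hJ.2.two_le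
      omega
    · intro U hU
      rw [mem_filter] at hU
      exact hU.2.2
  have h0 : ∀ J, J ∉ univ.filter (fun J : Finset (Sym2 (Fin n)) => Good J) → |cf η J| = 0 := by
    intro J hJ
    rw [mem_filter] at hJ
    have : ¬ Good J := fun h => hJ ⟨mem_univ _, h⟩
    rw [cf, if_neg this, abs_zero]
  have h1 : (∑ J, |cf η J|) = ∑ J ∈ univ.filter (fun J : Finset (Sym2 (Fin n)) => Good J),
      |cf η J| := by
    symm
    refine sum_subset (subset_univ _) ?_
    intro J _ hJ
    exact h0 J hJ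
  rw [h1]
  calc ∑ J ∈ univ.filter (fun J : Finset (Sym2 (Fin n)) => Good J), |cf η J|
      ≤ ∑ J ∈ univ.filter (fun J : Finset (Sym2 (Fin n)) => Good J), (2 ^ 15 * (1 / 2) : ℝ) :=
        sum_le_sum fun J _ => abs_cf_le_unif η J (1 / 2) (by norm_num) fun F _ => hb F
    _ = ((univ.filter (fun J : Finset (Sym2 (Fin n)) => Good J)).card : ℝ) *
          (2 ^ 15 * (1 / 2) : ℝ) := by rw [sum_const, nsmul_eq_mul]
    _ ≤ (2 ^ 15 * (n : ℝ) ^ 5) * (2 ^ 15 * (1 / 2) : ℝ) := by
        refine mul_le_mul_of_nonneg_right ?_ (by norm_num)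
        exact_mod_cast hG
    _ ≤ 2 ^ 60 * (n : ℝ) ^ 5 := by
        have : (0 : ℝ) ≤ (n : ℝ) ^ 5 := by positivity
        nlinarith

lemma one_le_LL {n : ℕ} (hn : 1 ≤ n) : 1 ≤ LL n := by
  unfold LL
  refine Real.one_le_rpow (by exact_mod_cast hn) ?_
  positivity

/-- an edge set meeting all blocks contains a vertex of each class -/
lemma exists_class_vertex {n I k m : ℕ} (v : Fin I × Fin k × Fin m → Fin n)
    (H : Finset (Sym2 (Fin k))) (J : Finset (Sym2 (Fin n))) (hJ : Meets v H J) (i : Fin k)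
    (hi : ∃ e ∈ H, i ∈ e) : ∃ q : Fin I × Fin m, v (q.1, i, q.2) ∈ vs J := by
  obtain ⟨t, ht, hit⟩ := hi
  obtain ⟨e, he⟩ := hJ t ht
  rw [mem_inter] at he
  obtain ⟨heJ, heb⟩ := he
  unfold blk at heb
  rw [mem_filter] at heb
  obtain ⟨-, x, y, hxy, hst, rfl⟩ := heb
  rw [← hst, Sym2.mem_iff] at hit
  rcases hit with h | h
  · refine ⟨(x.1, x.2.2), ?_⟩
    rw [mem_vs]
    refine ⟨_, heJ, ?_⟩
    rw [Sym2.mem_iff]
    left
    rw [h]
  · refine ⟨(y.1, y.2.2), ?_⟩
    rw [mem_vs]
    refine ⟨_, heJ, ?_⟩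
    rw [Sym2.mem_iff]
    right
    rw [h]

/-- the number of vertex sets of size `j` which contain a vertex of each class -/
lemma card_vertex_sets {n I k m j : ℕ} (v : Fin I × Fin k × Fin m → Fin n)
    (hv : Function.Injective v) (hkj : k < j) :
    (univ.filter (fun U : Finset (Fin n) => U.card = j ∧
      ∀ i : Fin k, ∃ q : Fin I × Fin m, v (q.1, i, q.2) ∈ U)).card ≤
      (I * m) ^ k * n ^ (j - k) := by
  have h1 : univ.filter (fun U : Finset (Fin n) => U.card = j ∧
      ∀ i : Fin k, ∃ q : Fin I × Fin m, v (q.1, i, q.2) ∈ U) ⊆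
      (univ : Finset ((Fin k → Fin I × Fin m) × (Fin (j - k) → Fin n))).image
        (fun p => univ.image (fun i => v ((p.1 i).1, i, (p.1 i).2)) ∪ univ.image p.2) := by
    intro U hU
    rw [mem_filter] at hU
    obtain ⟨-, hUj, hq⟩ := hU
    choose q hq using hq
    set A : Finset (Fin n) := univ.image (fun i => v ((q i).1, i, (q i).2)) with hA
    have hAcard : A.card = k := by
      rw [hA, card_image_of_injective, card_univ, Fintype.card_fin]
      intro i i' hii
      have := hv hii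
      simp only [Prod.mk.injEq] at this
      exact this.2.1
    have hAU : A ⊆ U := by
      intro x hx
      rw [hA, mem_image] at hx
      obtain ⟨i, -, rfl⟩ := hx
      exact hq i
    have hdc : (U \ A).card = j - k := by
      rw [card_sdiff_of_subset hAU, hUj, hAcard]
    obtain ⟨g, hg⟩ := exists_fun_image_eq (U \ A) (by rw [← card_pos]; omega) (j - k) hdc.le
    rw [mem_image]
    refine ⟨(q, g), mem_univ _, ?_⟩
    simp only
    rw [hg, ← hA]
    exact union_sdiff_of_subset hAU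
  refine (card_le_card h1).trans (card_image_le.trans ?_)
  rw [card_univ, Fintype.card_prod, Fintype.card_fun, Fintype.card_fun, Fintype.card_prod]
  simp

theorem stmtCountQ : StmtCountQ := by
  intro n I k m hn hk2 hk5 v hv H hH η hη hb
  have hLL := one_le_LL hn
  have hn0 : (0 : ℝ) < n := by exact_mod_cast hn
  have hn1 : (1 : ℝ) ≤ n := by exact_mod_cast hn
  set s := univ.filter (fun J : Finset (Sym2 (Fin n)) => Meets v H J ∧ k < (vs J).card) with hs
  set s' := univ.filter (fun J : Finset (Sym2 (Fin n)) => (Meets v H J ∧ k < (vs J).card) ∧ Good J)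
    with hs'
  have e1 : (∑ J ∈ s, cf η J ^ 2) = ∑ J ∈ s', cf η J ^ 2 := by
    symm
    refine sum_subset ?_ ?_
    · intro J hJ
      rw [hs', mem_filter] at hJ
      rw [hs, mem_filter]
      exact ⟨mem_univ _, hJ.2.1⟩
    · intro J hJ hJ'
      rw [hs, mem_filter] at hJ
      rw [hs', mem_filter] at hJ'
      have : ¬ Good J := fun h => hJ' ⟨mem_univ _, hJ.2, h⟩
      rw [cf, if_neg this]
      norm_num
  rw [e1]
  set X : ℝ := LL n ^ (10 - 2 * k) * (((I * m : ℕ) : ℝ) ^ k / (n : ℝ) ^ k) with hX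
  have hX0 : 0 ≤ X := by positivity
  have hfib : ∀ J ∈ s', (vs J).card ∈ Ioc k 5 := by
    intro J hJ
    rw [hs', mem_filter] at hJ
    rw [mem_Ioc]
    exact ⟨hJ.2.1.2, hJ.2.2.2.2⟩
  rw [← sum_fiberwise_of_maps_to hfib]
  have hj : ∀ j ∈ Ioc k 5, (∑ J ∈ s' with (vs J).card = j, cf η J ^ 2) ≤ 2 ^ 45 * X := by
    intro j hj
    rw [mem_Ioc] at hj
    obtain ⟨hkj, hj5⟩ := hj
    have hcard : (s'.filter (fun J => (vs J).card = j)).card ≤
        2 ^ 15 * ((I * m) ^ k * n ^ (j - k)) := by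
      refine (card_le_of_vs_mem _ (univ.filter (fun U : Finset (Fin n) => U.card = j ∧
        ∀ i : Fin k, ∃ q : Fin I × Fin m, v (q.1, i, q.2) ∈ U)) ?_ ?_).trans
        (Nat.mul_le_mul_left _ (card_vertex_sets v hv hkj))
      · intro J hJ
        rw [mem_filter, hs', mem_filter] at hJ
        rw [mem_filter]
        exact ⟨mem_univ _, hJ.2, fun i => exists_class_vertex v H J hJ.1.2.1.1 i (hH i)⟩
      · intro U hU
        rw [mem_filter] at hU
        omega
    have hterm : ∀ J ∈ s'.filter (fun J => (vs J).card = j),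
        cf η J ^ 2 ≤ 2 ^ 30 * (LL n ^ (10 - 2 * k) / (n : ℝ) ^ j) := by
      intro J hJ
      rw [mem_filter, hs', mem_filter] at hJ
      obtain ⟨⟨-, ⟨-, hkJ⟩, hgood⟩, hJj⟩ := hJ
      have hsq : 0 < Real.sqrt n := Real.sqrt_pos.2 hn0
      have h1 : |cf η J| ≤ 2 ^ 15 * (LL n ^ (6 - j) / (Real.sqrt n) ^ j) := by
        refine abs_cf_le_unif η J _ (by positivity) ?_
        intro F hF
        rw [le_div_iff₀ (by positivity)]
        have := hb F (by rw [hF]; exact hkJ)
        rwa [hF, hJj] at this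
      have h2 : cf η J ^ 2 ≤ (2 ^ 15 * (LL n ^ (6 - j) / (Real.sqrt n) ^ j)) ^ 2 := by
        rw [← sq_abs]
        gcongr
      refine h2.trans ?_
      have h3 : ((Real.sqrt n) ^ j) ^ 2 = (n : ℝ) ^ j := by
        rw [← pow_mul, mul_comm j 2, pow_mul, Real.sq_sqrt hn0.le]
      rw [mul_pow, div_pow, h3, ← pow_mul, ← pow_mul]
      have h4 : LL n ^ ((6 - j) * 2) ≤ LL n ^ (10 - 2 * k) :=
        pow_le_pow_right₀ hLL (by omega)
      have h5 : (2 : ℝ) ^ (15 * 2) = 2 ^ 30 := by norm_num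
      rw [h5]
      gcongr
    calc (∑ J ∈ s' with (vs J).card = j, cf η J ^ 2)
        ≤ ∑ J ∈ s' with (vs J).card = j, 2 ^ 30 * (LL n ^ (10 - 2 * k) / (n : ℝ) ^ j) :=
          sum_le_sum hterm
      _ = ((s'.filter (fun J => (vs J).card = j)).card : ℝ) *
            (2 ^ 30 * (LL n ^ (10 - 2 * k) / (n : ℝ) ^ j)) := by rw [sum_const, nsmul_eq_mul]
      _ ≤ ((2 ^ 15 * ((I * m) ^ k * n ^ (j - k)) : ℕ) : ℝ) *
            (2 ^ 30 * (LL n ^ (10 - 2 * k) / (n : ℝ) ^ j)) := by
          refine mul_le_mul_of_nonneg_right ?_ (by positivity)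
          exact_mod_cast hcard
      _ = 2 ^ 45 * X := by
          rw [hX]
          have h6 : (n : ℝ) ^ j = (n : ℝ) ^ k * (n : ℝ) ^ (j - k) := by
            rw [← pow_add]
            congr 1
            omega
          rw [h6]
          push_cast
          field_simp
          ring
  calc (∑ j ∈ Ioc k 5, ∑ J ∈ s' with (vs J).card = j, cf η J ^ 2)
      ≤ ∑ j ∈ Ioc k 5, 2 ^ 45 * X := sum_le_sum hj
    _ = ((Ioc k 5).card : ℝ) * (2 ^ 45 * X) := by rw [sum_const, nsmul_eq_mul]
    _ ≤ 3 * (2 ^ 45 * X) := by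
        refine mul_le_mul_of_nonneg_right ?_ (by positivity)
        rw [Nat.card_Ioc]
        have : 5 - k ≤ 3 := by omega
        exact_mod_cast this
    _ ≤ 2 ^ 60 * X := by nlinarith
    _ = 2 ^ 60 * LL n ^ (10 - 2 * k) * (((I * m : ℕ) : ℝ) ^ k / (n : ℝ) ^ k) := by
        rw [hX, mul_assoc]

end

end Pool.Agent.JX
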