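import Mathlib
import Pool.Agent.JX.Stmts

/-!
M5a: the polynomial is linear in the parameters, number of orbits, facts on the coefficients.
-/

set_option autoImplicit false

namespace Pool.Agent.JX

open Finset BigOperators Classical

namespace M5a

set_option linter.unusedSectionVars false

variable {V : Type} [Fintype V] [DecidableEq V]

lemma mem_vs {F : Finset (Sym2 V)} {x : V} : x ∈ vs F ↔ ∃ e ∈ F, x ∈ e := by
  unfold vs
  simp

lemma vs_mono {F G : Finset (Sym2 V)} (h : F ⊆ G) : vs F ⊆ vs G := by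
  intro x hx
  rw [mem_vs] at hx ⊢
  obtain ⟨e, he, hxe⟩ := hx
  exact ⟨e, h he, hxe⟩

lemma mem_mapE {σ : Equiv.Perm V} {F : Finset (Sym2 V)} {e : Sym2 V} :
    e ∈ mapE σ F ↔ ∃ f ∈ F, Sym2.map σ f = e := by
  unfold mapE
  rw [Finset.mem_image]

lemma map_mem_mapE {σ : Equiv.Perm V} {F : Finset (Sym2 V)} {e : Sym2 V} :
    Sym2.map σ e ∈ mapE σ F ↔ e ∈ F := by
  rw [mem_mapE]
  constructor
  · rintro ⟨f, hf, h⟩
    rwa [← Sym2.map.injective σ.injective h]
  · intro h
    exact ⟨e, h, rfl⟩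

lemma mem_vs_mapE {σ : Equiv.Perm V} {F : Finset (Sym2 V)} {x : V} :
    σ x ∈ vs (mapE σ F) ↔ x ∈ vs F := by
  rw [mem_vs, mem_vs]
  constructor
  · rintro ⟨e, he, hx⟩
    rw [mem_mapE] at he
    obtain ⟨f, hf, rfl⟩ := he
    rw [Sym2.mem_map] at hx
    obtain ⟨y, hy, hxy⟩ := hx
    rw [← σ.injective hxy]
    exact ⟨f, hf, hy⟩
  · rintro ⟨e, he, hx⟩
    exact ⟨Sym2.map σ e, map_mem_mapE.2 he, Sym2.mem_map.2 ⟨x, hx, rfl⟩⟩

lemma vs_mapE (σ : Equiv.Perm V) (F : Finset (Sym2 V)) : vs (mapE σ F) = (vs F).image σ := by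
  ext x
  rw [Finset.mem_image]
  constructor
  · intro hx
    refine ⟨σ.symm x, ?_, by simp⟩
    rw [← mem_vs_mapE (σ := σ)]
    simpa using hx
  · rintro ⟨y, hy, rfl⟩
    exact mem_vs_mapE.2 hy

lemma card_vs_mapE (σ : Equiv.Perm V) (F : Finset (Sym2 V)) : (vs (mapE σ F)).card = (vs F).card := by
  rw [vs_mapE, Finset.card_image_of_injective _ σ.injective]

lemma conn_mapE {σ : Equiv.Perm V} {F : Finset (Sym2 V)} (h : Conn F) : Conn (mapE σ F) := by
  refine ⟨?_, ?_⟩
  · unfold mapE
    exact h.1.image _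
  · intro A hA hAn hcl
    have h1 := h.2 (univ.filter fun x => σ x ∈ A) ?_ ?_ ?_
    · ext x
      obtain ⟨y, rfl⟩ := σ.surjective x
      rw [mem_vs_mapE, ← h1]
      simp
    · intro x hx
      rw [Finset.mem_filter] at hx
      exact mem_vs_mapE.1 (hA hx.2)
    · obtain ⟨x, hx⟩ := hAn
      exact ⟨σ.symm x, by simpa using hx⟩
    · intro e he x hx hxA y hy
      rw [Finset.mem_filter] at hxA ⊢
      refine ⟨Finset.mem_univ _, ?_⟩
      exact hcl (Sym2.map σ e) (map_mem_mapE.2 he) (σ x) (Sym2.mem_map.2 ⟨x, hx, rfl⟩) hxA.2 (σ y)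
        (Sym2.mem_map.2 ⟨y, hy, rfl⟩)

lemma isDiag_map_perm {σ : Equiv.Perm V} {e : Sym2 V} :
    (Sym2.map σ e).IsDiag ↔ e.IsDiag := by
  induction e using Sym2.ind with
  | _ a b =>
    rw [Sym2.map_mk, Sym2.mk_isDiag_iff, Sym2.mk_isDiag_iff]
    exact σ.injective.eq_iff

lemma good_mapE {σ : Equiv.Perm V} {F : Finset (Sym2 V)} (h : Good F) : Good (mapE σ F) := by
  refine ⟨conn_mapE h.1, ?_, ?_⟩
  · intro e he
    rw [mem_mapE] at he
    obtain ⟨f, hf, rfl⟩ := he
    rw [isDiag_map_perm]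
    exact h.2.1 f hf
  · rw [card_vs_mapE]
    exact h.2.2

lemma mapE_mapE (σ τ : Equiv.Perm V) (F : Finset (Sym2 V)) :
    mapE σ (mapE τ F) = mapE (σ * τ : Equiv.Perm V) F := by
  unfold mapE
  rw [Finset.image_image, ← Sym2.map_comp]
  rfl

lemma mapE_one (F : Finset (Sym2 V)) : mapE (1 : Equiv.Perm V) F = F := by
  simp [mapE]

lemma good_mapE_iff {σ : Equiv.Perm V} {F : Finset (Sym2 V)} : Good (mapE σ F) ↔ Good F := by
  constructor
  · intro h
    have h1 := good_mapE (σ := σ⁻¹) h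
    rwa [mapE_mapE, inv_mul_cancel, mapE_one] at h1
  · exact good_mapE

lemma lift_mapE {n : ℕ} (a : ℝ) (η : Orb n → ℝ) (σ : Equiv.Perm (Fin n))
    (F : Finset (Sym2 (Fin n))) : lift a η (mapE σ F) = lift a η F := by
  unfold lift
  by_cases h : Good F ∧ 3 ≤ (vs F).card
  · have h' : Good (mapE σ F) ∧ 3 ≤ (vs (mapE σ F)).card := by
      rw [card_vs_mapE]
      exact ⟨good_mapE h.1, h.2⟩
    rw [dif_pos h, dif_pos h']
    congr 1
    apply Quotient.sound
    refine ⟨σ⁻¹, ?_⟩
    show mapE (σ⁻¹ : Equiv.Perm (Fin n)) (mapE σ F) = F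
    rw [mapE_mapE, inv_mul_cancel, mapE_one]
  · have h' : ¬ (Good (mapE σ F) ∧ 3 ≤ (vs (mapE σ F)).card) := by
      rw [card_vs_mapE, good_mapE_iff]
      exact h
    rw [dif_neg h, dif_neg h']
    simp only [good_mapE_iff]

/-! ### edge sets of order two -/

lemma vs_singleton {x y : V} : vs ({s(x, y)} : Finset (Sym2 V)) = {x, y} := by
  ext w
  rw [mem_vs]
  simp

lemma conn_singleton {x y : V} : Conn ({s(x, y)} : Finset (Sym2 V)) := by
  refine ⟨⟨_, Finset.mem_singleton_self _⟩, ?_⟩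
  intro A hA hAn hcl
  apply Finset.Subset.antisymm hA
  intro w hw
  obtain ⟨v, hv⟩ := hAn
  have hv' := hA hv
  rw [vs_singleton] at hv' hw
  refine hcl s(x, y) (Finset.mem_singleton_self _) v ?_ hv w ?_
  · simpa using hv'
  · simpa using hw

lemma good_singleton {e : Sym2 V} (he : ¬ e.IsDiag) :
    Good ({e} : Finset (Sym2 V)) ∧ (vs ({e} : Finset (Sym2 V))).card = 2 := by
  induction e using Sym2.ind with
  | _ x y =>
    rw [Sym2.mk_isDiag_iff] at he
    have hc : (vs ({s(x, y)} : Finset (Sym2 V))).card = 2 := by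
      rw [vs_singleton, Finset.card_pair he]
    refine ⟨⟨conn_singleton, ?_, by rw [hc]; norm_num⟩, hc⟩
    intro e he'
    rw [Finset.mem_singleton] at he'
    rw [he', Sym2.mk_isDiag_iff]
    exact he

lemma good_small {F : Finset (Sym2 V)} (h : Good F) (hc : ¬ 3 ≤ (vs F).card) :
    ∃ e : Sym2 V, ¬ e.IsDiag ∧ F = {e} := by
  obtain ⟨e, he⟩ := h.1.1
  refine ⟨e, h.2.1 e he, ?_⟩
  induction e using Sym2.ind with
  | _ x y =>
    have hxy : x ≠ y := by
      have := h.2.1 _ he
      rwa [Sym2.mk_isDiag_iff] at this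
    have hx : x ∈ vs F := mem_vs.2 ⟨_, he, by simp⟩
    have hy : y ∈ vs F := mem_vs.2 ⟨_, he, by simp⟩
    have hsub : ({x, y} : Finset V) ⊆ vs F := by
      intro w hw
      rw [Finset.mem_insert, Finset.mem_singleton] at hw
      rcases hw with rfl | rfl
      · exact hx
      · exact hy
    have heq : ({x, y} : Finset V) = vs F := by
      apply Finset.eq_of_subset_of_card_le hsub
      rw [Finset.card_pair hxy]
      omega
    apply Finset.eq_singleton_iff_unique_mem.2 ⟨he, ?_⟩
    intro f hf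
    induction f using Sym2.ind with
    | _ u v =>
      have huv : u ≠ v := by
        have := h.2.1 _ hf
        rwa [Sym2.mk_isDiag_iff] at this
      have hu : u ∈ vs F := mem_vs.2 ⟨_, hf, by simp⟩
      have hv : v ∈ vs F := mem_vs.2 ⟨_, hf, by simp⟩
      rw [← heq, Finset.mem_insert, Finset.mem_singleton] at hu hv
      rw [Sym2.eq_iff]
      rcases hu with rfl | rfl <;> rcases hv with rfl | rfl
      · exact absurd rfl huv
      · left; exact ⟨rfl, rfl⟩
      · right; exact ⟨rfl, rfl⟩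
      · exact absurd rfl huv

lemma good_card_ge {F : Finset (Sym2 V)} (h : Good F) : 2 ≤ (vs F).card := by
  by_contra hc
  obtain ⟨e, he, rfl⟩ := good_small h (by omega)
  rw [(good_singleton he).2] at hc
  omega

lemma lift_singleton {n : ℕ} (a : ℝ) (η : Orb n → ℝ) {e : Sym2 (Fin n)} (he : ¬ e.IsDiag) :
    lift a η {e} = a := by
  unfold lift
  rw [dif_neg, if_pos (good_singleton he).1]
  rw [(good_singleton he).2]
  omega

lemma lift_not_good {n : ℕ} (a : ℝ) (η : Orb n → ℝ) {F : Finset (Sym2 (Fin n))} (h : ¬ Good F) :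
    lift a η F = 0 := by
  unfold lift
  rw [dif_neg (fun h' => h h'.1), if_neg h]

lemma lift_big {n : ℕ} (a : ℝ) (η : Orb n → ℝ) {F : Finset (Sym2 (Fin n))}
    (h : Good F ∧ 3 ≤ (vs F).card) : lift a η F = η (toOrb F h) := by
  unfold lift
  rw [dif_pos h]

lemma Yf_singleton {e : Sym2 V} (he : ¬ e.IsDiag) (z : Sym2 V → Bool) :
    Yf ({e} : Finset (Sym2 V)) z = sg (z e) / 2 := by
  unfold Yf
  have : ({e} : Finset (Sym2 V)).powerset.filter (fun J => Good J ∧ vs J = vs ({e} : Finset (Sym2 V)))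
      = {{e}} := by
    ext J
    rw [Finset.mem_filter, Finset.mem_powerset, Finset.mem_singleton]
    constructor
    · rintro ⟨h1, h2, _⟩
      rcases Finset.subset_singleton_iff.1 h1 with h | h
      · exact absurd h h2.1.1.ne_empty
      · exact h
    · rintro rfl
      exact ⟨Finset.Subset.refl _, (good_singleton he).1, rfl⟩
  rw [this, Finset.sum_singleton, Finset.card_singleton, pow_one]
  unfold chi
  rw [Finset.prod_singleton]

/-- swap of the sums -/
lemma pol_cf (η : Finset (Sym2 V) → ℝ) (z : Sym2 V → Bool) :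
    pol (cf η) z = ∑ F, η F * Yf F z := by
  unfold pol cf Yf
  have h1 : ∀ J : Finset (Sym2 V),
      (if Good J then ∑ F ∈ univ.filter (fun F => J ⊆ F ∧ vs F = vs J), η F / 2 ^ F.card else 0)
        * chi J z
      = ∑ F : Finset (Sym2 V), if (J ⊆ F ∧ Good J ∧ vs J = vs F) then η F / 2 ^ F.card * chi J z
        else 0 := by
    intro J
    by_cases hJ : Good J
    · rw [if_pos hJ, Finset.sum_mul, Finset.sum_filter]
      refine Finset.sum_congr rfl fun F _ => ?_
      by_cases h : J ⊆ F ∧ vs F = vs J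
      · rw [if_pos h, if_pos ⟨h.1, hJ, h.2.symm⟩]
      · rw [if_neg h, if_neg (fun h' => h ⟨h'.1, h'.2.2.symm⟩)]
    · rw [if_neg hJ, zero_mul]
      symm
      apply Finset.sum_eq_zero
      intro F _
      rw [if_neg (fun h => hJ h.2.1)]
  simp only [h1]
  rw [Finset.sum_comm]
  refine Finset.sum_congr rfl fun F _ => ?_
  rw [← Finset.sum_filter, mul_div_assoc', Finset.mul_sum, Finset.sum_div]
  apply Finset.sum_congr
  · ext J
    simp only [Finset.mem_filter, Finset.mem_univ, true_and, Finset.mem_powerset]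
  · intro J _
    ring

end M5a

open M5a

theorem stmtLin : StmtLin := by
  intro n a η z
  rw [pol_cf]
  -- split the sum
  have h1 : ∀ F : Finset (Sym2 (Fin n)), lift a η F * Yf F z
      = (if Good F ∧ ¬ 3 ≤ (vs F).card then a * Yf F z else 0)
        + ∑ T : Orb n, if (∃ h : Good F ∧ 3 ≤ (vs F).card, toOrb F h = T) then η T * Yf F z
          else 0 := by
    intro F
    by_cases hF : Good F
    · by_cases h3 : 3 ≤ (vs F).card
      · rw [lift_big a η ⟨hF, h3⟩, if_neg (fun h => h.2 h3), zero_add]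
        rw [Finset.sum_eq_single (toOrb F ⟨hF, h3⟩)]
        · rw [if_pos ⟨⟨hF, h3⟩, rfl⟩]
        · intro T _ hT
          rw [if_neg]
          rintro ⟨_, h⟩
          exact hT h.symm
        · intro h
          exact absurd (Finset.mem_univ _) h
      · obtain ⟨e, he, hFe⟩ := good_small hF h3
        rw [if_pos ⟨hF, h3⟩]
        have : lift a η F = a := by rw [hFe]; exact lift_singleton a η he
        rw [this, Finset.sum_eq_zero, add_zero]
        intro T _
        rw [if_neg]
        rintro ⟨h, _⟩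
        exact h3 h.2
    · rw [lift_not_good a η hF, zero_mul, if_neg (fun h => hF h.1), zero_add]
      symm
      apply Finset.sum_eq_zero
      intro T _
      rw [if_neg]
      rintro ⟨h, _⟩
      exact hF h.1
  simp only [h1]
  rw [Finset.sum_add_distrib]
  congr 1
  · -- order two
    rw [← Finset.sum_filter]
    unfold T2
    rw [Finset.mul_sum, Finset.sum_div]
    symm
    refine Finset.sum_bij' (i := fun e _ => ({e} : Finset (Sym2 (Fin n))))
      (j := fun F hF => (good_small (Finset.mem_filter.1 hF).2.1 (Finset.mem_filter.1 hF).2.2).choose)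
      ?_ ?_ ?_ ?_ ?_
    · intro e he
      rw [Finset.mem_filter] at he ⊢
      have := good_singleton he.2
      exact ⟨Finset.mem_univ _, this.1, by rw [this.2]; omega⟩
    · intro F hF
      have := (good_small (Finset.mem_filter.1 hF).2.1 (Finset.mem_filter.1 hF).2.2).choose_spec
      rw [Finset.mem_filter]
      exact ⟨Finset.mem_univ _, this.1⟩
    · intro e he
      have hF : ({e} : Finset (Sym2 (Fin n))) ∈ univ.filter
          (fun F : Finset (Sym2 (Fin n)) => Good F ∧ ¬ 3 ≤ (vs F).card) := by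
        rw [Finset.mem_filter] at he ⊢
        have := good_singleton he.2
        exact ⟨Finset.mem_univ _, this.1, by rw [this.2]; omega⟩
      have := (good_small (Finset.mem_filter.1 hF).2.1 (Finset.mem_filter.1 hF).2.2).choose_spec
      exact (Finset.singleton_injective this.2).symm
    · intro F hF
      have := (good_small (Finset.mem_filter.1 hF).2.1 (Finset.mem_filter.1 hF).2.2).choose_spec
      exact this.2.symm
    · intro e he
      rw [Finset.mem_filter] at he
      rw [Yf_singleton he.2]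
      ring
  · rw [Finset.sum_comm]
    refine Finset.sum_congr rfl fun T _ => ?_
    unfold YT
    rw [← Finset.sum_filter, Finset.mul_sum]

namespace M5a

lemma ord_toOrb {n : ℕ} (F : Finset (Sym2 (Fin n))) (h : Good F ∧ 3 ≤ (vs F).card) :
    (toOrb F h).ord = (vs F).card := by
  unfold Orb.ord
  have h1 : (orbSetoid n).r (Quotient.out (toOrb F h)) ⟨F, h⟩ := by
    have := Quotient.out_eq (toOrb F h)
    exact Quotient.exact this
  obtain ⟨σ, hσ⟩ := h1
  rw [← card_vs_mapE σ, hσ]

lemma toOrb_out {n : ℕ} (T : Orb n) :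
    toOrb (Quotient.out T).1 (Quotient.out T).2 = T := Quotient.out_eq T

lemma exists_rep {n : ℕ} (hn : 5 ≤ n) (T : Orb n) : ∃ F : Finset (Sym2 (Fin n)),
    (∃ h : Good F ∧ 3 ≤ (vs F).card, toOrb F h = T) ∧ ∀ x ∈ vs F, x.val < 5 := by
  obtain ⟨F, h, hT⟩ : ∃ (F : Finset (Sym2 (Fin n))) (h : Good F ∧ 3 ≤ (vs F).card),
    toOrb F h = T := ⟨_, _, toOrb_out T⟩
  have hcard : (vs F).card ≤ (univ.filter (fun x : Fin n => x.val < 5)).card := by
    refine h.1.2.2.trans ?_
    have : (univ.image (Fin.castLE hn : Fin 5 → Fin n)) ⊆ univ.filter (fun x : Fin n => x.val < 5) := by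
      intro x hx
      rw [Finset.mem_image] at hx
      obtain ⟨y, _, rfl⟩ := hx
      rw [Finset.mem_filter]
      exact ⟨Finset.mem_univ _, y.2⟩
    have h2 := Finset.card_le_card this
    rwa [Finset.card_image_of_injective _ (Fin.castLE_injective hn), Finset.card_univ,
      Fintype.card_fin] at h2
  obtain ⟨Q, hQ, hQc⟩ := Finset.exists_subset_card_eq hcard
  let e : {x // x ∈ vs F} ≃ {x // x ∈ Q} := Finset.equivOfCardEq hQc.symm
  let σ : Equiv.Perm (Fin n) := e.extendSubtype
  have h' : Good (mapE σ F) ∧ 3 ≤ (vs (mapE σ F)).card := by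
    rw [card_vs_mapE]
    exact ⟨good_mapE h.1, h.2⟩
  refine ⟨mapE σ F, ⟨h', ?_⟩, ?_⟩
  · rw [← hT]
    apply Quotient.sound
    refine ⟨σ⁻¹, ?_⟩
    show mapE (σ⁻¹ : Equiv.Perm (Fin n)) (mapE σ F) = F
    rw [mapE_mapE, inv_mul_cancel, mapE_one]
  · intro x hx
    rw [vs_mapE, Finset.mem_image] at hx
    obtain ⟨y, hy, rfl⟩ := hx
    have : σ y ∈ Q := e.extendSubtype_mem y hy
    exact (Finset.mem_filter.1 (hQ this)).2

end M5a

theorem stmtCard : StmtCard := by
  intro n hn
  choose R hR hR5 using fun T : Orb n => exists_rep hn T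
  let D : Orb n → Finset (Sym2 (Fin 5)) := fun T =>
    univ.filter fun e => Sym2.map (Fin.castLE hn) e ∈ R T
  have hD : ∀ T, R T = (D T).image (Sym2.map (Fin.castLE hn)) := by
    intro T
    ext e
    rw [Finset.mem_image]
    constructor
    · intro he
      induction e using Sym2.ind with
      | _ x y =>
        have hx : x.val < 5 := hR5 T x (mem_vs.2 ⟨_, he, by simp⟩)
        have hy : y.val < 5 := hR5 T y (mem_vs.2 ⟨_, he, by simp⟩)
        refine ⟨s(⟨x.val, hx⟩, ⟨y.val, hy⟩), ?_, ?_⟩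
        · rw [Finset.mem_filter]
          exact ⟨Finset.mem_univ _, he⟩
        · rfl
    · rintro ⟨f, hf, rfl⟩
      exact (Finset.mem_filter.1 hf).2
  have hinj : Function.Injective D := by
    intro T T' h
    have h1 : R T = R T' := by rw [hD T, hD T', h]
    obtain ⟨h2, h2'⟩ := hR T
    obtain ⟨h3, h3'⟩ := hR T'
    rw [← h2', ← h3']
    congr 1
  have h1 := Fintype.card_le_of_injective D hinj
  refine h1.trans ?_
  rw [Fintype.card_finset]
  have : Fintype.card (Sym2 (Fin 5)) = 15 := by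
    rw [Sym2.card]
    simp
    decide
  rw [this]

namespace M5a

lemma cf_singleton {n : ℕ} (a : ℝ) (η : Orb n → ℝ) {e : Sym2 (Fin n)} (he : ¬ e.IsDiag) :
    cf (lift a η) {e} = a / 2 := by
  unfold cf
  rw [if_pos (good_singleton he).1]
  rw [Finset.sum_eq_single ({e} : Finset (Sym2 (Fin n)))]
  · rw [lift_singleton a η he, Finset.card_singleton, pow_one]
  · intro F hF hne
    rw [Finset.mem_filter] at hF
    have : ¬ Good F := by
      intro hG
      have hc : ¬ 3 ≤ (vs F).card := by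
        rw [hF.2.2, (good_singleton he).2]
        omega
      obtain ⟨e', _, rfl⟩ := good_small hG hc
      have := hF.2.1 (Finset.mem_singleton_self e)
      rw [Finset.mem_singleton] at this
      exact hne (by rw [this])
    rw [lift_not_good a η this, zero_div]
  · intro h
    exfalso
    apply h
    rw [Finset.mem_filter]
    exact ⟨Finset.mem_univ _, Finset.Subset.refl _, rfl⟩

lemma cf_not_good {V : Type} [Fintype V] [DecidableEq V] (η : Finset (Sym2 V) → ℝ)
    {J : Finset (Sym2 V)} (h : ¬ Good J) : cf η J = 0 := by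
  unfold cf
  rw [if_neg h]

lemma cf_big {n : ℕ} (a : ℝ) (η : Orb n → ℝ) {J : Finset (Sym2 (Fin n))} (hJ : 3 ≤ (vs J).card) :
    cf (lift a η) J = cf (lift 0 η) J := by
  unfold cf
  split_ifs with hG
  · refine Finset.sum_congr rfl fun F hF => ?_
    rw [Finset.mem_filter] at hF
    have h3 : 3 ≤ (vs F).card := by rw [hF.2.2]; exact hJ
    by_cases hGF : Good F
    · rw [lift_big a η ⟨hGF, h3⟩, lift_big 0 η ⟨hGF, h3⟩]
    · rw [lift_not_good a η hGF, lift_not_good 0 η hGF]
  · rfl

lemma sum_cf_sq {n t : ℕ} (hA : Adm n t) (a : ℝ) (η : Orb n → ℝ) :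
    (∑ J, cf (lift a η) J ^ 2) = a ^ 2 * (t : ℝ) ^ 2 / 4 + ∑ J, cf (lift 0 η) J ^ 2 := by
  have h1 : ∀ J : Finset (Sym2 (Fin n)), cf (lift a η) J ^ 2
      = (if Good J ∧ ¬ 3 ≤ (vs J).card then a ^ 2 / 4 else 0) + cf (lift 0 η) J ^ 2 := by
    intro J
    by_cases hG : Good J
    · by_cases h3 : 3 ≤ (vs J).card
      · rw [if_neg (fun h => h.2 h3), cf_big a η h3, zero_add]
      · obtain ⟨e, he, rfl⟩ := good_small hG h3
        rw [if_pos ⟨hG, h3⟩, cf_singleton a η he, cf_singleton 0 η he]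
        ring
    · rw [cf_not_good _ hG, cf_not_good _ hG, if_neg (fun h => hG h.1), zero_add]
  simp only [h1]
  rw [Finset.sum_add_distrib]
  congr 1
  rw [← Finset.sum_filter, Finset.sum_const, nsmul_eq_mul]
  have h2 : (univ.filter fun J : Finset (Sym2 (Fin n)) => Good J ∧ ¬ 3 ≤ (vs J).card)
      = (univ.filter fun e : Sym2 (Fin n) => ¬ e.IsDiag).image (fun e => ({e} : Finset (Sym2 (Fin n)))) := by
    ext J
    rw [Finset.mem_image]
    constructor
    · intro hJ
      rw [Finset.mem_filter] at hJ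
      obtain ⟨e, he, h⟩ := good_small hJ.2.1 hJ.2.2
      exact ⟨e, Finset.mem_filter.2 ⟨Finset.mem_univ _, he⟩, h.symm⟩
    · rintro ⟨e, he, rfl⟩
      rw [Finset.mem_filter] at he ⊢
      have := good_singleton he.2
      exact ⟨Finset.mem_univ _, this.1, by rw [this.2]; omega⟩
  have h3 : (univ.filter fun e : Sym2 (Fin n) => ¬ e.IsDiag).card = t ^ 2 := by
    rw [← Fintype.card_subtype]
    have := Sym2.card_subtype_not_diag (α := Fin n)
    rw [Fintype.card_fin, Nat.choose_two_right, hA.2.1, Nat.mul_div_cancel_left _ (by norm_num)] at this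
    rw [← this]
  rw [h2, Finset.card_image_of_injective _ Finset.singleton_injective, h3]
  push_cast
  ring

lemma lift_bound {n : ℕ} {a B : ℝ} {η : Orb n → ℝ} (ha : |a| * n ≤ B)
    (hη : ∀ T : Orb n, |η T| * (Real.sqrt n) ^ T.ord ≤ B) (F : Finset (Sym2 (Fin n))) :
    |lift a η F| * (Real.sqrt n) ^ (vs F).card ≤ B := by
  have hB : 0 ≤ B := le_trans (by positivity) ha
  by_cases hG : Good F
  · by_cases h3 : 3 ≤ (vs F).card
    · rw [lift_big a η ⟨hG, h3⟩]
      have h4 := hη (toOrb F ⟨hG, h3⟩)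
      rwa [ord_toOrb F ⟨hG, h3⟩] at h4
    · obtain ⟨e, he, rfl⟩ := good_small hG h3
      rw [lift_singleton a η he, (good_singleton he).2, Real.sq_sqrt (Nat.cast_nonneg _)]
      exact ha
  · rw [lift_not_good a η hG, abs_zero, zero_mul]
    exact hB

lemma card_vs_le {V : Type} [Fintype V] [DecidableEq V] (W : Finset V) (hW : W.card ≤ 5) :
    (univ.filter fun F : Finset (Sym2 V) => vs F = W).card ≤ 2 ^ 15 := by
  have h1 : (univ.filter fun F : Finset (Sym2 V) => vs F = W) ⊆ W.sym2.powerset := by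
    intro F hF
    rw [Finset.mem_filter] at hF
    rw [Finset.mem_powerset]
    intro e he
    rw [Finset.mem_sym2_iff]
    intro x hx
    rw [← hF.2]
    exact mem_vs.2 ⟨e, he, hx⟩
  refine (Finset.card_le_card h1).trans ?_
  rw [Finset.card_powerset]
  apply Nat.pow_le_pow_right (by norm_num)
  rw [Finset.card_sym2]
  calc (W.card + 1).choose 2 ≤ (5 + 1).choose 2 := Nat.choose_le_choose 2 (by omega)
    _ = 15 := by decide

lemma cf_bound {n : ℕ} {a B : ℝ} {η : Orb n → ℝ} (ha : |a| * n ≤ B)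
    (hη : ∀ T : Orb n, |η T| * (Real.sqrt n) ^ T.ord ≤ B) (J : Finset (Sym2 (Fin n))) :
    |cf (lift a η) J| * (Real.sqrt n) ^ (vs J).card ≤ 2 ^ 15 * B := by
  have hB : 0 ≤ B := le_trans (by positivity) ha
  by_cases hG : Good J
  · unfold cf
    rw [if_pos hG]
    have hs : 0 ≤ (Real.sqrt n) ^ (vs J).card := by positivity
    calc |∑ F ∈ univ.filter (fun F => J ⊆ F ∧ vs F = vs J), lift a η F / 2 ^ F.card|
          * (Real.sqrt n) ^ (vs J).card
        ≤ (∑ F ∈ univ.filter (fun F => J ⊆ F ∧ vs F = vs J), |lift a η F / 2 ^ F.card|)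
          * (Real.sqrt n) ^ (vs J).card :=
          mul_le_mul_of_nonneg_right (Finset.abs_sum_le_sum_abs _ _) hs
      _ ≤ ∑ F ∈ univ.filter (fun F => J ⊆ F ∧ vs F = vs J), B := by
          rw [Finset.sum_mul]
          refine Finset.sum_le_sum fun F hF => ?_
          rw [Finset.mem_filter] at hF
          rw [← hF.2.2, abs_div]
          refine le_trans ?_ (lift_bound ha hη F)
          apply mul_le_mul_of_nonneg_right _ (by positivity)
          apply div_le_self (abs_nonneg _)
          rw [abs_of_pos (by positivity)]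
          exact one_le_pow₀ (by norm_num)
      _ ≤ 2 ^ 15 * B := by
          rw [Finset.sum_const, nsmul_eq_mul]
          apply mul_le_mul_of_nonneg_right _ hB
          have h1 : (univ.filter (fun F => J ⊆ F ∧ vs F = vs J)).card
              ≤ (univ.filter (fun F : Finset (Sym2 (Fin n)) => vs F = vs J)).card := by
            apply Finset.card_le_card
            intro F hF
            rw [Finset.mem_filter] at hF ⊢
            exact ⟨hF.1, hF.2.2⟩
          exact_mod_cast h1.trans (card_vs_le (vs J) hG.2.2)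
  · rw [cf_not_good _ hG, abs_zero, zero_mul]
    positivity

lemma sum_cf_le {n : ℕ} (hn : 1 ≤ n) {a B : ℝ} {η : Orb n → ℝ} (ha : |a| * n ≤ B)
    (hη : ∀ T : Orb n, |η T| * (Real.sqrt n) ^ T.ord ≤ B) :
    (∑ J, cf (lift a η) J ^ 2) ≤ 2 ^ 60 * B ^ 2 := by
  have hn0 : (0:ℝ) < n := by exact_mod_cast hn
  have hsn : 0 < Real.sqrt n := Real.sqrt_pos.2 hn0
  have h1 : ∀ J : Finset (Sym2 (Fin n)), cf (lift a η) J ^ 2
      ≤ if (vs J).card ≤ 5 then (2 ^ 15 * B) ^ 2 / (n : ℝ) ^ (vs J).card else 0 := by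
    intro J
    by_cases hG : Good J
    · rw [if_pos hG.2.2, le_div_iff₀ (by positivity)]
      have h2 := cf_bound ha hη J
      have h3 := pow_le_pow_left₀ (by positivity) h2 2
      rw [mul_pow, sq_abs, ← pow_mul, mul_comm (vs J).card 2, pow_mul,
        Real.sq_sqrt (Nat.cast_nonneg _)] at h3
      exact h3
    · rw [cf_not_good _ hG]
      split_ifs
      · rw [zero_pow (by norm_num)]
        positivity
      · simp
  refine (Finset.sum_le_sum fun J _ => h1 J).trans ?_
  rw [← Finset.sum_fiberwise (s := univ) (g := fun J : Finset (Sym2 (Fin n)) => vs J)]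
  have h2 : ∀ W : Finset (Fin n), (∑ J ∈ univ.filter (fun J : Finset (Sym2 (Fin n)) => vs J = W),
      if (vs J).card ≤ 5 then (2 ^ 15 * B) ^ 2 / (n : ℝ) ^ (vs J).card else 0)
      ≤ if W.card ≤ 5 then 2 ^ 15 * ((2 ^ 15 * B) ^ 2 / (n : ℝ) ^ W.card) else 0 := by
    intro W
    have h3 : ∀ J ∈ univ.filter (fun J : Finset (Sym2 (Fin n)) => vs J = W),
        (if (vs J).card ≤ 5 then (2 ^ 15 * B) ^ 2 / (n : ℝ) ^ (vs J).card else 0)
        = if W.card ≤ 5 then (2 ^ 15 * B) ^ 2 / (n : ℝ) ^ W.card else 0 := by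
      intro J hJ
      rw [Finset.mem_filter] at hJ
      rw [hJ.2]
    rw [Finset.sum_congr rfl h3, Finset.sum_const, nsmul_eq_mul]
    split_ifs with h5
    · apply mul_le_mul_of_nonneg_right _ (by positivity)
      exact_mod_cast card_vs_le W h5
    · simp
  refine (Finset.sum_le_sum fun W _ => h2 W).trans ?_
  have h3 := Finset.sum_powerset_apply_card (x := (univ : Finset (Fin n)))
    (fun k => if k ≤ 5 then 2 ^ 15 * ((2 ^ 15 * B) ^ 2 / (n : ℝ) ^ k) else 0)
  rw [Finset.powerset_univ] at h3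
  rw [h3, Finset.card_univ, Fintype.card_fin]
  have h4 : ∀ k ∈ range (n + 1), n.choose k •
      (if k ≤ 5 then 2 ^ 15 * ((2 ^ 15 * B) ^ 2 / (n : ℝ) ^ k) else 0)
      ≤ if k ≤ 5 then 2 ^ 45 * B ^ 2 else 0 := by
    intro k _
    rw [nsmul_eq_mul]
    split_ifs with h5
    · have h6 : ((n.choose k : ℕ) : ℝ) ≤ (n : ℝ) ^ k := by exact_mod_cast Nat.choose_le_pow n k
      calc ((n.choose k : ℕ) : ℝ) * (2 ^ 15 * ((2 ^ 15 * B) ^ 2 / (n : ℝ) ^ k))
          ≤ (n : ℝ) ^ k * (2 ^ 15 * ((2 ^ 15 * B) ^ 2 / (n : ℝ) ^ k)) :=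
            mul_le_mul_of_nonneg_right h6 (by positivity)
        _ = 2 ^ 45 * B ^ 2 := by
            field_simp
    · simp
  refine (Finset.sum_le_sum h4).trans ?_
  rw [← Finset.sum_filter, Finset.sum_const, nsmul_eq_mul]
  have h5 : ((range (n + 1)).filter (fun k => k ≤ 5)).card ≤ 6 := by
    have : (range (n + 1)).filter (fun k => k ≤ 5) ⊆ range 6 := by
      intro k hk
      rw [Finset.mem_filter] at hk
      rw [Finset.mem_range]
      omega
    simpa using Finset.card_le_card this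
  have h6 : (((range (n + 1)).filter (fun k => k ≤ 5)).card : ℝ) ≤ 6 := by exact_mod_cast h5
  have hB2 : 0 ≤ B ^ 2 := sq_nonneg B
  nlinarith

end M5a

theorem stmtCoef : StmtCoef := by
  intro n t hA a η
  refine ⟨sum_cf_sq hA a η, ?_, ?_, ?_, ?_⟩
  · intro B ha hη
    refine ⟨fun J => cf_bound ha hη J, ?_⟩
    have ha0 : |(0:ℝ)| * n ≤ B := by
      rw [abs_zero, zero_mul]
      exact le_trans (by positivity) ha
    have hn : 1 ≤ n := le_trans (by norm_num) hA.1
    exact sum_cf_le hn ha0 hη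
  · intro σ F
    exact lift_mapE a η σ F
  · intro T
    have h := (Quotient.out T).2
    refine ⟨h.2, h.1.2.2, (Quotient.out T).1, h.1, rfl, ?_⟩
    rw [lift_big a η h, toOrb_out]
  · have h0 : 0 < n := lt_of_lt_of_le (by norm_num) hA.1
    have h1 : 1 < n := lt_of_lt_of_le (by norm_num) hA.1
    have he : ¬ (s((⟨0, h0⟩ : Fin n), (⟨1, h1⟩ : Fin n))).IsDiag := by
      rw [Sym2.mk_isDiag_iff]
      intro h
      have := congrArg Fin.val h
      simp at this
    exact ⟨_, (good_singleton he).1, (good_singleton he).2, lift_singleton a η he⟩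

end Pool.Agent.JX
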