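import Pool.Agent.JX.Stmts

/-!
# Module M5b: a good sign pattern exists (measure theory on the box)
-/

set_option autoImplicit false
set_option linter.unusedSectionVars false

namespace Pool.Agent.JX

open Finset BigOperators Classical MeasureTheory

noncomputable section

namespace M5b

/-! ## the function ee -/

lemma ee_add (x y : ℝ) : ee (x + y) = ee x * ee y := by
  unfold ee
  rw [← Complex.exp_add]
  congr 1
  push_cast
  ring

lemma ee_zero : ee 0 = 1 := by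
  unfold ee
  simp

lemma norm_ee (x : ℝ) : ‖ee x‖ = 1 := by
  unfold ee
  exact Complex.norm_exp_ofReal_mul_I _

lemma ee_cont : Continuous ee := by
  unfold ee
  fun_prop

lemma ee_re (x : ℝ) : (ee x).re = Real.cos (2 * Real.pi * x) := by
  unfold ee
  exact Complex.exp_ofReal_mul_I_re _

lemma ee_sum {ι : Type} (s : Finset ι) (f : ι → ℝ) : ee (∑ i ∈ s, f i) = ∏ i ∈ s, ee (f i) := by
  induction s using Finset.induction_on with
  | empty => simp [ee_zero]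
  | insert i s hi ih => rw [sum_insert hi, prod_insert hi, ee_add, ih]

/-! ## the measures -/

/-- Lebesgue measure on the interval from -1/2 to 1/2 -/
def mu1 : Measure ℝ := volume.restrict (Set.Icc (-(1 / 2)) (1 / 2))

instance : IsProbabilityMeasure mu1 := ⟨by
  rw [mu1, Measure.restrict_apply_univ, Real.volume_Icc]
  norm_num⟩

/-- the product measure on the second factor of the box -/
def muO (n : ℕ) : Measure (Orb n → ℝ) := Measure.pi fun _ => mu1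

instance (n : ℕ) : IsProbabilityMeasure (muO n) := by
  unfold muO
  infer_instance

/-- the measure of the box -/
def muQ (n : ℕ) : Measure (ℝ × (Orb n → ℝ)) := mu1.prod (muO n)

instance (n : ℕ) : IsProbabilityMeasure (muQ n) := by
  unfold muQ
  infer_instance

lemma kappa_zero {m : ℤ} (hm : m ≠ 0) : ∫ a, ee (a * m) ∂mu1 = 0 := by
  unfold mu1 ee
  rw [integral_Icc_eq_integral_Ioc, ← intervalIntegral.integral_of_le (by norm_num)]
  have hm' : (m : ℂ) ≠ 0 := by exact_mod_cast hm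
  have hc : (2 * Real.pi * m * Complex.I : ℂ) ≠ 0 := by
    have h1 : (Real.pi : ℂ) ≠ 0 := by exact_mod_cast Real.pi_ne_zero
    have h2 := Complex.I_ne_zero
    simp [hm', h1, h2]
  have h1 : ∀ a : ℝ, Complex.exp (((2 * Real.pi * (a * m) : ℝ) : ℂ) * Complex.I) =
      Complex.exp ((2 * Real.pi * m * Complex.I : ℂ) * a) := by
    intro a
    congr 1
    push_cast
    ring
  simp only [h1]
  rw [integral_exp_mul_complex hc]
  have h2 : (2 * Real.pi * m * Complex.I : ℂ) * ((1 / 2 : ℝ) : ℂ) =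
      (2 * Real.pi * m * Complex.I : ℂ) * ((-(1 / 2) : ℝ) : ℂ) + m * (2 * Real.pi * Complex.I) := by
    push_cast
    ring
  rw [h2, Complex.exp_add, Complex.exp_int_mul_two_pi_mul_I, mul_one, sub_self, zero_div]

/-- the product formula -/
lemma int_box {n : ℕ} (y0 : ℝ) (y : Orb n → ℝ) :
    ∫ p, ee (p.1 * y0 + ∑ T, p.2 T * y T) ∂(muQ n) =
      (∫ a, ee (a * y0) ∂mu1) * ∏ T, ∫ b, ee (b * y T) ∂mu1 := by
  unfold muQ
  have h1 : ∀ p : ℝ × (Orb n → ℝ), ee (p.1 * y0 + ∑ T, p.2 T * y T) =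
      (fun a => ee (a * y0)) p.1 * (fun η : Orb n → ℝ => ∏ T, ee (η T * y T)) p.2 := by
    intro p
    simp only
    rw [ee_add, ee_sum]
  simp only [h1]
  rw [integral_prod_mul (fun a => ee (a * y0)) (fun η : Orb n → ℝ => ∏ T, ee (η T * y T))]
  congr 1
  unfold muO
  exact integral_fintype_prod_eq_prod (fun (T : Orb n) (b : ℝ) => ee (b * y T))

lemma int_zero {n t : ℕ} (hInt : StmtInt) (hadm : Adm n t) {z : Sym2 (Fin n) → Bool}
    (hz : ¬ Hit t z) :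
    ∫ p, ee (p.1 * ((T2 z - t) / 2) + ∑ T, p.2 T * YT T z) ∂(muQ n) = 0 := by
  rw [int_box]
  rcases hInt n t hadm z with h | ⟨m, hm, h⟩ | ⟨T, m, hm, h⟩
  · exact absurd h hz
  · rw [h, kappa_zero hm, zero_mul]
  · rw [Finset.prod_eq_zero (Finset.mem_univ T) (by rw [h]; exact kappa_zero hm), mul_zero]

/-- the mean of the exponential -/
def Phi {n : ℕ} (p : ℝ × (Orb n → ℝ)) : ℂ :=
  𝔼 z : Sym2 (Fin n) → Bool, ee (pol (cf (lift p.1 p.2)) z)

lemma Phi_eq (hLin : StmtLin) {n : ℕ} (p : ℝ × (Orb n → ℝ)) :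
    Phi p = 𝔼 z : Sym2 (Fin n) → Bool, ee (p.1 * T2 z / 2 + ∑ T, p.2 T * YT T z) := by
  unfold Phi
  simp only [hLin n p.1 p.2]

lemma Phi_cont (hLin : StmtLin) (n : ℕ) : Continuous (Phi (n := n)) := by
  have h : (Phi (n := n)) = fun p =>
      𝔼 z : Sym2 (Fin n) → Bool, ee (p.1 * T2 z / 2 + ∑ T, p.2 T * YT T z) := by
    ext p
    exact Phi_eq hLin p
  rw [h]
  simp only [Fintype.expect_eq_sum_div_card]
  refine Continuous.div_const (continuous_finsetSum _ fun z _ => ?_) _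
  exact ee_cont.comp (by fun_prop)

lemma norm_Phi_le {n : ℕ} (p : ℝ × (Orb n → ℝ)) : ‖Phi p‖ ≤ 1 := by
  unfold Phi
  rw [Fintype.expect_eq_sum_div_card, norm_div]
  have hc : (0 : ℝ) < Fintype.card (Sym2 (Fin n) → Bool) := by
    exact_mod_cast Fintype.card_pos
  have h1 : ‖((Fintype.card (Sym2 (Fin n) → Bool) : ℕ) : ℂ)‖ =
      Fintype.card (Sym2 (Fin n) → Bool) := by
    rw [Complex.norm_natCast]
  rw [h1, div_le_one hc]
  refine (norm_sum_le _ _).trans ?_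
  simp only [norm_ee]
  simp

/-- if no pattern is good the total integral vanishes -/
lemma total_zero (hInt : StmtInt) (hLin : StmtLin) {n t : ℕ} (hadm : Adm n t)
    (hno : ∀ z : Sym2 (Fin n) → Bool, ¬ Hit t z) :
    ∫ p, ee (-(p.1 * t / 2)) * Phi p ∂(muQ n) = 0 := by
  have h1 : ∀ p : ℝ × (Orb n → ℝ), ee (-(p.1 * t / 2)) * Phi p =
      (∑ z : Sym2 (Fin n) → Bool, ee (p.1 * ((T2 z - t) / 2) + ∑ T, p.2 T * YT T z)) /
        Fintype.card (Sym2 (Fin n) → Bool) := by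
    intro p
    rw [Phi_eq hLin, Fintype.expect_eq_sum_div_card, mul_div_assoc', Finset.mul_sum]
    congr 1
    refine Finset.sum_congr rfl fun z _ => ?_
    rw [← ee_add]
    congr 1
    ring
  simp only [h1]
  rw [integral_div, integral_finsetSum]
  · rw [Finset.sum_eq_zero fun z _ => int_zero hInt hadm (hno z), zero_div]
  · intro z _
    refine Integrable.of_bound (C := 1) ?_ ?_
    · refine Continuous.aestronglyMeasurable (ee_cont.comp ?_)
      fun_prop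
    · exact Filter.Eventually.of_forall fun p => (norm_ee _).le

/-! ## the Gaussian integral -/

/-- the Gaussian integrand -/
def GG (u : ℝ) : ℝ := Real.cos (Real.pi * u) * Real.exp (-(Real.pi ^ 2 / 2) * u ^ 2)

lemma GG_cont : Continuous GG := by
  unfold GG
  fun_prop

lemma GG_integrable : Integrable GG := by
  have h1 : Integrable fun x : ℝ => Real.exp (-(Real.pi ^ 2 / 2) * x ^ 2) :=
    integrable_exp_neg_mul_sq (by positivity)
  refine h1.mono' GG_cont.aestronglyMeasurable (Filter.Eventually.of_forall fun x => ?_)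
  unfold GG
  rw [norm_mul, Real.norm_eq_abs, Real.norm_eq_abs, abs_of_pos (Real.exp_pos _)]
  exact mul_le_of_le_one_left (Real.exp_pos _).le (Real.abs_cos_le_one _)

lemma GG_int_pos : 0 < ∫ u, GG u := by
  have hb : 0 < ((Real.pi ^ 2 / 2 : ℝ) : ℂ).re := by
    rw [Complex.ofReal_re]; positivity
  have h1 := fourierIntegral_gaussian hb (Real.pi : ℂ)
  have h2 : ∀ x : ℝ, Complex.exp (Complex.I * Real.pi * x) *
      Complex.exp (-((Real.pi ^ 2 / 2 : ℝ) : ℂ) * x ^ 2) =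
      Complex.exp (((Real.pi * x : ℝ) : ℂ) * Complex.I) *
        ((Real.exp (-(Real.pi ^ 2 / 2) * x ^ 2) : ℝ) : ℂ) := by
    intro x
    congr 1
    · congr 1
      push_cast
      ring
    · rw [Complex.ofReal_exp]
      congr 1
      push_cast
      ring
  have h3 : ∀ x : ℝ, GG x = (Complex.exp (Complex.I * Real.pi * x) *
      Complex.exp (-((Real.pi ^ 2 / 2 : ℝ) : ℂ) * x ^ 2)).re := by
    intro x
    rw [h2, Complex.re_mul_ofReal, Complex.exp_ofReal_mul_I_re]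
    rfl
  have hint : Integrable fun x : ℝ => Complex.exp (Complex.I * Real.pi * x) *
      Complex.exp (-((Real.pi ^ 2 / 2 : ℝ) : ℂ) * x ^ 2) := by
    have h4 : Integrable fun x : ℝ => Real.exp (-(Real.pi ^ 2 / 2) * x ^ 2) :=
      integrable_exp_neg_mul_sq (by positivity)
    refine h4.mono' ?_ (Filter.Eventually.of_forall fun x => ?_)
    · exact Continuous.aestronglyMeasurable (by fun_prop)
    · rw [h2, norm_mul, Complex.norm_exp_ofReal_mul_I, one_mul, Complex.norm_real,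
        Real.norm_eq_abs, abs_of_pos (Real.exp_pos _)]
  have h5 : ∫ u, GG u = (∫ x : ℝ, Complex.exp (Complex.I * Real.pi * x) *
      Complex.exp (-((Real.pi ^ 2 / 2 : ℝ) : ℂ) * x ^ 2)).re := by
    simp only [h3]
    exact Complex.reCLM.integral_comp_comm hint
  rw [h5, h1]
  have h6 : ((Real.pi : ℂ) / ((Real.pi ^ 2 / 2 : ℝ) : ℂ)) ^ (1 / 2 : ℂ) =
      (((Real.pi / (Real.pi ^ 2 / 2)) ^ (1 / 2 : ℝ) : ℝ) : ℂ) := by
    rw [Complex.ofReal_cpow (by positivity)]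
    congr 1
    · push_cast; rfl
    · push_cast; rfl
  have h7 : Complex.exp (-(Real.pi : ℂ) ^ 2 / (4 * ((Real.pi ^ 2 / 2 : ℝ) : ℂ))) =
      ((Real.exp (-Real.pi ^ 2 / (4 * (Real.pi ^ 2 / 2))) : ℝ) : ℂ) := by
    rw [Complex.ofReal_exp]
    congr 1
    push_cast
    rfl
  rw [h6, h7, ← Complex.ofReal_mul, Complex.ofReal_re]
  positivity

lemma GG_trunc : ∃ c0 : ℝ, 0 < c0 ∧ ∃ U0 : ℝ, ∀ U : ℝ, U0 ≤ U → c0 ≤ ∫ u in (-U)..U, GG u := by
  have h1 : Filter.Tendsto (fun U : ℝ => ∫ u in (-U)..U, GG u) Filter.atTop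
      (nhds (∫ u, GG u)) :=
    intervalIntegral_tendsto_integral GG_integrable Filter.tendsto_neg_atTop_atBot
      Filter.tendsto_id
  have hp := GG_int_pos
  have h2 := h1.eventually (lt_mem_nhds (show (∫ u, GG u) / 2 < ∫ u, GG u by linarith))
  obtain ⟨U0, hU0⟩ := Filter.eventually_atTop.mp h2
  exact ⟨(∫ u, GG u) / 2, by linarith, U0, fun U hU => (hU0 U hU).le⟩

lemma GG_scale {t : ℝ} (ht : 0 < t) (R : ℝ) :
    ∫ a in (-R)..R, GG (a * t) = t⁻¹ * ∫ u in (-(R * t))..(R * t), GG u := by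
  rw [intervalIntegral.integral_comp_mul_right GG ht.ne', smul_eq_mul, neg_mul]

/-! ## asymptotics of LL -/

lemma LL_one {n : ℕ} (hn : 1 ≤ n) : 1 ≤ LL n := by
  unfold LL
  refine Real.one_le_rpow (by exact_mod_cast hn) ?_
  positivity

lemma LL_pow_le {n : ℕ} (hn : 1 ≤ n) {k : ℕ} (hk : k ≤ 2 ^ 18) :
    LL n ^ k ≤ (n : ℝ) ^ (1 / 4 : ℝ) := by
  have hn' : (1 : ℝ) ≤ n := by exact_mod_cast hn
  unfold LL
  rw [← Real.rpow_natCast, ← Real.rpow_mul (by positivity)]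
  refine Real.rpow_le_rpow_of_exponent_le hn' ?_
  have h1 : (k : ℝ) ≤ 2 ^ 18 := by exact_mod_cast hk
  have h2 : ((N0 : ℕ) : ℝ) = 2 ^ 20 := by
    unfold N0; push_cast; norm_num
  rw [h2]
  have h3 : (1 : ℝ) / 2 ^ 20 * k ≤ 1 / 2 ^ 20 * 2 ^ 18 :=
    mul_le_mul_of_nonneg_left h1 (by positivity)
  refine h3.trans (le_of_eq ?_)
  norm_num

lemma LL_tendsto : Filter.Tendsto (fun n : ℕ => LL n) Filter.atTop Filter.atTop := by
  unfold LL
  refine (tendsto_rpow_atTop ?_).comp tendsto_natCast_atTop_atTop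
  have : (0 : ℝ) < N0 := by unfold N0; norm_num
  positivity

/-- powers of n which tend to zero -/
lemma quarter_tendsto (K : ℝ) : Filter.Tendsto (fun n : ℕ => 1 / (n : ℝ) +
    K * ((n : ℝ) ^ (1 / 4 : ℝ) / Real.sqrt n)) Filter.atTop (nhds 0) := by
  have h1 : Filter.Tendsto (fun n : ℕ => 1 / (n : ℝ)) Filter.atTop (nhds 0) :=
    tendsto_one_div_atTop_nhds_zero_nat
  have h2 : Filter.Tendsto (fun n : ℕ => ((n : ℝ) ^ (-(1 / 4 : ℝ)))) Filter.atTop (nhds 0) :=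
    (tendsto_rpow_neg_atTop (by norm_num)).comp tendsto_natCast_atTop_atTop
  have h3 : Filter.Tendsto (fun n : ℕ => (n : ℝ) ^ (1 / 4 : ℝ) / Real.sqrt n) Filter.atTop
      (nhds 0) := by
    refine h2.congr' ?_
    filter_upwards [Filter.eventually_gt_atTop 0] with n hn
    have hn' : (0 : ℝ) < n := by exact_mod_cast hn
    rw [Real.sqrt_eq_rpow, ← Real.rpow_sub hn']
    norm_num
  have := h1.add (h3.const_mul K)
  simpa using this

/-! ## the sets -/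

/-- radius in the direction of an orbit -/
def rad (n : ℕ) (T : Orb n) : ℝ := LL n ^ (6 - T.ord) / (Real.sqrt n) ^ T.ord

/-- small radius in the direction of an orbit -/
def qad (n : ℕ) (T : Orb n) : ℝ := 1 / (Real.sqrt n) ^ T.ord

/-- first factor of the major box -/
def Ma (n : ℕ) : Set ℝ := Set.Icc (-(LL n ^ 4 / n)) (LL n ^ 4 / n)

/-- second factor of the major box -/
def Mη (n : ℕ) : Set (Orb n → ℝ) := Set.pi Set.univ fun T => Set.Icc (-(rad n T)) (rad n T)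

/-- second factor of the small box -/
def Sη (n : ℕ) : Set (Orb n → ℝ) := Set.pi Set.univ fun T => Set.Icc (-(qad n T)) (qad n T)

lemma Ma_meas (n : ℕ) : MeasurableSet (Ma n) := measurableSet_Icc

lemma Mη_meas (n : ℕ) : MeasurableSet (Mη n) :=
  MeasurableSet.univ_pi fun _ => measurableSet_Icc

lemma Sη_meas (n : ℕ) : MeasurableSet (Sη n) :=
  MeasurableSet.univ_pi fun _ => measurableSet_Icc

lemma sqrt_pos {n : ℕ} (hn : 1 ≤ n) : 0 < Real.sqrt n :=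
  Real.sqrt_pos.mpr (by exact_mod_cast hn)

lemma mem_Ma {n : ℕ} (hn : 1 ≤ n) {a : ℝ} : a ∈ Ma n ↔ |a| * n ≤ LL n ^ 4 := by
  have hn' : (0 : ℝ) < n := by exact_mod_cast hn
  unfold Ma
  rw [Set.mem_Icc, ← abs_le, le_div_iff₀ hn']

lemma mem_Mη {n : ℕ} (hn : 1 ≤ n) {η : Orb n → ℝ} :
    η ∈ Mη n ↔ ∀ T, |η T| * (Real.sqrt n) ^ T.ord ≤ LL n ^ (6 - T.ord) := by
  have hs := sqrt_pos hn
  unfold Mη rad
  simp only [Set.mem_univ_pi, Set.mem_Icc, ← abs_le]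
  refine forall_congr' fun T => ?_
  rw [le_div_iff₀ (by positivity)]

lemma mem_Sη {n : ℕ} (hn : 1 ≤ n) {η : Orb n → ℝ} :
    η ∈ Sη n ↔ ∀ T, |η T| * (Real.sqrt n) ^ T.ord ≤ 1 := by
  have hs := sqrt_pos hn
  unfold Sη qad
  simp only [Set.mem_univ_pi, Set.mem_Icc, ← abs_le]
  refine forall_congr' fun T => ?_
  rw [le_div_iff₀ (by positivity)]

lemma Sη_sub {n : ℕ} (hn : 1 ≤ n) : Sη n ⊆ Mη n := by
  intro η hη
  rw [mem_Sη hn] at hη
  rw [mem_Mη hn]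
  intro T
  exact (hη T).trans (one_le_pow₀ (LL_one hn))

lemma mu1_real_le {r : ℝ} (hr : 0 ≤ r) : mu1.real (Set.Icc (-r) r) ≤ 2 * r := by
  have h1 : mu1 (Set.Icc (-r) r) ≤ ENNReal.ofReal (2 * r) := by
    unfold mu1
    refine (Measure.restrict_apply_le _ _).trans ?_
    rw [Real.volume_Icc]
    exact le_of_eq (by congr 1; ring)
  rw [measureReal_def]
  exact ENNReal.toReal_le_of_le_ofReal (by positivity) h1

lemma mu1_real_eq {r : ℝ} (hr : 0 ≤ r) (hr' : r ≤ 1 / 2) :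
    mu1.real (Set.Icc (-r) r) = 2 * r := by
  unfold mu1
  rw [measureReal_def, Measure.restrict_apply measurableSet_Icc,
    Set.inter_eq_left.mpr (Set.Icc_subset_Icc (by linarith) hr'), Real.volume_Icc,
    ENNReal.toReal_ofReal (by linarith)]
  ring

lemma muO_real_pi {n : ℕ} (r : Orb n → ℝ) :
    (muO n).real (Set.pi Set.univ fun T => Set.Icc (-(r T)) (r T)) =
      ∏ T, mu1.real (Set.Icc (-(r T)) (r T)) := by
  unfold muO
  rw [measureReal_def, Measure.pi_pi, ENNReal.toReal_prod]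
  rfl

lemma rad_nonneg {n : ℕ} (hn : 1 ≤ n) (T : Orb n) : 0 ≤ rad n T := by
  have hs := sqrt_pos hn
  have hL := LL_one hn
  unfold rad
  positivity

lemma qad_pos {n : ℕ} (hn : 1 ≤ n) (T : Orb n) : 0 < qad n T := by
  have hs := sqrt_pos hn
  unfold qad
  positivity

lemma muO_M_le {n : ℕ} (hn : 1 ≤ n) : (muO n).real (Mη n) ≤ ∏ T : Orb n, (2 * rad n T) := by
  unfold Mη
  rw [muO_real_pi]
  refine Finset.prod_le_prod (fun T _ => measureReal_nonneg) fun T _ => ?_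
  exact mu1_real_le (rad_nonneg hn T)

lemma rad_le {n : ℕ} (hn : 1 ≤ n) (T : Orb n) (hT : 3 ≤ T.ord) :
    rad n T ≤ qad n T * LL n ^ 3 := by
  have hs := sqrt_pos hn
  have hL := LL_one hn
  unfold rad qad
  rw [one_div, inv_mul_eq_div]
  have : LL n ^ (6 - T.ord) ≤ LL n ^ 3 := pow_le_pow_right₀ hL (by omega)
  gcongr

lemma prod_rad_le {n : ℕ} (hn : 1 ≤ n) (hT : ∀ T : Orb n, 3 ≤ T.ord)
    (hcard : Fintype.card (Orb n) ≤ 2 ^ 15) :
    ∏ T : Orb n, (2 * rad n T) ≤ (∏ T : Orb n, (2 * qad n T)) * LL n ^ (3 * 2 ^ 15) := by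
  have hL := LL_one hn
  have h1 : ∏ T : Orb n, (2 * rad n T) ≤ ∏ T : Orb n, ((2 * qad n T) * LL n ^ 3) := by
    refine Finset.prod_le_prod (fun T _ => ?_) fun T _ => ?_
    · have := rad_nonneg hn T
      positivity
    · have := rad_le hn T (hT T)
      linarith
  refine h1.trans ?_
  rw [Finset.prod_mul_distrib, Finset.prod_const, ← pow_mul, Finset.card_univ]
  refine mul_le_mul_of_nonneg_left ?_ (Finset.prod_nonneg fun T _ => ?_)
  · exact pow_le_pow_right₀ hL (Nat.mul_le_mul_left 3 hcard)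
  · have := qad_pos hn T
    positivity

lemma sq_le {n : ℕ} (hn : 1 ≤ n) : (Real.sqrt n) ^ 5 ≤ (n : ℝ) ^ 3 := by
  have hn' : (1 : ℝ) ≤ n := by exact_mod_cast hn
  have hs1 : 1 ≤ Real.sqrt n := Real.one_le_sqrt.mpr hn'
  calc (Real.sqrt n) ^ 5 ≤ (Real.sqrt n) ^ 6 := pow_le_pow_right₀ hs1 (by norm_num)
    _ = ((Real.sqrt n) ^ 2) ^ 3 := by ring
    _ = (n : ℝ) ^ 3 := by rw [Real.sq_sqrt (by positivity)]

lemma prod_qad_ge {n : ℕ} (hn : 1 ≤ n) (hT : ∀ T : Orb n, T.ord ≤ 5)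
    (hcard : Fintype.card (Orb n) ≤ 2 ^ 15) :
    1 / (n : ℝ) ^ (3 * 2 ^ 15) ≤ ∏ T : Orb n, (2 * qad n T) := by
  have hn' : (1 : ℝ) ≤ n := by exact_mod_cast hn
  have hn0 : (0 : ℝ) < n := by linarith
  have hs1 : 1 ≤ Real.sqrt n := Real.one_le_sqrt.mpr hn'
  have h1 : ∏ _T : Orb n, (1 / (n : ℝ) ^ 3) ≤ ∏ T : Orb n, (2 * qad n T) := by
    refine Finset.prod_le_prod (fun T _ => by positivity) fun T _ => ?_
    have h2 : 1 / (n : ℝ) ^ 3 ≤ qad n T := by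
      unfold qad
      refine one_div_le_one_div_of_le (by positivity) ?_
      exact (pow_le_pow_right₀ hs1 (hT T)).trans (sq_le hn)
    have h3 := qad_pos hn T
    linarith
  refine le_trans ?_ h1
  rw [Finset.prod_const, Finset.card_univ, div_pow, one_pow, ← pow_mul]
  refine one_div_le_one_div_of_le (by positivity) ?_
  exact pow_le_pow_right₀ hn' (Nat.mul_le_mul_left 3 hcard)

lemma muO_S_eq {n : ℕ} (hn : 4 ≤ n) (hT : ∀ T : Orb n, 3 ≤ T.ord) :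
    (muO n).real (Sη n) = ∏ T : Orb n, (2 * qad n T) := by
  unfold Sη
  rw [muO_real_pi]
  refine Finset.prod_congr rfl fun T _ => ?_
  refine mu1_real_eq (qad_pos (by omega) T).le ?_
  unfold qad
  have hs : 2 ≤ Real.sqrt n := by
    rw [show (2 : ℝ) = Real.sqrt 4 by
      rw [show (4 : ℝ) = 2 ^ 2 by norm_num, Real.sqrt_sq (by norm_num)]]
    exact Real.sqrt_le_sqrt (by exact_mod_cast hn)
  have h1 : (2 : ℝ) ≤ (Real.sqrt n) ^ T.ord := by
    calc (2 : ℝ) = 2 ^ 1 := by norm_num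
      _ ≤ 2 ^ T.ord := pow_le_pow_right₀ (by norm_num) (by have := hT T; omega)
      _ ≤ (Real.sqrt n) ^ T.ord := by gcongr
  exact one_div_le_one_div_of_le (by norm_num) h1

/-! ## almost everywhere in the box -/

lemma ae_box (n : ℕ) : ∀ᵐ p ∂(muQ n), |p.1| ≤ 1 / 2 ∧ ∀ T, |p.2 T| ≤ 1 / 2 := by
  have h1 : muQ n = (volume.prod (Measure.pi fun _ : Orb n => (volume : Measure ℝ))).restrict
      (Set.Icc (-(1 / 2)) (1 / 2) ×ˢ
        Set.pi Set.univ fun _ : Orb n => Set.Icc (-(1 / 2 : ℝ)) (1 / 2)) := by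
    rw [← Measure.prod_restrict, Measure.restrict_pi_pi]
    rfl
  rw [h1]
  have hm : MeasurableSet (Set.Icc (-(1 / 2 : ℝ)) (1 / 2) ×ˢ
        Set.pi Set.univ fun _ : Orb n => Set.Icc (-(1 / 2 : ℝ)) (1 / 2)) :=
    measurableSet_Icc.prod (MeasurableSet.univ_pi fun _ => measurableSet_Icc)
  filter_upwards [ae_restrict_mem hm] with p hp
  rw [Set.mem_prod, Set.mem_univ_pi] at hp
  refine ⟨abs_le.mpr hp.1, fun T => abs_le.mpr (hp.2 T)⟩

lemma lift_le {n : ℕ} {a : ℝ} {η : Orb n → ℝ} (ha : |a| ≤ 1 / 2) (hη : ∀ T, |η T| ≤ 1 / 2)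
    (F : Finset (Sym2 (Fin n))) : |lift a η F| ≤ 1 / 2 := by
  unfold lift
  split_ifs with h1 h2
  · exact hη _
  · exact ha
  · simp

/-- minor arcs -/
lemma minor_bound {A n t : ℕ} (hadm : Adm n t) (hCoef : StmtCoef)
    (hM : ∀ η : Finset (Sym2 (Fin n)) → ℝ,
      (∀ (σ : Equiv.Perm (Fin n)) F, η (mapE σ F) = η F) →
      (∀ F, ¬ Good F → η F = 0) → (∀ F, |η F| ≤ 1 / 2) →
      (∃ F, LL n ^ (6 - (vs F).card) < |η F| * (Real.sqrt n) ^ (vs F).card) →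
      ‖𝔼 z : Sym2 (Fin n) → Bool, ee (pol (cf η) z)‖ ≤ 1 / (n : ℝ) ^ A)
    {p : ℝ × (Orb n → ℝ)} (hp1 : |p.1| ≤ 1 / 2) (hp2 : ∀ T, |p.2 T| ≤ 1 / 2)
    (hp : p ∉ Ma n ×ˢ Mη n) : ‖Phi p‖ ≤ 1 / (n : ℝ) ^ A := by
  have hn : 1 ≤ n := by have := hadm.1; omega
  have hn0 : (0 : ℝ) ≤ n := by positivity
  obtain ⟨-, -, hinv, horb, hedge⟩ := hCoef n t hadm p.1 p.2
  refine hM (lift p.1 p.2) hinv ?_ (lift_le hp1 hp2) ?_
  · intro F hF
    unfold lift
    rw [dif_neg (fun h => hF h.1), if_neg hF]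
  · rw [Set.mem_prod, not_and_or, mem_Ma hn, mem_Mη hn] at hp
    rcases hp with hp | hp
    · obtain ⟨F, hF, hc, hl⟩ := hedge
      refine ⟨F, ?_⟩
      rw [hl, hc, Real.sq_sqrt hn0]
      exact not_le.mp hp
    · push Not at hp
      obtain ⟨T, hT⟩ := hp
      obtain ⟨-, -, F, hF, hc, hl⟩ := horb T
      refine ⟨F, ?_⟩
      rw [hl, hc]
      exact hT

/-- the Gaussian -/
def gs {n : ℕ} (p : ℝ × (Orb n → ℝ)) : ℝ :=
  Real.exp (-(2 * Real.pi ^ 2 * ∑ F, cf (lift p.1 p.2) F ^ 2))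

/-- major arcs -/
lemma major_bound {n t : ℕ} (hadm : Adm n t) (hCoef : StmtCoef) {C : ℝ}
    (hC : ∀ (c : Finset (Sym2 (Fin n)) → ℝ) (s : ℝ), 0 ≤ s →
      (∀ F, ¬ Good F → c F = 0) →
      (∀ F, |c F| * (Real.sqrt n) ^ (vs F).card ≤ s) →
      ‖(𝔼 z : Sym2 (Fin n) → Bool, ee (pol c z)) -
          ((Real.exp (-(2 * Real.pi ^ 2 * ∑ F, c F ^ 2)) : ℝ) : ℂ)‖
        ≤ C * (s ^ 2 / Real.sqrt n + s ^ 4 / (n : ℝ) ^ 2))
    {p : ℝ × (Orb n → ℝ)} (hp : p ∈ Ma n ×ˢ Mη n) :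
    ‖Phi p - ((gs p : ℝ) : ℂ)‖ ≤
      C * ((2 ^ 15 * LL n ^ 4) ^ 2 / Real.sqrt n + (2 ^ 15 * LL n ^ 4) ^ 4 / (n : ℝ) ^ 2) := by
  have hn : 1 ≤ n := by have := hadm.1; omega
  have hL := LL_one hn
  obtain ⟨-, hb, -, horb, -⟩ := hCoef n t hadm p.1 p.2
  rw [Set.mem_prod, mem_Ma hn, mem_Mη hn] at hp
  refine hC (cf (lift p.1 p.2)) (2 ^ 15 * LL n ^ 4) (by positivity) ?_ ?_
  · intro F hF
    unfold cf
    rw [if_neg hF]
  · refine (hb (LL n ^ 4) hp.1 fun T => ?_).1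
    refine (hp.2 T).trans (pow_le_pow_right₀ hL ?_)
    have := (horb T).1
    omega

/-! ## continuity of the Gaussian -/

lemma lift_cont {n : ℕ} (F : Finset (Sym2 (Fin n))) :
    Continuous fun p : ℝ × (Orb n → ℝ) => lift p.1 p.2 F := by
  unfold lift
  split_ifs with h1 h2
  · fun_prop
  · fun_prop
  · fun_prop

lemma cf_cont {n : ℕ} (J : Finset (Sym2 (Fin n))) :
    Continuous fun p : ℝ × (Orb n → ℝ) => cf (lift p.1 p.2) J := by
  unfold cf
  split_ifs with h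
  · exact continuous_finsetSum _ fun F _ => (lift_cont F).div_const _
  · fun_prop

lemma gs_cont (n : ℕ) : Continuous (gs (n := n)) := by
  unfold gs
  refine Real.continuous_exp.comp (Continuous.neg (continuous_const.mul ?_))
  exact continuous_finsetSum _ fun F _ => (cf_cont F).pow 2

lemma gs_le_one {n : ℕ} (p : ℝ × (Orb n → ℝ)) : gs p ≤ 1 := by
  unfold gs
  rw [Real.exp_le_one_iff]
  have : 0 ≤ 2 * Real.pi ^ 2 * ∑ F, cf (lift p.1 p.2) F ^ 2 := by positivity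
  linarith

lemma gs_pos {n : ℕ} (p : ℝ × (Orb n → ℝ)) : 0 < gs p := Real.exp_pos _

/-- the second factor of the Gaussian -/
def hη {n : ℕ} (η : Orb n → ℝ) : ℝ :=
  Real.exp (-(2 * Real.pi ^ 2 * ∑ F, cf (lift 0 η) F ^ 2))

lemma hη_cont (n : ℕ) : Continuous (hη (n := n)) := by
  have : (hη (n := n)) = fun η => gs ((0 : ℝ), η) := rfl
  rw [this]
  exact (gs_cont n).comp (by fun_prop)

lemma hη_le_one {n : ℕ} (η : Orb n → ℝ) : hη η ≤ 1 := gs_le_one ((0 : ℝ), η)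

lemma hη_pos {n : ℕ} (η : Orb n → ℝ) : 0 < hη η := Real.exp_pos _

lemma re_main {n t : ℕ} (hadm : Adm n t) (hCoef : StmtCoef) (p : ℝ × (Orb n → ℝ)) :
    (ee (-(p.1 * t / 2)) * ((gs p : ℝ) : ℂ)).re = GG (p.1 * t) * hη p.2 := by
  obtain ⟨hsum, -⟩ := hCoef n t hadm p.1 p.2
  rw [Complex.re_mul_ofReal, ee_re]
  unfold gs hη GG
  rw [hsum, mul_assoc (Real.cos _), ← Real.exp_add]
  congr 1
  · rw [show 2 * Real.pi * -(p.1 * t / 2) = -(Real.pi * (p.1 * t)) by ring, Real.cos_neg]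
  · congr 1
    ring

lemma int_a {n t : ℕ} (ht : 0 < t) (hR : LL n ^ 4 / n ≤ 1 / 2) {c0 U0 : ℝ}
    (hU0 : ∀ U : ℝ, U0 ≤ U → c0 ≤ ∫ u in (-U)..U, GG u) (hU : U0 ≤ LL n ^ 4 / n * t)
    (hR0 : 0 ≤ LL n ^ 4 / n) :
    (t : ℝ)⁻¹ * c0 ≤ ∫ a in Ma n, GG (a * t) ∂mu1 := by
  have ht' : (0 : ℝ) < t := by exact_mod_cast ht
  have h1 : mu1.restrict (Ma n) = volume.restrict (Ma n) := by
    unfold mu1
    rw [Measure.restrict_restrict (Ma_meas n)]
    congr 1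
    unfold Ma
    exact Set.inter_eq_left.mpr (Set.Icc_subset_Icc (by linarith) hR)
  rw [h1]
  unfold Ma
  rw [integral_Icc_eq_integral_Ioc, ← intervalIntegral.integral_of_le (by linarith),
    GG_scale ht']
  exact mul_le_mul_of_nonneg_left (hU0 _ hU) (by positivity)

lemma int_η {n t : ℕ} (hn : 4 ≤ n) (hadm : Adm n t) (hCoef : StmtCoef) :
    Real.exp (-(2 * Real.pi ^ 2 * 2 ^ 60)) * ∏ T : Orb n, (2 * qad n T) ≤
      ∫ η in Mη n, hη η ∂(muO n) := by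
  have hn1 : 1 ≤ n := by omega
  have hord : ∀ T : Orb n, 3 ≤ T.ord := fun T => ((hCoef n t hadm 0 0).2.2.2.1 T).1
  have hint : Integrable (hη (n := n)) (muO n) := by
    refine Integrable.of_bound (C := 1) (hη_cont n).aestronglyMeasurable
      (Filter.Eventually.of_forall fun η => ?_)
    rw [Real.norm_eq_abs, abs_of_pos (hη_pos η)]
    exact hη_le_one η
  have h1 : ∫ η in Sη n, hη η ∂(muO n) ≤ ∫ η in Mη n, hη η ∂(muO n) :=
    setIntegral_mono_set hint.integrableOn (Filter.Eventually.of_forall fun η => (hη_pos η).le)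
      (Filter.Eventually.of_forall (Sη_sub hn1))
  refine le_trans ?_ h1
  rw [← muO_S_eq hn hord]
  have h2 : ∫ _η in Sη n, Real.exp (-(2 * Real.pi ^ 2 * 2 ^ 60)) ∂(muO n) ≤
      ∫ η in Sη n, hη η ∂(muO n) := by
    refine setIntegral_mono_on (integrableOn_const (measure_ne_top _ _)) hint.integrableOn
      (Sη_meas n) fun η hη' => ?_
    rw [mem_Sη hn1] at hη'
    unfold hη
    rw [Real.exp_le_exp]
    have h3 := ((hCoef n t hadm 0 η).2.1 1 (by simp) hη').2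
    rw [one_pow, mul_one] at h3
    have h4 : 2 * Real.pi ^ 2 * ∑ F, cf (lift 0 η) F ^ 2 ≤ 2 * Real.pi ^ 2 * 2 ^ 60 :=
      mul_le_mul_of_nonneg_left h3 (by positivity)
    linarith
  refine le_trans (le_of_eq ?_) h2
  rw [setIntegral_const, smul_eq_mul, mul_comm]

lemma main_lower {n t : ℕ} (hn : 4 ≤ n) (ht : 0 < t) (hadm : Adm n t) (hCoef : StmtCoef)
    (hR : LL n ^ 4 / n ≤ 1 / 2) {c0 U0 : ℝ} (hc0 : 0 < c0)
    (hU0 : ∀ U : ℝ, U0 ≤ U → c0 ≤ ∫ u in (-U)..U, GG u) (hU : U0 ≤ LL n ^ 4 / n * t) :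
    ((t : ℝ)⁻¹ * c0) * (Real.exp (-(2 * Real.pi ^ 2 * 2 ^ 60)) * ∏ T : Orb n, (2 * qad n T)) ≤
      ‖∫ p in Ma n ×ˢ Mη n, ee (-(p.1 * t / 2)) * ((gs p : ℝ) : ℂ) ∂(muQ n)‖ := by
  have hn1 : 1 ≤ n := by omega
  have hL := LL_one hn1
  refine le_trans ?_ (Complex.re_le_norm _)
  have hcont : Continuous fun p : ℝ × (Orb n → ℝ) =>
      ee (-(p.1 * t / 2)) * ((gs p : ℝ) : ℂ) :=
    (ee_cont.comp (by fun_prop)).mul (Complex.continuous_ofReal.comp (gs_cont n))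
  have hint : Integrable (fun p : ℝ × (Orb n → ℝ) =>
      ee (-(p.1 * t / 2)) * ((gs p : ℝ) : ℂ)) ((muQ n).restrict (Ma n ×ˢ Mη n)) := by
    refine Integrable.of_bound (C := 1) hcont.aestronglyMeasurable
      (Filter.Eventually.of_forall fun p => ?_)
    rw [norm_mul, norm_ee, one_mul, Complex.norm_real, Real.norm_eq_abs, abs_of_pos (gs_pos p)]
    exact gs_le_one p
  have h1 : (∫ p in Ma n ×ˢ Mη n, ee (-(p.1 * t / 2)) * ((gs p : ℝ) : ℂ) ∂(muQ n)).re =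
      ∫ p in Ma n ×ˢ Mη n, GG (p.1 * t) * hη p.2 ∂(muQ n) := by
    have h2 := Complex.reCLM.integral_comp_comm hint
    simp only [Complex.reCLM_apply] at h2
    rw [← h2]
    simp only [re_main hadm hCoef]
  rw [h1]
  unfold muQ
  rw [setIntegral_prod_mul (fun a : ℝ => GG (a * t)) (fun η : Orb n → ℝ => hη η)]
  have h3 := int_a ht hR hU0 hU (by positivity)
  have h4 := int_η hn hadm hCoef
  have hP : 0 ≤ ∏ T : Orb n, (2 * qad n T) :=
    Finset.prod_nonneg fun T _ => by have := qad_pos hn1 T; positivity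
  exact mul_le_mul h3 h4 (by positivity) (le_trans (by positivity) h3)

/-- upper bound of the main integral when no pattern is good -/
lemma main_upper {A n t : ℕ} (hadm : Adm n t) (hInt : StmtInt) (hLin : StmtLin)
    (hCoef : StmtCoef) {K : ℝ} (hK : 0 ≤ K)
    (hmin : ∀ p : ℝ × (Orb n → ℝ), |p.1| ≤ 1 / 2 → (∀ T, |p.2 T| ≤ 1 / 2) →
      p ∉ Ma n ×ˢ Mη n → ‖Phi p‖ ≤ 1 / (n : ℝ) ^ A)
    (hmaj : ∀ p ∈ Ma n ×ˢ Mη n, ‖Phi p - ((gs p : ℝ) : ℂ)‖ ≤ K)
    (hno : ∀ z : Sym2 (Fin n) → Bool, ¬ Hit t z) :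
    ‖∫ p in Ma n ×ˢ Mη n, ee (-(p.1 * t / 2)) * ((gs p : ℝ) : ℂ) ∂(muQ n)‖ ≤
      1 / (n : ℝ) ^ A + K * ((2 * (LL n ^ 4 / n)) * ∏ T : Orb n, (2 * rad n T)) := by
  have hn1 : 1 ≤ n := by have := hadm.1; omega
  have hL := LL_one hn1
  have hS : MeasurableSet (Ma n ×ˢ Mη n) := (Ma_meas n).prod (Mη_meas n)
  have hPc : Continuous fun p : ℝ × (Orb n → ℝ) => ee (-(p.1 * t / 2)) * Phi p :=
    (ee_cont.comp (by fun_prop)).mul (Phi_cont hLin n)
  have hPi : Integrable (fun p : ℝ × (Orb n → ℝ) => ee (-(p.1 * t / 2)) * Phi p) (muQ n) := by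
    refine Integrable.of_bound (C := 1) hPc.aestronglyMeasurable
      (Filter.Eventually.of_forall fun p => ?_)
    rw [norm_mul, norm_ee, one_mul]
    exact norm_Phi_le p
  have hGc : Continuous fun p : ℝ × (Orb n → ℝ) =>
      ee (-(p.1 * t / 2)) * ((gs p : ℝ) : ℂ) :=
    (ee_cont.comp (by fun_prop)).mul (Complex.continuous_ofReal.comp (gs_cont n))
  have hGi : Integrable (fun p : ℝ × (Orb n → ℝ) =>
      ee (-(p.1 * t / 2)) * ((gs p : ℝ) : ℂ)) (muQ n) := by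
    refine Integrable.of_bound (C := 1) hGc.aestronglyMeasurable
      (Filter.Eventually.of_forall fun p => ?_)
    rw [norm_mul, norm_ee, one_mul, Complex.norm_real, Real.norm_eq_abs, abs_of_pos (gs_pos p)]
    exact gs_le_one p
  have h0 := total_zero hInt hLin hadm hno
  rw [← integral_add_compl hS hPi] at h0
  have h1 : ∫ p in Ma n ×ˢ Mη n, ee (-(p.1 * t / 2)) * ((gs p : ℝ) : ℂ) ∂(muQ n) =
      -(∫ p in (Ma n ×ˢ Mη n)ᶜ, ee (-(p.1 * t / 2)) * Phi p ∂(muQ n)) -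
      ∫ p in Ma n ×ˢ Mη n, ee (-(p.1 * t / 2)) * (Phi p - ((gs p : ℝ) : ℂ)) ∂(muQ n) := by
    simp only [mul_sub]
    rw [integral_sub hPi.integrableOn hGi.integrableOn]
    linear_combination h0
  rw [h1]
  refine (norm_sub_le _ _).trans ?_
  rw [norm_neg]
  refine add_le_add ?_ ?_
  · have h2 : ‖∫ p in (Ma n ×ˢ Mη n)ᶜ, ee (-(p.1 * t / 2)) * Phi p ∂(muQ n)‖ ≤
        1 / (n : ℝ) ^ A * (muQ n).real ((Ma n ×ˢ Mη n)ᶜ) := by
      refine norm_setIntegral_le_of_norm_le_const_ae (measure_lt_top _ _) ?_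
      rw [ae_restrict_iff' hS.compl]
      filter_upwards [ae_box n] with p hp hp'
      rw [norm_mul, norm_ee, one_mul]
      exact hmin p hp.1 hp.2 hp'
    refine h2.trans ?_
    have h3 : (muQ n).real ((Ma n ×ˢ Mη n)ᶜ) ≤ 1 := measureReal_le_one
    have h4 : (0 : ℝ) ≤ 1 / (n : ℝ) ^ A := by positivity
    nlinarith
  · have h2 : ‖∫ p in Ma n ×ˢ Mη n, ee (-(p.1 * t / 2)) *
        (Phi p - ((gs p : ℝ) : ℂ)) ∂(muQ n)‖ ≤ K * (muQ n).real (Ma n ×ˢ Mη n) := by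
      refine norm_setIntegral_le_of_norm_le_const (measure_lt_top _ _) fun p hp => ?_
      rw [norm_mul, norm_ee, one_mul]
      exact hmaj p hp
    refine h2.trans (mul_le_mul_of_nonneg_left ?_ hK)
    unfold muQ
    rw [measureReal_prod_prod]
    refine mul_le_mul ?_ (muO_M_le hn1) measureReal_nonneg (by positivity)
    exact mu1_real_le (by positivity)

end M5b

/-- MODULE M5b -/
theorem stmtHit (hCLT : StmtCLT) (hMin : StmtMinor) (hInt : StmtInt) (hLin : StmtLin)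
    (hCard : StmtCard) (hCoef : StmtCoef) : StmtHit := by
  obtain ⟨C, hC0, hC⟩ := hCLT
  obtain ⟨c0, hc0, U0, hU0⟩ := M5b.GG_trunc
  obtain ⟨nA, hnA⟩ := hMin (3 * 2 ^ 15 + 2)
  obtain ⟨E0, hE0⟩ : ∃ E0 : ℝ, E0 = Real.exp (-(2 * Real.pi ^ 2 * 2 ^ 60)) := ⟨_, rfl⟩
  have hE0p : 0 < E0 := by rw [hE0]; exact Real.exp_pos _
  have ev1 := M5b.LL_tendsto.eventually (Filter.eventually_ge_atTop (2 * U0))
  have ev2 := (M5b.quarter_tendsto 1).eventually (gt_mem_nhds (show (0 : ℝ) < 1 / 2 by norm_num))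
  have ev3 := (M5b.quarter_tendsto (2 * C * (2 ^ 30 + 2 ^ 60))).eventually
    (gt_mem_nhds (show (0 : ℝ) < c0 * E0 by positivity))
  obtain ⟨n0, hn0⟩ := Filter.eventually_atTop.mp (ev1.and (ev2.and ev3))
  refine ⟨max n0 (max nA 5), ?_⟩
  intro n t hn hadm
  by_contra hno
  push Not at hno
  have hn5 : 5 ≤ n := le_trans (le_trans (le_max_right _ _) (le_max_right _ _)) hn
  have hnnA : nA ≤ n := le_trans (le_trans (le_max_left _ _) (le_max_right _ _)) hn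
  have hn1 : 1 ≤ n := by omega
  obtain ⟨f1, f2, f3⟩ := hn0 n (le_trans (le_max_left _ _) hn)
  have hL := M5b.LL_one hn1
  have hnr : (5 : ℝ) ≤ n := by exact_mod_cast hn5
  have hnp : (0 : ℝ) < n := by linarith
  have hs1 : 1 ≤ Real.sqrt n := Real.one_le_sqrt.mpr (by linarith)
  have hsn : Real.sqrt n ≤ n := by
    have := Real.sq_sqrt hnp.le
    nlinarith
  -- t and n
  have htn : (n : ℝ) * (n - 1) = 2 * (t : ℝ) ^ 2 := by
    have h1 := hadm.2.1
    have h2 : ((n * (n - 1) : ℕ) : ℝ) = ((2 * t ^ 2 : ℕ) : ℝ) := by exact_mod_cast h1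
    push_cast [Nat.cast_sub hn1] at h2
    exact h2
  have ht0 : (0 : ℝ) ≤ t := by positivity
  have ht_le : (t : ℝ) ≤ n := by nlinarith
  have ht_ge : (n : ℝ) / 2 ≤ t := by
    by_contra hlt
    push Not at hlt
    nlinarith
  have htp : (0 : ℝ) < t := by linarith
  have htN : 0 < t := by exact_mod_cast htp
  -- bounds on L
  have hL4 : LL n ^ 4 ≤ (n : ℝ) ^ (1 / 4 : ℝ) := M5b.LL_pow_le hn1 (by norm_num)
  have hR : LL n ^ 4 / n ≤ 1 / 2 := by
    have h1 : LL n ^ 4 / n ≤ (n : ℝ) ^ (1 / 4 : ℝ) / Real.sqrt n := by gcongr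
    have h2 : 0 ≤ 1 / (n : ℝ) := by positivity
    linarith
  have hU : U0 ≤ LL n ^ 4 / n * t := by
    have h1 : LL n ≤ LL n ^ 4 := by
      calc LL n = LL n ^ 1 := (pow_one _).symm
        _ ≤ LL n ^ 4 := pow_le_pow_right₀ hL (by norm_num)
    have h2 : LL n ^ 4 / n * (n / 2) ≤ LL n ^ 4 / n * t :=
      mul_le_mul_of_nonneg_left ht_ge (by positivity)
    have h3 : LL n ^ 4 / n * (n / 2) = LL n ^ 4 / 2 := by field_simp
    linarith
  have hord3 : ∀ T : Orb n, 3 ≤ T.ord := fun T => ((hCoef n t hadm 0 0).2.2.2.1 T).1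
  have hord5 : ∀ T : Orb n, T.ord ≤ 5 := fun T => ((hCoef n t hadm 0 0).2.2.2.1 T).2.1
  have hcard := hCard n hn5
  obtain ⟨X, hX⟩ : ∃ X : ℝ, X = (2 ^ 15 * LL n ^ 4) ^ 2 / Real.sqrt n +
    (2 ^ 15 * LL n ^ 4) ^ 4 / (n : ℝ) ^ 2 := ⟨_, rfl⟩
  have hX0 : 0 ≤ X := by rw [hX]; positivity
  have hlow := M5b.main_lower (by omega) htN hadm hCoef hR hc0 hU0 hU
  have hup := M5b.main_upper (A := 3 * 2 ^ 15 + 2) (K := C * X) hadm hInt hLin hCoef
    (by positivity)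
    (fun p hp1 hp2 hp => M5b.minor_bound hadm hCoef (hnA n hnnA) hp1 hp2 hp)
    (fun p hp => by rw [hX]; exact M5b.major_bound hadm hCoef (hC n hn1) hp)
    hno
  have h1 := hlow.trans hup
  rw [← hE0] at h1
  obtain ⟨P, hP⟩ : ∃ P : ℝ, P = ∏ T : Orb n, (2 * M5b.qad n T) := ⟨_, rfl⟩
  have hPp : 0 < P := by
    rw [hP]
    exact Finset.prod_pos fun T _ => by have := M5b.qad_pos hn1 T; positivity
  have h2 := M5b.prod_rad_le hn1 hord3 hcard
  have h3 := M5b.prod_qad_ge hn1 hord5 hcard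
  rw [← hP] at h1 h2 h3
  have h4 : 1 / (n : ℝ) ^ (3 * 2 ^ 15 + 2) ≤ P / (n : ℝ) ^ 2 := by
    rw [pow_add, ← div_div]
    exact div_le_div_of_nonneg_right h3 (by positivity)
  have h5 : C * X * ((2 * (LL n ^ 4 / n)) * ∏ T : Orb n, (2 * M5b.rad n T)) ≤
      C * X * ((2 * (LL n ^ 4 / n)) * (P * LL n ^ (3 * 2 ^ 15))) :=
    mul_le_mul_of_nonneg_left (mul_le_mul_of_nonneg_left h2 (by positivity)) (by positivity)
  have h6 : (t : ℝ)⁻¹ * c0 * (E0 * P) ≤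
      P / (n : ℝ) ^ 2 + C * X * ((2 * (LL n ^ 4 / n)) * (P * LL n ^ (3 * 2 ^ 15))) := by
    linarith
  -- divide by P and multiply by t
  have h7 : c0 * E0 ≤ t / (n : ℝ) ^ 2 + C * X * (2 * LL n ^ (4 + 3 * 2 ^ 15)) * (t / n) := by
    have h8 := mul_le_mul_of_nonneg_left h6 (show 0 ≤ t / P by positivity)
    have e1 : (t : ℝ) / P * ((t : ℝ)⁻¹ * c0 * (E0 * P)) = c0 * E0 := by field_simp
    have e2 : (t : ℝ) / P * (P / (n : ℝ) ^ 2 +
        C * X * ((2 * (LL n ^ 4 / n)) * (P * LL n ^ (3 * 2 ^ 15)))) =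
        t / (n : ℝ) ^ 2 + C * X * (2 * LL n ^ (4 + 3 * 2 ^ 15)) * (t / n) := by
      rw [pow_add]
      field_simp
    rw [e1, e2] at h8
    exact h8
  have h9 : (t : ℝ) / (n : ℝ) ^ 2 ≤ 1 / n := by
    rw [div_le_div_iff₀ (by positivity) hnp]
    nlinarith
  have h10 : (t : ℝ) / n ≤ 1 := by rw [div_le_one hnp]; exact ht_le
  have h11 : C * X * (2 * LL n ^ (4 + 3 * 2 ^ 15)) * (t / n) ≤
      C * X * (2 * LL n ^ (4 + 3 * 2 ^ 15)) := by
    have : 0 ≤ C * X * (2 * LL n ^ (4 + 3 * 2 ^ 15)) := by positivity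
    exact mul_le_of_le_one_right this h10
  have h12 : X * LL n ^ (4 + 3 * 2 ^ 15) ≤
      (2 ^ 30 + 2 ^ 60) * ((n : ℝ) ^ (1 / 4 : ℝ) / Real.sqrt n) := by
    have e1 : X * LL n ^ (4 + 3 * 2 ^ 15) =
        2 ^ 30 * (LL n ^ (8 + (4 + 3 * 2 ^ 15)) / Real.sqrt n) +
        2 ^ 60 * (LL n ^ (16 + (4 + 3 * 2 ^ 15)) / (n : ℝ) ^ 2) := by
      rw [hX, pow_add (LL n) 8, pow_add (LL n) 16]
      ring
    have e2 : LL n ^ (8 + (4 + 3 * 2 ^ 15)) ≤ (n : ℝ) ^ (1 / 4 : ℝ) :=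
      M5b.LL_pow_le hn1 (by norm_num)
    have e3 : LL n ^ (16 + (4 + 3 * 2 ^ 15)) ≤ (n : ℝ) ^ (1 / 4 : ℝ) :=
      M5b.LL_pow_le hn1 (by norm_num)
    have e4 : Real.sqrt n ≤ (n : ℝ) ^ 2 := by nlinarith
    have e5 : LL n ^ (8 + (4 + 3 * 2 ^ 15)) / Real.sqrt n ≤
        (n : ℝ) ^ (1 / 4 : ℝ) / Real.sqrt n := by gcongr
    have e6 : LL n ^ (16 + (4 + 3 * 2 ^ 15)) / (n : ℝ) ^ 2 ≤
        (n : ℝ) ^ (1 / 4 : ℝ) / Real.sqrt n := by gcongr
    rw [e1]
    linarith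
  have h13 : C * X * (2 * LL n ^ (4 + 3 * 2 ^ 15)) ≤
      2 * C * (2 ^ 30 + 2 ^ 60) * ((n : ℝ) ^ (1 / 4 : ℝ) / Real.sqrt n) := by
    have := mul_le_mul_of_nonneg_left h12 (show 0 ≤ 2 * C by positivity)
    linarith
  linarith

end

end Pool.Agent.JX
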