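import Mathlib
import Pool.Agent.JX.Defs
import Pool.Agent.JX.Basic

/-!
# Coefficients: invariance, Moebius inversion, bounds (minor arcs of MP_b57267_co)
-/

set_option autoImplicit false
set_option linter.unusedSectionVars false

namespace Pool.Agent.JX

open Finset BigOperators Classical

noncomputable section

variable {V W : Type} [Fintype V] [DecidableEq V] [Fintype W] [DecidableEq W]

/-- an edge set living on the range of `f` is an image -/
lemma exists_preE (f : V → W) (J : Finset (Sym2 W)) (h : ∀ x ∈ vs J, ∃ y, f y = x) :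
    ∃ J0 : Finset (Sym2 V), mapE f J0 = J := by
  refine ⟨univ.filter (fun e => Sym2.map f e ∈ J), ?_⟩
  ext e
  rw [mem_mapE]
  constructor
  · rintro ⟨e', he', rfl⟩
    rw [mem_filter] at he'
    exact he'.2
  · intro he
    induction e using Sym2.ind with
    | _ x y =>
      obtain ⟨x', hx'⟩ := h x (mem_vs.2 ⟨_, he, by simp⟩)
      obtain ⟨y', hy'⟩ := h y (mem_vs.2 ⟨_, he, by simp⟩)
      refine ⟨s(x', y'), ?_, by simp [hx', hy']⟩
      rw [mem_filter]
      refine ⟨mem_univ _, ?_⟩
      simpa [hx', hy'] using he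

/-- the coefficient function is invariant -/
lemma cf_mapE_perm (η : Finset (Sym2 V) → ℝ)
    (hinv : ∀ (σ : Equiv.Perm V) F, η (mapE σ F) = η F) (σ : Equiv.Perm V)
    (J : Finset (Sym2 V)) : cf η (mapE σ J) = cf η J := by
  unfold cf
  rw [good_mapE σ.injective]
  by_cases hJ : Good J
  · rw [if_pos hJ, if_pos hJ]
    symm
    apply sum_bij (fun F _ => mapE σ F)
    · intro F hF
      rw [mem_filter] at hF ⊢
      refine ⟨mem_univ _, mapE_mono hF.2.1, ?_⟩
      rw [vs_mapE, vs_mapE, hF.2.2]
    · intro F _ G _ h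
      exact mapE_inj σ.injective h
    · intro G hG
      rw [mem_filter] at hG
      have hinvmap : mapE σ (mapE (σ⁻¹ : Equiv.Perm V) G) = G := by
        rw [mapE_comp]
        have : (σ ∘ (σ⁻¹ : Equiv.Perm V) : V → V) = id := by funext x; simp
        rw [this, mapE, Sym2.map_id, image_id]
      refine ⟨mapE (σ⁻¹ : Equiv.Perm V) G, ?_, hinvmap⟩
      rw [mem_filter]
      refine ⟨mem_univ _, ?_, ?_⟩
      · intro e he
        have h1 : Sym2.map σ e ∈ G := hG.2.1 (mem_mapE.2 ⟨e, he, rfl⟩)
        rw [← hinvmap] at h1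
        rwa [mem_mapE_iff σ.injective] at h1
      · apply image_injective σ.injective
        rw [← vs_mapE, ← vs_mapE, hinvmap, hG.2.2]
    · intro F hF
      rw [hinv, card_mapE σ.injective]
  · rw [if_neg hJ, if_neg hJ]

/-- the coefficient at a copy of a labelled edge set does not depend on the embedding -/
lemma cf_mapE_emb (η : Finset (Sym2 V) → ℝ)
    (hinv : ∀ (σ : Equiv.Perm V) F, η (mapE σ F) = η F) {k : ℕ} (f g : Fin k → V)
    (hf : Function.Injective f) (hg : Function.Injective g) (J : Finset (Sym2 (Fin k))) :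
    cf η (mapE f J) = cf η (mapE g J) := by
  obtain ⟨σ, hσ⟩ := exists_perm f g hf hg
  have h1 : mapE g J = mapE σ (mapE f J) := by
    rw [mapE_comp]
    congr 1
    funext i
    exact (hσ i).symm
  rw [h1, cf_mapE_perm η hinv]

/-- bound of the coefficients -/
lemma abs_cf_le (η : Finset (Sym2 V) → ℝ) (J : Finset (Sym2 V)) (D : ℝ) (hD : 0 ≤ D)
    (h : ∀ F, vs F = vs J → |η F| ≤ D) : |cf η J| ≤ 2 ^ 15 * D := by
  unfold cf
  split_ifs with hJ
  · calc |∑ F ∈ univ.filter (fun F => J ⊆ F ∧ vs F = vs J), η F / 2 ^ F.card|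
        ≤ ∑ F ∈ univ.filter (fun F => J ⊆ F ∧ vs F = vs J), |η F / 2 ^ F.card| :=
          abs_sum_le_sum_abs _ _
      _ ≤ ∑ F ∈ univ.filter (fun F : Finset (Sym2 V) => J ⊆ F ∧ vs F = vs J), D := by
          apply sum_le_sum
          intro F hF
          rw [mem_filter] at hF
          rw [abs_div, abs_of_pos (by positivity : (0:ℝ) < 2 ^ F.card)]
          have h1 : (1:ℝ) ≤ 2 ^ F.card := one_le_pow₀ (by norm_num)
          calc |η F| / 2 ^ F.card ≤ |η F| / 1 :=
                div_le_div_of_nonneg_left (abs_nonneg _) (by norm_num) h1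
            _ ≤ D := by rw [div_one]; exact h F hF.2.2
      _ = (univ.filter (fun F : Finset (Sym2 V) => J ⊆ F ∧ vs F = vs J)).card * D := by
          rw [sum_const, nsmul_eq_mul]
      _ ≤ 2 ^ 15 * D := by
          apply mul_le_mul_of_nonneg_right _ hD
          have h1 : (univ.filter (fun F : Finset (Sym2 V) => J ⊆ F ∧ vs F = vs J)).card ≤
              (univ.filter (fun F : Finset (Sym2 V) => vs F = vs J)).card := by
            apply card_le_card
            intro F hF
            rw [mem_filter] at hF ⊢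
            exact ⟨hF.1, hF.2.2⟩
          have h2 := card_vs_eq (vs J) hJ.2.2
          exact_mod_cast h1.trans h2
  · rw [abs_zero]; positivity

/-- alternating sum over an interval of finsets -/
lemma sum_Icc_neg_one {ι : Type} [DecidableEq ι] (H F : Finset ι) (hHF : H ⊆ F) :
    (∑ J ∈ F.powerset.filter (fun J => H ⊆ J), (-1 : ℝ) ^ (J \ H).card) =
      if F = H then 1 else 0 := by
  have h1 : (∑ J ∈ F.powerset.filter (fun J => H ⊆ J), (-1 : ℝ) ^ (J \ H).card) =
      ∑ m ∈ (F \ H).powerset, (-1 : ℝ) ^ m.card := by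
    apply sum_bij' (fun J _ => J \ H) (fun m _ => m ∪ H)
    · intro J hJ
      rw [mem_filter, mem_powerset] at hJ
      rw [mem_powerset]
      exact sdiff_subset_sdiff hJ.1 (Subset.refl _)
    · intro m hm
      rw [mem_powerset] at hm
      rw [mem_filter, mem_powerset]
      exact ⟨union_subset (hm.trans sdiff_subset) hHF, subset_union_right⟩
    · intro J hJ
      rw [mem_filter] at hJ
      exact sdiff_union_of_subset hJ.2
    · intro m hm
      rw [mem_powerset] at hm
      rw [union_sdiff_right]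
      apply sdiff_eq_self_of_disjoint
      exact disjoint_of_subset_left hm sdiff_disjoint
    · intro J _
      rfl
  rw [h1]
  have h2 := Finset.sum_powerset_neg_one_pow_card (x := F \ H)
  have h3 : (∑ m ∈ (F \ H).powerset, (-1 : ℝ) ^ m.card) =
      ((∑ m ∈ (F \ H).powerset, (-1 : ℤ) ^ m.card : ℤ) : ℝ) := by
    push_cast
    rfl
  rw [h3, h2]
  by_cases h : F = H
  · subst h
    simp
  · rw [if_neg h, if_neg]
    · simp
    · intro h4
      apply h
      exact Subset.antisymm (sdiff_eq_empty_iff_subset.1 h4) hHF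

/-- Moebius inversion -/
lemma mobius (η : Finset (Sym2 V) → ℝ) (hgood : ∀ F, ¬ Good F → η F = 0)
    (H : Finset (Sym2 V)) (hH : Good H) :
    (∑ J ∈ univ.filter (fun J => H ⊆ J ∧ vs J = vs H), cf η J * (-1) ^ (J \ H).card) =
      η H / 2 ^ H.card := by
  have key : ∀ J ∈ univ.filter (fun J : Finset (Sym2 V) => H ⊆ J ∧ vs J = vs H), cf η J =
      ∑ F ∈ univ.filter (fun F => H ⊆ F ∧ vs F = vs H), if J ⊆ F then η F / 2 ^ F.card else 0 := by
    intro J hJ
    rw [mem_filter] at hJ
    rw [← sum_filter, filter_filter]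
    have hset : univ.filter (fun F : Finset (Sym2 V) => (H ⊆ F ∧ vs F = vs H) ∧ J ⊆ F) =
        univ.filter (fun F => J ⊆ F ∧ vs F = vs J) := by
      ext F
      simp only [mem_filter, mem_univ, true_and]
      constructor
      · rintro ⟨⟨_, h2⟩, h3⟩
        exact ⟨h3, by rw [h2, hJ.2.2]⟩
      · rintro ⟨h1, h2⟩
        exact ⟨⟨hJ.2.1.trans h1, by rw [h2, hJ.2.2]⟩, h1⟩
    rw [hset]
    unfold cf
    split_ifs with hg
    · rfl
    · symm
      apply sum_eq_zero
      intro F hF
      rw [mem_filter] at hF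
      have hFn : ¬ Good F := by
        intro hFg
        apply hg
        refine ⟨hH.1.mono hJ.2.1 hJ.2.2.symm, ?_, ?_⟩
        · intro e he
          exact hFg.2.1 e (hF.2.1 he)
        · rw [hJ.2.2]; exact hH.2.2
      rw [hgood F hFn, zero_div]
  calc (∑ J ∈ univ.filter (fun J => H ⊆ J ∧ vs J = vs H), cf η J * (-1) ^ (J \ H).card)
      = ∑ J ∈ univ.filter (fun J => H ⊆ J ∧ vs J = vs H),
          ∑ F ∈ univ.filter (fun F => H ⊆ F ∧ vs F = vs H),
            (if J ⊆ F then η F / 2 ^ F.card else 0) * (-1) ^ (J \ H).card := by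
        apply sum_congr rfl
        intro J hJ
        rw [key J hJ, sum_mul]
    _ = ∑ F ∈ univ.filter (fun F => H ⊆ F ∧ vs F = vs H),
          ∑ J ∈ univ.filter (fun J => H ⊆ J ∧ vs J = vs H),
            (if J ⊆ F then η F / 2 ^ F.card else 0) * (-1) ^ (J \ H).card := sum_comm
    _ = ∑ F ∈ univ.filter (fun F => H ⊆ F ∧ vs F = vs H),
          (η F / 2 ^ F.card) * (if F = H then 1 else 0) := by
        apply sum_congr rfl
        intro F hF
        rw [mem_filter] at hF
        rw [← sum_Icc_neg_one H F hF.2.1, mul_sum]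
        have : (∑ J ∈ univ.filter (fun J : Finset (Sym2 V) => H ⊆ J ∧ vs J = vs H),
            (if J ⊆ F then η F / 2 ^ F.card else 0) * (-1) ^ (J \ H).card) =
            ∑ J ∈ univ.filter (fun J : Finset (Sym2 V) => H ⊆ J ∧ vs J = vs H),
              if J ⊆ F then (η F / 2 ^ F.card) * (-1) ^ (J \ H).card else 0 := by
          apply sum_congr rfl
          intro J _
          split_ifs <;> simp
        rw [this, ← sum_filter, filter_filter]
        apply sum_congr _ (fun _ _ => rfl)
        ext J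
        simp only [mem_filter, mem_univ, true_and, mem_powerset]
        constructor
        · rintro ⟨⟨h1, _⟩, h3⟩
          exact ⟨h3, h1⟩
        · rintro ⟨h1, h2⟩
          refine ⟨⟨h2, ?_⟩, h1⟩
          apply Subset.antisymm
          · rw [← hF.2.2]; exact vs_mono h1
          · exact vs_mono h2
    _ = η H / 2 ^ H.card := by
        simp only [mul_ite, mul_one, mul_zero]
        rw [sum_ite_eq' (univ.filter (fun F : Finset (Sym2 V) => H ⊆ F ∧ vs F = vs H)) H]
        rw [if_pos]
        rw [mem_filter]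
        exact ⟨mem_univ _, Subset.refl _, rfl⟩

/-- labelled version of the Moebius inversion -/
lemma mobius_lab (η : Finset (Sym2 V) → ℝ) (hgood : ∀ F, ¬ Good F → η F = 0) {k : ℕ}
    (f : Fin k → V) (hf : Function.Injective f) (H : Finset (Sym2 (Fin k)))
    (hspan : ∀ i : Fin k, ∃ e ∈ H, i ∈ e) (hH : Good H) :
    (∑ J ∈ univ.filter (fun J => H ⊆ J), cf η (mapE f J) * (-1) ^ (J \ H).card) =
      η (mapE f H) / 2 ^ H.card := by
  have h1 := mobius η hgood (mapE f H) ((good_mapE hf).2 hH)
  rw [card_mapE hf] at h1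
  rw [← h1]
  have hvH : vs H = univ := by
    ext i
    simp only [mem_vs, mem_univ, iff_true]
    exact hspan i
  apply sum_bij (fun J _ => mapE f J)
  · intro J hJ
    rw [mem_filter] at hJ ⊢
    refine ⟨mem_univ _, mapE_mono hJ.2, ?_⟩
    rw [vs_mapE, vs_mapE]
    congr 1
    rw [hvH]
    apply Subset.antisymm (subset_univ _)
    rw [← hvH]
    exact vs_mono hJ.2
  · intro J _ J' _ h
    exact mapE_inj hf h
  · intro J' hJ'
    rw [mem_filter] at hJ'
    obtain ⟨J0, hJ0⟩ := exists_preE f J' (by
      intro x hx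
      rw [hJ'.2.2, vs_mapE, mem_image] at hx
      obtain ⟨y, _, hy⟩ := hx
      exact ⟨y, hy⟩)
    refine ⟨J0, ?_, hJ0⟩
    rw [mem_filter]
    refine ⟨mem_univ _, ?_⟩
    intro e he
    have : Sym2.map f e ∈ J' := hJ'.2.1 (mem_mapE.2 ⟨e, he, rfl⟩)
    rw [← hJ0, mem_mapE_iff hf] at this
    exact this
  · intro J hJ
    congr 2
    have : mapE f J \ mapE f H = mapE f (J \ H) := by
      unfold mapE
      rw [image_sdiff _ _ (Sym2.map.injective hf)]
    rw [this, card_mapE hf]

end

end Pool.Agent.JX
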