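import Mathlib
import Pool.Agent.JX.Defs
import Pool.Agent.JX.Basic
import Pool.Agent.JX.M1
import Pool.Agent.JX.StmtsM3
import Pool.Agent.JX.StmtsM3b
import Pool.Agent.JX.MinCoef

/-!
# Geometry of the blocks and the decomposition of the differenced polynomial
-/

set_option autoImplicit false
set_option linter.unusedSectionVars false

namespace Pool.Agent.JX

open Finset BigOperators Classical

noncomputable section

section geom

variable {n I k m : ℕ} (v : Fin I × Fin k × Fin m → Fin n)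

/-- transversal in group `l` -/
def ph (l : Fin I) (α : Fin k → Fin m) : Fin k → Fin n := fun i => v (l, i, α i)

/-- the vertices of group `l` -/
def vl (l : Fin I) : Fin k × Fin m → Fin n := fun p => v (l, p.1, p.2)

lemma ph_inj (hv : Function.Injective v) (l : Fin I) (α : Fin k → Fin m) :
    Function.Injective (ph v l α) := by
  intro i j h
  have := hv h
  simp only [Prod.mk.injEq, true_and] at this
  exact this.1

lemma vl_inj (hv : Function.Injective v) (l : Fin I) : Function.Injective (vl v l) := by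
  rintro ⟨i, a⟩ ⟨j, b⟩ h
  have := hv h
  simp only [Prod.mk.injEq, true_and] at this
  rw [this.1, this.2]

lemma map_vl_tr (l : Fin I) (α : Fin k → Fin m) (e : Sym2 (Fin k)) :
    Sym2.map (vl v l) (tr α e) = Sym2.map (ph v l α) e := by
  unfold tr
  rw [Sym2.map_map]
  rfl

lemma mem_blk {t : Sym2 (Fin k)} {e : Sym2 (Fin n)} :
    e ∈ blk v t ↔ ∃ x y : Fin I × Fin k × Fin m,
      x.1 = y.1 ∧ s(x.2.1, y.2.1) = t ∧ e = s(v x, v y) := by
  simp [blk]

lemma map_mem_blk (hv : Function.Injective v) (l : Fin I) (α : Fin k → Fin m)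
    (e t : Sym2 (Fin k)) : Sym2.map (ph v l α) e ∈ blk v t ↔ e = t := by
  rw [mem_blk]
  induction e using Sym2.ind with
  | _ i j =>
    rw [Sym2.map_mk]
    constructor
    · rintro ⟨x, y, _, rfl, h⟩
      rw [Sym2.eq_iff] at h
      rcases h with ⟨h1, h2⟩ | ⟨h1, h2⟩
      · have e1 := hv h1
        have e2 := hv h2
        rw [← e1, ← e2]
      · have e1 := hv h1
        have e2 := hv h2
        rw [← e1, ← e2]
        exact Sym2.eq_swap
    · intro h
      exact ⟨(l, i, α i), (l, j, α j), rfl, h, rfl⟩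

lemma inter_blk (hv : Function.Injective v) (l : Fin I) (α : Fin k → Fin m)
    (J : Finset (Sym2 (Fin k))) (t : Sym2 (Fin k)) (ht : t ∈ J) :
    mapE (ph v l α) J ∩ blk v t = {Sym2.map (ph v l α) t} := by
  ext e
  rw [mem_inter, mem_singleton]
  constructor
  · rintro ⟨h1, h2⟩
    rw [mem_mapE] at h1
    obtain ⟨e', he', rfl⟩ := h1
    rw [map_mem_blk v hv] at h2
    rw [h2]
  · rintro rfl
    exact ⟨mem_mapE.2 ⟨t, ht, rfl⟩, (map_mem_blk v hv l α t t).2 rfl⟩

lemma meets_class {H : Finset (Sym2 (Fin k))} {J : Finset (Sym2 (Fin n))} (hM : Meets v H J)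
    (hspan : ∀ i : Fin k, ∃ e ∈ H, i ∈ e) (i : Fin k) :
    ∃ (l : Fin I) (a : Fin m), v (l, i, a) ∈ vs J := by
  obtain ⟨t, ht, hit⟩ := hspan i
  obtain ⟨e, he⟩ := hM t ht
  rw [mem_inter, mem_blk] at he
  obtain ⟨heJ, ⟨l, i1, a⟩, ⟨l', i2, b⟩, hl, h1, h2⟩ := he
  simp only at hl h1
  subst hl
  rw [← h1, Sym2.mem_iff] at hit
  rcases hit with rfl | rfl
  · exact ⟨l, a, mem_vs.2 ⟨e, heJ, by rw [h2]; simp⟩⟩
  · exact ⟨l, b, mem_vs.2 ⟨e, heJ, by rw [h2]; simp⟩⟩

lemma k_le_card {H : Finset (Sym2 (Fin k))} {J : Finset (Sym2 (Fin n))}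
    (hv : Function.Injective v) (hM : Meets v H J)
    (hspan : ∀ i : Fin k, ∃ e ∈ H, i ∈ e) : k ≤ (vs J).card := by
  choose L A hLA using meets_class v hM hspan
  have hinj : Function.Injective (fun i => v (L i, i, A i)) := by
    intro i j h
    have := hv h
    simp only [Prod.mk.injEq] at this
    exact this.2.1
  have h1 : univ.image (fun i => v (L i, i, A i)) ⊆ vs J := by
    intro x hx
    rw [mem_image] at hx
    obtain ⟨i, _, rfl⟩ := hx
    exact hLA i
  have h2 := card_le_card h1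
  rw [card_image_of_injective _ hinj, card_univ, Fintype.card_fin] at h2
  exact h2

lemma meets_struct {H : Finset (Sym2 (Fin k))} {J : Finset (Sym2 (Fin n))}
    (hv : Function.Injective v) (hM : Meets v H J) (hspan : ∀ i : Fin k, ∃ e ∈ H, i ∈ e)
    (hconn : Conn H) (hcard : (vs J).card ≤ k) :
    ∃ (l : Fin I) (α : Fin k → Fin m) (J0 : Finset (Sym2 (Fin k))),
      H ⊆ J0 ∧ mapE (ph v l α) J0 = J := by
  choose L A hLA using meets_class v hM hspan
  set x : Fin k → Fin n := fun i => v (L i, i, A i) with hx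
  have hinj : Function.Injective x := by
    intro i j h
    have := hv h
    simp only [Prod.mk.injEq] at this
    exact this.2.1
  have himg : univ.image x = vs J := by
    apply eq_of_subset_of_card_le
    · intro y hy
      rw [mem_image] at hy
      obtain ⟨i, _, rfl⟩ := hy
      exact hLA i
    · rw [card_image_of_injective _ hinj, card_univ, Fintype.card_fin]
      exact hcard
  have hpt : ∀ y ∈ vs J, ∃ i, x i = y := by
    intro y hy
    rw [← himg, mem_image] at hy
    obtain ⟨i, _, hi⟩ := hy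
    exact ⟨i, hi⟩
  have hpt2 : ∀ p : Fin I × Fin k × Fin m, v p ∈ vs J → p = (L p.2.1, p.2.1, A p.2.1) := by
    intro p hp
    obtain ⟨i, hi⟩ := hpt _ hp
    have := hv hi
    rw [← this]
  have hedge : ∀ t ∈ H, Sym2.map x t ∈ J ∧ ∀ i ∈ t, ∀ j ∈ t, L i = L j := by
    intro t ht
    obtain ⟨e, he⟩ := hM t ht
    rw [mem_inter, mem_blk] at he
    obtain ⟨heJ, p, q, hl, h1, h2⟩ := he
    have hp : v p ∈ vs J := mem_vs.2 ⟨e, heJ, by rw [h2]; simp⟩
    have hq : v q ∈ vs J := mem_vs.2 ⟨e, heJ, by rw [h2]; simp⟩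
    have hp2 := hpt2 p hp
    have hq2 := hpt2 q hq
    have hLL : L p.2.1 = L q.2.1 := by
      have e1 : p.1 = L p.2.1 := by rw [hp2]
      have e2 : q.1 = L q.2.1 := by rw [hq2]
      rw [← e1, ← e2, hl]
    constructor
    · rw [← h1, Sym2.map_mk]
      have e1 : x p.2.1 = v p := by
        rw [hx]; simp only; rw [← hp2]
      have e2 : x q.2.1 = v q := by
        rw [hx]; simp only; rw [← hq2]
      rw [e1, e2, ← h2]
      exact heJ
    · intro i hi j hj
      rw [← h1, Sym2.mem_iff] at hi hj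
      rcases hi with rfl | rfl <;> rcases hj with rfl | rfl
      · rfl
      · exact hLL
      · exact hLL.symm
      · rfl
  obtain ⟨e0, he0⟩ := hconn.1
  obtain ⟨i0, hi0⟩ : ∃ i, i ∈ e0 := by
    induction e0 using Sym2.ind with
    | _ a b => exact ⟨a, by simp⟩
  have hall : (univ.filter (fun i => L i = L i0)) = vs H := by
    apply hconn.2
    · intro i _
      rw [mem_vs]
      exact hspan i
    · exact ⟨i0, by simp⟩
    · intro e he i hi hiA j hj
      rw [mem_filter] at hiA ⊢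
      exact ⟨mem_univ _, by rw [← hiA.2]; exact (hedge e he).2 j hj i hi⟩
  have hL : ∀ i, L i = L i0 := by
    intro i
    have : i ∈ vs H := by rw [mem_vs]; exact hspan i
    rw [← hall, mem_filter] at this
    exact this.2
  have hxph : x = ph v (L i0) A := by
    funext i
    rw [hx]
    simp only [ph]
    rw [hL i]
  obtain ⟨J0, hJ0⟩ := exists_preE x J hpt
  refine ⟨L i0, A, J0, ?_, by rw [← hxph]; exact hJ0⟩
  intro t ht
  have := (hedge t ht).1
  rw [← hJ0, mem_mapE_iff hinj] at this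
  exact this

lemma meets_mapE {H J0 : Finset (Sym2 (Fin k))} (hv : Function.Injective v) (hHJ : H ⊆ J0)
    (l : Fin I) (α : Fin k → Fin m) : Meets v H (mapE (ph v l α) J0) := by
  intro t ht
  rw [inter_blk v hv l α J0 t (hHJ ht)]
  exact singleton_nonempty _

lemma card_vs_ph (l : Fin I) (α : Fin k → Fin m) (J0 : Finset (Sym2 (Fin k))) :
    (vs (mapE (ph v l α) J0)).card ≤ k := by
  rw [vs_mapE]
  refine card_image_le.trans ?_
  refine (card_le_univ _).trans ?_
  rw [Fintype.card_fin]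

lemma ph_unique {H J0 J1 : Finset (Sym2 (Fin k))} (hv : Function.Injective v)
    (hspan : ∀ i : Fin k, ∃ e ∈ H, i ∈ e) (hne : H.Nonempty)
    (h0 : H ⊆ J0) (h1 : H ⊆ J1)
    (l l' : Fin I) (α α' : Fin k → Fin m)
    (h : mapE (ph v l α) J0 = mapE (ph v l' α') J1) : l = l' ∧ α = α' ∧ J0 = J1 := by
  have hvs0 : vs J0 = univ := by
    ext i
    simp only [mem_vs, mem_univ, iff_true]
    obtain ⟨e, he, hi⟩ := hspan i
    exact ⟨e, h0 he, hi⟩
  have hvs1 : vs J1 = univ := by
    ext i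
    simp only [mem_vs, mem_univ, iff_true]
    obtain ⟨e, he, hi⟩ := hspan i
    exact ⟨e, h1 he, hi⟩
  have hv2 : univ.image (ph v l α) = univ.image (ph v l' α') := by
    rw [← hvs0, ← vs_mapE, h, vs_mapE, hvs1]
    rw [hvs0]
  have key : ∀ i, l = l' ∧ α i = α' i := by
    intro i
    have : ph v l α i ∈ univ.image (ph v l' α') := by
      rw [← hv2]; exact mem_image_of_mem _ (mem_univ _)
    rw [mem_image] at this
    obtain ⟨j, _, hj⟩ := this
    have := hv hj
    simp only [Prod.mk.injEq] at this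
    obtain ⟨e1, e2, e3⟩ := this
    subst e2
    exact ⟨e1.symm, e3.symm⟩
  obtain ⟨e0, he0⟩ := hne
  obtain ⟨i0, hi0⟩ : ∃ i, i ∈ e0 := by
    induction e0 using Sym2.ind with
    | _ a b => exact ⟨a, by simp⟩
  have hl : l = l' := (key i0).1
  have hα : α = α' := funext fun i => (key i).2
  refine ⟨hl, hα, ?_⟩
  subst hl
  subst hα
  exact mapE_inj (ph_inj v hv l α) h

/-- the edges of block `s(i0,j0)` -/
def edge0 (i0 j0 : Fin k) (p : Fin I × Fin m × Fin m) : Sym2 (Fin n) :=
  s(v (p.1, i0, p.2.1), v (p.1, j0, p.2.2))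

lemma edge0_inj (hv : Function.Injective v) {i0 j0 : Fin k} (hij : i0 ≠ j0) :
    Function.Injective (edge0 v i0 j0) := by
  rintro ⟨l, a, b⟩ ⟨l', a', b'⟩ h
  unfold edge0 at h
  rw [Sym2.eq_iff] at h
  rcases h with ⟨h1, h2⟩ | ⟨h1, h2⟩
  · have e1 := hv h1
    have e2 := hv h2
    simp only [Prod.mk.injEq, true_and] at e1 e2
    rw [e1.1, e1.2, e2.2]
  · have e1 := hv h1
    simp only [Prod.mk.injEq] at e1
    exact absurd e1.2.1 hij

lemma blk_eq_image (i0 j0 : Fin k) : blk v s(i0, j0) = univ.image (edge0 v i0 j0) := by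
  ext e
  rw [mem_blk, mem_image]
  constructor
  · rintro ⟨⟨l, i, a⟩, ⟨l', j, b⟩, hl, h1, h2⟩
    simp only at hl h1
    subst hl
    rw [Sym2.eq_iff] at h1
    rcases h1 with ⟨rfl, rfl⟩ | ⟨rfl, rfl⟩
    · exact ⟨(l, a, b), mem_univ _, h2.symm⟩
    · refine ⟨(l, b, a), mem_univ _, ?_⟩
      rw [h2]
      unfold edge0
      exact Sym2.eq_swap
  · rintro ⟨⟨l, a, b⟩, _, rfl⟩
    exact ⟨(l, i0, a), (l, j0, b), rfl, rfl, rfl⟩

/-- restriction of a pattern to the group `l` -/
def zl (z : Sym2 (Fin n) → Bool) (l : Fin I) : Sym2 (Fin k × Fin m) → Bool :=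
  fun f => z (Sym2.map (vl v l) f)

/-- restriction of the difference patterns to the group `l` -/
def hl (h : Sym2 (Fin k) → Sym2 (Fin n) → Bool) (l : Fin I) :
    Sym2 (Fin k) → Sym2 (Fin k × Fin m) → Bool :=
  fun t f => h t (Sym2.map (vl v l) f)

/-- the differenced coefficients -/
def cd (H : Finset (Sym2 (Fin k))) (t0 : Sym2 (Fin k)) (η : Finset (Sym2 (Fin n)) → ℝ)
    (h : Sym2 (Fin k) → Sym2 (Fin n) → Bool) (J : Finset (Sym2 (Fin n))) : ℝ :=
  cf η J * ∏ t ∈ H.erase t0, (1 - chi (J ∩ blk v t) (h t))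

/-- the coefficients of higher order -/
def qd (H : Finset (Sym2 (Fin k))) (t0 : Sym2 (Fin k)) (η : Finset (Sym2 (Fin n)) → ℝ)
    (h : Sym2 (Fin k) → Sym2 (Fin n) → Bool) (J : Finset (Sym2 (Fin n))) : ℝ :=
  if Meets v H J ∧ k < (vs J).card then cd v H t0 η h J else 0

/-- the part which does not meet the block `t0` -/
def g0 (H : Finset (Sym2 (Fin k))) (t0 : Sym2 (Fin k)) (η : Finset (Sym2 (Fin n)) → ℝ)
    (h : Sym2 (Fin k) → Sym2 (Fin n) → Bool) (z : Sym2 (Fin n) → Bool) : ℝ :=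
  ∑ J ∈ univ.filter (fun J => J ∩ blk v t0 = ∅), cd v H t0 η h J * chi J z

lemma chi_mapE {V W : Type} [Fintype V] [DecidableEq V] [Fintype W] [DecidableEq W] {f : V → W}
    (hf : Function.Injective f) (J : Finset (Sym2 V)) (z : Sym2 W → Bool) :
    chi (mapE f J) z = ∏ e ∈ J, sg (z (Sym2.map f e)) := by
  unfold chi mapE
  rw [prod_image]
  intro a _ b _ h
  exact Sym2.map.injective hf h

/-- the terms of order `k` -/
lemma linear_part (hv : Function.Injective v) {H : Finset (Sym2 (Fin k))} {i0 j0 : Fin k}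
    (ht0 : s(i0, j0) ∈ H) (hspan : ∀ i : Fin k, ∃ e ∈ H, i ∈ e) (hconn : Conn H)
    (η : Finset (Sym2 (Fin n)) → ℝ) (c : Finset (Sym2 (Fin k)) → ℝ)
    (hc : ∀ l α J, H ⊆ J → cf η (mapE (ph v l α) J) = c J)
    (h : Sym2 (Fin k) → Sym2 (Fin n) → Bool) (z : Sym2 (Fin n) → Bool) :
    (∑ J ∈ univ.filter (fun J => Meets v H J ∧ ¬ k < (vs J).card),
      cd v H s(i0, j0) η h J * chi J z) =
    ∑ p : Fin I × Fin m × Fin m,
      SG H i0 j0 c p.2.1 p.2.2 (zl v z p.1) (hl v h p.1) * sg (z (edge0 v i0 j0 p)) := by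
  have step1 : (∑ J ∈ univ.filter (fun J => Meets v H J ∧ ¬ k < (vs J).card),
      cd v H s(i0, j0) η h J * chi J z) =
      ∑ p ∈ (univ : Finset (Fin I)) ×ˢ ((univ : Finset (Fin k → Fin m)) ×ˢ
        univ.filter (fun J : Finset (Sym2 (Fin k)) => H ⊆ J)),
        cd v H s(i0, j0) η h (mapE (ph v p.1 p.2.1) p.2.2) *
          chi (mapE (ph v p.1 p.2.1) p.2.2) z := by
    symm
    apply sum_bij (fun p _ => mapE (ph v p.1 p.2.1) p.2.2)
    · rintro ⟨l, α, J0⟩ hp
      simp only [mem_product, mem_univ, true_and, mem_filter] at hp ⊢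
      exact ⟨meets_mapE v hv hp l α, not_lt.2 (card_vs_ph v l α J0)⟩
    · rintro ⟨l, α, J0⟩ hp ⟨l', α', J1⟩ hp' he
      simp only [mem_product, mem_univ, true_and, mem_filter] at hp hp'
      obtain ⟨e1, e2, e3⟩ := ph_unique v hv hspan ⟨_, ht0⟩ hp hp' l l' α α' he
      rw [e1, e2, e3]
    · intro J hJ
      rw [mem_filter] at hJ
      obtain ⟨l, α, J0, hJ0, he⟩ := meets_struct v hv hJ.2.1 hspan hconn (not_lt.1 hJ.2.2)
      exact ⟨(l, α, J0), by simp [hJ0], he⟩
    · intro p _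
      rfl
  rw [step1, sum_product]
  have step2 : ∀ l : Fin I, ∀ α : Fin k → Fin m, ∀ J ∈ univ.filter (fun J : Finset (Sym2 (Fin k)) => H ⊆ J),
      cd v H s(i0, j0) η h (mapE (ph v l α) J) * chi (mapE (ph v l α) J) z =
      (c J * (∏ e ∈ J.erase s(i0, j0), sg (zl v z l (tr α e))) *
        ∏ t ∈ H.erase s(i0, j0), (1 - sg (hl v h l t (tr α t)))) *
        sg (z (edge0 v i0 j0 (l, α i0, α j0))) := by
    intro l α J hJ
    rw [mem_filter] at hJ
    unfold cd
    rw [hc l α J hJ.2, chi_mapE (ph_inj v hv l α), ← mul_prod_erase J _ (hJ.2 ht0)]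
    have e1 : ∏ t ∈ H.erase s(i0, j0), (1 - chi (mapE (ph v l α) J ∩ blk v t) (h t)) =
        ∏ t ∈ H.erase s(i0, j0), (1 - sg (hl v h l t (tr α t))) := by
      apply prod_congr rfl
      intro t ht
      rw [inter_blk v hv l α J t (hJ.2 (mem_of_mem_erase ht)), chi_singleton]
      unfold hl
      rw [map_vl_tr]
    have e2 : ∏ e ∈ J.erase s(i0, j0), sg (z (Sym2.map (ph v l α) e)) =
        ∏ e ∈ J.erase s(i0, j0), sg (zl v z l (tr α e)) := by
      apply prod_congr rfl
      intro e _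
      unfold zl
      rw [map_vl_tr]
    rw [e1, e2]
    have e3 : Sym2.map (ph v l α) s(i0, j0) = edge0 v i0 j0 (l, α i0, α j0) := rfl
    rw [e3]
    ring
  rw [← univ_product_univ, sum_product]
  apply sum_congr rfl
  intro l _
  rw [sum_product]
  have step3 : ∀ α : Fin k → Fin m,
      (∑ J ∈ univ.filter (fun J : Finset (Sym2 (Fin k)) => H ⊆ J),
        cd v H s(i0, j0) η h (mapE (ph v l α) J) * chi (mapE (ph v l α) J) z) =
      (∑ J ∈ univ.filter (fun J : Finset (Sym2 (Fin k)) => H ⊆ J),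
        (c J * (∏ e ∈ J.erase s(i0, j0), sg (zl v z l (tr α e))) *
        ∏ t ∈ H.erase s(i0, j0), (1 - sg (hl v h l t (tr α t))))) *
        sg (z (edge0 v i0 j0 (l, α i0, α j0))) := by
    intro α
    rw [sum_mul]
    exact sum_congr rfl (step2 l α)
  simp only [step3]
  rw [← sum_fiberwise (univ : Finset (Fin k → Fin m)) (fun α => (α i0, α j0))]
  apply sum_congr rfl
  rintro ⟨a, b⟩ _
  unfold SG
  rw [sum_mul]
  have hset : (univ.filter (fun α : Fin k → Fin m => (α i0, α j0) = (a, b))) =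
      univ.filter (fun α : Fin k → Fin m => α i0 = a ∧ α j0 = b) := by
    ext α
    simp
  rw [hset]
  apply sum_congr rfl
  intro α hα
  rw [mem_filter] at hα
  rw [hα.2.1, hα.2.2]

/-- the decomposition of the differenced polynomial -/
lemma decomposition (hv : Function.Injective v) {H : Finset (Sym2 (Fin k))} {i0 j0 : Fin k}
    (ht0 : s(i0, j0) ∈ H) (hspan : ∀ i : Fin k, ∃ e ∈ H, i ∈ e) (hconn : Conn H)
    (η : Finset (Sym2 (Fin n)) → ℝ) (c : Finset (Sym2 (Fin k)) → ℝ)
    (hc : ∀ l α J, H ⊆ J → cf η (mapE (ph v l α) J) = c J)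
    (h : Sym2 (Fin k) → Sym2 (Fin n) → Bool) (z : Sym2 (Fin n) → Bool) :
    pol (cd v H s(i0, j0) η h) z = g0 v H s(i0, j0) η h z +
      (∑ p : Fin I × Fin m × Fin m,
        SG H i0 j0 c p.2.1 p.2.2 (zl v z p.1) (hl v h p.1) * sg (z (edge0 v i0 j0 p))) +
      pol (qd v H s(i0, j0) η h) z := by
  have hA : pol (cd v H s(i0, j0) η h) z =
      g0 v H s(i0, j0) η h z +
      ∑ J ∈ univ.filter (fun J => ¬ (J ∩ blk v s(i0, j0) = ∅)),
        cd v H s(i0, j0) η h J * chi J z := by
    unfold pol g0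
    rw [← sum_filter_add_sum_filter_not univ (fun J => J ∩ blk v s(i0, j0) = ∅)]
  have hB : (∑ J ∈ univ.filter (fun J => ¬ (J ∩ blk v s(i0, j0) = ∅)),
        cd v H s(i0, j0) η h J * chi J z) =
      ∑ J ∈ univ.filter (fun J => Meets v H J), cd v H s(i0, j0) η h J * chi J z := by
    symm
    apply sum_subset
    · intro J hJ
      rw [mem_filter] at hJ ⊢
      refine ⟨hJ.1, ?_⟩
      have := hJ.2 _ ht0
      exact this.ne_empty
    · intro J hJ hJ'
      rw [mem_filter] at hJ hJ'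
      have h1 : ¬ Meets v H J := fun hh => hJ' ⟨mem_univ _, hh⟩
      unfold Meets at h1
      push Not at h1
      obtain ⟨t, ht, hte⟩ := h1
      have hne : t ≠ s(i0, j0) := by
        rintro rfl
        exact hJ.2 hte
      have : ∏ t ∈ H.erase s(i0, j0), (1 - chi (J ∩ blk v t) (h t)) = 0 := by
        apply prod_eq_zero (mem_erase.2 ⟨hne, ht⟩)
        rw [hte, chi_empty, sub_self]
      unfold cd
      rw [this]
      ring
  have hC : (∑ J ∈ univ.filter (fun J => Meets v H J), cd v H s(i0, j0) η h J * chi J z) =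
      (∑ J ∈ univ.filter (fun J => Meets v H J ∧ ¬ k < (vs J).card),
        cd v H s(i0, j0) η h J * chi J z) + pol (qd v H s(i0, j0) η h) z := by
    rw [← sum_filter_add_sum_filter_not (univ.filter (fun J => Meets v H J))
      (fun J => ¬ k < (vs J).card)]
    congr 1
    · rw [filter_filter]
    · unfold pol qd
      rw [filter_filter]
      simp only [ite_mul, zero_mul]
      rw [← sum_filter]
      apply sum_congr _ (fun _ _ => rfl)
      ext J
      simp
  rw [hA, hB, hC, linear_part v hv ht0 hspan hconn η c hc h z]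
  ring

/-- `g0` does not depend on the coordinates in the block -/
lemma g0_congr (H : Finset (Sym2 (Fin k))) (t0 : Sym2 (Fin k)) (η : Finset (Sym2 (Fin n)) → ℝ)
    (h : Sym2 (Fin k) → Sym2 (Fin n) → Bool) (z z' : Sym2 (Fin n) → Bool)
    (hz : ∀ e, e ∉ blk v t0 → z e = z' e) : g0 v H t0 η h z = g0 v H t0 η h z' := by
  unfold g0
  apply sum_congr rfl
  intro J hJ
  rw [mem_filter] at hJ
  rw [chi_congr]
  intro e he
  apply hz
  intro hb
  have : e ∈ J ∩ blk v t0 := mem_inter.2 ⟨he, hb⟩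
  rw [hJ.2] at this
  exact absurd this (notMem_empty _)

/-- `SG` does not depend on the coordinates in the block -/
lemma SG_congr (hv : Function.Injective v) (H : Finset (Sym2 (Fin k))) (i0 j0 : Fin k)
    (c : Finset (Sym2 (Fin k)) → ℝ) (l : Fin I) (a b : Fin m)
    (h : Sym2 (Fin k) → Sym2 (Fin k × Fin m) → Bool) (z z' : Sym2 (Fin n) → Bool)
    (hz : ∀ e, e ∉ blk v s(i0, j0) → z e = z' e) :
    SG H i0 j0 c a b (zl v z l) h = SG H i0 j0 c a b (zl v z' l) h := by
  unfold SG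
  apply sum_congr rfl
  intro α _
  apply sum_congr rfl
  intro J _
  congr 2
  apply prod_congr rfl
  intro e he
  unfold zl
  rw [map_vl_tr, hz]
  rw [map_mem_blk v hv]
  exact ne_of_mem_erase he

end geom

end

end Pool.Agent.JX
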