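import Mathlib
import Pool.Agent.JX.Defs
import Pool.Agent.JX.Basic
import Pool.Agent.JX.StmtsM3
import Pool.Agent.JX.StmtsM3b
import Pool.Agent.JX.MinGeom

/-!
# Averaging over the independent groups; counting small subsets
-/

set_option autoImplicit false
set_option linter.unusedSectionVars false

namespace Pool.Agent.JX

open Finset BigOperators Classical

noncomputable section

/-- regrouping of patterns -/
def pairEquiv (E T : Type) : (E → Bool × (T → Bool)) ≃ (E → Bool) × (T → E → Bool) where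
  toFun ζ := (fun e => (ζ e).1, fun t e => (ζ e).2 t)
  invFun p := fun e => (p.1 e, fun t => p.2 t e)
  left_inv _ := rfl
  right_inv _ := rfl

lemma expect_pair (E T : Type) [Fintype E] [DecidableEq E] [Fintype T] [DecidableEq T]
    (g : (E → Bool) → (T → E → Bool) → ℝ) :
    (𝔼 h : T → E → Bool, 𝔼 z : E → Bool, g z h) =
      𝔼 ζ : E → Bool × (T → Bool), g (fun e => (ζ e).1) (fun t e => (ζ e).2 t) := by
  have h1 : (𝔼 ζ : E → Bool × (T → Bool), g (fun e => (ζ e).1) (fun t e => (ζ e).2 t)) =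
      𝔼 w : (E → Bool) × (T → E → Bool), g w.1 w.2 := by
    apply Fintype.expect_equiv (pairEquiv E T)
    intro ζ
    rfl
  rw [h1, ← univ_product_univ, expect_product, expect_comm]

section avg

variable {n I k m : ℕ} (v : Fin I × Fin k × Fin m → Fin n)

lemma map_vl_inj (hv : Function.Injective v) :
    Function.Injective (fun p : Fin I × Sym2 (Fin k × Fin m) => Sym2.map (vl v p.1) p.2) := by
  rintro ⟨l, f⟩ ⟨l', f'⟩ h
  simp only at h
  induction f using Sym2.ind with
  | _ a b =>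
    induction f' using Sym2.ind with
    | _ a' b' =>
      rw [Sym2.map_mk, Sym2.map_mk, Sym2.eq_iff] at h
      rcases h with ⟨h1, h2⟩ | ⟨h1, h2⟩
      · have e1 := hv h1
        have e2 := hv h2
        simp only [Prod.mk.injEq] at e1 e2
        obtain ⟨e1a, e1b, e1c⟩ := e1
        obtain ⟨_, e2b, e2c⟩ := e2
        have ha : a = a' := Prod.ext e1b e1c
        have hb : b = b' := Prod.ext e2b e2c
        rw [e1a, ha, hb]
      · have e1 := hv h1
        have e2 := hv h2
        simp only [Prod.mk.injEq] at e1 e2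
        obtain ⟨e1a, e1b, e1c⟩ := e1
        obtain ⟨_, e2b, e2c⟩ := e2
        have ha : a = b' := Prod.ext e1b e1c
        have hb : b = a' := Prod.ext e2b e2c
        rw [e1a, ha, hb]
        rw [Sym2.eq_swap]

/-- the product over the untouched edges of one group -/
def Phi (H : Finset (Sym2 (Fin k))) (i0 j0 : Fin k) (c : Finset (Sym2 (Fin k)) → ℝ)
    (M : Finset (Sym2 (Fin n))) (l : Fin I)
    (w : Sym2 (Fin k × Fin m) → Bool × (Sym2 (Fin k) → Bool)) : ℝ :=
  ∏ ab ∈ univ.filter (fun ab : Fin m × Fin m => edge0 v i0 j0 (l, ab) ∉ M),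
    |Real.cos (2 * Real.pi * SG H i0 j0 c ab.1 ab.2 (fun f => (w f).1) (fun t f => (w f).2 t))|

lemma Phi_nonneg (H : Finset (Sym2 (Fin k))) (i0 j0 : Fin k) (c : Finset (Sym2 (Fin k)) → ℝ)
    (M : Finset (Sym2 (Fin n))) (l : Fin I)
    (w : Sym2 (Fin k × Fin m) → Bool × (Sym2 (Fin k) → Bool)) : 0 ≤ Phi v H i0 j0 c M l w :=
  prod_nonneg (fun _ _ => abs_nonneg _)

lemma Phi_le_one (H : Finset (Sym2 (Fin k))) (i0 j0 : Fin k) (c : Finset (Sym2 (Fin k)) → ℝ)
    (M : Finset (Sym2 (Fin n))) (l : Fin I)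
    (w : Sym2 (Fin k × Fin m) → Bool × (Sym2 (Fin k) → Bool)) : Phi v H i0 j0 c M l w ≤ 1 :=
  prod_le_one (fun _ _ => abs_nonneg _) (fun _ _ => Real.abs_cos_le_one _)

lemma avg_groups (hInd : StmtInd) (hv : Function.Injective v) (H : Finset (Sym2 (Fin k)))
    (i0 j0 : Fin k) (hij : i0 ≠ j0) (c : Finset (Sym2 (Fin k)) → ℝ) (δ : ℝ) (hδ0 : 0 < δ)
    (hδ1 : δ < 1)
    (hPG : (𝔼 w : (Sym2 (Fin k × Fin m) → Bool) × (Sym2 (Fin k) → Sym2 (Fin k × Fin m) → Bool),
      ∏ ab : Fin m × Fin m,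
        |Real.cos (2 * Real.pi * SG H i0 j0 c ab.1 ab.2 w.1 w.2)|) ≤ 1 - δ)
    (M : Finset (Sym2 (Fin n))) :
    (𝔼 h : Sym2 (Fin k) → (Sym2 (Fin n) → Bool), 𝔼 z : Sym2 (Fin n) → Bool,
      ∏ p ∈ univ.filter (fun p : Fin I × Fin m × Fin m => edge0 v i0 j0 p ∉ M),
        |Real.cos (2 * Real.pi * SG H i0 j0 c p.2.1 p.2.2 (zl v z p.1) (hl v h p.1))|) ≤
      (1 - δ) ^ (I - M.card) := by
  rw [expect_pair (Sym2 (Fin n)) (Sym2 (Fin k)) (fun z h =>
      ∏ p ∈ univ.filter (fun p : Fin I × Fin m × Fin m => edge0 v i0 j0 p ∉ M),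
        |Real.cos (2 * Real.pi * SG H i0 j0 c p.2.1 p.2.2 (zl v z p.1) (hl v h p.1))|)]
  have h1 : ∀ ζ : Sym2 (Fin n) → Bool × (Sym2 (Fin k) → Bool),
      (∏ p ∈ univ.filter (fun p : Fin I × Fin m × Fin m => edge0 v i0 j0 p ∉ M),
        |Real.cos (2 * Real.pi * SG H i0 j0 c p.2.1 p.2.2 (zl v (fun e => (ζ e).1) p.1)
          (hl v (fun t e => (ζ e).2 t) p.1))|) =
      ∏ l, Phi v H i0 j0 c M l (fun f => ζ (Sym2.map (vl v l) f)) := by
    intro ζ
    unfold Phi
    rw [prod_filter, ← univ_product_univ, prod_product]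
    apply prod_congr rfl
    intro l _
    rw [prod_filter]
    rfl
  simp only [h1]
  rw [hInd (Sym2 (Fin n)) (Fin I) (Sym2 (Fin k × Fin m)) (Bool × (Sym2 (Fin k) → Bool))
    (fun p => Sym2.map (vl v p.1) p.2) (map_vl_inj v hv) (fun l => Phi v H i0 j0 c M l)]
  set Tm : Finset (Fin I) := univ.filter (fun l => ∃ ab : Fin m × Fin m, edge0 v i0 j0 (l, ab) ∈ M)
    with hTm
  have hcard : Tm.card ≤ M.card := by
    let f : Sym2 (Fin n) → Option (Fin I) := fun e =>
      if h : ∃ p : Fin I × Fin m × Fin m, edge0 v i0 j0 p = e then some h.choose.1 else none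
    have h2 : Tm.image some ⊆ M.image f := by
      intro o ho
      rw [mem_image] at ho
      obtain ⟨l, hl, rfl⟩ := ho
      rw [hTm, mem_filter] at hl
      obtain ⟨_, ab, hab⟩ := hl
      rw [mem_image]
      refine ⟨_, hab, ?_⟩
      have hex : ∃ p : Fin I × Fin m × Fin m, edge0 v i0 j0 p = edge0 v i0 j0 (l, ab) := ⟨_, rfl⟩
      simp only [f]
      rw [dif_pos hex]
      have := edge0_inj v hv hij hex.choose_spec
      rw [this]
    have h3 := card_le_card h2
    rw [card_image_of_injective _ (Option.some_injective _)] at h3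
    exact h3.trans card_image_le
  have hnn : ∀ l, 0 ≤ 𝔼 w, Phi v H i0 j0 c M l w := fun l =>
    expect_nonneg (fun w _ => Phi_nonneg v H i0 j0 c M l w)
  have hle1 : ∀ l, (𝔼 w, Phi v H i0 j0 c M l w) ≤ 1 := fun l =>
    expect_le univ_nonempty (fun w _ => Phi_le_one v H i0 j0 c M l w)
  have hun : ∀ l, l ∉ Tm → (𝔼 w, Phi v H i0 j0 c M l w) ≤ 1 - δ := by
    intro l hl
    rw [hTm, mem_filter] at hl
    push Not at hl
    have hl2 := hl (mem_univ _)
    have h2 : (𝔼 w, Phi v H i0 j0 c M l w) =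
        𝔼 w : (Sym2 (Fin k × Fin m) → Bool) × (Sym2 (Fin k) → Sym2 (Fin k × Fin m) → Bool),
          ∏ ab : Fin m × Fin m,
            |Real.cos (2 * Real.pi * SG H i0 j0 c ab.1 ab.2 w.1 w.2)| := by
      apply Fintype.expect_equiv (pairEquiv (Sym2 (Fin k × Fin m)) (Sym2 (Fin k)))
      intro w
      unfold Phi
      have : univ.filter (fun ab : Fin m × Fin m => edge0 v i0 j0 (l, ab) ∉ M) = univ := by
        rw [filter_eq_self]
        intro ab _
        exact hl2 ab
      rw [this]
      rfl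
    rw [h2]
    exact hPG
  calc ∏ l, 𝔼 w, Phi v H i0 j0 c M l w
      ≤ ∏ l : Fin I, (if l ∈ Tm then 1 else (1 - δ)) := by
        apply prod_le_prod (fun l _ => hnn l)
        intro l _
        split_ifs with h
        · exact hle1 l
        · exact hun l h
    _ = (1 - δ) ^ (I - Tm.card) := by
        rw [prod_ite, prod_const_one, one_mul, prod_const]
        congr 1
        have h3 : (univ.filter (fun l : Fin I => l ∉ Tm)) = Tmᶜ := by
          ext l; simp
        rw [h3, card_compl, Fintype.card_fin]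
    _ ≤ (1 - δ) ^ (I - M.card) := by
        apply pow_le_pow_of_le_one (by linarith) (by linarith)
        omega

end avg

/-- number of small subsets -/
lemma card_small (N r : ℕ) (ι : Type) [Fintype ι] [DecidableEq ι] (hN : Fintype.card ι ≤ N)
    (B : Finset ι) :
    (B.powerset.filter (fun M => M.card ≤ r)).card ≤ (N + 1) ^ r := by
  have h1 : (B.powerset.filter (fun M => M.card ≤ r)) ⊆
      (univ : Finset (Fin r → Option ι)).image
        (fun f => univ.filter (fun i => ∃ a, f a = some i)) := by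
    intro M hM
    rw [mem_filter] at hM
    rw [mem_image]
    by_cases hr : M.card = 0
    · refine ⟨fun _ => none, mem_univ _, ?_⟩
      rw [card_eq_zero] at hr
      rw [hr]
      ext i
      simp
    · refine ⟨fun a => if h : a.1 < M.card then some (M.equivFin.symm ⟨a.1, h⟩).1 else none,
        mem_univ _, ?_⟩
      ext i
      simp only [mem_filter, mem_univ, true_and]
      constructor
      · rintro ⟨a, ha⟩
        split_ifs at ha with h
        rw [Option.some.injEq] at ha
        rw [← ha]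
        exact (M.equivFin.symm ⟨a.1, h⟩).2
      · intro hi
        have h2 : (M.equivFin ⟨i, hi⟩).1 < r :=
          lt_of_lt_of_le (M.equivFin ⟨i, hi⟩).2 hM.2
        refine ⟨⟨(M.equivFin ⟨i, hi⟩).1, h2⟩, ?_⟩
        rw [dif_pos (M.equivFin ⟨i, hi⟩).2]
        simp
  refine (card_le_card h1).trans (card_image_le.trans ?_)
  rw [card_univ, Fintype.card_fun, Fintype.card_option, Fintype.card_fin]
  exact Nat.pow_le_pow_left (by omega) r

lemma card_sym2_fin_le (n : ℕ) (hn : 1 ≤ n) : Fintype.card (Sym2 (Fin n)) ≤ n ^ 2 := by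
  rw [Sym2.card, Fintype.card_fin, Nat.choose_two_right]
  apply Nat.div_le_of_le_mul
  simp only [Nat.add_sub_cancel]
  nlinarith

end

end Pool.Agent.JX
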