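import Mathlib
import Pool.Agent.JX.Defs
import Pool.Agent.JX.Basic
import Pool.Agent.JX.Stmts
import Pool.Agent.JX.StmtsM3
import Pool.Agent.JX.StmtsM3b
import Pool.Agent.JX.MinGeom
import Pool.Agent.JX.MinAvg

/-!
# The minor arcs: assembly (StmtMinor)
-/

set_option autoImplicit false
set_option linter.unusedSectionVars false

namespace Pool.Agent.JX

open Finset BigOperators Classical

noncomputable section

lemma one_le_LL' {n : ℕ} (hn : 1 ≤ n) : 1 ≤ LL n := by
  unfold LL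
  apply Real.one_le_rpow
  · exact_mod_cast hn
  · positivity

section bounds

variable {n I k m : ℕ} (v : Fin I × Fin k × Fin m → Fin n)

lemma abs_prod_chi_le (H : Finset (Sym2 (Fin k))) (t0 : Sym2 (Fin k)) (hH : H.card ≤ 15)
    (h : Sym2 (Fin k) → Sym2 (Fin n) → Bool) (J : Finset (Sym2 (Fin n))) :
    |∏ t ∈ H.erase t0, (1 - chi (J ∩ blk v t) (h t))| ≤ 2 ^ 15 := by
  rw [abs_prod]
  calc ∏ t ∈ H.erase t0, |1 - chi (J ∩ blk v t) (h t)|
      ≤ ∏ t ∈ H.erase t0, (2 : ℝ) := by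
        apply prod_le_prod (fun _ _ => abs_nonneg _)
        intro t _
        have h1 := abs_chi (J ∩ blk v t) (h t)
        calc |1 - chi (J ∩ blk v t) (h t)| ≤ |(1:ℝ)| + |chi (J ∩ blk v t) (h t)| := abs_sub _ _
          _ = 2 := by rw [h1, abs_one]; norm_num
    _ = 2 ^ (H.erase t0).card := by rw [prod_const]
    _ ≤ 2 ^ 15 := by
        apply pow_le_pow_right₀ (by norm_num)
        exact (card_le_card (erase_subset _ _)).trans hH

lemma qd_l1 (H : Finset (Sym2 (Fin k))) (t0 : Sym2 (Fin k)) (hH : H.card ≤ 15)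
    (η : Finset (Sym2 (Fin n)) → ℝ) (h : Sym2 (Fin k) → Sym2 (Fin n) → Bool) :
    (∑ J, |qd v H t0 η h J|) ≤ 2 ^ 15 * ∑ J, |cf η J| := by
  rw [mul_sum]
  apply sum_le_sum
  intro J _
  unfold qd
  split_ifs
  · unfold cd
    rw [abs_mul, mul_comm]
    exact mul_le_mul_of_nonneg_right (abs_prod_chi_le v H t0 hH h J) (abs_nonneg _)
  · rw [abs_zero]; positivity

lemma qd_l2 (H : Finset (Sym2 (Fin k))) (t0 : Sym2 (Fin k)) (hH : H.card ≤ 15)
    (η : Finset (Sym2 (Fin n)) → ℝ) (h : Sym2 (Fin k) → Sym2 (Fin n) → Bool) :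
    (∑ J, qd v H t0 η h J ^ 2) ≤
      2 ^ 30 * ∑ J ∈ univ.filter (fun J => Meets v H J ∧ k < (vs J).card), cf η J ^ 2 := by
  rw [sum_filter, mul_sum]
  apply sum_le_sum
  intro J _
  unfold qd
  split_ifs
  · unfold cd
    rw [mul_pow, mul_comm]
    apply mul_le_mul_of_nonneg_right _ (sq_nonneg _)
    have h1 := abs_prod_chi_le v H t0 hH h J
    calc (∏ t ∈ H.erase t0, (1 - chi (J ∩ blk v t) (h t))) ^ 2
        = |∏ t ∈ H.erase t0, (1 - chi (J ∩ blk v t) (h t))| ^ 2 := (sq_abs _).symm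
      _ ≤ (2 ^ 15) ^ 2 := pow_le_pow_left₀ (abs_nonneg _) h1 2
      _ = 2 ^ 30 := by norm_num
  · simp

lemma qd_deg (H : Finset (Sym2 (Fin k))) (t0 : Sym2 (Fin k))
    (η : Finset (Sym2 (Fin n)) → ℝ) (h : Sym2 (Fin k) → Sym2 (Fin n) → Bool)
    (J : Finset (Sym2 (Fin n))) (hJ : 15 < J.card) : qd v H t0 η h J = 0 := by
  unfold qd cd cf
  have : ¬ Good J := by
    intro hg
    have := card_le_of_vs J hg.2.2
    omega
  rw [if_neg this]
  simp

end bounds

/-- the conclusion for a given group structure -/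
lemma minor_core (hMom : StmtMoments) (hGCS : StmtGCS) (hLQ : StmtLQ) (hInd : StmtInd)
    (hCQ : StmtCountQ) (hL1 : StmtL1) (j : ℕ) (C1 : ℝ) (hC1 : 0 < C1)
    (hmom : ∀ (ι : Type) [Fintype ι] [DecidableEq ι] (c : Finset ι → ℝ),
      (∀ F, 15 < F.card → c F = 0) →
      (𝔼 z : ι → Bool, pol c z ^ (2 ^ (j + 1))) ≤ C1 * (∑ F, c F ^ 2) ^ (2 ^ j))
    {n I k m : ℕ} (hn : 1 ≤ n) (hk2 : 2 ≤ k) (hk5 : k ≤ 5)
    (v : Fin I × Fin k × Fin m → Fin n) (hv : Function.Injective v)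
    (hI : ((I * m : ℕ) : ℝ) ^ k * LL n ^ (11 - 2 * k) ≤ (n : ℝ) ^ k)
    (H : Finset (Sym2 (Fin k))) (i0 j0 : Fin k) (hij : i0 ≠ j0) (ht0 : s(i0, j0) ∈ H)
    (hspan : ∀ i : Fin k, ∃ e ∈ H, i ∈ e) (hconn : Conn H) (hH15 : H.card ≤ 15)
    (η : Finset (Sym2 (Fin n)) → ℝ) (hgood : ∀ F, ¬ Good F → η F = 0)
    (hhalf : ∀ F, |η F| ≤ 1 / 2)
    (hhigh : ∀ F, k < (vs F).card →
      |η F| * (Real.sqrt n) ^ (vs F).card ≤ LL n ^ (6 - (vs F).card))
    (c : Finset (Sym2 (Fin k)) → ℝ) (hc : ∀ l α J, H ⊆ J → cf η (mapE (ph v l α) J) = c J)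
    (δ : ℝ) (hδ0 : 0 < δ) (hδ1 : δ < 1)
    (hPG : (𝔼 w : (Sym2 (Fin k × Fin m) → Bool) × (Sym2 (Fin k) → Sym2 (Fin k × Fin m) → Bool),
      ∏ ab : Fin m × Fin m,
        |Real.cos (2 * Real.pi * SG H i0 j0 c ab.1 ab.2 w.1 w.2)|) ≤ 1 - δ) :
    ‖𝔼 z : Sym2 (Fin n) → Bool, ee (pol (cf η) z)‖ ^ (2 ^ (H.card - 1)) ≤
      600 * ((1 + 2 ^ 90 * (n : ℝ) ^ 5) ^ (2 ^ (j + 1)) *
            (((n : ℝ) ^ 2 + 1) ^ (15 * 2 ^ (j + 1)) * (1 - δ) ^ (I - 15 * 2 ^ (j + 1))) +
          C1 * (2 ^ 90 / LL n) ^ (2 ^ j)) := by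
  have hLL := one_le_LL' hn
  have hLLpos : 0 < LL n := by linarith
  have hnpos : (0:ℝ) < n := by exact_mod_cast hn
  set K : ℕ := 2 ^ (j + 1) with hK
  have hG := hGCS (Sym2 (Fin n)) (Sym2 (Fin k)) (H.erase s(i0, j0)) (blk v) (cf η)
  rw [card_erase_of_mem ht0] at hG
  refine hG.trans ?_
  -- the bound for fixed h
  have hfix : ∀ h : Sym2 (Fin k) → (Sym2 (Fin n) → Bool),
      ‖𝔼 z : Sym2 (Fin n) → Bool,
        ee (pol (fun J => cf η J * ∏ t ∈ H.erase s(i0, j0), (1 - chi (J ∩ blk v t) (h t))) z)‖ ≤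
      600 * ((1 + 2 ^ 90 * (n : ℝ) ^ 5) ^ K *
        (∑ M ∈ (blk v s(i0, j0)).powerset.filter (fun M => M.card ≤ 15 * K),
          𝔼 z : Sym2 (Fin n) → Bool,
            ∏ p ∈ univ.filter (fun p : Fin I × Fin m × Fin m => edge0 v i0 j0 p ∉ M),
              |Real.cos (2 * Real.pi * SG H i0 j0 c p.2.1 p.2.2 (zl v z p.1) (hl v h p.1))|) +
        C1 * (2 ^ 90 / LL n) ^ (2 ^ j)) := by
    intro h
    set S : Sym2 (Fin n) → (Sym2 (Fin n) → Bool) → ℝ :=
      Function.extend (edge0 v i0 j0)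
        (fun p z => SG H i0 j0 c p.2.1 p.2.2 (zl v z p.1) (hl v h p.1)) (fun _ _ => 0) with hS
    have hSe : ∀ p, S (edge0 v i0 j0 p) =
        fun z => SG H i0 j0 c p.2.1 p.2.2 (zl v z p.1) (hl v h p.1) := by
      intro p
      rw [hS, (edge0_inj v hv hij).extend_apply]
    have hdec : ∀ z, pol (fun J => cf η J *
        ∏ t ∈ H.erase s(i0, j0), (1 - chi (J ∩ blk v t) (h t))) z =
        g0 v H s(i0, j0) η h z + (∑ b ∈ blk v s(i0, j0), S b z * sg (z b)) +
          pol (qd v H s(i0, j0) η h) z := by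
      intro z
      have h1 := decomposition v hv ht0 hspan hconn η c hc h z
      have h2 : (∑ b ∈ blk v s(i0, j0), S b z * sg (z b)) =
          ∑ p : Fin I × Fin m × Fin m,
            SG H i0 j0 c p.2.1 p.2.2 (zl v z p.1) (hl v h p.1) * sg (z (edge0 v i0 j0 p)) := by
        rw [blk_eq_image, sum_image (fun a _ b _ hab => edge0_inj v hv hij hab)]
        apply sum_congr rfl
        intro p _
        rw [hSe p]
      rw [h2, ← h1]
      rfl
    have hL := hLQ (Sym2 (Fin n)) (blk v s(i0, j0)) (g0 v H s(i0, j0) η h) S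
      (qd v H s(i0, j0) η h) 15 K (by rw [hK, pow_succ]; exact even_two.mul_left _)
      (by rw [hK]; positivity)
      (fun z z' hz => g0_congr v H _ η h z z' hz)
      (by
        intro b hb z z' hz
        rw [blk_eq_image, mem_image] at hb
        obtain ⟨p, _, rfl⟩ := hb
        rw [hSe p]
        exact SG_congr v hv H i0 j0 c p.1 p.2.1 p.2.2 _ z z' hz)
      (fun A hA => qd_deg v H _ η h A hA)
    simp only [← hdec] at hL
    refine hL.trans ?_
    apply mul_le_mul_of_nonneg_left _ (by norm_num)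
    apply add_le_add
    · -- l1 part
      have e1 : (∑ J, |qd v H s(i0, j0) η h J|) ≤ 2 ^ 90 * (n:ℝ) ^ 5 := by
        refine (qd_l1 v H _ hH15 η h).trans ?_
        have := hL1 n hn η hgood hhalf
        calc (2:ℝ) ^ 15 * ∑ J, |cf η J| ≤ 2 ^ 15 * (2 ^ 60 * (n:ℝ) ^ 5) :=
              mul_le_mul_of_nonneg_left this (by norm_num)
          _ ≤ 2 ^ 90 * (n:ℝ) ^ 5 := by
              have : (0:ℝ) ≤ (n:ℝ) ^ 5 := by positivity
              nlinarith
      have e2 : (1 + ∑ J, |qd v H s(i0, j0) η h J|) ^ K ≤ (1 + 2 ^ 90 * (n:ℝ) ^ 5) ^ K := by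
        apply pow_le_pow_left₀
        · have : 0 ≤ ∑ J, |qd v H s(i0, j0) η h J| := sum_nonneg (fun _ _ => abs_nonneg _)
          linarith
        · linarith
      have e3 : (∑ M ∈ (blk v s(i0, j0)).powerset.filter (fun M => M.card ≤ 15 * K),
          𝔼 z : Sym2 (Fin n) → Bool, ∏ b ∈ blk v s(i0, j0) \ M,
            |Real.cos (2 * Real.pi * S b z)|) =
          ∑ M ∈ (blk v s(i0, j0)).powerset.filter (fun M => M.card ≤ 15 * K),
          𝔼 z : Sym2 (Fin n) → Bool,
            ∏ p ∈ univ.filter (fun p : Fin I × Fin m × Fin m => edge0 v i0 j0 p ∉ M),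
              |Real.cos (2 * Real.pi *
                SG H i0 j0 c p.2.1 p.2.2 (zl v z p.1) (hl v h p.1))| := by
        apply sum_congr rfl
        intro M _
        apply expect_congr rfl
        intro z _
        have hset : blk v s(i0, j0) \ M =
            (univ.filter (fun p : Fin I × Fin m × Fin m => edge0 v i0 j0 p ∉ M)).image
              (edge0 v i0 j0) := by
          ext e
          rw [mem_sdiff, blk_eq_image, mem_image, mem_image]
          constructor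
          · rintro ⟨⟨p, _, rfl⟩, h2⟩
            exact ⟨p, by simp [h2], rfl⟩
          · rintro ⟨p, hp, rfl⟩
            rw [mem_filter] at hp
            exact ⟨⟨p, mem_univ _, rfl⟩, hp.2⟩
        rw [hset, prod_image (fun a _ b _ hab => edge0_inj v hv hij hab)]
        apply prod_congr rfl
        intro p _
        rw [hSe p]
      rw [e3]
      apply mul_le_mul_of_nonneg_right e2
      apply sum_nonneg
      intro M _
      apply expect_nonneg
      intro z _
      exact prod_nonneg (fun _ _ => abs_nonneg _)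
    · -- moments of q
      refine (hmom (Sym2 (Fin n)) (qd v H s(i0, j0) η h)
        (fun F hF => qd_deg v H _ η h F hF)).trans ?_
      apply mul_le_mul_of_nonneg_left _ hC1.le
      apply pow_le_pow_left₀ (sum_nonneg (fun _ _ => sq_nonneg _))
      refine (qd_l2 v H _ hH15 η h).trans ?_
      have e1 := hCQ n I k m hn hk2 hk5 v hv H hspan η hgood hhigh
      have hnk : (0:ℝ) < (n:ℝ) ^ k := by positivity
      have e2 : LL n ^ (10 - 2 * k) * (((I * m : ℕ) : ℝ) ^ k / (n : ℝ) ^ k) ≤ 1 / LL n := by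
        rw [le_div_iff₀ hLLpos, mul_assoc, div_mul_eq_mul_div, mul_div_assoc', div_le_one hnk]
        have e3 : LL n ^ (10 - 2 * k) * (((I * m : ℕ) : ℝ) ^ k * LL n) =
            ((I * m : ℕ) : ℝ) ^ k * LL n ^ (11 - 2 * k) := by
          have e4 : 11 - 2 * k = (10 - 2 * k) + 1 := by omega
          rw [e4, pow_succ]
          ring
        rw [e3]
        exact hI
      calc (2:ℝ) ^ 30 * ∑ J ∈ univ.filter (fun J => Meets v H J ∧ k < (vs J).card), cf η J ^ 2
          ≤ 2 ^ 30 * (2 ^ 60 * LL n ^ (10 - 2 * k) * (((I * m : ℕ) : ℝ) ^ k / (n : ℝ) ^ k)) :=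
            mul_le_mul_of_nonneg_left e1 (by norm_num)
        _ = 2 ^ 90 * (LL n ^ (10 - 2 * k) * (((I * m : ℕ) : ℝ) ^ k / (n : ℝ) ^ k)) := by ring
        _ ≤ 2 ^ 90 * (1 / LL n) := mul_le_mul_of_nonneg_left e2 (by norm_num)
        _ = 2 ^ 90 / LL n := by ring
  -- average over h
  refine (expect_le_expect (fun h _ => hfix h)).trans ?_
  rw [← mul_expect, expect_add_distrib, ← mul_expect, expect_const univ_nonempty]
  apply mul_le_mul_of_nonneg_left _ (by norm_num)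
  apply add_le_add_left
  apply mul_le_mul_of_nonneg_left _ (by positivity)
  rw [expect_sum_comm]
  have hM : ∀ M ∈ (blk v s(i0, j0)).powerset.filter (fun M => M.card ≤ 15 * K),
      (𝔼 h : Sym2 (Fin k) → (Sym2 (Fin n) → Bool), 𝔼 z : Sym2 (Fin n) → Bool,
            ∏ p ∈ univ.filter (fun p : Fin I × Fin m × Fin m => edge0 v i0 j0 p ∉ M),
              |Real.cos (2 * Real.pi *
                SG H i0 j0 c p.2.1 p.2.2 (zl v z p.1) (hl v h p.1))|) ≤
        (1 - δ) ^ (I - 15 * K) := by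
    intro M hM
    rw [mem_filter] at hM
    refine (avg_groups v hInd hv H i0 j0 hij c δ hδ0 hδ1 hPG M).trans ?_
    apply pow_le_pow_of_le_one (by linarith) (by linarith)
    omega
  refine (sum_le_sum hM).trans ?_
  rw [sum_const, nsmul_eq_mul]
  apply mul_le_mul_of_nonneg_right _ (pow_nonneg (by linarith) _)
  have h1 := card_small (n ^ 2) (15 * K) (Sym2 (Fin n)) (card_sym2_fin_le n hn)
    (blk v s(i0, j0))
  exact_mod_cast h1

theorem minor (hMom : StmtMoments) (hGCS : StmtGCS) (hLQ : StmtLQ) (hInd : StmtInd)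
    (hPG : StmtPG) (hParam : StmtParam) (hCQ : StmtCountQ) (hL1 : StmtL1) : StmtMinor := by
  intro A
  obtain ⟨j, hj⟩ := hParam A
  obtain ⟨C1, hC1, hmom⟩ := hMom 15 j
  have hex : ∀ k : ℕ, 2 ≤ k → k ≤ 5 → ∃ n0 : ℕ, ∀ n : ℕ, n0 ≤ n →
      ∀ (H : Finset (Sym2 (Fin k))) (i0 j0 : Fin k), i0 ≠ j0 → s(i0, j0) ∈ H →
      (∀ e ∈ H, ¬ e.IsDiag) → (∀ i : Fin k, ∃ e ∈ H, i ∈ e) → Good H →
      ∀ (η : Finset (Sym2 (Fin n)) → ℝ),
        (∀ (σ : Equiv.Perm (Fin n)) F, η (mapE σ F) = η F) →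
        (∀ F, ¬ Good F → η F = 0) → (∀ F, |η F| ≤ 1 / 2) →
        (∀ F, k < (vs F).card →
          |η F| * (Real.sqrt n) ^ (vs F).card ≤ LL n ^ (6 - (vs F).card)) →
        ∀ (f : Fin k → Fin n), Function.Injective f →
        (∀ F, (vs F).card = k → |η F| ≤ |η (mapE f H)|) →
        LL n ^ (6 - k) < |η (mapE f H)| * (Real.sqrt n) ^ k →
        ‖𝔼 z : Sym2 (Fin n) → Bool, ee (pol (cf η) z)‖ ^ (2 ^ (H.card - 1)) ≤
          1 / (n : ℝ) ^ (A * 2 ^ 15) := by
    intro k hk2 hk5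
    obtain ⟨δ, C, hδ0, hδ1, hC, hPGk⟩ := hPG k hk2 hk5
    obtain ⟨n0, hn0⟩ := hj δ C C1 (2 ^ 90) hδ0 hδ1 hC hC1 (by positivity)
    refine ⟨max n0 1, ?_⟩
    intro n hn H i0 j0 hij ht0 hdiag hspan hHgood η hinv hgood hhalf hhigh f hf hmax hviol
    have hn1 : 1 ≤ n := le_trans (le_max_right _ _) hn
    have hn0' : n0 ≤ n := le_trans (le_max_left _ _) hn
    have hLL := one_le_LL' hn1
    set D : ℝ := |η (mapE f H)| with hD
    have hDpos : 0 < D := by
      rcases (abs_nonneg (η (mapE f H))).lt_or_eq with h | h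
      · exact h
      · exfalso
        rw [hD, ← h, zero_mul] at hviol
        have : 0 < LL n ^ (6 - k) := by positivity
        linarith
    set c : Finset (Sym2 (Fin k)) → ℝ := fun J => if H ⊆ J then cf η (mapE f J) else 0 with hc
    have hcb : ∀ J, |c J| ≤ 2 ^ 15 * D := by
      intro J
      rw [hc]
      simp only
      split_ifs with hJ
      · apply abs_cf_le η _ D hDpos.le
        intro F hF
        apply hmax
        rw [hF, vs_mapE, card_image_of_injective _ hf]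
        have : vs J = univ := by
          ext i
          simp only [mem_vs, mem_univ, iff_true]
          obtain ⟨e, he, hi⟩ := hspan i
          exact ⟨e, hJ he, hi⟩
        rw [this, card_univ, Fintype.card_fin]
      · rw [abs_zero]; positivity
    have hmob : |∑ J ∈ univ.filter (fun J => H ⊆ J), c J * (-1) ^ (J \ H).card| =
        D / 2 ^ H.card := by
      have h1 := mobius_lab η hgood f hf H hspan hHgood
      have h2 : (∑ J ∈ univ.filter (fun J => H ⊆ J), c J * (-1) ^ (J \ H).card) =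
          ∑ J ∈ univ.filter (fun J => H ⊆ J), cf η (mapE f J) * (-1) ^ (J \ H).card := by
        apply sum_congr rfl
        intro J hJ
        rw [mem_filter] at hJ
        rw [hc]
        simp only
        rw [if_pos hJ.2]
      rw [h2, h1, abs_div, abs_of_pos (by positivity : (0:ℝ) < 2 ^ H.card)]
    obtain ⟨m, hm1, hmC, hPGm⟩ := hPGk H i0 j0 hij ht0 hdiag hspan c D hDpos (hhalf _) hcb hmob
    obtain ⟨I, hI1, hIn, hIw, hnum⟩ := hn0 n hn0' k m D hk2 hk5 hm1 hDpos hmC hviol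
    obtain ⟨v⟩ : Nonempty (Fin I × Fin k × Fin m ↪ Fin n) := by
      apply Function.Embedding.nonempty_of_card_le
      simp only [Fintype.card_prod, Fintype.card_fin]
      rw [← mul_assoc]
      exact hIn
    refine le_trans ?_ hnum
    exact minor_core hMom hGCS hLQ hInd hCQ hL1 j C1 hC1 hmom hn1 hk2 hk5 v v.injective hIw H i0 j0
      hij ht0 hspan hHgood.1 (card_le_of_vs H hHgood.2.2) η hgood hhalf hhigh c
      (by
        intro l α J hJ
        rw [hc]
        simp only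
        rw [if_pos hJ]
        exact cf_mapE_emb η hinv _ f (ph_inj v v.injective l α) hf J) δ hδ0 hδ1 hPGm
  obtain ⟨n2, h2⟩ := hex 2 (by norm_num) (by norm_num)
  obtain ⟨n3, h3⟩ := hex 3 (by norm_num) (by norm_num)
  obtain ⟨n4, h4⟩ := hex 4 (by norm_num) (by norm_num)
  obtain ⟨n5, h5⟩ := hex 5 (by norm_num) (by norm_num)
  refine ⟨n2 + n3 + n4 + n5 + 1, ?_⟩
  intro n hn η hinv hgood hhalf hviol
  have hn1 : 1 ≤ n := by omega
  have hLL := one_le_LL' hn1
  -- the maximal order of a violation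
  set P : Finset (Finset (Sym2 (Fin n))) := univ.filter (fun F =>
    LL n ^ (6 - (vs F).card) < |η F| * (Real.sqrt n) ^ (vs F).card) with hP
  have hPne : P.Nonempty := by
    obtain ⟨F, hF⟩ := hviol
    exact ⟨F, by rw [hP, mem_filter]; exact ⟨mem_univ _, hF⟩⟩
  obtain ⟨F1, hF1, hF1max⟩ := exists_max_image P (fun F => (vs F).card) hPne
  set Q : Finset (Finset (Sym2 (Fin n))) := univ.filter (fun F => (vs F).card = (vs F1).card)
    with hQ
  have hQne : Q.Nonempty := ⟨F1, by rw [hQ, mem_filter]; exact ⟨mem_univ _, rfl⟩⟩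
  obtain ⟨F2, hF2, hF2max⟩ := exists_max_image Q (fun F => |η F|) hQne
  rw [hQ, mem_filter] at hF2
  rw [hP, mem_filter] at hF1
  set k := (vs F1).card with hk
  have hF2viol : LL n ^ (6 - k) < |η F2| * (Real.sqrt n) ^ k := by
    refine lt_of_lt_of_le hF1.2 ?_
    apply mul_le_mul_of_nonneg_right _ (by positivity)
    exact hF2max F1 (by rw [hQ, mem_filter]; exact ⟨mem_univ _, rfl⟩)
  have hF2good : Good F2 := by
    by_contra hng
    rw [hgood F2 hng, abs_zero, zero_mul] at hF2viol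
    have : 0 < LL n ^ (6 - k) := by positivity
    linarith
  have hk2 : 2 ≤ k := by rw [← hF2.2]; exact hF2good.two_le
  have hk5 : k ≤ 5 := by rw [← hF2.2]; exact hF2good.2.2
  -- labelling
  let f : Fin k → Fin n := fun i => (vs F2).orderEmbOfFin hF2.2 i
  have hf : Function.Injective f := ((vs F2).orderEmbOfFin hF2.2).injective
  have hrange : ∀ x ∈ vs F2, ∃ i, f i = x := by
    intro x hx
    have : x ∈ Set.range ((vs F2).orderEmbOfFin hF2.2) := by
      rw [range_orderEmbOfFin]; exact hx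
    exact this
  obtain ⟨H, hH⟩ := exists_preE f F2 hrange
  have hHgood : Good H := by rw [← good_mapE hf, hH]; exact hF2good
  have hspan : ∀ i : Fin k, ∃ e ∈ H, i ∈ e := by
    intro i
    have h1 : f i ∈ vs F2 := by
      exact orderEmbOfFin_mem (vs F2) hF2.2 i
    rw [← hH, vs_mapE, mem_image] at h1
    obtain ⟨i', hi', he⟩ := h1
    have := hf he
    rw [this] at hi'
    exact mem_vs.1 hi'
  obtain ⟨e0, he0⟩ := hHgood.1.1
  have hd0 := hHgood.2.1 e0 he0
  obtain ⟨i0, j0, hij, ht0⟩ : ∃ i0 j0 : Fin k, i0 ≠ j0 ∧ s(i0, j0) ∈ H := by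
    induction e0 using Sym2.ind with
    | _ a b => exact ⟨a, b, by simpa using hd0, he0⟩
  have hhigh : ∀ F, k < (vs F).card →
      |η F| * (Real.sqrt n) ^ (vs F).card ≤ LL n ^ (6 - (vs F).card) := by
    intro F hF
    by_contra hcon
    rw [not_le] at hcon
    have := hF1max F (by rw [hP, mem_filter]; exact ⟨mem_univ _, hcon⟩)
    omega
  have hmax : ∀ F, (vs F).card = k → |η F| ≤ |η (mapE f H)| := by
    intro F hF
    rw [hH]
    exact hF2max F (by rw [hQ, mem_filter]; exact ⟨mem_univ _, hF⟩)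
  have hmain : ‖𝔼 z : Sym2 (Fin n) → Bool, ee (pol (cf η) z)‖ ^ (2 ^ (H.card - 1)) ≤
      1 / (n : ℝ) ^ (A * 2 ^ 15) := by
    have hv2 : LL n ^ (6 - k) < |η (mapE f H)| * (Real.sqrt n) ^ k := by rw [hH]; exact hF2viol
    clear_value k
    have hk' : k = 2 ∨ k = 3 ∨ k = 4 ∨ k = 5 := by omega
    rcases hk' with rfl | rfl | rfl | rfl
    · exact h2 n (by omega) H i0 j0 hij ht0 hHgood.2.1 hspan hHgood η hinv hgood hhalf hhigh f hf
        hmax hv2
    · exact h3 n (by omega) H i0 j0 hij ht0 hHgood.2.1 hspan hHgood η hinv hgood hhalf hhigh f hf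
        hmax hv2
    · exact h4 n (by omega) H i0 j0 hij ht0 hHgood.2.1 hspan hHgood η hinv hgood hhalf hhigh f hf
        hmax hv2
    · exact h5 n (by omega) H i0 j0 hij ht0 hHgood.2.1 hspan hHgood η hinv hgood hhalf hhigh f hf
        hmax hv2
  -- taking roots
  have hH15 : H.card ≤ 15 := card_le_of_vs H hHgood.2.2
  have hnpos : (0:ℝ) < n := by exact_mod_cast hn1
  have hb1 : (1:ℝ) / (n:ℝ) ^ A ≤ 1 := by
    rw [div_le_one (by positivity)]
    exact one_le_pow₀ (by exact_mod_cast hn1)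
  have hb0 : (0:ℝ) ≤ 1 / (n:ℝ) ^ A := by positivity
  have h6 : (1:ℝ) / (n : ℝ) ^ (A * 2 ^ 15) = (1 / (n:ℝ) ^ A) ^ (2 ^ 15) := by
    rw [div_pow, one_pow, ← pow_mul]
  have h7 : ((1:ℝ) / (n:ℝ) ^ A) ^ (2 ^ 15) ≤ (1 / (n:ℝ) ^ A) ^ (2 ^ (H.card - 1)) := by
    apply pow_le_pow_of_le_one hb0 hb1
    exact Nat.pow_le_pow_right (by norm_num) (by omega)
  have h8 := hmain.trans (h6.le.trans h7)
  exact le_of_pow_le_pow_left₀ (by positivity) hb0 h8

end

end Pool.Agent.JX
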