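import Mathlib
import Pool.Agent.JX.Defs
import Pool.Agent.JX.Basic
import Pool.Agent.JX.Stmts
import Pool.Agent.JX.StmtsM3

/-!
# M3d: the estimate for one group (MP_b57267_co)
-/

set_option autoImplicit false
set_option linter.unusedSectionVars false

namespace Pool.Agent.JX

open Finset BigOperators Classical

noncomputable section

namespace PG

/-! ### collecting coefficients -/

/-- coefficients collected by a map `A` -/
def col {ι P : Type} [DecidableEq ι] (S : Finset P) (A : P → Finset ι) (w : P → ℝ)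
    (F : Finset ι) : ℝ := ∑ p ∈ S, if A p = F then w p else 0

lemma pol_col {ι P : Type} [Fintype ι] [DecidableEq ι] (S : Finset P) (A : P → Finset ι)
    (w : P → ℝ) (z : ι → Bool) : pol (col S A w) z = ∑ p ∈ S, w p * chi (A p) z := by
  unfold pol col
  simp only [Finset.sum_mul]
  rw [Finset.sum_comm]
  refine Finset.sum_congr rfl fun p _ => ?_
  rw [Finset.sum_eq_single (A p)]
  · simp
  · intro F _ hF
    rw [if_neg (Ne.symm hF), zero_mul]
  · intro h
    exact absurd (Finset.mem_univ _) h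

lemma sum_col_sq {ι P : Type} [Fintype ι] [DecidableEq ι] (S : Finset P) (A : P → Finset ι)
    (w : P → ℝ) (hA : ∀ p ∈ S, ∀ q ∈ S, A p = A q → p = q) :
    ∑ F : Finset ι, col S A w F ^ 2 = ∑ p ∈ S, w p ^ 2 := by
  have h1 : ∀ F : Finset ι, col S A w F ^ 2
      = ∑ p ∈ S, ∑ q ∈ S, if A p = F then (if A q = F then w p * w q else 0) else 0 := by
    intro F
    unfold col
    rw [pow_two, Finset.sum_mul_sum]
    refine Finset.sum_congr rfl fun p _ => Finset.sum_congr rfl fun q _ => ?_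
    split_ifs <;> simp
  simp only [h1]
  rw [Finset.sum_comm]
  refine Finset.sum_congr rfl fun p hp => ?_
  rw [Finset.sum_comm, Finset.sum_eq_single p]
  · rw [Finset.sum_eq_single (A p)]
    · simp [pow_two]
    · intro F _ hF
      rw [if_neg (Ne.symm hF)]
    · intro h
      exact absurd (Finset.mem_univ _) h
  · intro q hq hqp
    refine Finset.sum_eq_zero fun F _ => ?_
    split_ifs with h2 h3
    · exact absurd (hA q hq p hp (h3.trans h2.symm)) hqp
    · rfl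
    · rfl
  · intro h
    exact absurd hp h

lemma col_supp {ι P : Type} [DecidableEq ι] (S : Finset P) (A : P → Finset ι)
    (w : P → ℝ) (d : ℕ) (hd : ∀ p ∈ S, (A p).card ≤ d) (F : Finset ι) (hF : d < F.card) :
    col S A w F = 0 := by
  unfold col
  refine Finset.sum_eq_zero fun p hp => ?_
  rw [if_neg]
  rintro rfl
  exact absurd (hd p hp) (by omega)

/-! ### expectations of products -/

lemma expect_fun_prod {I X : Type} [Fintype I] [DecidableEq I] [Fintype X] [Nonempty X]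
    (F : I → X → ℝ) : (𝔼 f : I → X, ∏ i, F i (f i)) = ∏ i, 𝔼 x, F i x := by
  simp only [Fintype.expect_eq_sum_div_card]
  rw [Finset.prod_div_distrib, Finset.prod_const, Finset.card_univ, Fintype.card_fun]
  congr 1
  · rw [Finset.prod_univ_sum, Fintype.piFinset_univ]
  · push_cast; rfl

lemma expect_eval {κ : Type} [Fintype κ] [DecidableEq κ] (φ : Bool → ℝ) (x : κ) :
    (𝔼 u : κ → Bool, φ (u x)) = 𝔼 b, φ b := by
  have h := expect_fun_prod (I := κ) (X := Bool) (fun j b => if j = x then φ b else 1)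
  have h1 : ∀ f : κ → Bool, ∏ i, (if i = x then φ (f i) else 1) = φ (f x) := by
    intro f
    rw [Finset.prod_ite_eq' Finset.univ x (fun i => φ (f i)), if_pos (Finset.mem_univ _)]
  simp only [h1] at h
  rw [h, Finset.prod_eq_single x]
  · simp
  · intro j _ hj
    simp [hj]
  · intro h
    exact absurd (Finset.mem_univ _) h

lemma expect_g {ι κ : Type} [Fintype ι] [DecidableEq ι] [Fintype κ] [DecidableEq κ]
    (T : Finset ι) (x : ι → κ) (φ : Bool → ℝ) :
    (𝔼 h : ι → κ → Bool, ∏ t ∈ T, φ (h t (x t))) = (𝔼 b, φ b) ^ T.card := by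
  have h := expect_fun_prod (I := ι) (X := κ → Bool)
    (fun t u => if t ∈ T then φ (u (x t)) else 1)
  have h1 : ∀ f : ι → κ → Bool, ∏ t, (if t ∈ T then φ (f t (x t)) else 1)
      = ∏ t ∈ T, φ (f t (x t)) := by
    intro f
    rw [Finset.prod_ite_mem, Finset.univ_inter]
  simp only [h1] at h
  rw [h]
  have h2 : ∀ t : ι, (𝔼 u : κ → Bool, if t ∈ T then φ (u (x t)) else 1)
      = if t ∈ T then (𝔼 b, φ b) else 1 := by
    intro t
    split_ifs with ht
    · exact expect_eval φ (x t)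
    · exact Fintype.expect_const 1
  simp only [h2]
  rw [Finset.prod_ite_mem, Finset.univ_inter, Finset.prod_const]

lemma expect_bool_sq : (𝔼 b : Bool, (1 - sg b) ^ 2) = 2 := by
  rw [Fintype.expect_eq_sum_div_card]
  simp [sg]
  norm_num

/-! ### real inequalities -/

lemma exp_neg_le (x : ℝ) (hx : 0 ≤ x) : Real.exp (-x) ≤ 1 - x + x ^ 2 / 2 := by
  have h1 : 1 + x + x ^ 2 / 2 ≤ Real.exp x := Real.quadratic_le_exp_of_nonneg hx
  have h2 : 0 < Real.exp x := Real.exp_pos x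
  rw [Real.exp_neg, inv_le_iff_one_le_mul₀ h2]
  have h3 : 0 ≤ 1 - x + x ^ 2 / 2 := by nlinarith [sq_nonneg (x - 1)]
  nlinarith [mul_le_mul_of_nonneg_left h1 h3, sq_nonneg (x ^ 2)]

lemma abs_cos_le (θ : ℝ) : |Real.cos θ| ≤ Real.exp (-(Real.sin θ ^ 2 / 2)) := by
  have h1 : |Real.cos θ| ^ 2 ≤ Real.exp (-(Real.sin θ ^ 2 / 2)) ^ 2 := by
    rw [sq_abs, ← Real.exp_nat_mul]
    have h2 : Real.cos θ ^ 2 = -(Real.sin θ ^ 2) + 1 := by
      have := Real.sin_sq_add_cos_sq θ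
      linarith
    rw [h2]
    have h3 := Real.add_one_le_exp (-(Real.sin θ ^ 2))
    have h4 : ((2 : ℕ) : ℝ) * -(Real.sin θ ^ 2 / 2) = -(Real.sin θ ^ 2) := by push_cast; ring
    rw [h4]
    exact h3
  exact le_of_sq_le_sq h1 (Real.exp_pos _).le

lemma prod_cos_le {I : Type} (s : Finset I) (θ : I → ℝ) :
    ∏ i ∈ s, |Real.cos (θ i)| ≤ 1 - (∑ i ∈ s, Real.sin (θ i) ^ 2) / 2
      + ((∑ i ∈ s, Real.sin (θ i) ^ 2) / 2) ^ 2 / 2 := by
  have h1 : ∏ i ∈ s, |Real.cos (θ i)| ≤ ∏ i ∈ s, Real.exp (-(Real.sin (θ i) ^ 2 / 2)) :=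
    Finset.prod_le_prod (fun _ _ => abs_nonneg _) (fun i _ => abs_cos_le _)
  rw [← Real.exp_sum, Finset.sum_neg_distrib, ← Finset.sum_div] at h1
  refine h1.trans (exp_neg_le _ ?_)
  exact div_nonneg (Finset.sum_nonneg fun _ _ => sq_nonneg _) (by norm_num)

lemma sin_sq_ge (s : ℝ) : 16 * s ^ 2 - 256 * s ^ 4 ≤ Real.sin (2 * Real.pi * s) ^ 2 := by
  by_cases h : |s| ≤ 1 / 4
  · -- Jordan
    have hpi := Real.pi_pos
    have h1 : |2 * (2 * Real.pi * s)| ≤ Real.pi := by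
      rw [abs_mul, abs_mul, abs_mul, abs_of_pos hpi]
      simp only [Nat.abs_ofNat]
      nlinarith
    have h2 := Real.cos_le_one_sub_mul_cos_sq h1
    have h3 : Real.cos (2 * (2 * Real.pi * s)) = 1 - 2 * Real.sin (2 * Real.pi * s) ^ 2 := by
      rw [Real.cos_two_mul]
      have := Real.sin_sq_add_cos_sq (2 * Real.pi * s)
      linarith
    have h4 : 2 / Real.pi ^ 2 * (2 * (2 * Real.pi * s)) ^ 2 = 32 * s ^ 2 := by
      field_simp
      ring
    rw [h3, h4] at h2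
    have : 0 ≤ s ^ 4 := by positivity
    linarith
  · push Not at h
    have h1 : 1 / 16 ≤ s ^ 2 := by
      rw [← sq_abs]
      nlinarith
    have h2 : 0 ≤ Real.sin (2 * Real.pi * s) ^ 2 := sq_nonneg _
    nlinarith

lemma sin_sq_le (s : ℝ) : Real.sin (2 * Real.pi * s) ^ 2 ≤ 40 * s ^ 2 := by
  have h1 : |Real.sin (2 * Real.pi * s)| ≤ |2 * Real.pi * s| := Real.abs_sin_le_abs
  have h2 : Real.sin (2 * Real.pi * s) ^ 2 ≤ (2 * Real.pi * s) ^ 2 := sq_le_sq.mpr h1
  have hpi := Real.pi_lt_d2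
  have hpi0 := Real.pi_pos
  have h3 : Real.pi ^ 2 ≤ 10 := by nlinarith
  nlinarith [sq_nonneg s, mul_le_mul_of_nonneg_right h3 (sq_nonneg s)]

/-- pointwise estimate of the product of cosines -/
lemma prod_cos_le' {I : Type} (s : Finset I) (x : I → ℝ) :
    ∏ i ∈ s, |Real.cos (2 * Real.pi * x i)| ≤ 1 - 8 * ∑ i ∈ s, x i ^ 2
      + 328 * (s.card * ∑ i ∈ s, x i ^ 4) := by
  rcases s.eq_empty_or_nonempty with rfl | hs
  · simp
  refine (prod_cos_le s (fun i => 2 * Real.pi * x i)).trans ?_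
  set Y := ∑ i ∈ s, Real.sin (2 * Real.pi * x i) ^ 2 with hY
  set S2 := ∑ i ∈ s, x i ^ 2 with hS2
  set S4 := ∑ i ∈ s, x i ^ 4 with hS4
  have hY0 : 0 ≤ Y := Finset.sum_nonneg fun _ _ => sq_nonneg _
  have hS20 : 0 ≤ S2 := Finset.sum_nonneg fun _ _ => sq_nonneg _
  have hS40 : 0 ≤ S4 := Finset.sum_nonneg fun _ _ => by positivity
  have h1 : 16 * S2 - 256 * S4 ≤ Y := by
    rw [hY, hS2, hS4, Finset.mul_sum, Finset.mul_sum, ← Finset.sum_sub_distrib]
    exact Finset.sum_le_sum fun i _ => sin_sq_ge (x i)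
  have h2 : Y ≤ 40 * S2 := by
    rw [hY, hS2, Finset.mul_sum]
    exact Finset.sum_le_sum fun i _ => sin_sq_le (x i)
  have h3 : S2 ^ 2 ≤ s.card * S4 := by
    have := sq_sum_le_card_mul_sum_sq (s := s) (f := fun i => x i ^ 2)
    refine this.trans (le_of_eq ?_)
    rw [hS4]
    congr 1
    exact Finset.sum_congr rfl fun i _ => by ring
  have hc : (1 : ℝ) ≤ s.card := by exact_mod_cast hs.card_pos
  have h4 : S4 ≤ s.card * S4 := by nlinarith
  nlinarith


/-! ### the structure of the linear coefficients -/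

section

variable {k m : ℕ}

lemma tr_inj (α : Fin k → Fin m) : Function.Injective (tr α) := by
  apply Sym2.map.injective
  intro i j h
  exact (Prod.mk.inj h).1

/-- the transversals with two prescribed values -/
def FF (i0 j0 : Fin k) (a b : Fin m) : Finset (Fin k → Fin m) :=
  univ.filter (fun α : Fin k → Fin m => α i0 = a ∧ α j0 = b)

/-- the index sets containing `H` -/
def JJ (H : Finset (Sym2 (Fin k))) : Finset (Finset (Sym2 (Fin k))) :=
  univ.filter (fun J => H ⊆ J)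

def AA (i0 j0 : Fin k) (p : (Fin k → Fin m) × Finset (Sym2 (Fin k))) :
    Finset (Sym2 (Fin k × Fin m)) := (p.2.erase s(i0, j0)).image (tr p.1)

def gg (H : Finset (Sym2 (Fin k))) (i0 j0 : Fin k) (α : Fin k → Fin m)
    (h : Sym2 (Fin k) → Sym2 (Fin k × Fin m) → Bool) : ℝ :=
  ∏ t ∈ H.erase s(i0, j0), (1 - sg (h t (tr α t)))

lemma SG_eq (H : Finset (Sym2 (Fin k))) (i0 j0 : Fin k) (c : Finset (Sym2 (Fin k)) → ℝ)
    (a b : Fin m) (z : Sym2 (Fin k × Fin m) → Bool)
    (h : Sym2 (Fin k) → Sym2 (Fin k × Fin m) → Bool) :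
    SG H i0 j0 c a b z h = pol (col (FF i0 j0 a b ×ˢ JJ H) (AA i0 j0)
      (fun p => c p.2 * gg H i0 j0 p.1 h)) z := by
  rw [pol_col]
  unfold SG FF JJ
  rw [Finset.sum_product]
  refine Finset.sum_congr rfl fun α _ => Finset.sum_congr rfl fun J _ => ?_
  unfold AA chi gg
  rw [Finset.prod_image (fun x _ y _ hxy => tr_inj α hxy)]
  ring

lemma AA_inj (H : Finset (Sym2 (Fin k))) (i0 j0 : Fin k) (a b : Fin m)
    (h0 : s(i0, j0) ∈ H) (hsp : ∀ i : Fin k, ∃ e ∈ H, i ∈ e) :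
    ∀ p ∈ FF i0 j0 a b ×ˢ JJ H, ∀ q ∈ FF i0 j0 a b ×ˢ JJ H,
      AA i0 j0 p = AA i0 j0 q → p = q := by
  rintro ⟨α, J⟩ hp ⟨β, J'⟩ hq h
  simp only [FF, JJ, mem_product, mem_filter, mem_univ, true_and] at hp hq
  obtain ⟨⟨ha, hb⟩, hJ⟩ := hp
  obtain ⟨⟨ha', hb'⟩, hJ'⟩ := hq
  have hαβ : α = β := by
    funext i
    by_cases hi0 : i = i0
    · rw [hi0, ha, ha']
    by_cases hj0 : i = j0
    · rw [hj0, hb, hb']
    obtain ⟨e, he, hie⟩ := hsp i
    have hne : e ≠ s(i0, j0) := by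
      rintro rfl
      rw [Sym2.mem_iff] at hie
      tauto
    have h1 : tr α e ∈ AA i0 j0 (α, J) := mem_image_of_mem _ (mem_erase.mpr ⟨hne, hJ he⟩)
    rw [h] at h1
    unfold AA at h1
    rw [mem_image] at h1
    obtain ⟨e', _, he'⟩ := h1
    have h2 : (i, α i) ∈ tr α e := Sym2.mem_map.mpr ⟨i, hie, rfl⟩
    rw [← he'] at h2
    unfold tr at h2
    obtain ⟨i', _, h3⟩ := Sym2.mem_map.mp h2
    have h4 := Prod.mk.inj h3
    rw [← h4.2, h4.1]
  subst hαβ
  have h5 : J.erase s(i0, j0) = J'.erase s(i0, j0) := Finset.image_injective (tr_inj α) h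
  have h6 : J = J' := by rw [← insert_erase (hJ h0), ← insert_erase (hJ' h0), h5]
  rw [h6]

/-- the square of the norm of the relevant coefficients -/
def kap (H : Finset (Sym2 (Fin k))) (c : Finset (Sym2 (Fin k)) → ℝ) : ℝ := ∑ J ∈ JJ H, c J ^ 2

lemma kap_nonneg (H : Finset (Sym2 (Fin k))) (c : Finset (Sym2 (Fin k)) → ℝ) : 0 ≤ kap H c :=
  Finset.sum_nonneg fun _ _ => sq_nonneg _

lemma sum_sq_eq (H : Finset (Sym2 (Fin k))) (i0 j0 : Fin k) (c : Finset (Sym2 (Fin k)) → ℝ)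
    (a b : Fin m) (h0 : s(i0, j0) ∈ H) (hsp : ∀ i : Fin k, ∃ e ∈ H, i ∈ e)
    (h : Sym2 (Fin k) → Sym2 (Fin k × Fin m) → Bool) :
    ∑ F, (col (FF i0 j0 a b ×ˢ JJ H) (AA i0 j0) (fun p => c p.2 * gg H i0 j0 p.1 h)) F ^ 2
      = kap H c * ∑ α ∈ FF i0 j0 a b, gg H i0 j0 α h ^ 2 := by
  rw [sum_col_sq _ _ _ (AA_inj H i0 j0 a b h0 hsp), Finset.sum_product, Finset.mul_sum]
  refine Finset.sum_congr rfl fun α _ => ?_
  unfold kap
  rw [Finset.sum_mul]
  refine Finset.sum_congr rfl fun J _ => ?_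
  ring

lemma second (hP : StmtParseval) (H : Finset (Sym2 (Fin k))) (i0 j0 : Fin k)
    (c : Finset (Sym2 (Fin k)) → ℝ)
    (a b : Fin m) (h0 : s(i0, j0) ∈ H) (hsp : ∀ i : Fin k, ∃ e ∈ H, i ∈ e)
    (h : Sym2 (Fin k) → Sym2 (Fin k × Fin m) → Bool) :
    (𝔼 z : Sym2 (Fin k × Fin m) → Bool, SG H i0 j0 c a b z h ^ 2)
      = kap H c * ∑ α ∈ FF i0 j0 a b, gg H i0 j0 α h ^ 2 := by
  simp only [SG_eq, pow_two]
  rw [hP]
  have := sum_sq_eq H i0 j0 c a b h0 hsp h
  simp only [pow_two] at this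
  exact this

lemma fourth (hH : StmtHyper) (H : Finset (Sym2 (Fin k))) (i0 j0 : Fin k)
    (c : Finset (Sym2 (Fin k)) → ℝ)
    (a b : Fin m) (h0 : s(i0, j0) ∈ H) (hsp : ∀ i : Fin k, ∃ e ∈ H, i ∈ e)
    (h : Sym2 (Fin k) → Sym2 (Fin k × Fin m) → Bool) :
    (𝔼 z : Sym2 (Fin k × Fin m) → Bool, SG H i0 j0 c a b z h ^ 4)
      ≤ 9 ^ (Fintype.card (Sym2 (Fin k))) *
        (kap H c * ∑ α ∈ FF i0 j0 a b, gg H i0 j0 α h ^ 2) ^ 2 := by
  simp only [SG_eq]
  rw [← sum_sq_eq H i0 j0 c a b h0 hsp h]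
  apply hH
  apply col_supp
  intro p _
  unfold AA
  refine card_image_le.trans ((card_erase_le).trans ?_)
  exact card_le_univ _

lemma gg_sq_le (H : Finset (Sym2 (Fin k))) (i0 j0 : Fin k) (α : Fin k → Fin m)
    (h : Sym2 (Fin k) → Sym2 (Fin k × Fin m) → Bool) :
    gg H i0 j0 α h ^ 2 ≤ 4 ^ (Fintype.card (Sym2 (Fin k))) := by
  unfold gg
  rw [← Finset.prod_pow]
  have h1 : ∏ t ∈ H.erase s(i0, j0), (1 - sg (h t (tr α t))) ^ 2
      ≤ ∏ t ∈ H.erase s(i0, j0), (4 : ℝ) := by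
    refine Finset.prod_le_prod (fun _ _ => sq_nonneg _) fun t _ => ?_
    have := abs_le.mp (abs_sg (h t (tr α t))).le
    nlinarith [this.1, this.2]
  refine h1.trans ?_
  rw [Finset.prod_const]
  apply pow_le_pow_right₀ (by norm_num)
  exact card_le_univ _

lemma expect_gg (H : Finset (Sym2 (Fin k))) (i0 j0 : Fin k) (α : Fin k → Fin m) :
    1 ≤ 𝔼 h : Sym2 (Fin k) → Sym2 (Fin k × Fin m) → Bool, gg H i0 j0 α h ^ 2 := by
  have h1 := expect_g (H.erase s(i0, j0)) (fun t => tr α t) (fun b => (1 - sg b) ^ 2)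
  have h2 : ∀ h : Sym2 (Fin k) → Sym2 (Fin k × Fin m) → Bool, gg H i0 j0 α h ^ 2
      = ∏ t ∈ H.erase s(i0, j0), (1 - sg (h t (tr α t))) ^ 2 := by
    intro h
    unfold gg
    rw [← Finset.prod_pow]
  simp only [h2]
  rw [h1, expect_bool_sq]
  exact one_le_pow₀ (by norm_num)

lemma card_FF (i0 j0 : Fin k) (hij : i0 ≠ j0) (a b : Fin m) :
    (FF i0 j0 a b).card = m ^ (k - 2) := by
  have h1 : FF i0 j0 a b = Fintype.piFinset (fun i => if i = i0 then {a} else
      if i = j0 then {b} else univ) := by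
    ext α
    simp only [FF, mem_filter, mem_univ, true_and, Fintype.mem_piFinset]
    constructor
    · rintro ⟨h1, h2⟩ i
      split_ifs with h3 h4
      · rw [h3, h1]; simp
      · rw [h4, h2]; simp
      · simp
    · intro h
      constructor
      · have := h i0
        simpa using this
      · have := h j0
        rw [if_neg hij.symm, if_pos rfl] at this
        simpa using this
  rw [h1, Fintype.card_piFinset]
  have h2 : ∀ i : Fin k, (if i = i0 then ({a} : Finset (Fin m)) else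
      if i = j0 then {b} else univ).card = if i ∈ (univ \ {i0, j0} : Finset (Fin k)) then m else 1 := by
    intro i
    by_cases h3 : i = i0
    · simp [h3]
    by_cases h4 : i = j0
    · simp [h4, hij.symm]
    simp [h3, h4]
  simp only [h2]
  rw [Finset.prod_ite_mem, Finset.univ_inter, Finset.prod_const, card_sdiff_of_subset (subset_univ _),
    card_pair hij, card_univ, Fintype.card_fin]

lemma expect_swap {X Y : Type} [Fintype X] [Fintype Y] (f : X × Y → ℝ) :
    (𝔼 w : X × Y, f w) = 𝔼 y : Y, 𝔼 x : X, f (x, y) := by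
  rw [← Finset.univ_product_univ, Finset.expect_product, Finset.expect_comm]

/-- the main estimate -/
lemma main_est (hP : StmtParseval) (hH : StmtHyper) (hk : 2 ≤ k) (hm : 1 ≤ m)
    (H : Finset (Sym2 (Fin k))) (i0 j0 : Fin k) (hij : i0 ≠ j0)
    (c : Finset (Sym2 (Fin k)) → ℝ) (h0 : s(i0, j0) ∈ H) (hsp : ∀ i : Fin k, ∃ e ∈ H, i ∈ e) :
    (𝔼 w : (Sym2 (Fin k × Fin m) → Bool) × (Sym2 (Fin k) → Sym2 (Fin k × Fin m) → Bool),
      ∏ ab : Fin m × Fin m,
        |Real.cos (2 * Real.pi * SG H i0 j0 c ab.1 ab.2 w.1 w.2)|)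
      ≤ 1 - 8 * (kap H c * (m : ℝ) ^ k)
        + 328 * 144 ^ (Fintype.card (Sym2 (Fin k))) * (kap H c * (m : ℝ) ^ k) ^ 2 := by
  set d := Fintype.card (Sym2 (Fin k)) with hd
  have hκ := kap_nonneg H c
  have hmk : (m : ℝ) ^ k = (m : ℝ) ^ 2 * (m : ℝ) ^ (k - 2) := by
    rw [← pow_add]; congr 1; omega
  have step : (𝔼 w : (Sym2 (Fin k × Fin m) → Bool) × (Sym2 (Fin k) → Sym2 (Fin k × Fin m) → Bool),
      ∏ ab : Fin m × Fin m,
        |Real.cos (2 * Real.pi * SG H i0 j0 c ab.1 ab.2 w.1 w.2)|)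
      ≤ 𝔼 w : (Sym2 (Fin k × Fin m) → Bool) × (Sym2 (Fin k) → Sym2 (Fin k × Fin m) → Bool),
        (1 - 8 * ∑ ab : Fin m × Fin m, SG H i0 j0 c ab.1 ab.2 w.1 w.2 ^ 2
        + 328 * (m ^ 2 * ∑ ab : Fin m × Fin m, SG H i0 j0 c ab.1 ab.2 w.1 w.2 ^ 4)) := by
    refine Finset.expect_le_expect fun w _ => ?_
    have := prod_cos_le' (univ : Finset (Fin m × Fin m))
      (fun ab => SG H i0 j0 c ab.1 ab.2 w.1 w.2)
    rw [card_univ, Fintype.card_prod, Fintype.card_fin] at this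
    push_cast at this
    rw [← pow_two] at this
    exact this
  refine step.trans ?_
  have hne : Nonempty ((Sym2 (Fin k × Fin m) → Bool) ×
      (Sym2 (Fin k) → Sym2 (Fin k × Fin m) → Bool)) := ⟨(fun _ => true, fun _ _ => true)⟩
  rw [Finset.expect_add_distrib, Finset.expect_sub_distrib, Fintype.expect_const,
    ← Finset.mul_expect, ← Finset.mul_expect, ← Finset.mul_expect, Finset.expect_sum_comm,
    Finset.expect_sum_comm]
  have low : kap H c * (m : ℝ) ^ k ≤ ∑ ab : Fin m × Fin m,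
      𝔼 w : (Sym2 (Fin k × Fin m) → Bool) × (Sym2 (Fin k) → Sym2 (Fin k × Fin m) → Bool),
        SG H i0 j0 c ab.1 ab.2 w.1 w.2 ^ 2 := by
    have h1 : ∀ ab : Fin m × Fin m, kap H c * (m : ℝ) ^ (k - 2) ≤
      𝔼 w : (Sym2 (Fin k × Fin m) → Bool) × (Sym2 (Fin k) → Sym2 (Fin k × Fin m) → Bool),
        SG H i0 j0 c ab.1 ab.2 w.1 w.2 ^ 2 := by
      intro ab
      rw [expect_swap]
      simp only [second hP H i0 j0 c ab.1 ab.2 h0 hsp]
      rw [← Finset.mul_expect, Finset.expect_sum_comm]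
      refine mul_le_mul_of_nonneg_left ?_ hκ
      have h2 : ∑ α ∈ FF i0 j0 ab.1 ab.2, (1 : ℝ) ≤ ∑ α ∈ FF i0 j0 ab.1 ab.2,
          𝔼 h : Sym2 (Fin k) → Sym2 (Fin k × Fin m) → Bool, gg H i0 j0 α h ^ 2 :=
        Finset.sum_le_sum fun α _ => expect_gg H i0 j0 α
      rw [Finset.sum_const, card_FF i0 j0 hij, nsmul_eq_mul, mul_one] at h2
      push_cast at h2
      exact h2
    have h3 := Finset.sum_le_sum (s := (univ : Finset (Fin m × Fin m))) fun ab _ => h1 ab
    rw [Finset.sum_const, card_univ, Fintype.card_prod, Fintype.card_fin, nsmul_eq_mul] at h3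
    refine le_trans (le_of_eq ?_) h3
    rw [hmk]
    push_cast
    ring
  have up : ∑ ab : Fin m × Fin m,
      (𝔼 w : (Sym2 (Fin k × Fin m) → Bool) × (Sym2 (Fin k) → Sym2 (Fin k × Fin m) → Bool),
        SG H i0 j0 c ab.1 ab.2 w.1 w.2 ^ 4)
      ≤ (m : ℝ) ^ 2 * (9 ^ d * (kap H c * ((m : ℝ) ^ (k - 2) * 4 ^ d)) ^ 2) := by
    have h1 : ∀ ab : Fin m × Fin m,
      (𝔼 w : (Sym2 (Fin k × Fin m) → Bool) × (Sym2 (Fin k) → Sym2 (Fin k × Fin m) → Bool),
        SG H i0 j0 c ab.1 ab.2 w.1 w.2 ^ 4)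
        ≤ 9 ^ d * (kap H c * ((m : ℝ) ^ (k - 2) * 4 ^ d)) ^ 2 := by
      intro ab
      rw [expect_swap]
      refine Finset.expect_le univ_nonempty ?_
      intro h _
      refine (fourth hH H i0 j0 c ab.1 ab.2 h0 hsp h).trans ?_
      have h2 : ∑ α ∈ FF i0 j0 ab.1 ab.2, gg H i0 j0 α h ^ 2 ≤ (m : ℝ) ^ (k - 2) * 4 ^ d := by
        have h3 : ∑ α ∈ FF i0 j0 ab.1 ab.2, gg H i0 j0 α h ^ 2
            ≤ ∑ α ∈ FF i0 j0 ab.1 ab.2, (4 : ℝ) ^ d :=
          Finset.sum_le_sum fun α _ => gg_sq_le H i0 j0 α h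
        rw [Finset.sum_const, card_FF i0 j0 hij, nsmul_eq_mul] at h3
        push_cast at h3
        exact h3
      have h4 : 0 ≤ ∑ α ∈ FF i0 j0 ab.1 ab.2, gg H i0 j0 α h ^ 2 :=
        Finset.sum_nonneg fun _ _ => sq_nonneg _
      gcongr
    have h3 := Finset.sum_le_sum (s := (univ : Finset (Fin m × Fin m))) fun ab _ => h1 ab
    rw [Finset.sum_const, card_univ, Fintype.card_prod, Fintype.card_fin, nsmul_eq_mul] at h3
    refine h3.trans (le_of_eq ?_)
    push_cast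
    ring
  have fin : 328 * ((m : ℝ) ^ 2 * ∑ ab : Fin m × Fin m,
      (𝔼 w : (Sym2 (Fin k × Fin m) → Bool) × (Sym2 (Fin k) → Sym2 (Fin k × Fin m) → Bool),
        SG H i0 j0 c ab.1 ab.2 w.1 w.2 ^ 4))
      ≤ 328 * 144 ^ d * (kap H c * (m : ℝ) ^ k) ^ 2 := by
    calc 328 * ((m : ℝ) ^ 2 * ∑ ab : Fin m × Fin m,
      (𝔼 w : (Sym2 (Fin k × Fin m) → Bool) × (Sym2 (Fin k) → Sym2 (Fin k × Fin m) → Bool),
        SG H i0 j0 c ab.1 ab.2 w.1 w.2 ^ 4))
        ≤ 328 * ((m : ℝ) ^ 2 * ((m : ℝ) ^ 2 *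
          (9 ^ d * (kap H c * ((m : ℝ) ^ (k - 2) * 4 ^ d)) ^ 2))) := by gcongr
      _ = 328 * (9 ^ d * (4 ^ d * 4 ^ d)) * (kap H c * ((m : ℝ) ^ 2 * (m : ℝ) ^ (k - 2))) ^ 2 := by
          ring
      _ = 328 * 144 ^ d * (kap H c * (m : ℝ) ^ k) ^ 2 := by
          rw [← mul_pow, ← mul_pow, hmk]; norm_num
  linarith

end


/-- the good configuration for `m = 1` -/
lemma one_point {k : ℕ} (H : Finset (Sym2 (Fin k))) (i0 j0 : Fin k)
    (c : Finset (Sym2 (Fin k)) → ℝ) (h0 : s(i0, j0) ∈ H) :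
    ∃ w : (Sym2 (Fin k × Fin 1) → Bool) × (Sym2 (Fin k) → Sym2 (Fin k × Fin 1) → Bool),
      ∀ a b, SG H i0 j0 c a b w.1 w.2
        = 2 ^ (H.card - 1) * ∑ J ∈ univ.filter (fun J => H ⊆ J), c J * (-1) ^ (J \ H).card := by
  refine ⟨(fun x => decide (∃ e ∈ H, tr (fun _ : Fin k => (0 : Fin 1)) e = x),
    fun _ _ => false), ?_⟩
  intro a b
  unfold SG
  have hfil : univ.filter (fun α : Fin k → Fin 1 => α i0 = a ∧ α j0 = b)
      = {fun _ : Fin k => (0 : Fin 1)} := by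
    ext α
    simp only [mem_filter, mem_univ, true_and, mem_singleton]
    exact ⟨fun _ => Subsingleton.elim _ _, fun _ => ⟨Subsingleton.elim _ _, Subsingleton.elim _ _⟩⟩
  rw [hfil, Finset.sum_singleton, Finset.mul_sum]
  refine Finset.sum_congr rfl fun J hJ => ?_
  rw [mem_filter] at hJ
  have h1 : ∀ e : Sym2 (Fin k), sg (decide (∃ e' ∈ H, tr (fun _ : Fin k => (0 : Fin 1)) e'
      = tr (fun _ : Fin k => (0 : Fin 1)) e)) = if e ∈ H then 1 else -1 := by
    intro e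
    have h2 : (∃ e' ∈ H, tr (fun _ : Fin k => (0 : Fin 1)) e'
      = tr (fun _ : Fin k => (0 : Fin 1)) e) ↔ e ∈ H := by
      constructor
      · rintro ⟨e', he', h⟩
        rw [← tr_inj _ h]; exact he'
      · intro h
        exact ⟨e, h, rfl⟩
    by_cases he : e ∈ H
    · rw [if_pos he]
      have : decide (∃ e' ∈ H, tr (fun _ : Fin k => (0 : Fin 1)) e'
        = tr (fun _ : Fin k => (0 : Fin 1)) e) = true := by
        rw [decide_eq_true_iff]; exact h2.mpr he
      rw [this]; simp [sg]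
    · rw [if_neg he]
      have : decide (∃ e' ∈ H, tr (fun _ : Fin k => (0 : Fin 1)) e'
        = tr (fun _ : Fin k => (0 : Fin 1)) e) = false := by
        rw [decide_eq_false_iff_not]; exact fun h => he (h2.mp h)
      rw [this]; simp [sg]
  simp only [h1]
  have h3 : ∏ e ∈ J.erase s(i0, j0), (if e ∈ H then (1 : ℝ) else -1) = (-1) ^ (J \ H).card := by
    rw [Finset.prod_ite, Finset.prod_const_one, one_mul, Finset.prod_const]
    congr 1
    congr 1
    ext e
    simp only [mem_filter, mem_erase, mem_sdiff]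
    constructor
    · rintro ⟨⟨_, h5⟩, h6⟩
      exact ⟨h5, h6⟩
    · rintro ⟨h5, h6⟩
      refine ⟨⟨?_, h5⟩, h6⟩
      rintro rfl
      exact h6 h0
  have h4 : ∏ t ∈ H.erase s(i0, j0), (1 - sg false) = (2 : ℝ) ^ (H.card - 1) := by
    rw [Finset.prod_const, card_erase_of_mem h0]
    congr 1
    simp [sg]; norm_num
  rw [h3, h4]
  ring

end PG

open PG in
/-- M3d -/
theorem pg (hP : StmtParseval) (hH : StmtHyper) : StmtPG := by
  intro k hk2 _
  set d := Fintype.card (Sym2 (Fin k)) with hd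
  set M : ℝ := 328 * 144 ^ d with hM
  have hMpos : 0 < M := by positivity
  set B0 : ℝ := 4 / M with hB0
  have hB0pos : 0 < B0 := by positivity
  set c2 : ℝ := B0 / (2 ^ d * 4 ^ 15) with hc2
  have hc2pos : 0 < c2 := by positivity
  set N1 : ℝ := (Fintype.card ((Sym2 (Fin k × Fin 1) → Bool) ×
    (Sym2 (Fin k) → Sym2 (Fin k × Fin 1) → Bool)) : ℝ) with hN1
  have hne1 : Nonempty ((Sym2 (Fin k × Fin 1) → Bool) ×
    (Sym2 (Fin k) → Sym2 (Fin k × Fin 1) → Bool)) := ⟨(fun _ => true, fun _ _ => true)⟩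
  have hN1pos : 0 < N1 := by
    rw [hN1]
    exact_mod_cast Fintype.card_pos
  refine ⟨min (1 / 2) (min (4 * B0 / 2 ^ k) (2 * c2 / N1)), 8 ^ d * B0 + 1, ?_, ?_, ?_, ?_⟩
  · refine lt_min (by norm_num) (lt_min ?_ ?_) <;> positivity
  · exact lt_of_le_of_lt (min_le_left _ _) (by norm_num)
  · positivity
  intro H i0 j0 hij h0 _ hsp c D hD0 hD1 hc hsum
  have hcard : ((JJ H).card : ℝ) ≤ 2 ^ d := by
    have h1 : (JJ H).card ≤ 2 ^ d := by
      refine (card_le_univ _).trans ?_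
      rw [Fintype.card_finset]
    exact_mod_cast h1
  have hHd : H.card ≤ d := card_le_univ _
  have hκ1 : D ^ 2 ≤ 8 ^ d * kap H c := by
    have h1 : D / 2 ^ H.card ≤ ∑ J ∈ JJ H, |c J| := by
      rw [← hsum]
      refine (abs_sum_le_sum_abs _ _).trans (le_of_eq ?_)
      refine Finset.sum_congr rfl fun J _ => ?_
      rw [abs_mul, abs_pow, abs_neg, abs_one, one_pow, mul_one]
    have h2 : (∑ J ∈ JJ H, |c J|) ^ 2 ≤ (JJ H).card * kap H c := by
      have := sq_sum_le_card_mul_sum_sq (s := JJ H) (f := fun J => |c J|)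
      refine this.trans (le_of_eq ?_)
      unfold kap
      congr 1
      exact Finset.sum_congr rfl fun J _ => sq_abs _
    have h3 : (D / 2 ^ H.card) ^ 2 ≤ 2 ^ d * kap H c := by
      calc (D / 2 ^ H.card) ^ 2 ≤ (∑ J ∈ JJ H, |c J|) ^ 2 := by
            gcongr
        _ ≤ (JJ H).card * kap H c := h2
        _ ≤ 2 ^ d * kap H c := mul_le_mul_of_nonneg_right hcard (kap_nonneg H c)
    have h4 : D ^ 2 = 4 ^ H.card * (D / 2 ^ H.card) ^ 2 := by
      have : (4 : ℝ) ^ H.card = (2 ^ H.card) ^ 2 := by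
        rw [← pow_mul, mul_comm, pow_mul]; norm_num
      rw [this]
      field_simp
    rw [h4]
    calc (4 : ℝ) ^ H.card * (D / 2 ^ H.card) ^ 2 ≤ 4 ^ d * (2 ^ d * kap H c) := by
          apply mul_le_mul _ h3 (sq_nonneg _) (by positivity)
          exact pow_le_pow_right₀ (by norm_num) hHd
      _ = 8 ^ d * kap H c := by
          rw [← mul_assoc, ← mul_pow]; norm_num
  have hκpos : 0 < kap H c := by
    by_contra hcon
    push Not at hcon
    have : (8 : ℝ) ^ d * kap H c ≤ 0 := mul_nonpos_of_nonneg_of_nonpos (by positivity) hcon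
    nlinarith
  have hκ2 : kap H c ≤ 2 ^ d * 4 ^ 15 * D ^ 2 := by
    have h1 : kap H c ≤ ∑ J ∈ JJ H, (4 : ℝ) ^ 15 * D ^ 2 := by
      refine Finset.sum_le_sum fun J _ => ?_
      rw [← sq_abs]
      calc |c J| ^ 2 ≤ (2 ^ 15 * D) ^ 2 := by
            have := hc J
            gcongr
        _ = 4 ^ 15 * D ^ 2 := by ring
    refine h1.trans ?_
    rw [Finset.sum_const, nsmul_eq_mul, ← mul_assoc]
    gcongr
  have hex : ∃ m : ℕ, B0 < kap H c * ((m + 1 : ℕ) : ℝ) ^ k := by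
    refine ⟨⌈B0 / kap H c⌉₊, ?_⟩
    have h1 : B0 / kap H c ≤ ⌈B0 / kap H c⌉₊ := Nat.le_ceil _
    have h2 : ((⌈B0 / kap H c⌉₊ + 1 : ℕ) : ℝ) ≤ ((⌈B0 / kap H c⌉₊ + 1 : ℕ) : ℝ) ^ k := by
      apply le_self_pow₀
      · push_cast
        have : (0 : ℝ) ≤ ⌈B0 / kap H c⌉₊ := by positivity
        linarith
      · omega
    have h3 : B0 / kap H c < ((⌈B0 / kap H c⌉₊ + 1 : ℕ) : ℝ) := by
      push_cast; linarith
    have h4 := h3.trans_le h2
    rw [div_lt_iff₀ hκpos] at h4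
    linarith
  obtain ⟨m, hm, hmin⟩ : ∃ m : ℕ, B0 < kap H c * ((m + 1 : ℕ) : ℝ) ^ k ∧
      ∀ m' < m, ¬ B0 < kap H c * ((m' + 1 : ℕ) : ℝ) ^ k :=
    ⟨Nat.find hex, Nat.find_spec hex, fun m' h => Nat.find_min hex h⟩
  rcases Nat.eq_zero_or_pos m with hm0 | hm0
  · -- `m = 1`
    subst hm0
    simp only [zero_add, Nat.cast_one, one_pow, mul_one] at hm
    refine ⟨1, le_rfl, ?_, ?_⟩
    · have h1 : D ^ 2 ≤ 1 := by nlinarith
      have h2 : 0 ≤ 8 ^ d * B0 := by positivity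
      push_cast
      rw [one_pow, one_mul]
      linarith
    · obtain ⟨w0, hw0⟩ := one_point H i0 j0 c h0
      have hDc : c2 < D ^ 2 := by
        rw [hc2, div_lt_iff₀ (by positivity)]
        linarith
      set f : (Sym2 (Fin k × Fin 1) → Bool) × (Sym2 (Fin k) → Sym2 (Fin k × Fin 1) → Bool) → ℝ :=
        fun w => ∏ ab : Fin 1 × Fin 1,
              |Real.cos (2 * Real.pi * SG H i0 j0 c ab.1 ab.2 w.1 w.2)| with hf
      have hf1 : ∀ w, f w ≤ 1 := by
        intro w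
        rw [hf]
        exact Finset.prod_le_one (fun _ _ => abs_nonneg _) (fun _ _ => Real.abs_cos_le_one _)
      have hf0 : f w0 ≤ 1 - 2 * D ^ 2 := by
        rw [hf]
        have h1 : ∀ ab : Fin 1 × Fin 1,
            |Real.cos (2 * Real.pi * SG H i0 j0 c ab.1 ab.2 w0.1 w0.2)| = Real.cos (Real.pi * D) := by
          intro ab
          rw [hw0]
          have h2 : |2 * Real.pi * (2 ^ (H.card - 1) * ∑ J ∈ univ.filter (fun J => H ⊆ J),
              c J * (-1) ^ (J \ H).card)| = Real.pi * D := by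
            rw [abs_mul, abs_mul, abs_mul, hsum, abs_of_pos Real.pi_pos, abs_of_pos (by positivity :
              (0 : ℝ) < 2 ^ (H.card - 1)), abs_of_pos (by norm_num : (0 : ℝ) < 2)]
            have h3 : (2 : ℝ) ^ H.card = 2 * 2 ^ (H.card - 1) := by
              rw [← pow_succ']
              congr 1
              have : 0 < H.card := card_pos.mpr ⟨_, h0⟩
              omega
            rw [h3]
            field_simp
          rw [← Real.cos_abs, h2]
          apply abs_of_nonneg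
          apply Real.cos_nonneg_of_neg_pi_div_two_le_of_le
          · have := mul_pos Real.pi_pos hD0
            have := Real.pi_pos
            linarith
          · have := mul_le_mul_of_nonneg_left hD1 Real.pi_pos.le
            linarith
        have h4 : (∏ ab : Fin 1 × Fin 1,
              |Real.cos (2 * Real.pi * SG H i0 j0 c ab.1 ab.2 w0.1 w0.2)|)
              = Real.cos (Real.pi * D) := by
          simp only [h1]
          simp
        show (∏ ab : Fin 1 × Fin 1,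
              |Real.cos (2 * Real.pi * SG H i0 j0 c ab.1 ab.2 w0.1 w0.2)|) ≤ _
        rw [h4]
        have h5 : |Real.pi * D| ≤ Real.pi := by
          rw [abs_of_pos (mul_pos Real.pi_pos hD0)]
          have := mul_le_mul_of_nonneg_left hD1 Real.pi_pos.le
          have := Real.pi_pos
          linarith
        have h6 := Real.cos_le_one_sub_mul_cos_sq h5
        have h7 : 2 / Real.pi ^ 2 * (Real.pi * D) ^ 2 = 2 * D ^ 2 := by
          have := Real.pi_pos
          field_simp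
        rw [h7] at h6
        exact h6
      have hE : (𝔼 w, f w) ≤ 1 - 2 * D ^ 2 / N1 := by
        rw [Fintype.expect_eq_sum_div_card]
        have h1 : ∑ w, f w ≤ N1 - 2 * D ^ 2 := by
          rw [← Finset.add_sum_erase _ _ (Finset.mem_univ w0)]
          have h2 : ∑ w ∈ univ.erase w0, f w ≤ ∑ w ∈ univ.erase w0, (1 : ℝ) :=
            Finset.sum_le_sum fun w _ => hf1 w
          rw [Finset.sum_const, card_erase_of_mem (mem_univ _), card_univ, nsmul_eq_mul, mul_one,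
            Nat.cast_sub Fintype.card_pos] at h2
          push_cast at h2 hN1
          rw [hN1]
          push_cast
          linarith
        rw [div_le_iff₀ hN1pos, sub_mul, div_mul_cancel₀ _ hN1pos.ne', one_mul]
        exact h1
      refine hE.trans ?_
      have h8 : 2 * c2 / N1 ≤ 2 * D ^ 2 / N1 := by gcongr
      have h9 : min (1 / 2) (min (4 * B0 / 2 ^ k) (2 * c2 / N1)) ≤ 2 * c2 / N1 :=
        (min_le_right _ _).trans (min_le_right _ _)
      linarith
  · -- general case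
    have h1 := hmin (m - 1) (by omega)
    have h2 : ((m - 1 + 1 : ℕ) : ℝ) = m := by
      congr 1; omega
    rw [h2, not_lt] at h1
    refine ⟨m, hm0, ?_, ?_⟩
    · calc (m : ℝ) ^ k * D ^ 2 ≤ (m : ℝ) ^ k * (8 ^ d * kap H c) := by gcongr
        _ = 8 ^ d * (kap H c * (m : ℝ) ^ k) := by ring
        _ ≤ 8 ^ d * B0 := by gcongr
        _ ≤ 8 ^ d * B0 + 1 := by linarith
    · refine (main_est hP hH hk2 hm0 H i0 j0 hij c h0 hsp).trans ?_
      rw [← hd, ← hM]
      set B := kap H c * (m : ℝ) ^ k with hB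
      have hBpos : 0 ≤ B := by positivity
      have h3 : M * B ^ 2 ≤ 4 * B := by
        have : M * B ≤ 4 := by
          calc M * B ≤ M * B0 := by gcongr
            _ = 4 := by rw [hB0]; field_simp
        nlinarith
      have h4 : B0 / 2 ^ k ≤ B := by
        rw [div_le_iff₀ (by positivity)]
        refine hm.le.trans ?_
        rw [hB]
        have h5 : ((m + 1 : ℕ) : ℝ) ^ k ≤ (m : ℝ) ^ k * 2 ^ k := by
          rw [← mul_pow]
          apply pow_le_pow_left₀ (by positivity)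
          push_cast
          have : (1 : ℝ) ≤ m := by exact_mod_cast hm0
          linarith
        calc kap H c * ((m + 1 : ℕ) : ℝ) ^ k ≤ kap H c * ((m : ℝ) ^ k * 2 ^ k) := by gcongr
          _ = _ := by ring
      have h6 : min (1 / 2) (min (4 * B0 / 2 ^ k) (2 * c2 / N1)) ≤ 4 * B0 / 2 ^ k :=
        (min_le_right _ _).trans (min_le_left _ _)
      have h7 : 4 * B0 / 2 ^ k = 4 * (B0 / 2 ^ k) := by ring
      have h8 := h6.trans h7.le
      linarith

end

end Pool.Agent.JX
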