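import Mathlib
import Pool.Agent.JX.StmtsM3b

/-!
# M3e: choice of the number of groups and the final numerical inequality
-/

set_option autoImplicit false

namespace Pool.Agent.JX

open Finset BigOperators Classical Filter Topology

/-- `LL n` tends to infinity. -/
theorem tendsto_LL : Tendsto (fun n : ℕ => LL n) atTop atTop := by
  unfold LL
  have h : (0 : ℝ) < (1 : ℝ) / N0 := by unfold N0; positivity
  exact (tendsto_rpow_atTop h).comp tendsto_natCast_atTop_atTop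

theorem LL_nonneg (n : ℕ) : 0 ≤ LL n := by
  unfold LL; positivity

/-- The power `LL n ^ N0 = n`. -/
theorem LL_pow_N0 (n : ℕ) : LL n ^ N0 = (n : ℝ) := by
  unfold LL
  rw [← Real.rpow_natCast, ← Real.rpow_mul (Nat.cast_nonneg n)]
  have h : (1 : ℝ) / N0 * (N0 : ℕ) = 1 := by
    have : ((N0 : ℕ) : ℝ) ≠ 0 := by unfold N0; positivity
    field_simp
  rw [h, Real.rpow_one]

/-- The fifth root of `LL n`. -/
noncomputable def xx (n : ℕ) : ℝ := (LL n) ^ ((1 : ℝ) / 5)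

theorem tendsto_xx : Tendsto (fun n : ℕ => xx n) atTop atTop := by
  unfold xx
  exact (tendsto_rpow_atTop (by norm_num)).comp tendsto_LL

theorem xx_nonneg (n : ℕ) : 0 ≤ xx n := Real.rpow_nonneg (LL_nonneg n) _

theorem xx_pow (n : ℕ) : xx n ^ 5 = LL n := by
  unfold xx
  rw [← Real.rpow_natCast, ← Real.rpow_mul (LL_nonneg n)]
  norm_num

theorem xx_pow' (n : ℕ) : xx n ^ (5 * N0) = (n : ℝ) := by
  rw [pow_mul, xx_pow, LL_pow_N0]

/-- A polynomial in `n` times an exponential in `- b xx n` tends to zero. -/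
theorem tendsto_poly_exp (K b : ℝ) (hb : 0 < b) (E : ℕ) :
    Tendsto (fun n : ℕ => K * ((n : ℝ) ^ E * Real.exp (-b * xx n))) atTop (𝓝 0) := by
  have h1 := (tendsto_rpow_mul_exp_neg_mul_atTop_nhds_zero (((5 * N0 * E : ℕ) : ℝ)) b hb).comp
    tendsto_xx
  have h2 : Tendsto (fun n : ℕ => K * (xx n ^ (((5 * N0 * E : ℕ) : ℝ)) * Real.exp (-b * xx n)))
      atTop (𝓝 (K * 0)) := h1.const_mul K
  rw [mul_zero] at h2
  refine h2.congr fun n => ?_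
  rw [Real.rpow_natCast, pow_mul, xx_pow']


/-- There is a last natural number with a property. -/
theorem exists_last (P : ℕ → Prop) (h0 : P 0) (N : ℕ) (hN : ¬ P N) : ∃ i, P i ∧ ¬ P (i + 1) := by
  by_contra h
  push Not at h
  exact hN (Nat.rec h0 (fun i hi => h i hi) N)

/-- The choice of `I`. -/
theorem exists_groups (C : ℝ) (hC : 0 < C) : ∃ c : ℝ, 0 < c ∧ ∀ᶠ n : ℕ in atTop,
    ∀ (k m : ℕ) (D : ℝ), 2 ≤ k → k ≤ 5 → 1 ≤ m → 0 < D →
      (m : ℝ) ^ k * D ^ 2 ≤ C → LL n ^ (6 - k) < D * (Real.sqrt n) ^ k →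
      ∃ I : ℕ, 1 ≤ I ∧ I * k * m ≤ n ∧
        ((I * m : ℕ) : ℝ) ^ k * LL n ^ (11 - 2 * k) ≤ (n : ℝ) ^ k ∧ c * xx n ≤ (I : ℝ) + 1 := by
  refine ⟨min 1 (1 / C), by positivity, ?_⟩
  set c := min 1 (1 / C) with hc
  have hc0 : 0 < c := by positivity
  have hc1 : c ≤ 1 := min_le_left _ _
  have hcC : c * C ≤ 1 := by
    have : c ≤ 1 / C := min_le_right _ _
    calc c * C ≤ 1 / C * C := by gcongr
      _ = 1 := by field_simp
  filter_upwards [tendsto_LL.eventually_ge_atTop 3125, tendsto_xx.eventually_ge_atTop 1,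
    tendsto_xx.eventually_ge_atTop (2 / c)] with n hL hx hx2
  intro k m D hk2 hk5 hm hD hmD hDn
  have hL1 : 1 ≤ LL n := by linarith
  have hL0 : 0 < LL n := by linarith
  have hmR : (1 : ℝ) ≤ m := by exact_mod_cast hm
  obtain ⟨I, hI, hI'⟩ := exists_last
    (fun I : ℕ => ((I * m : ℕ) : ℝ) ^ k * LL n ^ (11 - 2 * k) ≤ (n : ℝ) ^ k) (by
      have : k ≠ 0 := by omega
      simp [this]) (n + 1) (by
      rw [not_le]
      have h1 : (1 : ℝ) ≤ LL n ^ (11 - 2 * k) := one_le_pow₀ hL1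
      have h2 : (n : ℝ) < (((n + 1) * m : ℕ) : ℝ) := by
        push_cast
        nlinarith [Nat.cast_nonneg (α := ℝ) n]
      have h3 : (n : ℝ) ^ k < (((n + 1) * m : ℕ) : ℝ) ^ k :=
        pow_lt_pow_left₀ h2 (Nat.cast_nonneg n) (by omega)
      calc (n : ℝ) ^ k < (((n + 1) * m : ℕ) : ℝ) ^ k := h3
        _ ≤ (((n + 1) * m : ℕ) : ℝ) ^ k * LL n ^ (11 - 2 * k) := by
          exact le_mul_of_one_le_right (by positivity) h1)
  rw [not_le] at hI'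
  have hsq : (Real.sqrt n) ^ 2 = (n : ℝ) := Real.sq_sqrt (Nat.cast_nonneg n)
  -- the lower bound of `D`
  have hD2 : LL n * LL n ^ (11 - 2 * k) < D ^ 2 * (n : ℝ) ^ k := by
    have h1 : (LL n ^ (6 - k)) ^ 2 < (D * (Real.sqrt n) ^ k) ^ 2 :=
      pow_lt_pow_left₀ hDn (by positivity) (by norm_num)
    have h2 : (LL n ^ (6 - k)) ^ 2 = LL n * LL n ^ (11 - 2 * k) := by
      rw [← pow_mul, ← pow_succ']
      congr 1
      omega
    have h3 : (D * (Real.sqrt n) ^ k) ^ 2 = D ^ 2 * (n : ℝ) ^ k := by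
      rw [mul_pow, ← pow_mul, mul_comm k 2, pow_mul, hsq]
    rw [h2, h3] at h1
    exact h1
  have hkey : LL n < C * ((I : ℝ) + 1) ^ k := by
    have h1 : D ^ 2 * (n : ℝ) ^ k < D ^ 2 * ((((I + 1) * m : ℕ) : ℝ) ^ k * LL n ^ (11 - 2 * k)) := by
      gcongr
    have h2 : D ^ 2 * ((((I + 1) * m : ℕ) : ℝ) ^ k * LL n ^ (11 - 2 * k)) =
        ((m : ℝ) ^ k * D ^ 2) * ((I : ℝ) + 1) ^ k * LL n ^ (11 - 2 * k) := by
      push_cast
      rw [mul_pow]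
      ring
    have h3 : ((m : ℝ) ^ k * D ^ 2) * ((I : ℝ) + 1) ^ k * LL n ^ (11 - 2 * k) ≤
        C * ((I : ℝ) + 1) ^ k * LL n ^ (11 - 2 * k) := by
      gcongr
    have h4 : LL n * LL n ^ (11 - 2 * k) < C * ((I : ℝ) + 1) ^ k * LL n ^ (11 - 2 * k) := by
      linarith
    exact lt_of_mul_lt_mul_right h4 (by positivity)
  have hIx : c * xx n ≤ (I : ℝ) + 1 := by
    by_contra h
    rw [not_le] at h
    have h1 : ((I : ℝ) + 1) ^ k ≤ (c * xx n) ^ k := by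
      have : (0 : ℝ) ≤ (I : ℝ) + 1 := by positivity
      gcongr
    have h2 : c ^ k ≤ c := by
      calc c ^ k ≤ c ^ 1 := pow_le_pow_of_le_one hc0.le hc1 (by omega)
        _ = c := pow_one c
    have h3 : xx n ^ k ≤ xx n ^ 5 := pow_le_pow_right₀ hx hk5
    have h4 : (c * xx n) ^ k ≤ c * LL n := by
      rw [mul_pow, ← xx_pow]
      have := xx_nonneg n
      gcongr
    have h5 : C * ((I : ℝ) + 1) ^ k ≤ LL n := by
      calc C * ((I : ℝ) + 1) ^ k ≤ C * (c * LL n) := by gcongr; exact h1.trans h4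
        _ = (c * C) * LL n := by ring
        _ ≤ 1 * LL n := by gcongr
        _ = LL n := one_mul _
    linarith
  have hI1 : 1 ≤ I := by
    have h1 : c * (2 / c) ≤ c * xx n := by gcongr
    have h2 : c * (2 / c) = 2 := by field_simp
    have h3 : (1 : ℝ) ≤ I := by linarith
    exact_mod_cast h3
  refine ⟨I, hI1, ?_, hI, hIx⟩
  have h1 : (k : ℝ) ^ k ≤ LL n ^ (11 - 2 * k) := by
    have h2 : (k : ℝ) ^ k ≤ 5 ^ 5 := by
      have h3 : (k : ℝ) ≤ 5 := by exact_mod_cast hk5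
      calc (k : ℝ) ^ k ≤ 5 ^ k := by gcongr
        _ ≤ 5 ^ 5 := pow_le_pow_right₀ (by norm_num) hk5
    have h4 : LL n ≤ LL n ^ (11 - 2 * k) := by
      calc LL n = LL n ^ 1 := (pow_one _).symm
        _ ≤ LL n ^ (11 - 2 * k) := pow_le_pow_right₀ hL1 (by omega)
    have h5 : (5 : ℝ) ^ 5 = 3125 := by norm_num
    linarith
  have h2 : ((I * k * m : ℕ) : ℝ) ^ k ≤ (n : ℝ) ^ k := by
    calc ((I * k * m : ℕ) : ℝ) ^ k = ((I * m : ℕ) : ℝ) ^ k * (k : ℝ) ^ k := by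
          rw [← mul_pow]
          push_cast
          ring
      _ ≤ ((I * m : ℕ) : ℝ) ^ k * LL n ^ (11 - 2 * k) := by gcongr
      _ ≤ (n : ℝ) ^ k := hI
  have h3 : ((I * k * m : ℕ) : ℝ) ≤ (n : ℝ) :=
    le_of_pow_le_pow_left₀ (by omega) (Nat.cast_nonneg n) h2
  exact_mod_cast h3

/-- M3e -/
theorem param : StmtParam := by
  intro A
  obtain ⟨j, hj⟩ : ∃ j : ℕ, N0 * (A * 2 ^ 15 + 1) ≤ 2 ^ j :=
    ⟨N0 * (A * 2 ^ 15 + 1), Nat.lt_two_pow_self.le⟩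
  refine ⟨j, fun δ C C1 C2 hδ hδ1 hC hC1 hC2 => ?_⟩
  obtain ⟨c, hc, hev⟩ := exists_groups C hC
  generalize hB : A * 2 ^ 15 = B at hj ⊢
  generalize hP : 2 ^ (j + 1) = P
  generalize hM : 15 * P = M
  set β := -Real.log (1 - δ) with hβ
  have h1δ : 0 < 1 - δ := by linarith
  have hβ0 : 0 < β := by
    rw [hβ, neg_pos]
    exact Real.log_neg h1δ (by linarith)
  have hexp : ∀ q : ℕ, (1 - δ) ^ q = Real.exp (-β * q) := by
    intro q
    rw [hβ, neg_neg, mul_comm, ← Real.log_pow, Real.exp_log (pow_pos h1δ q)]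
  set K := 600 * ((1 + C2) ^ P * (2 ^ M * Real.exp (β * (1 + M)))) with hK
  have hev1 : ∀ᶠ n : ℕ in atTop,
      K * ((n : ℝ) ^ (5 * P + 2 * M + B) * Real.exp (-(β * c) * xx n)) < 1 / 2 :=
    (tendsto_poly_exp K (β * c) (by positivity) (5 * P + 2 * M + B)).eventually
      (gt_mem_nhds (by norm_num))
  have hev2 : ∀ᶠ n : ℕ in atTop, 1200 * C1 * C2 ^ (2 ^ j) ≤ (n : ℝ) :=
    tendsto_natCast_atTop_atTop.eventually_ge_atTop _
  have hev3 : ∀ᶠ n : ℕ in atTop, (1 : ℝ) ≤ LL n := tendsto_LL.eventually_ge_atTop 1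
  obtain ⟨n0, hn0⟩ := eventually_atTop.1
    ((hev.and hev1).and ((hev2.and hev3).and (eventually_ge_atTop 1)))
  refine ⟨n0, fun n hn k m D hk2 hk5 hm hD hmD hDn => ?_⟩
  obtain ⟨⟨g1, g2⟩, ⟨g3, g4⟩, g5⟩ := hn0 n hn
  obtain ⟨I, hI1, hI2, hI3, hI4⟩ := g1 k m D hk2 hk5 hm hD hmD hDn
  refine ⟨I, hI1, hI2, hI3, ?_⟩
  have hnR : (1 : ℝ) ≤ n := by exact_mod_cast g5
  have hn0' : (0 : ℝ) < n := by linarith
  have hx := xx_nonneg n
  -- the first part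
  have p1 : (1 + C2 * (n : ℝ) ^ 5) ^ P ≤ (1 + C2) ^ P * (n : ℝ) ^ (5 * P) := by
    rw [pow_mul, ← mul_pow]
    have : 1 + C2 * (n : ℝ) ^ 5 ≤ (1 + C2) * (n : ℝ) ^ 5 := by
      have : (1 : ℝ) ≤ (n : ℝ) ^ 5 := one_le_pow₀ hnR
      linarith
    gcongr
  have p2 : ((n : ℝ) ^ 2 + 1) ^ M ≤ 2 ^ M * (n : ℝ) ^ (2 * M) := by
    rw [pow_mul, ← mul_pow]
    have : (n : ℝ) ^ 2 + 1 ≤ 2 * (n : ℝ) ^ 2 := by
      have : (1 : ℝ) ≤ (n : ℝ) ^ 2 := one_le_pow₀ hnR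
      linarith
    gcongr
  have p3 : (1 - δ) ^ (I - M) ≤ Real.exp (β * (1 + M)) * Real.exp (-(β * c) * xx n) := by
    rw [hexp, ← Real.exp_add]
    apply Real.exp_le_exp.2
    have h1 : (I : ℝ) ≤ ((I - M : ℕ) : ℝ) + M := by
      have : I ≤ (I - M) + M := by omega
      exact_mod_cast this
    have h2 : c * xx n - 1 - M ≤ ((I - M : ℕ) : ℝ) := by linarith
    nlinarith
  have q1 : 600 * ((1 + C2 * (n : ℝ) ^ 5) ^ P * (((n : ℝ) ^ 2 + 1) ^ M * (1 - δ) ^ (I - M))) ≤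
      1 / 2 / (n : ℝ) ^ B := by
    have h1 : 600 * ((1 + C2 * (n : ℝ) ^ 5) ^ P * (((n : ℝ) ^ 2 + 1) ^ M * (1 - δ) ^ (I - M))) ≤
        600 * (((1 + C2) ^ P * (n : ℝ) ^ (5 * P)) * ((2 ^ M * (n : ℝ) ^ (2 * M)) *
          (Real.exp (β * (1 + M)) * Real.exp (-(β * c) * xx n)))) := by
      gcongr
    rw [le_div_iff₀ (by positivity)]
    calc _ ≤ 600 * (((1 + C2) ^ P * (n : ℝ) ^ (5 * P)) * ((2 ^ M * (n : ℝ) ^ (2 * M)) *
          (Real.exp (β * (1 + M)) * Real.exp (-(β * c) * xx n)))) * (n : ℝ) ^ B := by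
            gcongr
      _ = K * ((n : ℝ) ^ (5 * P + 2 * M + B) * Real.exp (-(β * c) * xx n)) := by
        rw [hK, pow_add, pow_add]
        ring
      _ ≤ 1 / 2 := g2.le
  -- the second part
  have q2 : 600 * (C1 * (C2 / LL n) ^ (2 ^ j)) ≤ 1 / 2 / (n : ℝ) ^ B := by
    have hL0 : 0 < LL n := by linarith
    have h1 : (n : ℝ) ^ (B + 1) ≤ LL n ^ (2 ^ j) := by
      rw [← LL_pow_N0 n, ← pow_mul]
      exact pow_le_pow_right₀ g4 hj
    rw [div_pow, le_div_iff₀ (by positivity)]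
    have h2 : 600 * (C1 * (C2 ^ 2 ^ j / LL n ^ 2 ^ j)) * (n : ℝ) ^ B =
        (600 * C1 * C2 ^ 2 ^ j) * (n : ℝ) ^ B / LL n ^ 2 ^ j := by ring
    rw [h2, div_le_iff₀ (by positivity)]
    have h3 : 600 * C1 * C2 ^ 2 ^ j ≤ 1 / 2 * n := by linarith
    calc (600 * C1 * C2 ^ 2 ^ j) * (n : ℝ) ^ B ≤ (1 / 2 * n) * (n : ℝ) ^ B :=
          mul_le_mul_of_nonneg_right h3 (by positivity)
      _ = 1 / 2 * (n : ℝ) ^ (B + 1) := by rw [pow_succ]; ring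
      _ ≤ 1 / 2 * LL n ^ (2 ^ j) := by gcongr
  calc _ = 600 * ((1 + C2 * (n : ℝ) ^ 5) ^ P * (((n : ℝ) ^ 2 + 1) ^ M * (1 - δ) ^ (I - M))) +
        600 * (C1 * (C2 / LL n) ^ (2 ^ j)) := by ring
    _ ≤ 1 / 2 / (n : ℝ) ^ B + 1 / 2 / (n : ℝ) ^ B := add_le_add q1 q2
    _ = 1 / (n : ℝ) ^ B := by ring

end Pool.Agent.JX
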