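import Mathlib
import Pool.Agent.JX.M1
import Pool.Agent.JX.M3a
import Pool.Agent.JX.M3c
import Pool.Agent.JX.M3fg
import Pool.Agent.JX.LQ
import Pool.Agent.JX.PG
import Pool.Agent.JX.Param
import Pool.Agent.JX.Min

/-!
# StmtMinor
-/

set_option autoImplicit false

namespace Pool.Agent.JX

theorem stmtMinor : StmtMinor :=
  minor moments gcs stmtLQ ind (pg parseval hyper) param stmtCountQ stmtL1

end Pool.Agent.JX
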