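import Mathlib
import Pool.Agent.JX.Defs
import Pool.Agent.JX.Stmts

/-!
# M6: the Pell equation
-/

set_option autoImplicit false

namespace Pool.Agent.JX

lemma pell_grow (d : ℤ) (hd : 0 < d) (h0 : ∃ x y : ℤ, 0 < x ∧ 0 < y ∧ x ^ 2 - d * y ^ 2 = 1) :
    ∀ N : ℕ, ∃ x y : ℤ, (N : ℤ) < x ∧ 0 < y ∧ x ^ 2 - d * y ^ 2 = 1 := by
  intro N
  induction N with
  | zero =>
    obtain ⟨x, y, hx, hy, h⟩ := h0
    exact ⟨x, y, by simpa using hx, hy, h⟩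
  | succ N ih =>
    obtain ⟨x, y, hx, hy, h⟩ := ih
    have hx0 : 0 < x := by
      have : (0:ℤ) ≤ N := Int.natCast_nonneg N
      linarith
    refine ⟨x ^ 2 + d * y ^ 2, 2 * x * y, ?_, by positivity, ?_⟩
    · push_cast
      have h1 : 1 ≤ d * y ^ 2 := by
        have : 0 < d * y ^ 2 := by positivity
        linarith
      nlinarith
    · have : (x ^ 2 + d * y ^ 2) ^ 2 - d * (2 * x * y) ^ 2 = (x ^ 2 - d * y ^ 2) ^ 2 := by ring
      rw [this, h]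
      norm_num

lemma pell_general (M : ℕ) (hM : 0 < M) (n0 : ℕ) :
    ∃ n t : ℕ, n0 ≤ n ∧ 5 ≤ n ∧ n * (n - 1) = 2 * t ^ 2 ∧ M ∣ (n - 1) ∧ M ∣ t := by
  have hMo : (0:ℤ) < (M : ℤ) := by exact_mod_cast hM
  set d : ℤ := 2 * (M : ℤ) ^ 2 with hd
  have hd0 : 0 < d := by rw [hd]; positivity
  have hMr : (0:ℝ) < (M : ℝ) := by exact_mod_cast hM
  have hsq : ¬ IsSquare d := by
    rintro ⟨r, hr⟩
    have h1 : (r : ℝ) * r = 2 * (M : ℝ) ^ 2 := by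
      have := congrArg (fun x : ℤ => (x : ℝ)) hr
      simp only [hd] at this
      push_cast at this
      linarith
    have h2 : Irrational (Real.sqrt 2) := irrational_sqrt_two
    apply h2
    have h3 : Real.sqrt 2 = |(r:ℝ)| / M := by
      rw [eq_div_iff hMr.ne']
      have h4 : (Real.sqrt 2 * M) ^ 2 = |(r:ℝ)| ^ 2 := by
        rw [mul_pow, Real.sq_sqrt (by norm_num), sq_abs]
        nlinarith
      have h5 : 0 ≤ Real.sqrt 2 * M := by positivity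
      exact (pow_left_inj₀ h5 (abs_nonneg _) (by norm_num)).1 h4
    refine ⟨|(r:ℚ)| / (M : ℚ), ?_⟩
    rw [h3]
    push_cast
    rfl
  obtain ⟨x0, y0, h0, hy0⟩ := Pell.exists_of_not_isSquare hd0 hsq
  have hstart : ∃ x y : ℤ, 0 < x ∧ 0 < y ∧ x ^ 2 - d * y ^ 2 = 1 := by
    refine ⟨|x0|, |y0|, ?_, abs_pos.2 hy0, ?_⟩
    · rw [abs_pos]
      rintro rfl
      have : 0 ≤ d * y0 ^ 2 := by positivity
      nlinarith
    · rw [sq_abs, sq_abs]; exact h0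
  obtain ⟨x, y, hx, hy, h⟩ := pell_grow d hd0 hstart (n0 + 5)
  have hx0 : 0 < x := by
    have : (0:ℤ) ≤ ((n0 + 5 : ℕ) : ℤ) := Int.natCast_nonneg _
    linarith
  obtain ⟨X, rfl⟩ := Int.eq_ofNat_of_zero_le hx0.le
  obtain ⟨Y, rfl⟩ := Int.eq_ofNat_of_zero_le hy.le
  have hX5 : n0 + 5 < X := by exact_mod_cast hx
  have key : X ^ 2 = 2 * M ^ 2 * Y ^ 2 + 1 := by
    have : ((X ^ 2 : ℕ) : ℤ) = ((2 * M ^ 2 * Y ^ 2 + 1 : ℕ) : ℤ) := by
      push_cast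
      rw [hd] at h
      linarith
    exact_mod_cast this
  have hXX : X ≤ X ^ 2 := by nlinarith
  have hsub : X ^ 2 - 1 = 2 * M ^ 2 * Y ^ 2 := by rw [key]; simp
  refine ⟨X ^ 2, X * (M * Y), by omega, by omega, ?_, ?_, ?_⟩
  · rw [hsub]
    ring
  · rw [hsub]
    exact ⟨2 * M * Y ^ 2, by ring⟩
  · exact ⟨X * Y, by ring⟩

lemma Mo_pos : 0 < Mo := by
  unfold Mo
  exact Nat.mul_pos (by norm_num) (Nat.factorial_pos _)

theorem stmtPell : StmtPell := by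
  intro n0
  obtain ⟨n, t, h1, h2, h3, h4, h5⟩ := pell_general Mo Mo_pos n0
  exact ⟨n, t, h1, h2, h3, h4, h5⟩

end Pool.Agent.JX
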